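import Mathlib

/-!
Abstract highest weight theory for an algebra with totally ordered idempotents.
Definitions only.
-/

namespace H34.Kem

open Finset

/-- The two-sided ideal (as a subspace) generated by the idempotents `xi m`, `m > l`. -/
def Jup {F A Λ : Type} [CommRing F] [Ring A] [Algebra F A] [LinearOrder Λ] (xi : Λ → A) (l : Λ) :
    Submodule F A :=
  Submodule.span F {x | ∃ m a b, l < m ∧ x = a * xi m * b}

/-- Totally ordered orthogonal idempotents with an anti-involution. -/
structure Tri (F A Λ : Type) [Field F] [Ring A] [Algebra F A] [LinearOrder Λ] [Fintype Λ] where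
  xi : Λ → A
  idem : ∀ l, xi l * xi l = xi l
  orth : ∀ l m, l ≠ m → xi l * xi m = 0
  sum_xi : ∑ l, xi l = 1
  tau : A →ₗ[F] A
  tau_mul : ∀ a b, tau (a * b) = tau b * tau a
  tau_tau : ∀ a, tau (tau a) = a
  tau_xi : ∀ l, tau (xi l) = xi l
  diag : ∀ l a, ∃ c : F, xi l * a * xi l - c • xi l ∈ Jup (F := F) xi l

variable {F A Λ : Type} [Field F] [Ring A] [Algebra F A] [LinearOrder Λ] [Fintype Λ]

/-- The left ideal whose quotient is the Weyl module. -/
def Tri.I (T : Tri F A Λ) (l : Λ) : Submodule A A where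
  carrier := {x | x * T.xi l ∈ Jup (F := F) T.xi l}
  add_mem' := by
    intro a b ha hb
    simp only [Set.mem_setOf_eq, add_mul] at *
    exact Submodule.add_mem _ ha hb
  zero_mem' := by simp
  smul_mem' := by
    intro c x hx
    simp only [Set.mem_setOf_eq, smul_eq_mul] at *
    rw [mul_assoc]
    refine Submodule.span_induction (p := fun y _ => c * y ∈ Jup (F := F) T.xi l)
      ?_ ?_ ?_ ?_ hx
    · rintro y ⟨m, a, b, hm, rfl⟩
      exact Submodule.subset_span ⟨m, c * a, b, hm, by simp [mul_assoc]⟩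
    · simp
    · intro y z _ _ hy hz
      rw [mul_add]; exact Submodule.add_mem _ hy hz
    · intro r y _ hy
      rw [mul_smul_comm]; exact Submodule.smul_mem _ _ hy

/-- The Weyl module of weight `l`. -/
abbrev Tri.W (T : Tri F A Λ) (l : Λ) : Type := A ⧸ T.I l

/-- Modules with a finite filtration by Weyl modules (built from the bottom). -/
inductive Tri.IsWeyl (T : Tri F A Λ) : (X : Type) → [AddCommGroup X] → [Module A X] → Prop
  | zero (X : Type) [AddCommGroup X] [Module A X] (h : Subsingleton X) : T.IsWeyl X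
  | step (X : Type) [AddCommGroup X] [Module A X] (l : Λ) (N : Submodule A X)
      (e : (T.W l) ≃ₗ[A] N) (h : T.IsWeyl (X ⧸ N)) : T.IsWeyl X

/-- Every derivation from `A` into the dual of `X ⊗ Y` is inner. -/
def Tri.D1 (T : Tri F A Λ) (X Y : Type) [AddCommGroup X] [AddCommGroup Y] [Module A X] [Module A Y]
    [Module F X] [Module F Y] : Prop :=
  ∀ δ : A →ₗ[F] X →ₗ[F] Y →ₗ[F] F,
    (∀ a b x y, δ (a * b) x y = δ a x (b • y) + δ b (T.tau a • x) y) →
    ∃ β : X →ₗ[F] Y →ₗ[F] F, ∀ a x y, δ a x y = β (T.tau a • x) y - β x (a • y)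

end H34.Kem
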