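import Pool.Agent.H34.Kem.Abs

namespace H34.Kem

variable {F A Λ : Type} [Field F] [Ring A] [Algebra F A] [LinearOrder Λ] [Fintype Λ]

private theorem AbsA_equiv_aux (T : Tri F A Λ) (X : Type) [AddCommGroup X] [Module A X]
    (h : T.IsWeyl X) : ∀ (Y : Type) [AddCommGroup Y] [Module A Y], (X ≃ₗ[A] Y) → T.IsWeyl Y := by
  induction h with
  | zero X h =>
    intro Y _ _ e
    exact Tri.IsWeyl.zero Y (e.symm.toEquiv.subsingleton)
  | step X l N e' _ ih =>
    intro Y _ _ e
    refine Tri.IsWeyl.step Y l (N.map (e : X →ₗ[A] Y)) (e'.trans (e.submoduleMap N)) ?_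
    exact ih _ (Submodule.Quotient.equiv N (N.map (e : X →ₗ[A] Y)) e rfl)

/-- transport -/
theorem Tri.IsWeyl.equiv {T : Tri F A Λ} {X Y : Type} [AddCommGroup X] [Module A X]
    [AddCommGroup Y] [Module A Y] (h : T.IsWeyl X) (e : X ≃ₗ[A] Y) : T.IsWeyl Y :=
  AbsA_equiv_aux T X h Y e

private theorem AbsA_ext_aux (T : Tri F A Λ) (Y : Type) [AddCommGroup Y] [Module A Y]
    (h : T.IsWeyl Y) : ∀ (X : Type) [AddCommGroup X] [Module A X] (N : Submodule A X),
      (Y ≃ₗ[A] N) → T.IsWeyl (X ⧸ N) → T.IsWeyl X := by
  induction h with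
  | zero Y h =>
    intro X _ _ N e h2
    have hN : Subsingleton N := e.symm.toEquiv.subsingleton
    have hb : N = ⊥ := (Submodule.subsingleton_iff_eq_bot).mp hN
    exact h2.equiv (Submodule.quotEquivOfEqBot N hb)
  | step Y l M e' _ ih =>
    intro X _ _ N e h2
    set f : Y →ₗ[A] X := N.subtype ∘ₗ (e : Y →ₗ[A] N) with hf
    have finj : Function.Injective f := N.injective_subtype.comp e.injective
    set N1 : Submodule A X := M.map f with hN1
    have hle : N1 ≤ N := by
      rintro x ⟨y, -, rfl⟩
      exact (e y).2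
    refine Tri.IsWeyl.step X l N1 (e'.trans (Submodule.equivMapOfInjective f finj M)) ?_
    -- N / N1 inside X / N1
    set N2 : Submodule A (X ⧸ N1) := N.map N1.mkQ with hN2
    refine ih (X ⧸ N1) N2 ?_ ?_
    · -- Y / M ≃ N2
      let g : Y →ₗ[A] N2 :=
        { toFun := fun y => ⟨N1.mkQ (f y), Submodule.mem_map_of_mem (e y).2⟩
          map_add' := by
            intro a b
            apply Subtype.ext
            simp
          map_smul' := by
            intro a b
            apply Subtype.ext
            simp }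
      have gk : LinearMap.ker g = M := by
        ext y
        rw [LinearMap.mem_ker]
        constructor
        · intro h
          have h' : N1.mkQ (f y) = 0 := congrArg Subtype.val h
          rw [Submodule.mkQ_apply, Submodule.Quotient.mk_eq_zero] at h'
          obtain ⟨z, hz, hzy⟩ := h'
          rwa [← finj hzy]
        · intro h
          apply Subtype.ext
          show N1.mkQ (f y) = 0
          rw [Submodule.mkQ_apply, Submodule.Quotient.mk_eq_zero]
          exact ⟨y, h, rfl⟩
      have gs : Function.Surjective g := by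
        rintro ⟨z, hz⟩
        obtain ⟨x, hx, rfl⟩ := hz
        obtain ⟨y, hy⟩ := e.surjective ⟨x, hx⟩
        refine ⟨y, ?_⟩
        apply Subtype.ext
        show N1.mkQ (f y) = N1.mkQ x
        congr 1
        show (e y : X) = x
        rw [hy]
      exact (Submodule.quotEquivOfEq M (LinearMap.ker g) gk.symm).trans
        (g.quotKerEquivOfSurjective gs)
    · exact h2.equiv (Submodule.quotientQuotientEquivQuotient N1 N hle).symm

/-- closure under extensions -/
theorem Tri.IsWeyl.ext {T : Tri F A Λ} {X : Type} [AddCommGroup X] [Module A X]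
    (N : Submodule A X) (h1 : T.IsWeyl N) (h2 : T.IsWeyl (X ⧸ N)) : T.IsWeyl X :=
  AbsA_ext_aux T N h1 X N (LinearEquiv.refl A N) h2

end H34.Kem
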