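import Pool.Agent.H34.Kem.AbsA

namespace H34.Kem

variable {F A Λ : Type} [Field F] [Ring A] [Algebra F A] [LinearOrder Λ] [Fintype Λ]

section AbsBaux

theorem AbsB_jup_mul_left {xi : Λ → A} {l : Λ} (c : A) {x : A} (hx : x ∈ Jup (F := F) xi l) :
    c * x ∈ Jup (F := F) xi l := by
  refine Submodule.span_induction (p := fun y _ => c * y ∈ Jup (F := F) xi l) ?_ ?_ ?_ ?_ hx
  · rintro y ⟨m, a, b, hm, rfl⟩
    exact Submodule.subset_span ⟨m, c * a, b, hm, by simp [mul_assoc]⟩
  · simp
  · intro y z _ _ hy hz
    rw [mul_add]; exact Submodule.add_mem _ hy hz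
  · intro r y _ hy
    rw [mul_smul_comm]; exact Submodule.smul_mem _ _ hy

theorem AbsB_jup_mul_right {xi : Λ → A} {l : Λ} (c : A) {x : A} (hx : x ∈ Jup (F := F) xi l) :
    x * c ∈ Jup (F := F) xi l := by
  refine Submodule.span_induction (p := fun y _ => y * c ∈ Jup (F := F) xi l) ?_ ?_ ?_ ?_ hx
  · rintro y ⟨m, a, b, hm, rfl⟩
    exact Submodule.subset_span ⟨m, a, b * c, hm, by simp [mul_assoc]⟩
  · simp
  · intro y z _ _ hy hz
    rw [add_mul]; exact Submodule.add_mem _ hy hz
  · intro r y _ hy
    rw [smul_mul_assoc]; exact Submodule.smul_mem _ _ hy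

/-- The ideal of the higher weights annihilates a module without higher weights. -/
theorem AbsB_jup_smul {xi : Λ → A} {l : Λ} {X : Type} [AddCommGroup X] [Module A X]
    (hk : ∀ m, l < m → ∀ x : X, xi m • x = 0) {a : A} (ha : a ∈ Jup (F := F) xi l) (x : X) :
    a • x = 0 := by
  refine Submodule.span_induction (p := fun y _ => y • x = 0) ?_ ?_ ?_ ?_ ha
  · rintro y ⟨m, a, b, hm, rfl⟩
    rw [mul_smul, mul_smul, hk m hm, smul_zero]
  · simp
  · intro y z _ _ hy hz
    rw [add_smul, hy, hz, add_zero]
  · intro r y _ hy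
    rw [Algebra.smul_def, mul_smul, hy, smul_zero]

/-- The universal property. -/
theorem AbsB_smul_eq_zero {T : Tri F A Λ} {k : Λ} {X : Type} [AddCommGroup X] [Module A X]
    (hk : ∀ m, k < m → ∀ x : X, T.xi m • x = 0) {v : X} (hv : T.xi k • v = v) {a : A}
    (ha : a ∈ T.I k) : a • v = 0 := by
  have h1 : a * T.xi k ∈ Jup (F := F) T.xi k := ha
  have h2 := AbsB_jup_smul hk h1 v
  rwa [mul_smul, hv] at h2

/-- The generator of the Weyl module. -/
def AbsB_gen (T : Tri F A Λ) (l : Λ) : T.W l := Submodule.Quotient.mk 1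

theorem AbsB_mk (T : Tri F A Λ) (l : Λ) (a : A) :
    (Submodule.Quotient.mk a : T.W l) = a • AbsB_gen T l := by
  unfold AbsB_gen
  rw [← Submodule.Quotient.mk_smul, smul_eq_mul, mul_one]

theorem AbsB_exists (T : Tri F A Λ) (l : Λ) (w : T.W l) : ∃ a : A, w = a • AbsB_gen T l := by
  obtain ⟨a, rfl⟩ := Submodule.Quotient.mk_surjective _ w
  exact ⟨a, AbsB_mk T l a⟩

theorem AbsB_smul_gen (T : Tri F A Λ) (l : Λ) (a : A) :
    a • AbsB_gen T l = 0 ↔ a ∈ T.I l := by
  rw [← AbsB_mk, Submodule.Quotient.mk_eq_zero]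

theorem AbsB_xi_gen (T : Tri F A Λ) (l : Λ) : T.xi l • AbsB_gen T l = AbsB_gen T l := by
  rw [← sub_eq_zero]
  have h : T.xi l • AbsB_gen T l - AbsB_gen T l = (T.xi l - 1) • AbsB_gen T l := by
    rw [sub_smul, one_smul]
  rw [h, AbsB_smul_gen]
  show (T.xi l - 1) * T.xi l ∈ Jup (F := F) T.xi l
  rw [sub_mul, T.idem, one_mul, sub_self]
  exact Submodule.zero_mem _

/-- Weights of the Weyl module. -/
theorem AbsB_W_up (T : Tri F A Λ) (l : Λ) (m : Λ) (hm : l < m) (w : T.W l) : T.xi m • w = 0 := by
  obtain ⟨a, rfl⟩ := AbsB_exists T l w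
  rw [← mul_smul, AbsB_smul_gen]
  show T.xi m * a * T.xi l ∈ Jup (F := F) T.xi l
  exact Submodule.subset_span ⟨m, 1, a * T.xi l, hm, by rw [one_mul, mul_assoc]⟩

theorem AbsB_W_diag (T : Tri F A Λ) (l : Λ) (w : T.W l) :
    ∃ c : F, T.xi l • w = algebraMap F A c • AbsB_gen T l := by
  obtain ⟨a, rfl⟩ := AbsB_exists T l w
  obtain ⟨c, hc⟩ := T.diag l a
  refine ⟨c, ?_⟩
  rw [← mul_smul, ← sub_eq_zero, ← sub_smul, AbsB_smul_gen]
  show (T.xi l * a - algebraMap F A c) * T.xi l ∈ Jup (F := F) T.xi l
  rw [sub_mul, ← Algebra.smul_def]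
  exact hc

/-- Strong form of `Tri.IsWeyl.top`. -/
theorem AbsB_top_strong {T : Tri F A Λ} {X : Type} [AddCommGroup X] [Module A X]
    (h : T.IsWeyl X) : ∀ (k : Λ), (∀ l, k < l → ∀ x : X, T.xi l • x = 0) →
    ∀ v : X, T.xi k • v = v → v ≠ 0 →
    (∀ a : A, a • v = 0 → a ∈ T.I k) ∧ T.IsWeyl (X ⧸ Submodule.span A {v}) := by
  induction h with
  | zero X h =>
    intro k _ v _ hv0
    exact absurd (Subsingleton.elim v 0) hv0
  | step X l N e h ih =>
    intro k hk v hv hv0
    by_cases hvN : v ∈ N
    · have hW0 : AbsB_gen T l ≠ 0 := by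
        intro h0
        have h1 : e.symm ⟨v, hvN⟩ = 0 := by
          obtain ⟨a, ha⟩ := AbsB_exists T l (e.symm ⟨v, hvN⟩)
          rw [ha, h0, smul_zero]
        have h2 : (⟨v, hvN⟩ : N) = 0 := by
          rw [← e.apply_symm_apply ⟨v, hvN⟩, h1, map_zero]
        exact hv0 (congrArg Subtype.val h2)
      set w : T.W l := e.symm ⟨v, hvN⟩ with hw
      have hew : (e w : X) = v := by rw [hw, e.apply_symm_apply]
      have hw0 : w ≠ 0 := by
        intro h0
        rw [h0, map_zero] at hew
        exact hv0 hew.symm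
      have hxw : T.xi k • w = w := by
        apply e.injective
        apply Subtype.ext
        rw [map_smul, Submodule.coe_smul, hew, hv]
      have hlk : l = k := by
        rcases lt_trichotomy l k with hlt | heq | hgt
        · exact absurd (hxw.symm.trans (AbsB_W_up T l k hlt w)) hw0
        · exact heq
        · exfalso
          apply hW0
          apply e.injective
          apply Subtype.ext
          rw [map_zero, ← AbsB_xi_gen, map_smul, Submodule.coe_smul, hk l hgt]
          rfl
      subst hlk
      obtain ⟨c, hc⟩ := AbsB_W_diag T l w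
      rw [hxw] at hc
      have hc0 : c ≠ 0 := by
        intro h0
        rw [h0, map_zero, zero_smul] at hc
        exact hw0 hc
      have hgen : AbsB_gen T l = algebraMap F A c⁻¹ • w := by
        rw [hc, ← mul_smul, ← map_mul, inv_mul_cancel₀ hc0, map_one, one_smul]
      have hspan : Submodule.span A {v} = N := by
        apply le_antisymm
        · rw [Submodule.span_singleton_le_iff_mem]
          exact hvN
        · intro y hy
          obtain ⟨a, ha⟩ := AbsB_exists T l (e.symm ⟨y, hy⟩)
          rw [Submodule.mem_span_singleton]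
          refine ⟨a * algebraMap F A c⁻¹, ?_⟩
          have h1 : (e (e.symm ⟨y, hy⟩) : X) = y := by rw [e.apply_symm_apply]
          rw [← h1, ha, hgen, ← mul_smul, map_smul, Submodule.coe_smul, hew]
      refine ⟨?_, ?_⟩
      · intro a ha
        rw [← AbsB_smul_gen, hgen, ← mul_smul, ← Algebra.commutes, mul_smul]
        have h1 : a • w = 0 := by
          apply e.injective
          apply Subtype.ext
          rw [map_smul, Submodule.coe_smul, hew, ha, map_zero]
          rfl
        rw [h1, smul_zero]
      · rw [hspan]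
        exact h
    · have hv0' : N.mkQ v ≠ 0 := by
        rw [Submodule.mkQ_apply, ne_eq, Submodule.Quotient.mk_eq_zero]
        exact hvN
      have hk' : ∀ l', k < l' → ∀ x : X ⧸ N, T.xi l' • x = 0 := by
        intro l' hl' x
        obtain ⟨y, rfl⟩ := N.mkQ_surjective x
        rw [← map_smul, hk l' hl', map_zero]
      have hv' : T.xi k • N.mkQ v = N.mkQ v := by rw [← map_smul, hv]
      obtain ⟨ih1, ih2⟩ := ih k hk' (N.mkQ v) hv' hv0'
      have key : ∀ a : A, a • v ∈ N → a • v = 0 := by
        intro a ha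
        refine AbsB_smul_eq_zero hk hv (ih1 a ?_)
        rw [← map_smul, Submodule.mkQ_apply, Submodule.Quotient.mk_eq_zero]
        exact ha
      refine ⟨fun a ha => ih1 a (by rw [← map_smul, ha, map_zero]), ?_⟩
      let S := Submodule.span A {v}
      let g : T.W l →ₗ[A] (X ⧸ S) := (S.mkQ.comp N.subtype).comp e.toLinearMap
      have hg : Function.Injective g := by
        rw [injective_iff_map_eq_zero]
        intro w hw
        have h1 : (e w : X) ∈ S := by
          rw [← Submodule.Quotient.mk_eq_zero]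
          exact hw
        rw [Submodule.mem_span_singleton] at h1
        obtain ⟨a, ha⟩ := h1
        have h2 : a • v = 0 := key a (by rw [ha]; exact (e w).2)
        apply e.injective
        apply Subtype.ext
        rw [← ha, h2, map_zero]
        rfl
      have hrange : LinearMap.range g = N.map S.mkQ := by
        ext x
        constructor
        · rintro ⟨w, rfl⟩
          exact ⟨(e w : X), (e w).2, rfl⟩
        · rintro ⟨y, hy, rfl⟩
          refine ⟨e.symm ⟨y, hy⟩, ?_⟩
          show S.mkQ (e (e.symm ⟨y, hy⟩) : X) = S.mkQ y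
          rw [e.apply_symm_apply]
      refine Tri.IsWeyl.step (X ⧸ S) l (N.map S.mkQ)
        ((LinearEquiv.ofInjective g hg).trans (LinearEquiv.ofEq _ _ hrange)) ?_
      refine Tri.IsWeyl.equiv ih2 ?_
      have hmap : Submodule.span A {N.mkQ v} = S.map N.mkQ := by
        rw [Submodule.map_span, Set.image_singleton]
      exact ((Submodule.quotEquivOfEq _ _ hmap).trans
        (Submodule.quotientQuotientEquivQuotientSup N S)).trans
        ((Submodule.quotEquivOfEq _ _ (sup_comm N S)).trans
        (Submodule.quotientQuotientEquivQuotientSup S N).symm)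

/-- A filtered module is finitely generated. -/
theorem AbsB_finite {T : Tri F A Λ} {X : Type} [AddCommGroup X] [Module A X]
    (h : T.IsWeyl X) : Module.Finite A X := by
  induction h with
  | zero X h => infer_instance
  | step X l N e h ih =>
    have : Module.Finite A N := Module.Finite.equiv e
    exact Module.Finite.of_submodule_quotient N

/-- A module without weights is zero. -/
theorem AbsB_exists_weight (T : Tri F A Λ) {X : Type} [AddCommGroup X] [Module A X]
    (hX : ¬ Subsingleton X) : ∃ k, (∀ l, k < l → ∀ x : X, T.xi l • x = 0) ∧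
      ∃ x : X, T.xi k • x ≠ 0 := by
  classical
  let s : Finset Λ := Finset.univ.filter fun l => ∃ x : X, T.xi l • x ≠ 0
  have hs : s.Nonempty := by
    by_contra hcon
    rw [Finset.not_nonempty_iff_eq_empty] at hcon
    apply hX
    refine ⟨fun x y => ?_⟩
    have h0 : ∀ x : X, x = 0 := by
      intro x
      rw [← one_smul A x, ← T.sum_xi, Finset.sum_smul]
      refine Finset.sum_eq_zero fun l _ => ?_
      by_contra hl
      have : l ∈ s := by
        rw [Finset.mem_filter]
        exact ⟨Finset.mem_univ l, x, hl⟩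
      rw [hcon] at this
      exact absurd this (Finset.notMem_empty l)
    rw [h0 x, h0 y]
  obtain ⟨k, hk, hmax⟩ := s.exists_max_image id hs
  rw [Finset.mem_filter] at hk
  refine ⟨k, fun l hl x => ?_, hk.2⟩
  by_contra hcon
  have h1 : l ∈ s := by
    rw [Finset.mem_filter]
    exact ⟨Finset.mem_univ l, x, hcon⟩
  exact absurd (hmax l h1) (not_le.2 hl)

end AbsBaux

/-- The submodule generated by a top weight vector is a Weyl module and the quotient is filtered. -/
theorem Tri.IsWeyl.top {T : Tri F A Λ} [Module.Finite F A] {X : Type} [AddCommGroup X] [Module A X]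
    (h : T.IsWeyl X) (k : Λ) (hk : ∀ l, k < l → ∀ x : X, T.xi l • x = 0)
    (v : X) (hv : T.xi k • v = v) (hv0 : v ≠ 0) :
    Nonempty (T.W k ≃ₗ[A] Submodule.span A {v}) ∧ T.IsWeyl (X ⧸ Submodule.span A {v}) := by
  obtain ⟨h1, h2⟩ := AbsB_top_strong h k hk v hv hv0
  refine ⟨?_, h2⟩
  have hker : T.I k = LinearMap.ker (LinearMap.toSpanSingleton A X v) := by
    ext a
    rw [LinearMap.mem_ker, LinearMap.toSpanSingleton_apply]
    exact ⟨fun ha => AbsB_smul_eq_zero hk hv ha, h1 a⟩
  exact ⟨((Submodule.quotEquivOfEq _ _ hker).trans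
    (LinearMap.quotKerEquivRange (LinearMap.toSpanSingleton A X v))).trans
    (LinearEquiv.ofEq _ _ (LinearMap.span_singleton_eq_range A X v).symm)⟩

theorem AbsB_ker_aux {T : Tri F A Λ} [Module.Finite F A] (n : ℕ) : ∀ {X Y : Type} [AddCommGroup X]
    [Module A X] [AddCommGroup Y] [Module A Y], Module.length A X ≤ n → T.IsWeyl X → T.IsWeyl Y →
    ∀ (f : X →ₗ[A] Y), Function.Surjective f → T.IsWeyl (LinearMap.ker f) := by
  have hNoe : IsNoetherianRing A := IsNoetherianRing.of_finite F A
  have hArt : IsArtinianRing A := IsArtinianRing.of_finite F A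
  induction n with
  | zero =>
    intro X Y _ _ _ _ hn hX hY f hf
    have h1 : Module.length A X = 0 := by simpa using hn
    rw [Module.length_eq_zero_iff] at h1
    exact Tri.IsWeyl.zero _ inferInstance
  | succ n ih =>
    intro X Y _ _ _ _ hn hX hY f hf
    by_cases hsub : Subsingleton X
    · exact Tri.IsWeyl.zero _ inferInstance
    have hfin := AbsB_finite hX
    -- length of the quotient
    have hlen : ∀ v : X, v ≠ 0 → Module.length A (X ⧸ Submodule.span A {v}) ≤ n := by
      intro v hv
      have h1 : Submodule.span A {v} ≠ ⊥ := by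
        rw [ne_eq, Submodule.span_singleton_eq_bot]
        exact hv
      have h2 := (Submodule.span A {v}).length_quotient_lt h1
      have h3 := lt_of_lt_of_le h2 hn
      rw [Nat.cast_succ] at h3
      exact ENat.lt_add_one_iff (ENat.coe_ne_top n) |>.1 h3
    obtain ⟨k, hk, x0, hx0⟩ := AbsB_exists_weight T hsub
    by_cases hcase : ∃ v : X, T.xi k • v = v ∧ v ≠ 0 ∧ f v = 0
    · obtain ⟨v, hv, hv0, hfv⟩ := hcase
      obtain ⟨⟨e⟩, h2⟩ := hX.top k hk v hv hv0
      let S := Submodule.span A {v}
      have hS : S ≤ LinearMap.ker f := by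
        rw [Submodule.span_singleton_le_iff_mem]
        exact hfv
      let fb : (X ⧸ S) →ₗ[A] Y := S.liftQ f hS
      have hfb : Function.Surjective fb := by
        intro y
        obtain ⟨x, rfl⟩ := hf y
        exact ⟨S.mkQ x, rfl⟩
      have h3 := ih (hlen v hv0) h2 hY fb hfb
      let g : LinearMap.ker f →ₗ[A] LinearMap.ker fb :=
        LinearMap.codRestrict _ (S.mkQ.comp (LinearMap.ker f).subtype) fun x => x.2
      have hg : Function.Surjective g := by
        rintro ⟨x, hx⟩
        obtain ⟨x, rfl⟩ := S.mkQ_surjective x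
        exact ⟨⟨x, hx⟩, rfl⟩
      have hkg : (LinearMap.ker g).map (LinearMap.ker f).subtype = S := by
        ext x
        constructor
        · rintro ⟨y, hy, rfl⟩
          have h4 : S.mkQ y = 0 := congrArg Subtype.val hy
          rwa [Submodule.mkQ_apply, Submodule.Quotient.mk_eq_zero] at h4
        · intro hx
          refine ⟨⟨x, hS hx⟩, ?_, rfl⟩
          apply Subtype.ext
          show S.mkQ x = 0
          rwa [Submodule.mkQ_apply, Submodule.Quotient.mk_eq_zero]
      refine Tri.IsWeyl.step _ k (LinearMap.ker g) ((e.trans (LinearEquiv.ofEq _ _ hkg.symm)).trans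
        (Submodule.equivSubtypeMap _ _).symm) ?_
      exact h3.equiv (LinearMap.quotKerEquivOfSurjective g hg).symm
    · let v := T.xi k • x0
      have hv0 : v ≠ 0 := hx0
      have hv : T.xi k • v = v := by
        show T.xi k • T.xi k • x0 = T.xi k • x0
        rw [← mul_smul, T.idem]
      have hfv : f v ≠ 0 := fun h => hcase ⟨v, hv, hv0, h⟩
      have hkY : ∀ l, k < l → ∀ y : Y, T.xi l • y = 0 := by
        intro l hl y
        obtain ⟨x, rfl⟩ := hf y
        rw [← map_smul, hk l hl, map_zero]
      have hfv' : T.xi k • f v = f v := by rw [← map_smul, hv]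
      obtain ⟨h1, h2⟩ := AbsB_top_strong hX k hk v hv hv0
      obtain ⟨h3, h4⟩ := AbsB_top_strong hY k hkY (f v) hfv' hfv
      let S := Submodule.span A {v}
      let S' := Submodule.span A {f v}
      have hSS : S ≤ S'.comap f := by
        rw [Submodule.span_singleton_le_iff_mem]
        exact Submodule.mem_span_singleton_self (f v)
      let fb : (X ⧸ S) →ₗ[A] (Y ⧸ S') := S.mapQ S' f hSS
      have hfb : Function.Surjective fb := by
        intro y
        obtain ⟨y, rfl⟩ := S'.mkQ_surjective y
        obtain ⟨x, rfl⟩ := hf y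
        exact ⟨S.mkQ x, rfl⟩
      have h5 := ih (hlen v hv0) h2 h4 fb hfb
      let g : LinearMap.ker f →ₗ[A] LinearMap.ker fb :=
        LinearMap.codRestrict _ (S.mkQ.comp (LinearMap.ker f).subtype) fun x => by
          show S'.mkQ (f x) = 0
          have h6 : f x = 0 := x.2
          rw [h6, map_zero]
      have hg1 : Function.Injective g := by
        rw [injective_iff_map_eq_zero]
        intro x hx
        have h6 : S.mkQ (x : X) = 0 := congrArg Subtype.val hx
        rw [Submodule.mkQ_apply, Submodule.Quotient.mk_eq_zero, Submodule.mem_span_singleton] at h6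
        obtain ⟨a, ha⟩ := h6
        have h7 : f (x : X) = 0 := x.2
        rw [← ha, map_smul] at h7
        apply Subtype.ext
        rw [← ha]
        exact AbsB_smul_eq_zero hk hv (h3 a h7)
      have hg2 : Function.Surjective g := by
        rintro ⟨x, hx⟩
        obtain ⟨x, rfl⟩ := S.mkQ_surjective x
        have h6 : S'.mkQ (f x) = 0 := hx
        rw [Submodule.mkQ_apply, Submodule.Quotient.mk_eq_zero, Submodule.mem_span_singleton] at h6
        obtain ⟨a, ha⟩ := h6
        refine ⟨⟨x - a • v, ?_⟩, ?_⟩
        · rw [LinearMap.mem_ker, map_sub, map_smul, ha, sub_self]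
        · apply Subtype.ext
          show S.mkQ (x - a • v) = S.mkQ x
          rw [map_sub, sub_eq_self, Submodule.mkQ_apply, Submodule.Quotient.mk_eq_zero]
          exact Submodule.smul_mem _ _ (Submodule.mem_span_singleton_self v)
      exact h5.equiv (LinearEquiv.ofBijective g ⟨hg1, hg2⟩).symm

/-- closure under kernels of surjections -/
theorem Tri.IsWeyl.ker {T : Tri F A Λ} [Module.Finite F A] {X Y : Type} [AddCommGroup X]
    [Module A X] [AddCommGroup Y] [Module A Y] (hX : T.IsWeyl X) (hY : T.IsWeyl Y)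
    (f : X →ₗ[A] Y) (hf : Function.Surjective f) : T.IsWeyl (LinearMap.ker f) := by
  have hNoe : IsNoetherianRing A := IsNoetherianRing.of_finite F A
  have hArt : IsArtinianRing A := IsArtinianRing.of_finite F A
  have hfin := AbsB_finite hX
  have h1 : Module.length A X ≠ ⊤ := Module.length_ne_top
  obtain ⟨n, hn⟩ := ENat.ne_top_iff_exists.1 h1
  exact AbsB_ker_aux n hn.symm.le hX hY f hf

end H34.Kem
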