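import Pool.Agent.H34.Kem.AbsA

namespace H34.Kem

variable {F A Λ : Type} [Field F] [Ring A] [Algebra F A] [LinearOrder Λ] [Fintype Λ]

section aux

variable {X Y : Type} [AddCommGroup X] [AddCommGroup Y]
  [Module A X] [Module A Y] [Module F X] [Module F Y] [IsScalarTower F A X] [IsScalarTower F A Y]

/-- the derivation rule -/
private def IsDer (T : Tri F A Λ) (δ : A →ₗ[F] X →ₗ[F] Y →ₗ[F] F) : Prop :=
  ∀ a b x y, δ (a * b) x y = δ a x (b • y) + δ b (T.tau a • x) y

/-- inner derivations -/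
private noncomputable def innD (T : Tri F A Λ) (β : X →ₗ[F] Y →ₗ[F] F) :
    A →ₗ[F] X →ₗ[F] Y →ₗ[F] F where
  toFun a := LinearMap.mk₂ F (fun x y => β (T.tau a • x) y - β x (a • y))
    (by intro x x' y; simp only [smul_add, map_add, LinearMap.add_apply]; ring)
    (by
      intro c x y
      rw [smul_comm (T.tau a) c x]
      simp only [map_smul, LinearMap.smul_apply, smul_eq_mul]; ring)
    (by intro x y y'; simp only [smul_add, map_add]; ring)
    (by
      intro c x y
      rw [smul_comm a c y]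
      simp only [map_smul, smul_eq_mul]; ring)
  map_add' a b := by
    ext x y
    simp only [LinearMap.mk₂_apply, LinearMap.add_apply, map_add, add_smul]; ring
  map_smul' c a := by
    ext x y
    simp only [LinearMap.mk₂_apply, LinearMap.smul_apply, map_smul, smul_assoc, RingHom.id_apply,
      smul_eq_mul]
    ring

private theorem innD_apply (T : Tri F A Λ) (β : X →ₗ[F] Y →ₗ[F] F) (a : A) (x : X) (y : Y) :
    innD T β a x y = β (T.tau a • x) y - β x (a • y) := rfl

private theorem innD_der (T : Tri F A Λ) (β : X →ₗ[F] Y →ₗ[F] F) : IsDer T (innD T β) := by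
  intro a b x y
  simp only [innD_apply, T.tau_mul, mul_smul]
  ring

private noncomputable def sb (T : Tri F A Λ) (δ : A →ₗ[F] X →ₗ[F] Y →ₗ[F] F)
    (β : X →ₗ[F] Y →ₗ[F] F) : A →ₗ[F] X →ₗ[F] Y →ₗ[F] F := δ + innD T (-β)

private theorem sb_apply (T : Tri F A Λ) (δ : A →ₗ[F] X →ₗ[F] Y →ₗ[F] F)
    (β : X →ₗ[F] Y →ₗ[F] F) (a : A) (x : X) (y : Y) :
    sb T δ β a x y = δ a x y - (β (T.tau a • x) y - β x (a • y)) := by
  change δ a x y + innD T (-β) a x y = _
  rw [innD_apply]
  simp only [LinearMap.neg_apply]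
  ring

private theorem IsDer.sb {T : Tri F A Λ} {δ : A →ₗ[F] X →ₗ[F] Y →ₗ[F] F}
    (h : IsDer T δ) (β : X →ₗ[F] Y →ₗ[F] F) : IsDer T (sb T δ β) := by
  intro a b x y
  have h2 := innD_der T β a b x y
  rw [innD_apply, innD_apply, innD_apply] at h2
  rw [sb_apply, sb_apply, sb_apply, h a b x y]
  linear_combination -h2

omit [IsScalarTower F A X] [IsScalarTower F A Y] in
/-- symmetry -/
private theorem d1_symm {T : Tri F A Λ} (h : T.D1 X Y) : T.D1 Y X := by
  intro δ hδ
  obtain ⟨β, hβ⟩ := h (LinearMap.mk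
    ⟨fun a => -(δ (T.tau a)).flip, by intro a b; ext x y; simp; ring⟩
    (by intro c a; ext x y; simp)) (by
      intro a b x y
      change -(δ (T.tau (a * b)) y x) = -(δ (T.tau a) (b • y) x) + -(δ (T.tau b) y (T.tau a • x))
      rw [T.tau_mul, hδ, T.tau_tau]
      ring)
  refine ⟨β.flip, fun a y x => ?_⟩
  have h1 := hβ (T.tau a) x y
  change -(δ (T.tau (T.tau a)) y x) = _ at h1
  rw [T.tau_tau] at h1
  simp only [LinearMap.flip_apply]
  linear_combination -h1

omit [IsScalarTower F A Y] in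
/-- transport -/
private theorem d1_equiv {T : Tri F A Λ} {X' : Type} [AddCommGroup X'] [Module A X'] [Module F X']
    [IsScalarTower F A X'] (h : T.D1 X Y) (e : X ≃ₗ[A] X') : T.D1 X' Y := by
  intro δ hδ
  obtain ⟨β, hβ⟩ := h ((LinearMap.lcomp F (Y →ₗ[F] F) ((e.restrictScalars F : X ≃ₗ[F] X') :
    X →ₗ[F] X')).comp δ) (by
      intro a b x y
      change δ (a * b) (e x) y = δ a (e x) (b • y) + δ b (e (T.tau a • x)) y
      rw [hδ, e.map_smul])
  refine ⟨β.comp ((e.symm.restrictScalars F : X' ≃ₗ[F] X) : X' →ₗ[F] X), fun a x y => ?_⟩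
  have h1 := hβ a (e.symm x) y
  change δ a (e (e.symm x)) y = _ at h1
  rw [e.apply_symm_apply] at h1
  change _ = β (e.symm (T.tau a • x)) y - β (e.symm x) (a • y)
  rw [h1, e.symm.map_smul]

/-- half exactness -/
private theorem d1_ext {T : Tri F A Λ} (N : Submodule A X) (h1 : T.D1 N Y) (h2 : T.D1 (X ⧸ N) Y) :
    T.D1 X Y := by
  intro δ hδ
  let i : N →ₗ[F] X := N.subtype.restrictScalars F
  have hi : LinearMap.ker i = ⊥ := by
    rw [LinearMap.ker_eq_bot]
    intro x y hxy
    exact Subtype.ext hxy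
  obtain ⟨g, hg⟩ := i.exists_leftInverse_of_injective hi
  have hg' : ∀ x : N, g (x : X) = x := fun x => by
    exact LinearMap.congr_fun hg x
  obtain ⟨β1, hβ1⟩ := h1 ((LinearMap.lcomp F (Y →ₗ[F] F) i).comp δ) (by
    intro a b x y
    change δ (a * b) (x : X) y = δ a (x : X) (b • y) + δ b ((T.tau a • x : N) : X) y
    rw [hδ]; rfl)
  let β2 : X →ₗ[F] Y →ₗ[F] F := β1.comp g
  let δ2 : A →ₗ[F] X →ₗ[F] Y →ₗ[F] F := sb T δ β2
  have hδ2 : IsDer T δ2 := IsDer.sb hδ β2
  have hδ2N : ∀ a (x : X) y, x ∈ N → δ2 a x y = 0 := by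
    intro a x y hx
    have h3 := hβ1 a ⟨x, hx⟩ y
    change δ a x y = _ at h3
    rw [show δ2 a x y = δ a x y - (β1 (g (T.tau a • x)) y - β1 (g x) (a • y)) from
      sb_apply T δ β2 a x y]
    have h4 : g x = ⟨x, hx⟩ := hg' ⟨x, hx⟩
    have h5 : g (T.tau a • x) = T.tau a • (⟨x, hx⟩ : N) := hg' (T.tau a • (⟨x, hx⟩ : N))
    rw [h3, h4, h5]
    ring
  let π : X →ₗ[F] X ⧸ N := N.mkQ.restrictScalars F
  have hπ : LinearMap.range π = ⊤ := by
    rw [LinearMap.range_eq_top]
    exact N.mkQ_surjective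
  obtain ⟨s, hs⟩ := π.exists_rightInverse_of_surjective hπ
  have hs' : ∀ z, N.mkQ (s z) = z := fun z => by
    exact LinearMap.congr_fun hs z
  have hs2 : ∀ a (x : X) y, δ2 a (s (N.mkQ x)) y = δ2 a x y := by
    intro a x y
    have h3 : s (N.mkQ x) - x ∈ N :=
      (Submodule.Quotient.eq N).mp (hs' (N.mkQ x))
    have h4 := hδ2N a _ y h3
    rw [map_sub, LinearMap.sub_apply] at h4
    exact sub_eq_zero.mp h4
  obtain ⟨β3, hβ3⟩ := h2 ((LinearMap.lcomp F (Y →ₗ[F] F) s).comp δ2) (by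
    intro a b z y
    change δ2 (a * b) (s z) y = δ2 a (s z) (b • y) + δ2 b (s (T.tau a • z)) y
    rw [hδ2]
    congr 1
    rw [← hs2, N.mkQ.map_smul, hs'])
  refine ⟨β2 + β3.comp π, fun a x y => ?_⟩
  have h6 := hβ3 a (N.mkQ x) y
  change δ2 a (s (N.mkQ x)) y = _ at h6
  rw [hs2] at h6
  rw [show δ2 a x y = δ a x y - (β2 (T.tau a • x) y - β2 x (a • y)) from
      sb_apply T δ β2 a x y] at h6
  change δ a x y = (β2 (T.tau a • x) y + β3 (N.mkQ (T.tau a • x)) y) -
    (β2 x (a • y) + β3 (N.mkQ x) (a • y))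
  rw [N.mkQ.map_smul]
  linear_combination h6

end aux

private theorem xi_W {T : Tri F A Λ} {l m : Λ} (h : l < m) (x : T.W l) : T.xi m • x = 0 := by
  obtain ⟨a, rfl⟩ := Submodule.Quotient.mk_surjective _ x
  rw [← Submodule.Quotient.mk_smul, Submodule.Quotient.mk_eq_zero]
  change T.xi m * a * T.xi l ∈ Jup (F := F) T.xi l
  exact Submodule.subset_span ⟨m, 1, a * T.xi l, h, by simp [mul_assoc]⟩

private theorem d1_base_le {T : Tri F A Λ} {γ κ : Λ} (h : γ ≤ κ) : T.D1 (T.W γ) (T.W κ) := by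
  intro δ hδ
  classical
  -- normalisation
  let β0 : T.W γ →ₗ[F] T.W κ →ₗ[F] F := LinearMap.mk₂ F
    (fun x y => - ∑ m, δ (T.xi m) x (T.xi m • y))
    (by intro x x' y; simp only [map_add, LinearMap.add_apply, Finset.sum_add_distrib]; ring)
    (by
      intro c x y
      simp only [map_smul, LinearMap.smul_apply, smul_eq_mul, ← Finset.mul_sum]; ring)
    (by intro x y y'; simp only [smul_add, map_add, Finset.sum_add_distrib]; ring)
    (by
      intro c x y
      simp only [smul_comm _ c y, map_smul, smul_eq_mul, ← Finset.mul_sum]; ring)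
  have hβ0 : ∀ x y, β0 x y = - ∑ m, δ (T.xi m) x (T.xi m • y) := fun x y => rfl
  have hsum : ∀ y : T.W κ, ∑ m, T.xi m • y = y := by
    intro y; rw [← Finset.sum_smul, T.sum_xi, one_smul]
  have hxi : ∀ l x y, innD T β0 (T.xi l) x y = δ (T.xi l) x y := by
    intro l x y
    rw [innD_apply, T.tau_xi, hβ0, hβ0]
    have e1 : ∑ m, δ (T.xi m) x (T.xi m • T.xi l • y) = δ (T.xi l) x (T.xi l • y) := by
      rw [Finset.sum_eq_single l]
      · rw [← mul_smul, T.idem]
      · intro m _ hm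
        rw [← mul_smul, T.orth m l hm, zero_smul, map_zero]
      · intro hl; exact absurd (Finset.mem_univ l) hl
    have e2 : ∑ m, δ (T.xi m) (T.xi l • x) (T.xi m • y) =
        δ (T.xi l) x (T.xi l • y) - δ (T.xi l) x y := by
      have e3 : ∀ m, δ (T.xi m) (T.xi l • x) (T.xi m • y) =
          δ (T.xi l * T.xi m) x (T.xi m • y) - δ (T.xi l) x (T.xi m • y) := by
        intro m
        rw [hδ, T.tau_xi, ← mul_smul (T.xi m) (T.xi m) y, T.idem]
        ring
      rw [Finset.sum_congr rfl (fun m _ => e3 m), Finset.sum_sub_distrib]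
      congr 1
      · rw [Finset.sum_eq_single l]
        · rw [T.idem]
        · intro m _ hm
          rw [T.orth l m (Ne.symm hm), map_zero, LinearMap.zero_apply, LinearMap.zero_apply]
        · intro hl; exact absurd (Finset.mem_univ l) hl
      · rw [← map_sum, hsum]
    rw [e1, e2]
    ring
  let δ1 : A →ₗ[F] T.W γ →ₗ[F] T.W κ →ₗ[F] F := sb T δ β0
  have hδ1 : IsDer T δ1 := IsDer.sb hδ β0
  have hδ1xi : ∀ l x y, δ1 (T.xi l) x y = 0 := by
    intro l x y
    have e1 := hxi l x y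
    rw [innD_apply] at e1
    rw [show δ1 (T.xi l) x y = δ (T.xi l) x y - (β0 (T.tau (T.xi l) • x) y - β0 x (T.xi l • y)) from
      sb_apply T δ β0 (T.xi l) x y, e1, sub_self]
  let v : T.W κ := Submodule.Quotient.mk 1
  have hv : ∀ a : A, a • v = Submodule.Quotient.mk a := by
    intro a
    rw [← Submodule.Quotient.mk_smul, smul_eq_mul, mul_one]
  have hvk : T.xi κ • v = v := by
    rw [hv]
    refine (Submodule.Quotient.eq _).mpr ?_
    change (T.xi κ - 1) * T.xi κ ∈ Jup (F := F) T.xi κ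
    rw [sub_mul, one_mul, T.idem, sub_self]
    exact Submodule.zero_mem _
  have hJ : ∀ z ∈ Jup (F := F) T.xi κ, ∀ x, δ1 z x v = 0 := by
    intro z hz x
    refine Submodule.span_induction (p := fun z _ => δ1 z x v = 0) ?_ ?_ ?_ ?_ hz
    · rintro z ⟨m, a, b, hm, rfl⟩
      have e1 : a * T.xi m * b = (a * T.xi m) * (T.xi m * b) := by
        rw [mul_assoc, mul_assoc, ← mul_assoc (T.xi m) (T.xi m) b, T.idem]
      rw [e1, hδ1, T.tau_mul, T.tau_xi, mul_smul (T.xi m) b v, xi_W hm,
        mul_smul (T.xi m) (T.tau a) x, xi_W (lt_of_le_of_lt h hm)]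
      simp
    · simp
    · intro z z' _ _ e e'
      rw [map_add, LinearMap.add_apply, LinearMap.add_apply, e, e', add_zero]
    · intro c z _ e
      rw [map_smul, LinearMap.smul_apply, LinearMap.smul_apply, e, smul_zero]
  have hI : ∀ z ∈ T.I κ, ∀ x, δ1 z x v = 0 := by
    intro z hz x
    have e1 : δ1 (z * T.xi κ) x v = 0 := hJ _ hz x
    rw [hδ1, hvk, hδ1xi, add_zero] at e1
    exact e1
  let π : A →ₗ[F] T.W κ := (T.I κ).mkQ.restrictScalars F
  have hπ : LinearMap.range π = ⊤ := by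
    rw [LinearMap.range_eq_top]
    exact (T.I κ).mkQ_surjective
  obtain ⟨s, hs⟩ := π.exists_rightInverse_of_surjective hπ
  have hs' : ∀ z, (T.I κ).mkQ (s z) = z := fun z => by
    exact LinearMap.congr_fun hs z
  have hs2 : ∀ a x, δ1 (s (Submodule.Quotient.mk a)) x v = δ1 a x v := by
    intro a x
    have h3 : s (Submodule.Quotient.mk a) - a ∈ T.I κ :=
      (Submodule.Quotient.eq (T.I κ)).mp (hs' (Submodule.Quotient.mk a))
    have h4 := hI _ h3 x
    rw [map_sub, LinearMap.sub_apply, LinearMap.sub_apply] at h4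
    exact sub_eq_zero.mp h4
  let β : T.W γ →ₗ[F] T.W κ →ₗ[F] F := LinearMap.mk₂ F
    (fun x y => - δ1 (s y) x v)
    (by intro x x' y; simp only [map_add, LinearMap.add_apply]; ring)
    (by
      intro c x y
      simp only [map_smul, LinearMap.smul_apply, smul_eq_mul]; ring)
    (by intro x y y'; simp only [map_add, LinearMap.add_apply]; ring)
    (by
      intro c x y
      simp only [map_smul, LinearMap.smul_apply, smul_eq_mul]; ring)
  have hβ : ∀ x a, β x (Submodule.Quotient.mk a) = - δ1 a x v := by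
    intro x a
    change - δ1 (s (Submodule.Quotient.mk a)) x v = _
    rw [hs2]
  refine ⟨β0 + β, fun a x y => ?_⟩
  obtain ⟨ℓ, rfl⟩ := Submodule.Quotient.mk_surjective _ y
  have e1 : δ1 a x (Submodule.Quotient.mk ℓ) = β (T.tau a • x) (Submodule.Quotient.mk ℓ) -
      β x (a • Submodule.Quotient.mk ℓ) := by
    rw [← Submodule.Quotient.mk_smul, hβ, hβ, smul_eq_mul, hδ1, hv]
    ring
  rw [show δ1 a x (Submodule.Quotient.mk ℓ) = δ a x (Submodule.Quotient.mk ℓ) -
      (β0 (T.tau a • x) (Submodule.Quotient.mk ℓ) - β0 x (a • Submodule.Quotient.mk ℓ)) from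
      sb_apply T δ β0 a x _] at e1
  simp only [LinearMap.add_apply]
  linear_combination e1

private theorem d1_base {T : Tri F A Λ} (γ κ : Λ) : T.D1 (T.W γ) (T.W κ) := by
  rcases le_total γ κ with h | h
  · exact d1_base_le h
  · exact d1_symm (d1_base_le h)

private theorem d1_left {T : Tri F A Λ} {X Y : Type} [AddCommGroup X] [AddCommGroup Y]
    [Module A X] [Module A Y] [Module F Y] [IsScalarTower F A Y]
    (hX : T.IsWeyl X) (hY : ∀ l, T.D1 (T.W l) Y) :
    ∀ [Module F X] [IsScalarTower F A X], T.D1 X Y := by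
  induction hX with
  | zero X h =>
    intro _ _ δ _
    refine ⟨0, fun a x y => ?_⟩
    have : x = 0 := Subsingleton.elim _ _
    subst this
    simp
  | step X l N e h ih =>
    intro _ _
    exact d1_ext N (d1_equiv (hY l) e) ih

/-- vanishing of the first cohomology for filtered modules -/
theorem Tri.IsWeyl.d1 {T : Tri F A Λ} {X Y : Type} [AddCommGroup X] [AddCommGroup Y]
    [Module A X] [Module A Y] [Module F X] [Module F Y] [IsScalarTower F A X] [IsScalarTower F A Y]
    (hX : T.IsWeyl X) (hY : T.IsWeyl Y) : T.D1 X Y := by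
  refine d1_left hX fun l => d1_symm ?_
  exact d1_left hY fun m => d1_base m l

end H34.Kem
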