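import Pool.Agent.H34.Kem.AbsR
import Pool.Agent.H34.Kem.AbsD

namespace H34.Kem

variable {F A L Λ Λ' : Type} [Field F] [Ring A] [Algebra F A] [LinearOrder Λ] [Fintype Λ]
  [Ring L] [Algebra F L] [LinearOrder Λ'] [Fintype Λ']

private theorem absF_mul_left {xi : Λ → A} {l : Λ} (c : A) {x : A}
    (hx : x ∈ Jup (F := F) xi l) : c * x ∈ Jup (F := F) xi l := by
  refine Submodule.span_induction (p := fun y _ => c * y ∈ Jup (F := F) xi l) ?_ ?_ ?_ ?_ hx
  · rintro y ⟨m, a, b, hm, rfl⟩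
    exact Submodule.subset_span ⟨m, c * a, b, hm, by simp [mul_assoc]⟩
  · simp
  · intro y z _ _ hy hz
    rw [mul_add]
    exact Submodule.add_mem _ hy hz
  · intro r y _ hy
    rw [mul_smul_comm]
    exact Submodule.smul_mem _ _ hy

private theorem absF_mul_right {xi : Λ → A} {l : Λ} (c : A) {x : A}
    (hx : x ∈ Jup (F := F) xi l) : x * c ∈ Jup (F := F) xi l := by
  refine Submodule.span_induction (p := fun y _ => y * c ∈ Jup (F := F) xi l) ?_ ?_ ?_ ?_ hx
  · rintro y ⟨m, a, b, hm, rfl⟩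
    exact Submodule.subset_span ⟨m, a, b * c, hm, by simp [mul_assoc]⟩
  · simp
  · intro y z _ _ hy hz
    rw [add_mul]
    exact Submodule.add_mem _ hy hz
  · intro r y _ hy
    rw [smul_mul_assoc]
    exact Submodule.smul_mem _ _ hy

private theorem absF_tau (T : Tri F A Λ) {l : Λ} {x : A}
    (hx : x ∈ Jup (F := F) T.xi l) : T.tau x ∈ Jup (F := F) T.xi l := by
  refine Submodule.span_induction (p := fun y _ => T.tau y ∈ Jup (F := F) T.xi l) ?_ ?_ ?_ ?_ hx
  · rintro y ⟨m, a, b, hm, rfl⟩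
    refine Submodule.subset_span ⟨m, T.tau b, T.tau a, hm, ?_⟩
    rw [T.tau_mul, T.tau_mul, T.tau_xi, mul_assoc]
  · simp
  · intro y z _ _ hy hz
    rw [map_add]
    exact Submodule.add_mem _ hy hz
  · intro r y _ hy
    rw [map_smul]
    exact Submodule.smul_mem _ _ hy

private theorem absF_smul (T : Tri F A Λ) {l : Λ} {E : Type} [AddCommGroup E] [Module A E]
    [Module F E] [IsScalarTower F A E] (htop : ∀ m, l < m → ∀ x : E, T.xi m • x = 0) {x : A}
    (hx : x ∈ Jup (F := F) T.xi l) (w : E) : x • w = 0 := by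
  refine Submodule.span_induction (p := fun y _ => y • w = 0) ?_ ?_ ?_ ?_ hx
  · rintro y ⟨m, a, b, hm, rfl⟩
    rw [mul_smul, mul_smul, htop m hm, smul_zero]
  · exact zero_smul _ _
  · intro y z _ _ hy hz
    rw [add_smul, hy, hz, add_zero]
  · intro r y _ hy
    rw [smul_assoc, hy, smul_zero]

private theorem absF_section (T : Tri F A Λ) (l : Λ) :
    ∃ s : T.W l →ₗ[F] A, ∀ p, Submodule.Quotient.mk (s p) = p := by
  obtain ⟨g, hg⟩ : ∃ g : A →ₗ[F] T.W l, g = (T.I l).mkQ.restrictScalars F := ⟨_, rfl⟩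
  have hg' : ∀ x, g x = Submodule.Quotient.mk x := by
    intro x
    rw [hg]
    rfl
  obtain ⟨s, hs⟩ := LinearMap.exists_rightInverse_of_surjective g (by
      rw [LinearMap.range_eq_top]
      intro p
      obtain ⟨x, rfl⟩ := Submodule.Quotient.mk_surjective _ p
      exact ⟨x, hg' x⟩)
  refine ⟨s, fun p => ?_⟩
  rw [← hg']
  exact LinearMap.congr_fun hs p

private theorem absF_congr (T : Tri F A Λ) {l : Λ} {x x' y y' : A}
    (hx : (Submodule.Quotient.mk x : T.W l) = Submodule.Quotient.mk x')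
    (hy : (Submodule.Quotient.mk y : T.W l) = Submodule.Quotient.mk y') :
    x * T.xi l * T.tau y - x' * T.xi l * T.tau y' ∈ Jup (F := F) T.xi l := by
  have h1 : (x - x') * T.xi l ∈ Jup (F := F) T.xi l := (Submodule.Quotient.eq (T.I l)).mp hx
  have h2 : (y - y') * T.xi l ∈ Jup (F := F) T.xi l := (Submodule.Quotient.eq (T.I l)).mp hy
  have h3 : T.xi l * T.tau (y - y') ∈ Jup (F := F) T.xi l := by
    have := absF_tau T h2
    rwa [T.tau_mul, T.tau_xi] at this
  have h4 : x * T.xi l * T.tau y - x' * T.xi l * T.tau y' =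
      (x - x') * T.xi l * T.tau y + x' * (T.xi l * T.tau (y - y')) := by
    rw [map_sub]
    noncomm_ring
  rw [h4]
  exact Submodule.add_mem _ (absF_mul_right _ h1) (absF_mul_left _ h3)

private theorem absF_annih {T : Tri F A Λ} {T' : Tri F L Λ'} [Module.Finite F A] (f : L →ₐ[F] A)
    (l : Λ) {E : Type} [AddCommGroup E] [Module A E] [Module F E] [IsScalarTower F A E]
    (h : T.Test T' f l E) (v : E) (hv0 : v ≠ 0) (hv : T.xi l • v = v)
    (hc : ∀ x : E, ∃ c : F, T.xi l • x = c • v) (a : A) (ha : a • v = 0) : a ∈ T.I l := by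
  obtain ⟨e⟩ := (h.weylA.top l h.top v hv hv0).1
  have hmk : (T.xi l • (Submodule.Quotient.mk 1 : T.W l)) = Submodule.Quotient.mk 1 := by
    rw [← Submodule.Quotient.mk_smul, Submodule.Quotient.eq]
    show (T.xi l • (1 : A) - 1) * T.xi l ∈ Jup (F := F) T.xi l
    rw [smul_eq_mul, mul_one, sub_mul, T.idem, one_mul, sub_self]
    exact Submodule.zero_mem _
  obtain ⟨w, hw⟩ : ∃ w : Submodule.span A {v}, w = e (Submodule.Quotient.mk 1) := ⟨_, rfl⟩
  have hxw : T.xi l • w = w := by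
    rw [hw, ← map_smul, hmk]
  obtain ⟨c, hcw⟩ := hc (w : E)
  have hxw' : (w : E) = c • v := by
    rw [← hcw]
    exact (congrArg Subtype.val hxw).symm
  have haw : a • w = 0 := by
    apply Subtype.ext
    show a • (w : E) = 0
    rw [hxw', ← algebraMap_smul A c v, ← mul_smul, ← Algebra.commutes, mul_smul, ha, smul_zero]
  rw [hw, ← map_smul, map_eq_zero_iff e e.injective, ← Submodule.Quotient.mk_smul,
    Submodule.Quotient.mk_eq_zero, smul_eq_mul, mul_one] at haw
  exact haw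

/-- bilinear forms on the Weyl module extend to functionals on the algebra. -/
theorem Tri.cell_ext {T : Tri F A Λ} {T' : Tri F L Λ'} [Module.Finite F A] (f : L →ₐ[F] A) (l : Λ)
    {E : Type} [AddCommGroup E] [Module A E] [Module F E] [IsScalarTower F A E]
    (h : T.Test T' f l E) (β : T.W l →ₗ[F] T.W l →ₗ[F] F) :
    ∃ φ : A →ₗ[F] F, (∀ x ∈ Jup (F := F) T.xi l, φ x = 0) ∧
      ∀ x y : A, φ (x * T.xi l * T.tau y) =
        β (Submodule.Quotient.mk x) (Submodule.Quotient.mk y) := by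
  obtain ⟨v, hv0, hv, hc⟩ := h.vec
  obtain ⟨B, hB, hBnd⟩ := h.form
  choose c hc using hc
  have hann : ∀ a : A, a • v = 0 → a ∈ T.I l :=
    absF_annih f l h v hv0 hv fun x => ⟨c x, hc x⟩
  have hvv : B v v ≠ 0 := by
    intro h0
    apply hv0
    apply hBnd
    intro w
    rw [← hv, hB, T.tau_xi, hc, map_smul, h0, smul_zero]
  have hcB : ∀ (y : A) (w : E), c (T.tau y • w) * B v v = B (y • v) w := by
    intro y w
    have h1 : B (y • v) w = B v (T.xi l • (T.tau y • w)) := by
      rw [← mul_smul]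
      have h2 : T.xi l * T.tau y = T.tau (y * T.xi l) := by
        rw [T.tau_mul, T.tau_xi]
      rw [h2, ← hB, mul_smul, hv]
    rw [h1, hc, map_smul, smul_eq_mul]
  obtain ⟨s, hs⟩ := absF_section T l
  let J : Submodule F A := Jup (F := F) T.xi l
  let μ0 : T.W l →ₗ[F] T.W l →ₗ[F] A :=
    ((LinearMap.mul F A).compl₂ (T.tau ∘ₗ s)) ∘ₗ ((LinearMap.mulRight F (T.xi l)) ∘ₗ s)
  have hμ0 : ∀ p q, μ0 p q = s p * T.xi l * T.tau (s q) := fun p q => rfl
  let μ : TensorProduct F (T.W l) (T.W l) →ₗ[F] A := TensorProduct.lift μ0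
  have hinj : LinearMap.ker (J.mkQ ∘ₗ μ) = ⊥ := by
    rw [LinearMap.ker_eq_bot']
    intro t ht
    let b := Module.Basis.ofVectorSpace F (T.W l)
    obtain ⟨w, rfl⟩ := TensorProduct.eq_repr_basis_left b t
    have h1 : μ (w.sum fun i n => b i ⊗ₜ[F] n) ∈ J := by
      rwa [LinearMap.comp_apply, Submodule.mkQ_apply, Submodule.Quotient.mk_eq_zero] at ht
    have h2 : μ (w.sum fun i n => b i ⊗ₜ[F] n) =
        w.sum fun i n => s (b i) * T.xi l * T.tau (s n) := by
      rw [Finsupp.sum, map_sum]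
      rfl
    rw [h2] at h1
    have hli : LinearIndependent F fun i => s (b i) • v := by
      let ψ : T.W l →ₗ[F] E := (LinearMap.toSpanSingleton A E v).restrictScalars F ∘ₗ s
      have hψ : LinearMap.ker ψ = ⊥ := by
        rw [LinearMap.ker_eq_bot']
        intro p hp
        have : s p ∈ T.I l := hann _ hp
        rw [← hs p]
        exact (Submodule.Quotient.mk_eq_zero _).mpr this
      exact b.linearIndependent.map' ψ hψ
    have hw0 : w = 0 := by
      ext i
      have h3 : s (w i) ∈ T.I l := by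
        apply hann
        apply hBnd
        intro u
        have h4 := absF_smul T h.top h1 u
        rw [Finsupp.sum, Finset.sum_smul] at h4
        have h5 : ∀ j, (s (b j) * T.xi l * T.tau (s (w j))) • u =
            c (T.tau (s (w j)) • u) • (s (b j) • v) := by
          intro j
          rw [mul_smul, mul_smul, hc]
          exact smul_comm _ _ _
        simp only [h5] at h4
        rw [linearIndependent_iff'] at hli
        by_cases hi : i ∈ w.support
        · have h6 := hli w.support (fun j => c (T.tau (s (w j)) • u)) h4 i hi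
          rw [← hcB, h6, zero_mul]
        · rw [Finsupp.notMem_support_iff] at hi
          rw [hi, map_zero, zero_smul, map_zero, LinearMap.zero_apply]
      rw [← hs (w i)]
      exact (Submodule.Quotient.mk_eq_zero _).mpr h3
    rw [hw0]
    exact Finsupp.sum_zero_index
  obtain ⟨g, hg⟩ := LinearMap.exists_leftInverse_of_injective _ hinj
  refine ⟨TensorProduct.lift β ∘ₗ g ∘ₗ J.mkQ, ?_, ?_⟩
  · intro x hx
    have : J.mkQ x = 0 := (Submodule.Quotient.mk_eq_zero _).mpr hx
    rw [LinearMap.comp_apply, LinearMap.comp_apply, this, map_zero, map_zero]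
  · intro x y
    have h1 : J.mkQ (x * T.xi l * T.tau y) =
        (J.mkQ ∘ₗ μ) ((Submodule.Quotient.mk x : T.W l) ⊗ₜ[F] (Submodule.Quotient.mk y)) := by
      refine (Submodule.Quotient.eq _).mpr ?_
      exact absF_congr T (hs _).symm (hs _).symm
    have h2 := LinearMap.congr_fun hg
      ((Submodule.Quotient.mk x : T.W l) ⊗ₜ[F] (Submodule.Quotient.mk y))
    rw [LinearMap.comp_apply, LinearMap.comp_apply, h1]
    rw [LinearMap.comp_apply] at h2
    rw [h2]
    rfl

private theorem absF_weyl (T : Tri F A Λ) (l : Λ) : T.IsWeyl (T.W l) := by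
  refine Tri.IsWeyl.step _ l ⊤ (Submodule.topEquiv).symm (Tri.IsWeyl.zero _ ?_)
  exact Submodule.Quotient.subsingleton_iff.mpr rfl

private theorem absF_step {T : Tri F A Λ} {T' : Tri F L Λ'} [Module.Finite F A]
    [Module.Finite F L] (f : L →ₐ[F] A) (hf : ∀ a, f (T'.tau a) = T.tau (f a))
    (H : ∀ l, T.xi l ∉ Jup (F := F) T.xi l → ∃ (E : Type) (_ : AddCommGroup E) (_ : Module A E)
      (_ : Module F E) (_ : IsScalarTower F A E), T.Test T' f l E)
    (l : Λ) (δ : L →ₗ[F] A →ₗ[F] F) (h0 : ∀ a, ∀ s ∈ Jup (F := F) T.xi l, δ a s = 0)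
    (hδ : ∀ a b s, δ (a * b) s = δ b (s * f a) + δ a (f b * s)) :
    ∃ φ : A →ₗ[F] F, (∀ s ∈ Jup (F := F) T.xi l, φ s = 0) ∧
      ∀ a x y, δ a (x * T.xi l * y) =
        φ (x * T.xi l * y * f a) - φ (f a * (x * T.xi l * y)) := by
  by_cases hl : T.xi l ∈ Jup (F := F) T.xi l
  · refine ⟨0, fun _ _ => rfl, fun a x y => ?_⟩
    rw [h0 a _ (absF_mul_right _ (absF_mul_left _ hl))]
    simp
  obtain ⟨E, _, _, _, _, hE⟩ := H l hl
  obtain ⟨s, hs⟩ := absF_section T l
  have key : ∀ (ψ : A →ₗ[F] F), (∀ s ∈ Jup (F := F) T.xi l, ψ s = 0) → ∀ x x' y y' : A,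
      (Submodule.Quotient.mk x : T.W l) = Submodule.Quotient.mk x' →
      (Submodule.Quotient.mk y : T.W l) = Submodule.Quotient.mk y' →
      ψ (x * T.xi l * T.tau y) = ψ (x' * T.xi l * T.tau y') := by
    intro ψ hψ x x' y y' hx hy
    have h1 := hψ _ (absF_congr T hx hy)
    rw [map_sub, sub_eq_zero] at h1
    exact h1
  let μ0 : T.W l →ₗ[F] T.W l →ₗ[F] A :=
    ((LinearMap.mul F A).compl₂ (T.tau ∘ₗ s)) ∘ₗ ((LinearMap.mulRight F (T.xi l)) ∘ₗ s)
  let d : L →ₗ[F] T.W l →ₗ[F] T.W l →ₗ[F] F :=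
    { toFun := fun a => μ0.flip.compr₂ (δ a)
      map_add' := fun a b => by
        rw [map_add]
        rfl
      map_smul' := fun c a => by
        rw [map_smul]
        rfl }
  have hd : ∀ a p q, d a p q = δ a (s q * T.xi l * T.tau (s p)) := fun a p q => rfl
  have hR : T'.IsWeyl (Res f (T.W l)) := Tri.IsWeyl.res f H (absF_weyl T l)
  have hD : T'.D1 (Res f (T.W l)) (Res f (T.W l)) := Tri.IsWeyl.d1 hR hR
  have hmk : ∀ (a : A) (p : T.W l),
      (Submodule.Quotient.mk (s (a • p)) : T.W l) = Submodule.Quotient.mk (a * s p) := by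
    intro a p
    rw [hs, ← smul_eq_mul, Submodule.Quotient.mk_smul, hs]
  have hder : ∀ (a b : L) (p q : T.W l), d (a * b) p q = d a p (f b • q) +
      d b (f (T'.tau a) • p) q := by
    intro a b p q
    rw [hd, hd, hd, hδ]
    rw [key (δ a) (h0 a) (s (f b • q)) (f b * s q) (s p) (s p) (hmk _ _) rfl,
      key (δ b) (h0 b) (s q) (s q) (s (f (T'.tau a) • p)) (f (T'.tau a) * s p) rfl (hmk _ _),
      T.tau_mul, hf, T.tau_tau, add_comm]
    simp only [mul_assoc]
  obtain ⟨β, hβ⟩ := hD d hder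
  have hβ' : ∀ (a : L) (p q : T.W l), d a p q = β (f (T'.tau a) • p : T.W l) q -
      β p (f a • q : T.W l) := hβ
  obtain ⟨φ, hφ, hφ'⟩ := Tri.cell_ext f l hE (LinearMap.flip β)
  refine ⟨φ, hφ, ?_⟩
  intro a x z
  obtain ⟨y, rfl⟩ : ∃ y, z = T.tau y := ⟨T.tau z, (T.tau_tau z).symm⟩
  have h1 : δ a (x * T.xi l * T.tau y) =
      d a (Submodule.Quotient.mk y) (Submodule.Quotient.mk x) := by
    rw [hd]
    exact key (δ a) (h0 a) _ _ _ _ (hs _).symm (hs _).symm
  have h2 : x * T.xi l * T.tau y * f a = x * T.xi l * T.tau (T.tau (f a) * y) := by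
    rw [T.tau_mul, T.tau_tau, mul_assoc]
  have h3 : f a * (x * T.xi l * T.tau y) = (f a * x) * T.xi l * T.tau y := by
    simp only [mul_assoc]
  rw [h1, hβ', h2, h3, hφ', hφ', hf]
  rfl

/-- derivations into the dual of a quotient of `A` by an ideal of an upper set are inner. -/
theorem Tri.deriv_inner {T : Tri F A Λ} {T' : Tri F L Λ'} [Module.Finite F A] [Module.Finite F L]
    (f : L →ₐ[F] A) (hf : ∀ a, f (T'.tau a) = T.tau (f a))
    (H : ∀ l, T.xi l ∉ Jup (F := F) T.xi l → ∃ (E : Type) (_ : AddCommGroup E) (_ : Module A E)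
      (_ : Module F E) (_ : IsScalarTower F A E), T.Test T' f l E)
    (U : Set Λ) (hU : ∀ l m, l ∈ U → l ≤ m → m ∈ U)
    (δ : L →ₗ[F] A →ₗ[F] F)
    (h0 : ∀ a, ∀ l ∈ U, ∀ x y, δ a (x * T.xi l * y) = 0)
    (hδ : ∀ a b s, δ (a * b) s = δ b (s * f a) + δ a (f b * s)) :
    ∃ φ : A →ₗ[F] F, (∀ l ∈ U, ∀ x y, φ (x * T.xi l * y) = 0) ∧
      ∀ a s, δ a s = φ (s * f a) - φ (f a * s) := by
  classical
  -- the claim for an upper set
  obtain ⟨P, hP⟩ : ∃ P : Set Λ → Prop, P = fun V => U ⊆ V ∧ (∀ l m, l ∈ V → l ≤ m → m ∈ V) ∧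
      ∃ φ : A →ₗ[F] F, (∀ l ∈ U, ∀ x y, φ (x * T.xi l * y) = 0) ∧
        ∀ a, ∀ l ∈ V, ∀ x y, δ a (x * T.xi l * y) =
          φ (x * T.xi l * y * f a) - φ (f a * (x * T.xi l * y)) := ⟨_, rfl⟩
  have hPU : P U := by
    rw [hP]
    refine ⟨le_rfl, hU, 0, fun _ _ _ _ => rfl, fun a l hl x y => ?_⟩
    rw [h0 a l hl]
    simp
  have hstep : ∀ V, P V → V ≠ Set.univ → ∃ V', P V' ∧ V ⊂ V' := by
    intro V hV hne
    rw [hP] at hV
    obtain ⟨hUV, hup, φ, hφ, hφ'⟩ := hV
    obtain ⟨l0, hl0⟩ := (Set.ne_univ_iff_exists_notMem V).mp hne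
    obtain ⟨l, hl, hmax⟩ := Set.exists_max_image Vᶜ id (Set.toFinite _) ⟨l0, hl0⟩
    have hV : ∀ m, m ∈ V ↔ l < m := by
      intro m
      constructor
      · intro hm
        by_contra hlm
        exact hl (hup m l hm (not_lt.mp hlm))
      · intro hlm
        by_contra hm
        exact absurd (hmax m hm) (not_le.mpr hlm)
    -- the inner derivation of `φ`
    let ι : L →ₗ[F] A →ₗ[F] F :=
      ((LinearMap.mul F A).flip.compr₂ φ - (LinearMap.mul F A).compr₂ φ) ∘ₗ f.toLinearMap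
    have hι : ∀ a s, ι a s = φ (s * f a) - φ (f a * s) := fun a s => rfl
    obtain ⟨φ', h1, h2⟩ := absF_step f hf H l (δ - ι) (by
      intro a s hs
      rw [LinearMap.sub_apply, LinearMap.sub_apply, sub_eq_zero]
      refine Submodule.span_induction (p := fun y _ => δ a y = ι a y) ?_ ?_ ?_ ?_ hs
      · rintro y ⟨m, x, z, hm, rfl⟩
        rw [hι]
        exact hφ' a m ((hV m).mpr hm) x z
      · rw [map_zero, map_zero]
      · intro y z _ _ hy hz
        rw [map_add, map_add, hy, hz]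
      · intro r y _ hy
        rw [map_smul, map_smul, hy]) (by
      intro a b s
      simp only [LinearMap.sub_apply, hι, hδ, map_mul]
      simp only [mul_assoc]
      ring)
    have hJ : ∀ m, l < m → ∀ x y : A, x * T.xi m * y ∈ Jup (F := F) T.xi l := fun m hm x y =>
      Submodule.subset_span ⟨m, x, y, hm, rfl⟩
    refine ⟨V ∪ {l}, ?_, ?_⟩
    · rw [hP]
      refine ⟨hUV.trans Set.subset_union_left, ?_, φ + φ', ?_, ?_⟩
      · rintro m m' (hm | hm) hmm
        · exact Or.inl (hup m m' hm hmm)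
        · rw [Set.mem_singleton_iff] at hm
          subst hm
          rcases hmm.eq_or_lt with rfl | hlt
          · exact Or.inr rfl
          · exact Or.inl ((hV m').mpr hlt)
      · intro m hm x y
        rw [LinearMap.add_apply, hφ m hm, h1 _ (hJ m ((hV m).mp (hUV hm)) x y), add_zero]
      · rintro a m (hm | hm) x y
        · rw [hφ' a m hm, LinearMap.add_apply, LinearMap.add_apply,
            h1 _ (absF_mul_right _ (hJ m ((hV m).mp hm) x y)),
            h1 _ (absF_mul_left _ (hJ m ((hV m).mp hm) x y)), add_zero, add_zero]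
        · rw [Set.mem_singleton_iff] at hm
          subst hm
          have h3 := h2 a x y
          rw [LinearMap.sub_apply, LinearMap.sub_apply, hι] at h3
          rw [LinearMap.add_apply, LinearMap.add_apply]
          linear_combination h3
    · refine ⟨Set.subset_union_left, fun h => ?_⟩
      exact hl (h (Or.inr rfl))
  have huniv : P Set.univ := by
    by_contra hcon
    have : ∀ n : ℕ, ∃ V, P V ∧ n ≤ V.ncard := by
      intro n
      induction n with
      | zero => exact ⟨U, hPU, Nat.zero_le _⟩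
      | succ n ih =>
        obtain ⟨V, hV, hn⟩ := ih
        obtain ⟨V', hV', hlt⟩ := hstep V hV (fun h => hcon (h ▸ hV))
        exact ⟨V', hV', hn.trans_lt (Set.ncard_lt_ncard hlt (Set.toFinite _))⟩
    obtain ⟨V, -, hn⟩ := this (Fintype.card Λ + 1)
    have h2 := Set.ncard_le_ncard (Set.subset_univ V) (Set.toFinite _)
    rw [Set.ncard_univ, Nat.card_eq_fintype_card] at h2
    omega
  rw [hP] at huniv
  obtain ⟨-, -, φ, h1, h2⟩ := huniv
  refine ⟨φ, h1, ?_⟩
  intro a s
  have h3 : s = ∑ l, s * T.xi l * 1 := by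
    rw [← Finset.sum_mul, ← Finset.mul_sum, T.sum_xi, mul_one, mul_one]
  rw [h3, Finset.sum_mul, Finset.mul_sum, map_sum, map_sum, map_sum, ← Finset.sum_sub_distrib]
  exact Finset.sum_congr rfl fun l _ => h2 a l (Set.mem_univ l) s 1

end H34.Kem
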