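import Pool.Agent.H34.Kem.AbsB

namespace H34.Kem

variable {F A L Λ Λ' : Type} [Field F] [Ring A] [Algebra F A] [LinearOrder Λ] [Fintype Λ]
  [Ring L] [Algebra F L] [LinearOrder Λ'] [Fintype Λ']

/-- restriction of scalars along an algebra homomorphism -/
def Res (_f : L →ₐ[F] A) (X : Type) : Type := X

instance (f : L →ₐ[F] A) (X : Type) [h : AddCommGroup X] : AddCommGroup (Res f X) := h

instance (f : L →ₐ[F] A) (X : Type) [AddCommGroup X] [Module A X] : Module L (Res f X) :=
  Module.compHom X (f : L →+* A)

instance (f : L →ₐ[F] A) (X : Type) [AddCommGroup X] [h : Module F X] : Module F (Res f X) := h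

theorem res_smul (f : L →ₐ[F] A) (X : Type) [AddCommGroup X] [Module A X] (a : L) (x : X) :
    (a • (show Res f X from x) : Res f X) = (show Res f X from f a • x) := rfl

instance (f : L →ₐ[F] A) (X : Type) [AddCommGroup X] [Module A X] [Module F X]
    [IsScalarTower F A X] : IsScalarTower F L (Res f X) where
  smul_assoc c a x := by
    change (f (c • a)) • (show X from x) = c • (f a • (show X from x))
    rw [map_smul, smul_assoc]

/-- The test modules which control restriction and the cells. -/
structure Tri.Test (T : Tri F A Λ) (T' : Tri F L Λ') (f : L →ₐ[F] A) (l : Λ) (E : Type)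
    [AddCommGroup E] [Module A E] [Module F E] [IsScalarTower F A E] : Prop where
  weylA : T.IsWeyl E
  weylL : T'.IsWeyl (Res f E)
  top : ∀ m, l < m → ∀ x : E, T.xi m • x = 0
  vec : ∃ v : E, v ≠ 0 ∧ T.xi l • v = v ∧ ∀ x : E, ∃ c : F, T.xi l • x = c • v
  form : ∃ B : E →ₗ[F] E →ₗ[F] F, (∀ a x y, B (a • x) y = B x (T.tau a • y)) ∧
    ∀ x, (∀ y, B x y = 0) → x = 0

/-- a submodule, viewed after restriction -/
def AbsR_sub (f : L →ₐ[F] A) {X : Type} [AddCommGroup X] [Module A X] (N : Submodule A X) :
    Submodule L (Res f X) where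
  carrier := {x | (show X from x) ∈ N}
  add_mem' := fun ha hb => N.add_mem ha hb
  zero_mem' := N.zero_mem
  smul_mem' := fun c _ hx => N.smul_mem (f c) hx

/-- a linear map, viewed after restriction -/
def AbsR_map (f : L →ₐ[F] A) {X Y : Type} [AddCommGroup X] [Module A X] [AddCommGroup Y]
    [Module A Y] (g : X →ₗ[A] Y) : Res f X →ₗ[L] Res f Y where
  toFun := fun x => (show Res f Y from g (show X from x))
  map_add' := fun x y => g.map_add x y
  map_smul' := fun c x => g.map_smul (f c) x

/-- a linear equivalence, viewed after restriction -/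
def AbsR_equiv (f : L →ₐ[F] A) {X Y : Type} [AddCommGroup X] [Module A X] [AddCommGroup Y]
    [Module A Y] (g : X ≃ₗ[A] Y) : Res f X ≃ₗ[L] Res f Y where
  toFun := fun x => (show Res f Y from g (show X from x))
  map_add' := fun x y => g.map_add x y
  map_smul' := fun c x => g.map_smul (f c) x
  invFun := fun y => (show Res f X from g.symm (show Y from y))
  left_inv := fun x => g.symm_apply_apply x
  right_inv := fun y => g.apply_symm_apply y

/-- the restriction of a submodule -/
def AbsR_subEquiv (f : L →ₐ[F] A) {X : Type} [AddCommGroup X] [Module A X] (N : Submodule A X) :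
    Res f N ≃ₗ[L] AbsR_sub f N where
  toFun := fun x => ⟨(show X from (show N from x).1), (show N from x).2⟩
  map_add' := fun _ _ => rfl
  map_smul' := fun _ _ => rfl
  invFun := fun y => (show N from ⟨(show X from y.1), y.2⟩)
  left_inv := fun _ => rfl
  right_inv := fun _ => rfl

theorem AbsR_map_surjective (f : L →ₐ[F] A) {X : Type} [AddCommGroup X] [Module A X]
    (N : Submodule A X) : Function.Surjective (AbsR_map f N.mkQ) := by
  intro y
  obtain ⟨x, hx⟩ := N.mkQ_surjective (show X ⧸ N from y)
  exact ⟨(show Res f X from x), hx⟩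

theorem AbsR_ker (f : L →ₐ[F] A) {X : Type} [AddCommGroup X] [Module A X]
    (N : Submodule A X) : LinearMap.ker (AbsR_map f N.mkQ) = AbsR_sub f N := by
  ext x
  rw [LinearMap.mem_ker]
  change N.mkQ (show X from x) = 0 ↔ (show X from x) ∈ N
  rw [Submodule.mkQ_apply, Submodule.Quotient.mk_eq_zero]

/-- the restriction of a quotient -/
noncomputable def AbsR_quotEquiv (f : L →ₐ[F] A) {X : Type} [AddCommGroup X] [Module A X]
    (N : Submodule A X) : (Res f X ⧸ AbsR_sub f N) ≃ₗ[L] Res f (X ⧸ N) :=
  (Submodule.quotEquivOfEq _ _ (AbsR_ker f N).symm).trans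
    (LinearMap.quotKerEquivOfSurjective (AbsR_map f N.mkQ) (AbsR_map_surjective f N))

/-- A Weyl module whose idempotent is in the upper ideal is zero. -/
theorem AbsR_W_zero (T : Tri F A Λ) (l : Λ) (h : T.xi l ∈ Jup (F := F) T.xi l) :
    Subsingleton (T.W l) := by
  have h1 : (1 : A) ∈ T.I l := by
    change (1 : A) * T.xi l ∈ Jup (F := F) T.xi l
    rwa [one_mul]
  have h2 : T.I l = ⊤ := by
    rw [eq_top_iff]
    intro x _
    have := (T.I l).smul_mem x h1
    rwa [smul_eq_mul, mul_one] at this
  exact Submodule.Quotient.subsingleton_iff.2 h2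

/-- the generator -/
theorem AbsR_gen (T : Tri F A Λ) (l : Λ) (h : T.xi l ∉ Jup (F := F) T.xi l) :
    T.xi l • (Submodule.Quotient.mk (1 : A) : T.W l) ≠ 0 := by
  intro h0
  rw [← Submodule.Quotient.mk_smul, Submodule.Quotient.mk_eq_zero] at h0
  have h1 : (T.xi l • (1 : A)) * T.xi l ∈ Jup (F := F) T.xi l := h0
  rw [smul_eq_mul, mul_one, T.idem] at h1
  exact h h1

/-- The main induction: if the Weyl modules of the weights of `Y` restrict to filtered modules then
so does `Y`. -/
theorem AbsR_lemma {T : Tri F A Λ} {T' : Tri F L Λ'} (f : L →ₐ[F] A)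
    {Y : Type} [AddCommGroup Y] [Module A Y] (h : T.IsWeyl Y)
    (hP : ∀ m, (∃ y : Y, T.xi m • y ≠ 0) → T'.IsWeyl (Res f (T.W m))) :
    T'.IsWeyl (Res f Y) := by
  induction h with
  | zero X h => exact Tri.IsWeyl.zero _ h
  | step X l N e h ih =>
    have h1 : T'.IsWeyl (Res f (X ⧸ N)) := by
      apply ih
      rintro m ⟨y, hy⟩
      apply hP
      obtain ⟨x, rfl⟩ := Submodule.Quotient.mk_surjective N y
      refine ⟨x, fun h0 => hy ?_⟩
      rw [← Submodule.Quotient.mk_smul, h0, Submodule.Quotient.mk_zero]
    have h2 : T'.IsWeyl (Res f (T.W l)) := by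
      by_cases hl : T.xi l ∈ Jup (F := F) T.xi l
      · exact Tri.IsWeyl.zero _ (AbsR_W_zero T l hl)
      · apply hP
        refine ⟨(e (Submodule.Quotient.mk (1 : A)) : N).1, fun h0 => AbsR_gen T l hl ?_⟩
        have h3 : T.xi l • e (Submodule.Quotient.mk (1 : A)) = 0 := by
          apply Subtype.ext
          exact h0
        rw [← e.map_smul] at h3
        exact (LinearEquiv.map_eq_zero_iff e).1 h3
    have h3 : T'.IsWeyl (AbsR_sub f N) :=
      h2.equiv ((AbsR_equiv f e).trans (AbsR_subEquiv f N))
    exact Tri.IsWeyl.ext (AbsR_sub f N) h3 (h1.equiv (AbsR_quotEquiv f N).symm)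

/-- restriction of filtered modules. -/
theorem Tri.IsWeyl.res {T : Tri F A Λ} {T' : Tri F L Λ'} [Module.Finite F A] [Module.Finite F L]
    (f : L →ₐ[F] A)
    (H : ∀ l, T.xi l ∉ Jup (F := F) T.xi l → ∃ (E : Type) (_ : AddCommGroup E) (_ : Module A E)
      (_ : Module F E) (_ : IsScalarTower F A E), T.Test T' f l E)
    {X : Type} [AddCommGroup X] [Module A X] (h : T.IsWeyl X) : T'.IsWeyl (Res f X) := by
  have key : ∀ l, T'.IsWeyl (Res f (T.W l)) := by
    intro l
    induction l using WellFoundedLT.induction with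
    | ind l ih =>
      by_cases hl : T.xi l ∈ Jup (F := F) T.xi l
      · exact Tri.IsWeyl.zero _ (AbsR_W_zero T l hl)
      · obtain ⟨E, i1, i2, i3, i4, hE⟩ := H l hl
        obtain ⟨v, hv0, hv, hc⟩ := hE.vec
        obtain ⟨⟨e⟩, hK⟩ := hE.weylA.top l hE.top v hv hv0
        have h1 : T'.IsWeyl (Res f (E ⧸ Submodule.span A {v})) := by
          apply AbsR_lemma f hK
          rintro m ⟨y, hy⟩
          apply ih
          obtain ⟨x, rfl⟩ := Submodule.Quotient.mk_surjective _ y
          rw [← Submodule.Quotient.mk_smul, Ne, Submodule.Quotient.mk_eq_zero] at hy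
          rcases lt_trichotomy m l with h2 | h2 | h2
          · exact h2
          · exfalso
            subst h2
            apply hy
            obtain ⟨c, hc'⟩ := hc x
            rw [hc', ← algebraMap_smul A c v]
            exact Submodule.smul_mem _ _ (Submodule.mem_span_singleton_self v)
          · exfalso
            apply hy
            rw [hE.top m h2 x]
            exact Submodule.zero_mem _
        have h2 := Tri.IsWeyl.ker hE.weylL h1 (AbsR_map f (Submodule.mkQ (Submodule.span A {v})))
          (AbsR_map_surjective f _)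
        have h3 : T'.IsWeyl (AbsR_sub f (Submodule.span A {v})) :=
          h2.equiv (LinearEquiv.ofEq _ _ (AbsR_ker f _))
        exact h3.equiv ((AbsR_subEquiv f _).symm.trans (AbsR_equiv f e.symm))
  exact AbsR_lemma f h (fun m _ => key m)

end H34.Kem
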