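import Pool.Agent.H34.Kem.Defs

/-!
Basic facts about the invariant matrices and alternating functions.
-/

namespace H34.Kem

open Finset Equiv

variable {R : Type} [CommRing R] {M q n : ℕ}

theorem orb_apply_iff (w w' a a' : Wd M n) :
    orb R w w' a a' = 1 ∧ (∃ σ : Perm (Fin n), a = w ∘ σ ∧ a' = w' ∘ σ) ∨
      orb R w w' a a' = 0 ∧ ¬ (∃ σ : Perm (Fin n), a = w ∘ σ ∧ a' = w' ∘ σ) := by
  classical
  unfold orb
  by_cases h : ∃ σ : Perm (Fin n), a = w ∘ σ ∧ a' = w' ∘ σ
  · left; simp [h]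
  · right; simp [h]

/-- simultaneous rearrangements are detected by counting pairs. -/
theorem exists_perm_iff {α β : Type} [DecidableEq α] [DecidableEq β] (w a : Fin n → α)
    (w' a' : Fin n → β) : (∃ σ : Perm (Fin n), a = w ∘ σ ∧ a' = w' ∘ σ) ↔
      ∀ i j, (univ.filter fun p => a p = i ∧ a' p = j).card =
        (univ.filter fun p => w p = i ∧ w' p = j).card := by
  sorry

theorem orb_mem {b : Fin M → ℕ} {w w' : Wd M n} (h : b ∘ w = b ∘ w') : orb R w w' ∈ LB R n b := by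
  sorry

theorem orb_comp (w w' : Wd M n) (σ : Perm (Fin n)) : orb R (w ∘ σ) (w' ∘ σ) = orb R w w' := by
  sorry

theorem orb_transpose (w w' : Wd M n) : (orb R w w').transpose = orb R w' w := by
  sorry

theorem transpose_mem {b : Fin M → ℕ} {X : Matrix (Wd M n) (Wd M n) R} (h : X ∈ LB R n b) :
    X.transpose ∈ LB R n b := by
  sorry

/-- the orbit indicators span. -/
theorem LB_span {b : Fin M → ℕ} {X : Matrix (Wd M n) (Wd M n) R} (h : X ∈ LB R n b) :
    X ∈ Submodule.span R {Z | ∃ w w' : Wd M n, b ∘ w = b ∘ w' ∧ Z = orb R w w'} := by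
  sorry

theorem LB_le (b : Fin M → ℕ) : LB R n b ≤ LB R n (fun _ => 0) := by
  rintro X ⟨h1, _⟩
  exact ⟨h1, fun w w' _ => rfl⟩

theorem xiM_mem (b : Fin M → ℕ) (η : Fin M → ℕ) : xiM R n η ∈ LB R n b := by
  sorry

theorem xiM_mul_orb (η : Fin M → ℕ) (w w' : Wd M n) :
    xiM R n η * orb R w w' = if cnt w = η then orb R w w' else 0 := by
  sorry

theorem orb_mul_xiM (η : Fin M → ℕ) (w w' : Wd M n) :
    orb R w w' * xiM R n η = if cnt w' = η then orb R w w' else 0 := by
  sorry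

/-- permutations of the letters. -/
def permM (R : Type) [CommRing R] (n : ℕ) (π : Perm (Fin M)) : Matrix (Wd M n) (Wd M n) R :=
  fun w w' => if w = π ∘ w' then 1 else 0

theorem permM_mem {b : Fin M → ℕ} {π : Perm (Fin M)} (h : ∀ i, b (π i) = b i) :
    permM R n π ∈ LB R n b := by
  sorry

theorem permM_mul (π π' : Perm (Fin M)) : permM R n π * permM R n π' = permM R n (π * π') := by
  sorry

theorem permM_one : permM R n (1 : Perm (Fin M)) = 1 := by
  sorry

theorem permM_mul_orb (π : Perm (Fin M)) (w w' : Wd M n) :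
    permM R n π * orb R w w' = orb R (π ∘ w) w' := by
  sorry

theorem orb_mul_permM (π : Perm (Fin M)) (w w' : Wd M n) :
    orb R w w' * permM R n π = orb R w (π.symm ∘ w') := by
  sorry

theorem IsAlt.smul {X : Matrix (Wd M n) (Wd M n) R} (hX : X ∈ LB R n (fun _ : Fin M => 0))
    {Φ : FW R M q n} (h : IsAlt Φ) : IsAlt (X • Φ) := by
  sorry

theorem IsCol.smul {X : Matrix (Wd M n) (Wd M n) R} {δ : Fin q → ℕ}
    {Φ : FW R M q n} (h : IsCol δ Φ) : IsCol δ (X • Φ) := by
  sorry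

theorem isAlt_eW (w : Wd M n) (x : Wd q n) : IsAlt (eW R w x) := by
  sorry

theorem isCol_eW (w : Wd M n) (x : Wd q n) : IsCol (cnt x) (eW R w x) := by
  sorry

theorem eW_comp (w : Wd M n) (x : Wd q n) (σ : Perm (Fin n)) :
    eW R (w ∘ σ) (x ∘ σ) = (Perm.sign σ : ℤ) • eW R w x := by
  sorry

/-- alternating functions are combinations of the basic ones in their support. -/
theorem alt_span {Φ : FW R M q n} (h : IsAlt Φ) :
    Φ ∈ Submodule.span R {Ψ | ∃ w x, Φ w x ≠ 0 ∧ Ψ = eW R w x} := by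
  sorry

theorem xiM_smul (η : Fin M → ℕ) (Φ : FW R M q n) (w : Wd M n) (x : Wd q n) :
    (xiM R n η • Φ) w x = if cnt w = η then Φ w x else 0 := by
  sorry

open Classical in
theorem orb_smul_eW (u r w : Wd M n) (c x : Wd q n) :
    (orb R u r • eW R r c) w x = ∑ σ : Perm (Fin n),
      if x = c ∘ σ ∧ (∃ τ : Perm (Fin n), w = u ∘ τ ∧ r ∘ σ = r ∘ τ) then
        ((Perm.sign σ : ℤ) : R) else 0 := by
  sorry

/-- diagrams can be numbered. -/
theorem exists_diag (l : Fin M → ℕ) (hn : ∑ i, l i = n) (hq : ∀ i, l i ≤ q) :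
    ∃ (r : Wd M n) (c : Wd q n), IsDiag l r c := by
  sorry

theorem IsDiag.cnt {l : Fin M → ℕ} {r : Wd M n} {c : Wd q n} (h : IsDiag l r c) : cnt r = l := by
  sorry

end H34.Kem
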