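import Pool.Agent.H34.Kem.ZubDefs

namespace H34.Kem

open Finset Equiv

variable {𝔹 : Type} [Ring 𝔹] {𝔫 : AddSubgroup 𝔹} {k : ℕ}

namespace BigDAux

/-- block matrix. -/
def blk (p : 𝔹) (q r : Fin k → 𝔹) (S : Matrix (Fin k) (Fin k) 𝔹) :
    Matrix (Fin (k + 1)) (Fin (k + 1)) 𝔹 :=
  Matrix.of (Fin.cons (Fin.cons p q) fun i => Fin.cons (r i) (S i))

omit [Ring 𝔹] in
@[simp] theorem blk_zz (p : 𝔹) (q r : Fin k → 𝔹) (S : Matrix (Fin k) (Fin k) 𝔹) :
    blk p q r S 0 0 = p := rfl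

omit [Ring 𝔹] in
@[simp] theorem blk_zs (p : 𝔹) (q r : Fin k → 𝔹) (S : Matrix (Fin k) (Fin k) 𝔹) (j : Fin k) :
    blk p q r S 0 j.succ = q j := rfl

omit [Ring 𝔹] in
@[simp] theorem blk_sz (p : 𝔹) (q r : Fin k → 𝔹) (S : Matrix (Fin k) (Fin k) 𝔹) (i : Fin k) :
    blk p q r S i.succ 0 = r i := rfl

omit [Ring 𝔹] in
@[simp] theorem blk_ss (p : 𝔹) (q r : Fin k → 𝔹) (S : Matrix (Fin k) (Fin k) 𝔹) (i j : Fin k) :
    blk p q r S i.succ j.succ = S i j := rfl

omit [Ring 𝔹] in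
theorem eq_blk (M : Matrix (Fin (k + 1)) (Fin (k + 1)) 𝔹) :
    M = blk (M 0 0) (fun j => M 0 j.succ) (fun i => M i.succ 0) (fun i j => M i.succ j.succ) := by
  ext i j
  refine Fin.cases ?_ (fun i => ?_) i <;> refine Fin.cases ?_ (fun j => ?_) j <;> simp

theorem blk_mul (p p' : 𝔹) (q r q' r' : Fin k → 𝔹) (S S' : Matrix (Fin k) (Fin k) 𝔹) :
    blk p' q' r' S' * blk p q r S =
      blk (p' * p + ∑ l, q' l * r l) (fun j => p' * q j + ∑ l, q' l * S l j)
        (fun i => r' i * p + ∑ l, S' i l * r l)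
        (Matrix.of fun i j => r' i * q j + ∑ l, S' i l * S l j) := by
  ext i j
  refine Fin.cases ?_ (fun i => ?_) i <;> refine Fin.cases ?_ (fun j => ?_) j <;>
    simp [Matrix.mul_apply, Fin.sum_univ_succ]

theorem blk_one : (1 : Matrix (Fin (k + 1)) (Fin (k + 1)) 𝔹) = blk 1 0 0 1 := by
  ext i j
  refine Fin.cases ?_ (fun i => ?_) i <;> refine Fin.cases ?_ (fun j => ?_) j <;>
    simp [Matrix.one_apply]
  · intro h; exact absurd h.symm (Fin.succ_ne_zero _)

theorem bigdet_zero (M : Matrix (Fin 0) (Fin 0) 𝔹) : bigdet M = 1 := rfl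

/-- Schur complement. -/
def sc (c : 𝔹) (q r : Fin k → 𝔹) (S : Matrix (Fin k) (Fin k) 𝔹) : Matrix (Fin k) (Fin k) 𝔹 :=
  Matrix.of fun i j => S i j - r i * c * q j

/-- rank one perturbation of one. -/
def rk (r a : Fin k → 𝔹) : Matrix (Fin k) (Fin k) 𝔹 :=
  Matrix.of fun i j => (1 : Matrix (Fin k) (Fin k) 𝔹) i j + r i * a j

theorem sc_apply (c : 𝔹) (q r : Fin k → 𝔹) (S : Matrix (Fin k) (Fin k) 𝔹) (i j : Fin k) :
    sc c q r S i j = S i j - r i * c * q j := rfl

theorem rk_apply (r a : Fin k → 𝔹) (i j : Fin k) :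
    rk r a i j = (1 : Matrix (Fin k) (Fin k) 𝔹) i j + r i * a j := rfl

theorem sc_zero (c : 𝔹) (r : Fin k → 𝔹) (S : Matrix (Fin k) (Fin k) 𝔹) : sc c 0 r S = S := by
  ext i j
  simp [sc_apply]

theorem sc_zero' (c : 𝔹) (q : Fin k → 𝔹) (S : Matrix (Fin k) (Fin k) 𝔹) : sc c q 0 S = S := by
  ext i j
  simp [sc_apply]

theorem bigdet_blk (p : 𝔹) (q r : Fin k → 𝔹) (S : Matrix (Fin k) (Fin k) 𝔹) :
    bigdet (blk p q r S) = p * bigdet (sc (Ring.inverse p) q r S) := rfl

theorem bigdet_succ (M : Matrix (Fin (k + 1)) (Fin (k + 1)) 𝔹) :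
    bigdet M = M 0 0 * bigdet (sc (Ring.inverse (M 0 0)) (fun j => M 0 j.succ)
      (fun i => M i.succ 0) (Matrix.of fun i j => M i.succ j.succ)) := rfl

theorem bigdet_one : ∀ k : ℕ, bigdet (1 : Matrix (Fin k) (Fin k) 𝔹) = 1
  | 0 => rfl
  | k + 1 => by
    rw [blk_one, bigdet_blk, one_mul, sc_zero]
    exact bigdet_one k

/-- congruent to one. -/
def One (𝔫 : AddSubgroup 𝔹) (p : 𝔹) : Prop := p - 1 ∈ 𝔫

section

variable (hn : IsIdl 𝔫) (hu : ∀ x ∈ 𝔫, IsUnit (1 + x))

include hn in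
theorem smem {ι : Type} (s : Finset ι) {f g : ι → 𝔹} (h : ∀ i, f i ∈ 𝔫 ∨ g i ∈ 𝔫) :
    ∑ i ∈ s, f i * g i ∈ 𝔫 := by
  refine AddSubgroup.sum_mem _ fun i _ => ?_
  rcases h i with h | h
  · exact hn.right _ _ h
  · exact hn.left _ _ h

include hu in
theorem One.unit {p : 𝔹} (h : One 𝔫 p) : IsUnit p := by
  have := hu _ h
  simpa using this

include hu in
theorem One.mul_inv {p : 𝔹} (h : One 𝔫 p) : p * Ring.inverse p = 1 :=
  Ring.mul_inverse_cancel _ (h.unit hu)

include hu in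
theorem One.inv_mul {p : 𝔹} (h : One 𝔫 p) : Ring.inverse p * p = 1 :=
  Ring.inverse_mul_cancel _ (h.unit hu)

include hn hu in
theorem One.inv {p : 𝔹} (h : One 𝔫 p) : One 𝔫 (Ring.inverse p) := by
  have h1 : Ring.inverse p - 1 = -(Ring.inverse p * (p - 1)) := by
    rw [mul_sub, h.inv_mul hu]; simp
  unfold One
  rw [h1]
  exact neg_mem (hn.left _ _ h)

include hn in
theorem One.mul {p q : 𝔹} (h : One 𝔫 p) (h' : One 𝔫 q) : One 𝔫 (p * q) := by
  have h1 : p * q - 1 = (p - 1) * q + (q - 1) := by noncomm_ring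
  unfold One
  rw [h1]
  exact add_mem (hn.right _ _ h) h'

theorem One.add {p x : 𝔹} (h : One 𝔫 p) (hx : x ∈ 𝔫) : One 𝔫 (p + x) := by
  have h1 : p + x - 1 = (p - 1) + x := by abel
  unfold One
  rw [h1]
  exact add_mem h hx

theorem One.sub {p x : 𝔹} (h : One 𝔫 p) (hx : x ∈ 𝔫) : One 𝔫 (p - x) := by
  rw [sub_eq_add_neg]
  exact h.add (neg_mem hx)

theorem One.one : One 𝔫 (1 : 𝔹) := by
  unfold One
  simp

theorem in1_blk_iff {p : 𝔹} {q r : Fin k → 𝔹} {S : Matrix (Fin k) (Fin k) 𝔹} :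
    In1 𝔫 (blk p q r S) ↔ One 𝔫 p ∧ (∀ j, q j ∈ 𝔫) ∧ (∀ i, r i ∈ 𝔫) ∧ In1 𝔫 S := by
  constructor
  · intro h
    refine ⟨?_, fun j => ?_, fun i => ?_, fun i j => ?_⟩
    · have := h 0 0
      simpa [One] using this
    · have := h 0 j.succ
      rw [Matrix.sub_apply, Matrix.one_apply_ne (Fin.succ_ne_zero _).symm] at this
      simpa using this
    · have := h i.succ 0
      rw [Matrix.sub_apply, Matrix.one_apply_ne (Fin.succ_ne_zero _)] at this
      simpa using this
    · have := h i.succ j.succ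
      rw [Matrix.sub_apply] at this ⊢
      rw [Matrix.one_apply] at this ⊢
      simpa using this
  · rintro ⟨h1, h2, h3, h4⟩ i j
    refine Fin.cases ?_ (fun i => ?_) i <;> refine Fin.cases ?_ (fun j => ?_) j
    · simpa [One] using h1
    · rw [Matrix.sub_apply, Matrix.one_apply_ne (Fin.succ_ne_zero _).symm]
      simpa using h2 j
    · rw [Matrix.sub_apply, Matrix.one_apply_ne (Fin.succ_ne_zero _)]
      simpa using h3 i
    · have := h4 i j
      rw [Matrix.sub_apply] at this ⊢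
      rw [Matrix.one_apply] at this ⊢
      simpa using this

theorem in1_sub {S : Matrix (Fin k) (Fin k) 𝔹} {T : Fin k → Fin k → 𝔹} (hS : In1 𝔫 S)
    (hT : ∀ i j, T i j ∈ 𝔫) : In1 𝔫 (fun i j => S i j - T i j) := by
  intro i j
  change (S i j - T i j) - (1 : Matrix (Fin k) (Fin k) 𝔹) i j ∈ 𝔫
  have : (S i j - T i j) - (1 : Matrix (Fin k) (Fin k) 𝔹) i j =
      (S i j - (1 : Matrix (Fin k) (Fin k) 𝔹) i j) - T i j := by abel
  rw [this]
  exact sub_mem (hS i j) (hT i j)

theorem in1_add {S : Matrix (Fin k) (Fin k) 𝔹} {T : Fin k → Fin k → 𝔹} (hS : In1 𝔫 S)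
    (hT : ∀ i j, T i j ∈ 𝔫) : In1 𝔫 (fun i j => S i j + T i j) := by
  intro i j
  change (S i j + T i j) - (1 : Matrix (Fin k) (Fin k) 𝔹) i j ∈ 𝔫
  have : (S i j + T i j) - (1 : Matrix (Fin k) (Fin k) 𝔹) i j =
      (S i j - (1 : Matrix (Fin k) (Fin k) 𝔹) i j) + T i j := by abel
  rw [this]
  exact add_mem (hS i j) (hT i j)

theorem in1_one : In1 𝔫 (1 : Matrix (Fin k) (Fin k) 𝔹) := by
  intro i j
  simp

include hn in
theorem in1_sc {q r : Fin k → 𝔹} {S : Matrix (Fin k) (Fin k) 𝔹} (c : 𝔹)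
    (hr : ∀ i, r i ∈ 𝔫) (hS : In1 𝔫 S) :
    In1 𝔫 (sc c q r S) :=
  in1_sub hS fun i _ => hn.right _ _ (hn.right _ _ (hr i))

include hn hu in
theorem bigdet_one' : ∀ (k : ℕ) (M : Matrix (Fin k) (Fin k) 𝔹), In1 𝔫 M → One 𝔫 (bigdet M)
  | 0, _, _ => One.one
  | k + 1, M, h => by
    rw [eq_blk M] at h ⊢
    rw [in1_blk_iff] at h
    obtain ⟨h1, h2, h3, h4⟩ := h
    rw [bigdet_blk]
    exact h1.mul hn (bigdet_one' k _ (in1_sc hn _ h3 h4))

end

section

variable (hn : IsIdl 𝔫) (hu : ∀ x ∈ 𝔫, IsUnit (1 + x)) {E : Type} [Monoid E]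
    (D : 𝔹 →* E) (hD : ∀ x y, D x * D y = D y * D x)

include hn hu hD in
theorem swap {u v : 𝔹} (hu' : u ∈ 𝔫) (hv : v ∈ 𝔫) : D (1 + u * v) = D (1 + v * u) := by
  -- first form
  have key : ∀ v ∈ 𝔫, D (1 + v + v * u) = D (1 + v + u * v) := by
    intro v hv
    have h1 : One 𝔫 (1 + u) := One.one.add hu'
    have e : (1 + u) * (1 + v + v * u) * Ring.inverse (1 + u) = 1 + v + u * v := by
      have : (1 + u) * (1 + v + v * u) = (1 + (1 + u) * v) * (1 + u) := by noncomm_ring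
      rw [this, mul_assoc, h1.mul_inv hu]
      noncomm_ring
    rw [← e, map_mul, map_mul, hD (1 + u), mul_assoc, ← map_mul, h1.mul_inv hu, map_one, mul_one]
  have hw : One 𝔫 (1 - v) := One.one.sub hv
  set w := Ring.inverse (1 - v) with hwdef
  have w1 : (1 - v) * w = 1 := hw.mul_inv hu
  have w2 : w * (1 - v) = 1 := hw.inv_mul hu
  have hvw : v * w = w - 1 := by
    have : w - v * w = 1 := by rw [← w1]; noncomm_ring
    rw [← this]; abel
  have hwv : w * v = w - 1 := by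
    have : w - w * v = 1 := by rw [← w2]; noncomm_ring
    rw [← this]; abel
  have k1 := key (v * w) (hn.right _ _ hv)
  have e1 : 1 + v * w + v * w * u = w * (1 + v * u) := by
    rw [hvw, mul_add, ← mul_assoc, hwv]; noncomm_ring
  have e2 : 1 + v * w + u * (v * w) = (1 + u * v) * w := by
    rw [add_mul, mul_assoc u v w, hvw]; noncomm_ring
  rw [e1, e2, map_mul, map_mul, hD w] at k1
  have k2 := congrArg (· * D (1 - v)) k1
  simp only [mul_assoc, ← map_mul, w2] at k2
  simpa using k2.symm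

/-- the two statements proved simultaneously. -/
def MulS (𝔫 : AddSubgroup 𝔹) (D : 𝔹 →* E) (k : ℕ) : Prop :=
  ∀ M M' : Matrix (Fin k) (Fin k) 𝔹, In1 𝔫 M → In1 𝔫 M' →
    D (bigdet (M * M')) = D (bigdet M) * D (bigdet M')

def CycS (𝔫 : AddSubgroup 𝔹) (D : 𝔹 →* E) (k : ℕ) : Prop :=
  ∀ r a : Fin k → 𝔹, (∀ i, r i ∈ 𝔫) → (∀ i, a i ∈ 𝔫) →
    D (bigdet (rk r a)) = D (1 + ∑ i, a i * r i)

include hn hu hD in
/-- left factor upper triangular. -/
theorem mulA (hm : MulS 𝔫 D k) (hc : CycS 𝔫 D k) {p : 𝔹} {q r q' : Fin k → 𝔹}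
    {S : Matrix (Fin k) (Fin k) 𝔹} (hM : In1 𝔫 (blk p q r S)) (hq' : ∀ i, q' i ∈ 𝔫) :
    D (bigdet (blk 1 q' 0 1 * blk p q r S)) = D (bigdet (blk p q r S)) := by
  rw [in1_blk_iff] at hM
  obtain ⟨hp, hq, hr, hS⟩ := hM
  set t := p + ∑ l, q' l * r l with ht
  have hsum : ∑ l, q' l * r l ∈ 𝔫 := smem hn _ fun i => Or.inl (hq' i)
  have ht1 : One 𝔫 t := hp.add hsum
  have e0 : blk (1 : 𝔹) q' 0 1 * blk p q r S =
      blk t (fun j => q j + ∑ l, q' l * S l j) r S := by
    rw [blk_mul]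
    congr 1
    · rw [one_mul]
    · ext j; rw [one_mul]
    · ext i; simp [Matrix.one_apply]
    · ext i j; simp [Matrix.one_apply]
  rw [e0, bigdet_blk, bigdet_blk]
  have hinv : Ring.inverse t * (∑ l, q' l * r l) * Ring.inverse p = Ring.inverse p - Ring.inverse t := by
    have : (∑ l, q' l * r l) = t - p := by rw [ht]; abel
    rw [this, mul_sub, ht1.inv_mul hu, sub_mul, one_mul, mul_assoc, hp.mul_inv hu, mul_one]
  have e1 : sc (Ring.inverse t) (fun j => q j + ∑ l, q' l * S l j) r S =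
      rk (fun i => -(r i * Ring.inverse t)) q' * sc (Ring.inverse p) q r S := by
    ext i j
    have s1 : ∑ m, (1 : Matrix (Fin k) (Fin k) 𝔹) i m * (S m j - r m * Ring.inverse p * q j) =
        S i j - r i * Ring.inverse p * q j := by
      simp [Matrix.one_apply]
    have s2 : ∑ m, (-(r i * Ring.inverse t)) * q' m * (S m j - r m * Ring.inverse p * q j) =
        -(r i * Ring.inverse t) * (∑ m, q' m * S m j) +
          r i * (Ring.inverse t * (∑ m, q' m * r m) * Ring.inverse p) * q j := by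
      have : ∀ m, (-(r i * Ring.inverse t)) * q' m * (S m j - r m * Ring.inverse p * q j) =
          -(r i * Ring.inverse t) * (q' m * S m j) +
            r i * Ring.inverse t * (q' m * r m) * (Ring.inverse p * q j) := by
        intro m; noncomm_ring
      rw [Finset.sum_congr rfl fun m _ => this m, Finset.sum_add_distrib, ← Finset.mul_sum,
        ← Finset.sum_mul, ← Finset.mul_sum]
      noncomm_ring
    rw [Matrix.mul_apply, sc_apply]
    simp only [rk_apply, sc_apply, add_mul, Finset.sum_add_distrib]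
    rw [s1, s2, hinv]
    noncomm_ring
  have hA : In1 𝔫 (rk (fun i => -(r i * Ring.inverse t)) q') :=
    in1_add in1_one fun i j => hn.left _ _ (hq' j)
  have hB : In1 𝔫 (sc (Ring.inverse p) q r S) :=
    in1_sc hn _ hr hS
  rw [e1, map_mul, hm _ _ hA hB, hc _ _ (fun i => neg_mem (hn.right _ _ (hr i))) hq']
  have e2 : t * (1 + ∑ i, q' i * -(r i * Ring.inverse t)) = t * (p * Ring.inverse t) := by
    have : ∑ i, q' i * -(r i * Ring.inverse t) = -((∑ i, q' i * r i) * Ring.inverse t) := by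
      rw [Finset.sum_mul, ← Finset.sum_neg_distrib]
      exact Finset.sum_congr rfl fun i _ => by noncomm_ring
    rw [this]
    have h2 : (∑ l, q' l * r l) = t - p := by rw [ht]; abel
    rw [h2, sub_mul, ht1.mul_inv hu]
    congr 1
    abel
  rw [← mul_assoc, ← map_mul, e2, map_mul, map_mul, map_mul D p (bigdet _), hD p, ← mul_assoc,
    ← map_mul, ht1.mul_inv hu, map_one, one_mul]

include hn hu hD in
/-- left factor lower triangular. -/
theorem mulB (hm : MulS 𝔫 D k) {p p' : 𝔹} {q r r' : Fin k → 𝔹}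
    {S S' : Matrix (Fin k) (Fin k) 𝔹} (hM : In1 𝔫 (blk p q r S)) (hM' : In1 𝔫 (blk p' 0 r' S')) :
    D (bigdet (blk p' 0 r' S' * blk p q r S)) =
      D (bigdet (blk p' 0 r' S')) * D (bigdet (blk p q r S)) := by
  rw [in1_blk_iff] at hM hM'
  obtain ⟨hp, hq, hr, hS⟩ := hM
  obtain ⟨hp', -, hr', hS'⟩ := hM'
  have e0 : blk p' 0 r' S' * blk p q r S =
      blk (p' * p) (fun j => p' * q j) (fun i => r' i * p + ∑ l, S' i l * r l)
        (Matrix.of fun i j => r' i * q j + ∑ l, S' i l * S l j) := by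
    rw [blk_mul]
    congr 1
    · simp
    · ext j; simp
  have hpp : Ring.inverse (p' * p) * p' = Ring.inverse p := by
    have h1 : One 𝔫 (p' * p) := hp'.mul hn hp
    calc Ring.inverse (p' * p) * p' = Ring.inverse (p' * p) * (p' * p) * Ring.inverse p := by
          rw [mul_assoc, mul_assoc p' p, hp.mul_inv hu, mul_one]
      _ = _ := by rw [h1.inv_mul hu, one_mul]
  rw [e0, bigdet_blk, bigdet_blk, bigdet_blk]
  have e1 : sc (Ring.inverse (p' * p)) (fun j => p' * q j)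
      (fun i => r' i * p + ∑ l, S' i l * r l)
      (Matrix.of fun i j => r' i * q j + ∑ l, S' i l * S l j) =
      S' * sc (Ring.inverse p) q r S := by
    ext i j
    rw [Matrix.mul_apply, sc_apply, Matrix.of_apply]
    have s1 : (r' i * p + ∑ l, S' i l * r l) * Ring.inverse (p' * p) * (p' * q j) =
        r' i * q j + ∑ l, S' i l * (r l * Ring.inverse p * q j) := by
      have : (r' i * p + ∑ l, S' i l * r l) * Ring.inverse (p' * p) * (p' * q j) =
          (r' i * p + ∑ l, S' i l * r l) * (Ring.inverse (p' * p) * p') * q j := by noncomm_ring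
      rw [this, hpp, add_mul, mul_assoc (r' i), hp.mul_inv hu, mul_one, add_mul, Finset.sum_mul,
        Finset.sum_mul]
      congr 1
      exact Finset.sum_congr rfl fun l _ => by noncomm_ring
    rw [s1]
    simp only [sc_apply, mul_sub, Finset.sum_sub_distrib]
    abel
  rw [e1, sc_zero, map_mul, map_mul, map_mul, map_mul, hm _ _ hS' (in1_sc hn _ hr hS)]
  rw [mul_assoc, mul_assoc, ← mul_assoc (D p), hD p, mul_assoc]

include hn hu hD in
theorem mul_step (hm : MulS 𝔫 D k) (hc : CycS 𝔫 D k) : MulS 𝔫 D (k + 1) := by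
  intro M' M hM' hM
  rw [eq_blk M] at hM ⊢
  rw [eq_blk M'] at hM' ⊢
  generalize M 0 0 = p at *
  generalize (fun j => M 0 (Fin.succ j)) = q at *
  generalize (fun i => M (Fin.succ i) 0) = r at *
  generalize (fun i j => M (Fin.succ i) (Fin.succ j)) = S at *
  generalize M' 0 0 = p' at *
  generalize (fun j => M' 0 (Fin.succ j)) = q' at *
  generalize (fun i => M' (Fin.succ i) 0) = r' at *
  generalize (fun i j => M' (Fin.succ i) (Fin.succ j)) = S' at *
  have hM1 := hM'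
  rw [in1_blk_iff] at hM1
  obtain ⟨hp', hq', hr', hS'⟩ := hM1
  set T : Matrix (Fin k) (Fin k) 𝔹 := sc (Ring.inverse p') q' r' S' with hT
  set x : Fin k → 𝔹 := fun j => Ring.inverse p' * q' j with hx
  have hfac : blk p' q' r' S' = blk p' 0 r' T * blk 1 x 0 1 := by
    rw [blk_mul]
    congr 1
    · simp
    · ext j
      simp only [hx, Pi.zero_apply, zero_mul, Finset.sum_const_zero, add_zero]
      rw [← mul_assoc, hp'.mul_inv hu, one_mul]
    · ext i; simp
    · ext i j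
      simp only [hx, hT, Matrix.of_apply, Matrix.one_apply, mul_ite, mul_one, mul_zero,
        Finset.sum_ite_eq', Finset.mem_univ, if_true, sc_apply]
      noncomm_ring
  have hxn : ∀ j, x j ∈ 𝔫 := fun j => hn.left _ _ (hq' j)
  have hL : In1 𝔫 (blk p' 0 r' T) := by
    rw [in1_blk_iff]
    exact ⟨hp', fun j => by simpa using zero_mem 𝔫, hr', in1_sc hn _ hr' hS'⟩
  have hU : In1 𝔫 (blk (1 : 𝔹) x 0 (1 : Matrix (Fin k) (Fin k) 𝔹)) := by
    rw [in1_blk_iff]
    exact ⟨One.one, hxn, fun j => by simpa using zero_mem 𝔫, in1_one⟩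
  -- the product of the upper factor with M
  have hUM : In1 𝔫 (blk 1 x 0 1 * blk p q r S) := by
    rw [in1_blk_iff] at hM
    obtain ⟨hp, hq, hr, hS⟩ := hM
    rw [blk_mul, in1_blk_iff]
    refine ⟨?_, fun j => ?_, fun i => ?_, fun i j => ?_⟩
    · rw [one_mul]; exact hp.add (smem hn _ fun i => Or.inl (hxn i))
    · rw [one_mul]; exact add_mem (hq j) (smem hn _ fun i => Or.inl (hxn i))
    · simpa [Matrix.one_apply] using hr i
    · simpa [Matrix.one_apply, Matrix.sub_apply] using hS i j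
  have h1 := mulA hn hu D hD hm hc hM hxn
  rw [hfac, mul_assoc]
  obtain ⟨p1, q1, r1, S1, hb⟩ : ∃ p1 q1 r1 S1, blk 1 x 0 1 * blk p q r S = blk p1 q1 r1 S1 :=
    ⟨_, _, _, _, blk_mul _ _ _ _ _ _ _ _⟩
  rw [hb] at hUM h1 ⊢
  rw [mulB hn hu D hD hm hUM hL, h1]
  congr 1
  -- `𝔻(L * U) = 𝔻(L)`
  rw [mulB hn hu D hD hm hU hL]
  have : bigdet (blk (1 : 𝔹) x 0 (1 : Matrix (Fin k) (Fin k) 𝔹)) = 1 := by
    rw [bigdet_blk, one_mul, sc_zero']
    exact bigdet_one k
  rw [this, map_one, mul_one]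

include hn hu hD in
theorem cyc_step (hc : CycS 𝔫 D k) : CycS 𝔫 D (k + 1) := by
  intro r a hr ha
  have e0 : rk r a =
      blk (1 + r 0 * a 0) (fun j => r 0 * a j.succ) (fun i => r i.succ * a 0)
        (rk (fun i => r i.succ) fun j => a j.succ) := by
    ext i j
    rw [rk_apply]
    refine Fin.cases ?_ (fun i => ?_) i <;> refine Fin.cases ?_ (fun j => ?_) j
    · simp
    · simp only [blk_zs]
      rw [Matrix.one_apply_ne (Fin.succ_ne_zero _).symm, zero_add]
    · simp only [blk_sz]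
      rw [Matrix.one_apply_ne (Fin.succ_ne_zero _), zero_add]
    · simp [Matrix.one_apply, rk_apply]
  have hp : One 𝔫 (1 + r 0 * a 0) := One.one.add (hn.right _ _ (hr 0))
  have hp' : One 𝔫 (1 + a 0 * r 0) := One.one.add (hn.right _ _ (ha 0))
  set P := Ring.inverse (1 + r 0 * a 0) with hP
  set Q := Ring.inverse (1 + a 0 * r 0) with hQ
  have hPQ : 1 - a 0 * P * r 0 = Q := by
    have h1 : (1 - a 0 * P * r 0) * (1 + a 0 * r 0) = 1 := by
      have : (1 - a 0 * P * r 0) * (1 + a 0 * r 0) =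
          1 + a 0 * r 0 - a 0 * (P * (1 + r 0 * a 0)) * r 0 := by noncomm_ring
      rw [this, hP, hp.inv_mul hu]
      noncomm_ring
    calc 1 - a 0 * P * r 0 = (1 - a 0 * P * r 0) * ((1 + a 0 * r 0) * Q) := by
          rw [hQ, hp'.mul_inv hu, mul_one]
      _ = Q := by rw [← mul_assoc, h1, one_mul]
  rw [e0, bigdet_blk]
  have e1 : sc P (fun j => r 0 * a j.succ) (fun i => r i.succ * a 0)
      (rk (fun i => r i.succ) fun j => a j.succ) =
      rk (fun i => r i.succ) fun j => Q * a j.succ := by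
    ext i j
    rw [sc_apply, rk_apply, rk_apply, ← hPQ]
    noncomm_ring
  rw [e1, map_mul, hc _ _ (fun i => hr i.succ) (fun j => hn.left _ _ (ha j.succ)),
    swap hn hu D hD (hr 0) (ha 0), ← map_mul]
  congr 1
  have e2 : ∑ i : Fin k, Q * a i.succ * r i.succ = Q * ∑ i : Fin k, a i.succ * r i.succ := by
    rw [Finset.mul_sum]
    exact Finset.sum_congr rfl fun i _ => by rw [mul_assoc]
  rw [e2, Fin.sum_univ_succ, mul_add, mul_one, ← mul_assoc, hQ, hp'.mul_inv hu, one_mul, add_assoc]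

include hn hu hD in
theorem both : ∀ k : ℕ, MulS 𝔫 D k ∧ CycS 𝔫 D k
  | 0 => ⟨fun M M' _ _ => by simp [bigdet_zero], fun r a _ _ => by simp [bigdet_zero]⟩
  | k + 1 =>
    have ih := both k
    ⟨mul_step hn hu D hD ih.1 ih.2, cyc_step hn hu D hD ih.2⟩

end

end BigDAux

open BigDAux

theorem bigdet_mem (hn : IsIdl 𝔫) (hu : ∀ x ∈ 𝔫, IsUnit (1 + x)) (M : Matrix (Fin k) (Fin k) 𝔹)
    (hM : In1 𝔫 M) : bigdet M - 1 ∈ 𝔫 :=
  bigdet_one' hn hu k M hM

theorem In1.isUnit (hn : IsIdl 𝔫) (hu : ∀ x ∈ 𝔫, IsUnit (1 + x)) {M : Matrix (Fin k) (Fin k) 𝔹}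
    (hM : In1 𝔫 M) : IsUnit M := by
  induction k with
  | zero =>
    have : M = 1 := by ext i; exact i.elim0
    rw [this]
    exact isUnit_one
  | succ k ih =>
    rw [eq_blk M] at hM ⊢
    generalize M 0 0 = p at *
    generalize (fun j => M 0 (Fin.succ j)) = q at *
    generalize (fun i => M (Fin.succ i) 0) = r at *
    generalize (fun i j => M (Fin.succ i) (Fin.succ j)) = S at *
    rw [in1_blk_iff] at hM
    obtain ⟨hp, hq, hr, hS⟩ := hM
    set T : Matrix (Fin k) (Fin k) 𝔹 := sc (Ring.inverse p) q r S with hT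
    have hT1 : IsUnit T := ih (in1_sc hn _ hr hS)
    obtain ⟨T', hT2, hT3⟩ : ∃ T', T * T' = 1 ∧ T' * T = 1 :=
      ⟨_, hT1.mul_val_inv, hT1.val_inv_mul⟩
    have hfac : blk p q r S =
        blk 1 0 (fun i => r i * Ring.inverse p) 1 * (blk p 0 0 T *
          blk 1 (fun j => Ring.inverse p * q j) 0 1) := by
      have hb : blk p 0 0 T * blk 1 (fun j => Ring.inverse p * q j) 0 1 = blk p q 0 T := by
        rw [blk_mul]
        congr 1
        · simp
        · ext j
          simp only [Pi.zero_apply, zero_mul, Finset.sum_const_zero, add_zero]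
          rw [← mul_assoc, hp.mul_inv hu, one_mul]
        · ext i; simp
        · ext i j; simp [Matrix.one_apply]
      rw [hb, blk_mul]
      congr 1
      · simp
      · ext j; simp
      · ext i
        simp only [Pi.zero_apply, mul_zero, Finset.sum_const_zero, add_zero]
        rw [mul_assoc, hp.inv_mul hu, mul_one]
      · ext i j
        simp only [Matrix.one_apply, ite_mul, one_mul, zero_mul, Finset.sum_ite_eq,
          Finset.mem_univ, if_true, hT, sc_apply, Matrix.of_apply]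
        noncomm_ring
    rw [hfac]
    refine IsUnit.mul ?_ (IsUnit.mul ?_ ?_)
    · refine ⟨⟨blk 1 0 (fun i => r i * Ring.inverse p) 1,
        blk 1 0 (fun i => -(r i * Ring.inverse p)) 1, ?_, ?_⟩, rfl⟩
      · rw [blk_mul, blk_one]
        congr 1
        · simp
        · ext j; simp
        · ext i; simp [Matrix.one_apply]
        · ext i j; simp [Matrix.one_apply]
      · rw [blk_mul, blk_one]
        congr 1
        · simp
        · ext j; simp
        · ext i; simp [Matrix.one_apply]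
        · ext i j; simp [Matrix.one_apply]
    · refine ⟨⟨blk p 0 0 T, blk (Ring.inverse p) 0 0 T', ?_, ?_⟩, rfl⟩
      · rw [blk_mul, blk_one]
        congr 1
        · simp [hp.mul_inv hu]
        · ext j; simp
        · ext i; simp
        · rw [← hT2]
          ext i j; simp [Matrix.mul_apply]
      · rw [blk_mul, blk_one]
        congr 1
        · simp [hp.inv_mul hu]
        · ext j; simp
        · ext i; simp
        · rw [← hT3]
          ext i j; simp [Matrix.mul_apply]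
    · refine ⟨⟨blk 1 (fun j => Ring.inverse p * q j) 0 1,
        blk 1 (fun j => -(Ring.inverse p * q j)) 0 1, ?_, ?_⟩, rfl⟩
      · rw [blk_mul, blk_one]
        congr 1
        · simp
        · ext j; simp [Matrix.one_apply]
        · ext i; simp
        · ext i j; simp [Matrix.one_apply]
      · rw [blk_mul, blk_one]
        congr 1
        · simp
        · ext j; simp [Matrix.one_apply]
        · ext i; simp
        · ext i j; simp [Matrix.one_apply]

theorem bigdet_mul (hn : IsIdl 𝔫) (hu : ∀ x ∈ 𝔫, IsUnit (1 + x)) {E : Type} [Monoid E]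
    (D : 𝔹 →* E) (hD : ∀ x y, D x * D y = D y * D x) (M M' : Matrix (Fin k) (Fin k) 𝔹)
    (hM : In1 𝔫 M) (hM' : In1 𝔫 M') :
    D (bigdet (M * M')) = D (bigdet M) * D (bigdet M') :=
  (both hn hu D hD k).1 M M' hM hM'

theorem bigdet_other (hn : IsIdl 𝔫) (hu : ∀ x ∈ 𝔫, IsUnit (1 + x)) {E : Type} [Monoid E]
    (D : 𝔹 →* E) (hD : ∀ x y, D x * D y = D y * D x)
    (M : Matrix (Fin (k + 1)) (Fin (k + 1)) 𝔹) (hM : In1 𝔫 M)
    (Si : Matrix (Fin k) (Fin k) 𝔹) (h1 : M.submatrix Fin.succ Fin.succ * Si = 1)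
    (h2 : Si * M.submatrix Fin.succ Fin.succ = 1) :
    D (bigdet M) = D (bigdet (M.submatrix Fin.succ Fin.succ)) *
      D (M 0 0 - ∑ i, ∑ j, M 0 i.succ * Si i j * M j.succ 0) := by
  set S := M.submatrix Fin.succ Fin.succ with hSdef
  set p := M 0 0 with hp0
  set q : Fin k → 𝔹 := fun j => M 0 j.succ with hq0
  set r : Fin k → 𝔹 := fun i => M i.succ 0 with hr0
  have hMb : M = blk p q r S := by
    rw [eq_blk M]; rfl
  have hM1 := hM
  rw [hMb, in1_blk_iff] at hM1
  obtain ⟨hp, hq, hr, hS⟩ := hM1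
  set y : Fin k → 𝔹 := fun j => ∑ i, q i * Si i j with hy
  set p0 : 𝔹 := p - ∑ j, y j * r j with hp0'
  have hyn : ∀ j, y j ∈ 𝔫 := fun j => smem hn _ fun i => Or.inl (hq i)
  have hp1 : One 𝔫 p0 := hp.sub (smem hn _ fun i => Or.inl (hyn i))
  have hyS : ∀ j, ∑ l, y l * S l j = q j := by
    intro j
    have : ∑ l, y l * S l j = ∑ i, q i * (Si * S) i j := by
      simp only [hy, Finset.sum_mul, Matrix.mul_apply, Finset.mul_sum]
      rw [Finset.sum_comm]
      exact Finset.sum_congr rfl fun i _ => Finset.sum_congr rfl fun l _ => by rw [mul_assoc]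
    rw [this, h2]
    simp [Matrix.one_apply]
  have hfac : blk p q r S = blk 1 y 0 1 * blk p0 0 r S := by
    rw [blk_mul]
    congr 1
    · rw [one_mul, hp0']; abel
    · ext j; simp [hyS j]
    · ext i; simp [Matrix.one_apply]
    · ext i j; simp [Matrix.one_apply]
  have hU : In1 𝔫 (blk (1 : 𝔹) y 0 (1 : Matrix (Fin k) (Fin k) 𝔹)) := by
    rw [in1_blk_iff]
    exact ⟨BigDAux.One.one, hyn, fun j => by simpa using zero_mem 𝔫, in1_one⟩
  have hL : In1 𝔫 (blk p0 0 r S) := by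
    rw [in1_blk_iff]
    exact ⟨hp1, fun j => by simpa using zero_mem 𝔫, hr, hS⟩
  have b1 : bigdet (blk (1 : 𝔹) y 0 (1 : Matrix (Fin k) (Fin k) 𝔹)) = 1 := by
    rw [bigdet_blk, one_mul, sc_zero']
    exact bigdet_one k
  have b2 : bigdet (blk p0 0 r S) = p0 * bigdet S := by
    rw [bigdet_blk, sc_zero]
  have hsum : ∑ i, ∑ j, q i * Si i j * r j = ∑ j, y j * r j := by
    rw [Finset.sum_comm]
    exact Finset.sum_congr rfl fun j _ => by rw [hy, Finset.sum_mul]
  have hfin : D (bigdet M) = D (bigdet S) * D p0 := by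
    rw [congrArg bigdet hMb, hfac, bigdet_mul hn hu D hD _ _ hU hL, b1, b2, map_one, one_mul,
      map_mul, hD]
  rw [hfin, hp0', ← hsum]

theorem bigdet_map (hn : IsIdl 𝔫) (hu : ∀ x ∈ 𝔫, IsUnit (1 + x)) {𝔹' : Type} [Ring 𝔹']
    (f : 𝔹 →+* 𝔹') (M : Matrix (Fin k) (Fin k) 𝔹) (hM : In1 𝔫 M) :
    f (bigdet M) = bigdet (M.map f) := by
  induction k with
  | zero => simp [bigdet_zero]
  | succ k ih =>
    have hM1 := hM
    rw [eq_blk M, in1_blk_iff] at hM1
    obtain ⟨hp, hq, hr, hS⟩ := hM1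
    have hinv : f (Ring.inverse (M 0 0)) = Ring.inverse (f (M 0 0)) := by
      obtain ⟨u, hu'⟩ := hp.unit hu
      rw [← hu', Ring.inverse_unit]
      have : f (u : 𝔹) = ((Units.map (f : 𝔹 →* 𝔹') u : 𝔹'ˣ) : 𝔹') := rfl
      rw [this, Ring.inverse_unit]
      rfl
    have hS' : In1 𝔫 (Matrix.of fun i j : Fin k => M i.succ j.succ) := hS
    rw [bigdet_succ, map_mul, ih _ (in1_sc hn _ hr hS'), bigdet_succ]
    congr 2
    ext i j
    simp only [Matrix.map_apply, sc_apply, Matrix.of_apply, map_sub, map_mul, hinv]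

theorem bigdet_acyclic (N : Matrix (Fin k) (Fin k) 𝔹) (ρ : Fin k → ℕ)
    (h : ∀ i j, N i j ≠ 0 → ρ i < ρ j) : bigdet (1 + N) = 1 := by
  induction k with
  | zero => rfl
  | succ k ih =>
    have h00 : N 0 0 = 0 := by
      by_contra hne
      exact absurd (h 0 0 hne) (lt_irrefl _)
    rw [bigdet_succ]
    have e0 : (1 + N) 0 0 = 1 := by simp [h00]
    have e1 : sc (Ring.inverse ((1 + N) 0 0)) (fun j => (1 + N) 0 j.succ)
        (fun i => (1 + N) i.succ 0) (Matrix.of fun i j => (1 + N) i.succ j.succ) =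
        1 + (Matrix.of fun i j => N i.succ j.succ - N i.succ 0 * N 0 j.succ :
          Matrix (Fin k) (Fin k) 𝔹) := by
      ext i j
      rw [sc_apply, e0, Ring.inverse_one, mul_one, Matrix.of_apply]
      simp only [Matrix.add_apply]
      rw [Matrix.one_apply_ne (Fin.succ_ne_zero i), Matrix.one_apply_ne (Fin.succ_ne_zero j).symm,
        zero_add, zero_add]
      have : (1 : Matrix (Fin (k + 1)) (Fin (k + 1)) 𝔹) i.succ j.succ =
          (1 : Matrix (Fin k) (Fin k) 𝔹) i j := by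
        simp [Matrix.one_apply]
      rw [this, Matrix.of_apply, add_sub_assoc]
    rw [e1, e0, one_mul]
    refine ih _ (fun i => ρ i.succ) fun i j hne => ?_
    by_contra hlt
    apply hne
    have z1 : N i.succ j.succ = 0 := by
      by_contra hc
      exact hlt (h _ _ hc)
    have z2 : N i.succ 0 * N 0 j.succ = 0 := by
      by_contra hc
      have c1 : N i.succ 0 ≠ 0 := fun hz => hc (by rw [hz, zero_mul])
      have c2 : N 0 j.succ ≠ 0 := fun hz => hc (by rw [hz, mul_zero])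
      exact hlt ((h _ _ c1).trans (h _ _ c2))
    simp only [Matrix.of_apply, z1, z2, sub_zero]

end H34.Kem
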