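import Pool.Agent.H34.Kem.ZubDefs

namespace H34.Kem

open Finset Equiv
open scoped TensorProduct

variable {𝔹 : Type} [Ring 𝔹] {B : AddSubgroup 𝔹}

/-! ### additivity in one coordinate -/

/-- additivity of products in one coordinate -/
private lemma CapT_ofFn_add {A : Type} [Ring A] {m : ℕ} (u : Fin m → A) (k : Fin m) (x y : A) :
    (List.ofFn (Function.update u k (x + y))).prod =
      (List.ofFn (Function.update u k x)).prod + (List.ofFn (Function.update u k y)).prod := by
  have := (MultilinearMap.mkPiAlgebraFin ℤ m A).map_update_add u k x y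
  rwa [MultilinearMap.mkPiAlgebraFin_apply, MultilinearMap.mkPiAlgebraFin_apply,
    MultilinearMap.mkPiAlgebraFin_apply] at this

private lemma CapT_mon_a {A : Type} [Ring A] {m : ℕ} (w : ℕ → A) (c : Fin m → A) (k : Fin m)
    (x y : A) : mon m w (Function.update c k (x + y)) =
      mon m w (Function.update c k x) + mon m w (Function.update c k y) := by
  have key : ∀ z : A, (fun i : Fin m => Function.update c k z i * w (i + 1)) =
      Function.update (fun i : Fin m => c i * w (i + 1)) k (z * w (k + 1)) := by
    intro z
    ext i
    by_cases h : i = k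
    · subst h
      simp
    · simp [Function.update_of_ne h]
  unfold mon
  rw [key, key, key, add_mul, CapT_ofFn_add, mul_add]

private lemma CapT_mon_w {A : Type} [Ring A] {m : ℕ} (w : ℕ → A) (c : Fin m → A) (k : ℕ)
    (hk : k < m + 1) (x y : A) : mon m (Function.update w k (x + y)) c =
      mon m (Function.update w k x) c + mon m (Function.update w k y) c := by
  unfold mon
  cases k with
  | zero =>
    have key : ∀ z : A, (fun i : Fin m => c i * Function.update w 0 z (i + 1)) =
        fun i : Fin m => c i * w (i + 1) := by
      intro z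
      ext i
      rw [Function.update_of_ne (Nat.succ_ne_zero _)]
    rw [key, key, key]
    simp [add_mul]
  | succ k =>
    have hk' : k < m := by omega
    have key : ∀ z : A, (fun i : Fin m => c i * Function.update w (k + 1) z (i + 1)) =
        Function.update (fun i : Fin m => c i * w (i + 1)) ⟨k, hk'⟩ (c ⟨k, hk'⟩ * z) := by
      intro z
      ext i
      by_cases h : i = ⟨k, hk'⟩
      · subst h
        simp
      · have h' : (i : ℕ) + 1 ≠ k + 1 := by
          intro e
          apply h
          ext
          simp only
          omega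
        rw [Function.update_of_ne h, Function.update_of_ne h']
    rw [key, key, key, mul_add, CapT_ofFn_add, mul_add]
    simp

/-- extension of the vanishing of a multi-additive map -/
private lemma CapT_ext {ι A A' : Type} [DecidableEq ι] [AddCommGroup A] [AddCommGroup A']
    (S : Set A) (F : (ι → A) → A') (T : Finset ι)
    (hF : ∀ i ∈ T, ∀ z x y, F (Function.update z i (x + y)) =
      F (Function.update z i x) + F (Function.update z i y))
    (h0 : ∀ z, (∀ i, z i ∈ S) → F z = 0) :
    ∀ z, (∀ i ∈ T, z i ∈ AddSubgroup.closure S) → (∀ i ∉ T, z i ∈ S) → F z = 0 := by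
  induction T using Finset.induction_on with
  | empty => exact fun z _ h => h0 z (fun i => h i (by simp))
  | insert i T hi ih =>
    intro z h1 h2
    have hF' := hF i (mem_insert_self i T)
    have ih' := ih (fun j hj => hF j (mem_insert_of_mem hj))
    have hz : F (Function.update z i 0) = 0 := by
      have := hF' z 0 0
      rw [add_zero] at this
      exact left_eq_add.mp this
    have key : ∀ x ∈ AddSubgroup.closure S, F (Function.update z i x) = 0 := by
      intro x hx
      induction hx using AddSubgroup.closure_induction with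
      | mem x hx =>
        apply ih'
        · intro j hj
          have : j ≠ i := fun e => hi (e ▸ hj)
          rw [Function.update_of_ne this]
          exact h1 j (mem_insert_of_mem hj)
        · intro j hj
          by_cases e : j = i
          · subst e
            rw [Function.update_self]
            exact hx
          · rw [Function.update_of_ne e]
            exact h2 j (by simp [e, hj])
      | zero => exact hz
      | add x y _ _ hx hy => rw [hF', hx, hy, add_zero]
      | neg x _ hx =>
        have := hF' z x (-x)
        rw [add_neg_cancel, hz, hx, zero_add] at this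
        exact this.symm
    have := key (z i) (h1 i (mem_insert_self i T))
    rwa [Function.update_eq_self] at this

/-! ### pure tensors -/

private lemma CapT_ofFn {C : Type} [CommRing C] {m : ℕ} (f : Fin m → C) (g : Fin m → 𝔹) :
    (List.ofFn fun i => f i ⊗ₜ[ℤ] g i).prod = (∏ i, f i) ⊗ₜ[ℤ] (List.ofFn g).prod := by
  induction m with
  | zero => simp [Algebra.TensorProduct.one_def]
  | succ m ih =>
    rw [List.ofFn_succ, List.prod_cons, ih, List.ofFn_succ, List.prod_cons, Fin.prod_univ_succ,
      Algebra.TensorProduct.tmul_mul_tmul]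

private lemma CapT_pure {C : Type} [CommRing C] {m : ℕ} (c' : ℕ → C) (y : ℕ → 𝔹) (c : Fin m → C)
    (b : Fin m → 𝔹) : altSum m (fun k => c' k ⊗ₜ[ℤ] y k) (fun i => c i ⊗ₜ[ℤ] b i) =
      (c' 0 * ((∏ i, c i) * ∏ i : Fin m, c' (i + 1))) ⊗ₜ[ℤ] altSum m y b := by
  unfold altSum
  rw [TensorProduct.tmul_sum]
  apply Finset.sum_congr rfl
  intro σ _
  rw [TensorProduct.tmul_smul]
  congr 1
  unfold mon
  have e : (fun i : Fin m => ((fun i => c i ⊗ₜ[ℤ] b i) ∘ σ) i * c' (i + 1) ⊗ₜ[ℤ] y (i + 1)) =
      fun i : Fin m => (c (σ i) * c' (i + 1)) ⊗ₜ[ℤ] ((b ∘ σ) i * y (i + 1)) := by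
    ext i
    simp [Algebra.TensorProduct.tmul_mul_tmul]
  simp only
  rw [e, CapT_ofFn, Algebra.TensorProduct.tmul_mul_tmul, Finset.prod_mul_distrib,
    Equiv.prod_comp σ c]

theorem BT_idl (hB : IsIdl B) (C : Type) [CommRing C] : IsIdl (BT C B) := by
  constructor
  · intro x y hy
    unfold BT at hy
    induction hy using AddSubgroup.closure_induction with
    | mem y hy =>
      obtain ⟨c, b, hb, rfl⟩ := hy
      induction x using TensorProduct.induction_on with
      | zero => rw [zero_mul]; exact AddSubgroup.zero_mem _
      | tmul c' b' =>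
        rw [Algebra.TensorProduct.tmul_mul_tmul]
        exact AddSubgroup.subset_closure ⟨_, _, hB.left _ _ hb, rfl⟩
      | add x x' h h' => rw [add_mul]; exact AddSubgroup.add_mem _ h h'
    | zero => rw [mul_zero]; exact AddSubgroup.zero_mem _
    | add y y' _ _ h h' => rw [mul_add]; exact AddSubgroup.add_mem _ h h'
    | neg y _ h =>
      have e : x * -y = -(x * y) := mul_neg x y
      rw [e]
      exact AddSubgroup.neg_mem _ h
  · intro x y hx
    unfold BT at hx
    induction hx using AddSubgroup.closure_induction with
    | mem x hx =>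
      obtain ⟨c, b, hb, rfl⟩ := hx
      induction y using TensorProduct.induction_on with
      | zero => rw [mul_zero]; exact AddSubgroup.zero_mem _
      | tmul c' b' =>
        rw [Algebra.TensorProduct.tmul_mul_tmul]
        exact AddSubgroup.subset_closure ⟨_, _, hB.right _ _ hb, rfl⟩
      | add y y' h h' => rw [mul_add]; exact AddSubgroup.add_mem _ h h'
    | zero => rw [zero_mul]; exact AddSubgroup.zero_mem _
    | add x x' _ _ h h' => rw [add_mul]; exact AddSubgroup.add_mem _ h h'
    | neg x _ h =>
      have e : -x * y = -(x * y) := neg_mul x y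
      rw [e]
      exact AddSubgroup.neg_mem _ h

theorem BT_cap (hB : IsIdl B) (C : Type) [CommRing C] (m : ℕ) (hC : Cap B m) : Cap (BT C B) m := by
  classical
  intro w a ha
  -- first the fillers outside the range
  have hw : altSum m w a = altSum m (fun k => if k < m + 1 then w k else 0) a := by
    unfold altSum
    apply Finset.sum_congr rfl
    intro σ _
    congr 1
    unfold mon
    have e : (fun i : Fin m => (a ∘ σ) i * w (i + 1)) =
        fun i : Fin m => (a ∘ σ) i * (if (i : ℕ) + 1 < m + 1 then w (i + 1) else 0) := by
      ext i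
      rw [if_pos (by have := i.2; omega)]
    rw [e]
    simp only
    rw [if_pos (Nat.succ_pos m)]
  rw [hw]
  have hspan : ∀ x : C ⊗[ℤ] 𝔹, x ∈ AddSubgroup.closure
      {z : C ⊗[ℤ] 𝔹 | ∃ (c : C) (y : 𝔹), z = c ⊗ₜ[ℤ] y} := by
    intro x
    induction x using TensorProduct.induction_on with
    | zero => exact AddSubgroup.zero_mem _
    | tmul c y => exact AddSubgroup.subset_closure ⟨c, y, rfl⟩
    | add x y hx hy => exact AddSubgroup.add_mem _ hx hy
  apply CapT_ext {z : C ⊗[ℤ] 𝔹 | ∃ (c : C) (y : 𝔹), z = c ⊗ₜ[ℤ] y} (fun w => altSum m w a)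
    (Finset.range (m + 1))
  · intro k hk z x y
    simp only [altSum]
    rw [← Finset.sum_add_distrib]
    apply Finset.sum_congr rfl
    intro σ _
    rw [CapT_mon_w z _ k (Finset.mem_range.mp hk), smul_add]
  · intro z hz
    choose c' y hcy using hz
    have hz' : z = fun k => c' k ⊗ₜ[ℤ] y k := by
      ext k
      exact hcy k
    rw [hz']
    apply CapT_ext {z : C ⊗[ℤ] 𝔹 | ∃ (c : C) (y : 𝔹), y ∈ B ∧ z = c ⊗ₜ[ℤ] y}
      (fun a : Fin m → C ⊗[ℤ] 𝔹 => altSum m (fun k => c' k ⊗ₜ[ℤ] y k) a) Finset.univ
    · intro i _ a x x'
      simp only [altSum]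
      rw [← Finset.sum_add_distrib]
      apply Finset.sum_congr rfl
      intro σ _
      have e : ∀ x : C ⊗[ℤ] 𝔹, Function.update a i x ∘ σ =
          Function.update (a ∘ σ) (σ.symm i) x := by
        intro x
        rw [Function.update_comp_equiv]
      rw [e, e, e, CapT_mon_a, smul_add]
    · intro a ha
      choose c b hb hcb using ha
      have ha' : a = fun i => c i ⊗ₜ[ℤ] b i := by
        ext i
        exact hcb i
      rw [ha']
      rw [CapT_pure, hC y b hb, TensorProduct.tmul_zero]
    · intro i _
      exact ha i
    · intro i hi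
      exact absurd (Finset.mem_univ i) hi
  · intro k _
    exact hspan _
  · intro k hk
    rw [if_neg (by rwa [Finset.mem_range] at hk)]
    exact ⟨0, 0, by simp⟩

end H34.Kem
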