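import Mathlib

/-!
Schur algebras as invariant matrices on words, Levi subalgebras, alternating functions.
Definitions only.
-/

namespace H34.Kem

open Finset Equiv

/-- words of length `n` in the letters `0..M-1`. -/
abbrev Wd (M n : ℕ) := Fin n → Fin M

variable {R : Type} [CommRing R] {M q n : ℕ}

/-- The matrices on words which are invariant under simultaneous permutation of the positions and
preserve the block of every letter. -/
def LB (R : Type) [CommRing R] {M : ℕ} (n : ℕ) (b : Fin M → ℕ) :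
    Subalgebra R (Matrix (Wd M n) (Wd M n) R) where
  carrier := {X | (∀ (σ : Perm (Fin n)) w w', X (w ∘ σ) (w' ∘ σ) = X w w') ∧
    ∀ w w', X w w' ≠ 0 → b ∘ w = b ∘ w'}
  mul_mem' := by
    rintro X Y ⟨hX, hX'⟩ ⟨hY, hY'⟩
    refine ⟨?_, ?_⟩
    · intro σ w w'
      rw [Matrix.mul_apply, Matrix.mul_apply]
      refine (Fintype.sum_equiv (Equiv.arrowCongr σ.symm (Equiv.refl (Fin M))) _ _ ?_).symm
      intro w₁
      have h1 : (Equiv.arrowCongr σ.symm (Equiv.refl (Fin M))) w₁ = w₁ ∘ σ := by
        ext i; simp [Equiv.arrowCongr]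
      rw [h1, hX, hY]
    · intro w w' h
      rw [Matrix.mul_apply] at h
      obtain ⟨w₁, -, h₁⟩ := Finset.exists_ne_zero_of_sum_ne_zero h
      exact (hX' _ _ (left_ne_zero_of_mul h₁)).trans (hY' _ _ (right_ne_zero_of_mul h₁))
  add_mem' := by
    rintro X Y ⟨hX, hX'⟩ ⟨hY, hY'⟩
    refine ⟨?_, ?_⟩
    · intro σ w w'; simp [Matrix.add_apply, hX, hY]
    · intro w w' h
      rw [Matrix.add_apply] at h
      by_cases h0 : X w w' = 0
      · rw [h0, zero_add] at h; exact hY' _ _ h
      · exact hX' _ _ h0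
  algebraMap_mem' := by
    intro r
    refine ⟨?_, ?_⟩
    · intro σ w w'
      have : (w ∘ σ = w' ∘ σ) ↔ w = w' :=
        ⟨fun h => by ext i; simpa using congrArg Fin.val (congrFun h (σ.symm i)), fun h => by rw [h]⟩
      simp [Matrix.algebraMap_matrix_apply, this]
    · intro w w' h
      rw [Matrix.algebraMap_matrix_apply] at h
      by_cases h0 : w = w'
      · rw [h0]
      · simp [h0] at h

/-- content of a word. -/
def cnt (w : Wd M n) : Fin M → ℕ := fun j => (univ.filter fun i => w i = j).card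

/-- weight idempotents. -/
def xiM (R : Type) [CommRing R] (n : ℕ) (η : Fin M → ℕ) : Matrix (Wd M n) (Wd M n) R :=
  Matrix.diagonal fun w => if cnt w = η then 1 else 0

open Classical in
/-- orbit indicator. -/
noncomputable def orb (R : Type) [CommRing R] (w w' : Wd M n) : Matrix (Wd M n) (Wd M n) R :=
  fun a a' => if ∃ σ : Perm (Fin n), a = w ∘ σ ∧ a' = w' ∘ σ then 1 else 0

/-- lexicographic comparison of weights. -/
def wlt (η θ : Fin M → ℕ) : Prop := toLex η < toLex θ

/-- the part of the two-sided ideal of `LB b` generated by weights above `l`. -/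
def JB (R : Type) [CommRing R] (n : ℕ) (b : Fin M → ℕ) (l : Fin M → ℕ) :
    Submodule R (Matrix (Wd M n) (Wd M n) R) :=
  Submodule.span R {Z | ∃ γ X Y, wlt l γ ∧ X ∈ LB R n b ∧ Y ∈ LB R n b ∧ Z = X * xiM R n γ * Y}

/-- blocks are intervals with more than `n` letters. -/
def Big (n : ℕ) (b : Fin M → ℕ) : Prop :=
  Monotone b ∧ ∀ j, n < (univ.filter fun i => b i = b j).card

/-- weights which decrease inside every block. -/
def Dom (b : Fin M → ℕ) (l : Fin M → ℕ) : Prop :=
  ∀ i j : Fin M, i ≤ j → b i = b j → l j ≤ l i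

/-- The pair `(r,c)` numbers the boxes of the diagram of `l` bijectively. -/
structure IsDiag (l : Fin M → ℕ) (r : Wd M n) (c : Wd q n) : Prop where
  inj : Function.Injective fun p => (r p, c p)
  box : ∀ i k, (∃ p, r p = i ∧ c p = k) ↔ (k : ℕ) < l i
  le : ∀ i, l i ≤ q

/-- functions of a word in `M` letters and a word in `q` letters. -/
def FW (R : Type) (M q n : ℕ) : Type := Wd M n → Wd q n → R

instance : AddCommGroup (FW R M q n) := inferInstanceAs (AddCommGroup (Wd M n → Wd q n → R))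
instance : Module R (FW R M q n) := inferInstanceAs (Module R (Wd M n → Wd q n → R))

/-- matrices act on the first word. -/
instance : Module (Matrix (Wd M n) (Wd M n) R) (FW R M q n) where
  smul X Φ := fun w x => ∑ w', X w w' * Φ w' x
  one_smul Φ := by
    funext w x
    show ∑ w', (1 : Matrix _ _ R) w w' * Φ w' x = _
    simp [Matrix.one_apply]
  mul_smul X Y Φ := by
    funext w x
    show ∑ w', (X * Y) w w' * Φ w' x = ∑ w', X w w' * ∑ w'', Y w' w'' * Φ w'' x
    simp_rw [Matrix.mul_apply, Finset.sum_mul, Finset.mul_sum, mul_assoc]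
    rw [Finset.sum_comm]
  smul_zero X := by
    funext w x
    show ∑ w', X w w' * (0 : R) = 0
    simp
  smul_add X Φ Ψ := by
    funext w x
    show ∑ w', X w w' * (Φ w' x + Ψ w' x) = (∑ w', X w w' * Φ w' x) + ∑ w', X w w' * Ψ w' x
    simp [mul_add, Finset.sum_add_distrib]
  add_smul X Y Φ := by
    funext w x
    show ∑ w', (X w w' + Y w w') * Φ w' x = (∑ w', X w w' * Φ w' x) + ∑ w', Y w w' * Φ w' x
    simp [add_mul, Finset.sum_add_distrib]
  zero_smul Φ := by
    funext w x
    show ∑ w', (0 : R) * Φ w' x = 0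
    simp

theorem msmul_apply (X : Matrix (Wd M n) (Wd M n) R) (Φ : FW R M q n) (w : Wd M n) (x : Wd q n) :
    (X • Φ) w x = ∑ w', X w w' * Φ w' x := rfl

instance : IsScalarTower R (Matrix (Wd M n) (Wd M n) R) (FW R M q n) where
  smul_assoc r X Φ := by
    funext w x
    show ∑ w', (r • X) w w' * Φ w' x = r * ∑ w', X w w' * Φ w' x
    simp [Matrix.smul_apply, Finset.mul_sum, mul_assoc]

/-- alternating functions. -/
def IsAlt (Φ : FW R M q n) : Prop :=
  (∀ (σ : Perm (Fin n)) w x, Φ (w ∘ σ) (x ∘ σ) = (Perm.sign σ : ℤ) • Φ w x) ∧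
  ∀ w x, ¬ (Function.Injective fun i => (w i, x i)) → Φ w x = 0

open Classical in
/-- the alternating function of a pair of words. -/
noncomputable def eW (R : Type) [CommRing R] (r : Wd M n) (c : Wd q n) : FW R M q n :=
  fun w x => ∑ σ : Perm (Fin n), if w = r ∘ σ ∧ x = c ∘ σ then ((Perm.sign σ : ℤ) : R) else 0

/-- content of a word in the second alphabet. -/
def IsCol (δ : Fin q → ℕ) (Φ : FW R M q n) : Prop := ∀ w x, Φ w x ≠ 0 → cnt x = δ

/-- weight of a function. -/
def IsWt (η : Fin M → ℕ) (Φ : FW R M q n) : Prop := ∀ w x, Φ w x ≠ 0 → cnt w = η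

open Classical in
/-- The operator on functions given by the orbit of `(b ∘ r, c, y)`. -/
noncomputable def Kop (b : Fin M → ℕ) (r : Wd M n) (c : Wd q n) (y : Wd q n) :
    FW R M q n →ₗ[LB R n b] FW R M q n where
  toFun Φ := fun w x => ∑ x' : Wd q n,
    (if ∃ σ : Perm (Fin n), b ∘ w = (b ∘ r) ∘ σ ∧ x = c ∘ σ ∧ x' = y ∘ σ then 1 else 0) * Φ w x'
  map_add' Φ Ψ := by
    funext w x
    show ∑ x' : Wd q n, _ * (Φ w x' + Ψ w x') = (∑ x' : Wd q n, _ * Φ w x') + ∑ x' : Wd q n, _ * Ψ w x'
    simp [mul_add, Finset.sum_add_distrib]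
  map_smul' X Φ := by
    funext w x
    show ∑ x' : Wd q n, (if ∃ σ : Perm (Fin n), b ∘ w = (b ∘ r) ∘ σ ∧ x = c ∘ σ ∧ x' = y ∘ σ
        then (1 : R) else 0) * (∑ w', X.1 w w' * Φ w' x') =
      ∑ w', X.1 w w' * ∑ x' : Wd q n, (if ∃ σ : Perm (Fin n), b ∘ w' = (b ∘ r) ∘ σ ∧ x = c ∘ σ ∧
        x' = y ∘ σ then (1 : R) else 0) * Φ w' x'
    simp_rw [Finset.mul_sum]
    rw [Finset.sum_comm]
    refine Finset.sum_congr rfl fun w' _ => Finset.sum_congr rfl fun x' _ => ?_
    by_cases h : X.1 w w' = 0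
    · simp [h]
    · rw [(X.2.2 w w' h)]
      ring

/-- permuting rows: fillings which are semistandard (rows weakly increasing in `c`,
block columns strictly increasing in `r`), preserving blocks. -/
def SS (b : Fin M → ℕ) (r : Wd M n) (c : Wd q n) (u : Wd M n) : Prop :=
  b ∘ u = b ∘ r ∧
  (∀ p p', r p = r p' → c p < c p' → u p ≤ u p') ∧
  (∀ p p', b (r p) = b (r p') → c p = c p' → r p < r p' → u p < u p')

/-- fillings of the boxes by second letters: strictly increasing along rows, weakly increasing down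
the block columns. -/
def SSt (b : Fin M → ℕ) (r : Wd M n) (c : Wd q n) (y : Wd q n) : Prop :=
  (∀ p p', r p = r p' → c p < c p' → y p < y p') ∧
  (∀ p p', b (r p) = b (r p') → c p = c p' → r p < r p' → y p ≤ y p')

end H34.Kem
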