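import Mathlib

/-!
Unitriangularity of sums over column permutations.
-/

namespace H34.Kem

open Finset Equiv

variable {n : ℕ} {P K X Q : Type} [LinearOrder P] [LinearOrder X] [Fintype X] [LinearOrder Q]

open Classical in
/-- signed number of the column permutations which give the contents of `x'` in the rows. -/
noncomputable def UB (ρ : Fin n → P) (κ : Fin n → K) (x x' : Fin n → X) : ℤ :=
  ∑ σ : Perm (Fin n), if (∀ p, κ (σ p) = κ p) ∧
    (∀ j k, (univ.filter fun p => ρ (σ p) = j ∧ x p = k).card =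
      (univ.filter fun p => ρ p = j ∧ x' p = k).card) then (Perm.sign σ : ℤ) else 0

/-- strictly increasing down the columns, weakly increasing along the rows. -/
def UF (ρ : Fin n → P) (κ : Fin n → K) (t : Fin n → Q) (x : Fin n → X) : Prop :=
  (∀ p p', κ p = κ p' → ρ p < ρ p' → x p < x p') ∧ (∀ p p', ρ p = ρ p' → t p < t p' → x p ≤ x p')

/-- measure. -/
def UM (ρ : Fin n → P) (x : Fin n → X) : ℕ :=
  ∑ p' : Fin n, ∑ k : X, (univ.filter fun p => ρ p ≤ ρ p' ∧ x p ≤ k).card

theorem UB_self (ρ : Fin n → P) (κ : Fin n → K) (t : Fin n → Q) (x : Fin n → X)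
    (h1 : Function.Injective fun p => (ρ p, κ p)) (h2 : Function.Injective fun p => (ρ p, t p))
    (hx : UF ρ κ t x) : UB ρ κ x x = 1 := by
  sorry

theorem UB_lt (ρ : Fin n → P) (κ : Fin n → K) (t : Fin n → Q) (x x' : Fin n → X)
    (h1 : Function.Injective fun p => (ρ p, κ p)) (h2 : Function.Injective fun p => (ρ p, t p))
    (hx : UF ρ κ t x) (hx' : UF ρ κ t x') (h : UB ρ κ x x' ≠ 0) : x = x' ∨ UM ρ x' < UM ρ x := by
  sorry

end H34.Kem
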