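import Pool.Agent.H34.Kem.StrG
import Pool.Agent.H34.Kem.Uni

/-!
The Weyl module inside the alternating functions.
-/

namespace H34.Kem

open Finset Equiv

variable {R : Type} [CommRing R] {M q n : ℕ}

/-- not dominant weights are generated by higher ones. -/
theorem nondom {b : Fin M → ℕ} {l : Fin M → ℕ} (hl : ¬ Dom b l) : xiM R n l ∈ JB R n b l := by
  sorry

/-- the ideal of the higher weights kills functions of bounded weight. -/
theorem JB_kills {b : Fin M → ℕ} {l : Fin M → ℕ} {Z : Matrix (Wd M n) (Wd M n) R}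
    (hZ : Z ∈ JB R n b l) {Φ : FW R M q n}
    (h : ∀ Y ∈ LB R n b, ∀ γ, wlt l γ → xiM R n γ • (Y • Φ) = 0) : Z • Φ = 0 := by
  sorry

/-- higher weights do not occur in the module generated by the function of a diagram. -/
theorem diag_top {b : Fin M → ℕ} (hb : Monotone b) {l : Fin M → ℕ} (hl : Dom b l) {r : Wd M n}
    {c : Wd q n} (hd : IsDiag l r c) (Y : Matrix (Wd M n) (Wd M n) R) (hY : Y ∈ LB R n b)
    (γ : Fin M → ℕ) (hγ : wlt l γ) : xiM R n γ • (Y • eW R r c) = 0 := by
  sorry

/-- the functions of semistandard fillings are independent. -/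
theorem SS_indep {b : Fin M → ℕ} (hb : Monotone b) {l : Fin M → ℕ} (hl : Dom b l) {r : Wd M n}
    {c : Wd q n} (hd : IsDiag l r c) :
    LinearIndependent R (fun u : {u : Wd M n // SS b r c u} => orb R u.1 r • eW R r c) := by
  sorry

/-- the kernel of the map onto the module generated by the function of a diagram. -/
theorem delta_ker {b : Fin M → ℕ} (hb : Big n b) {l : Fin M → ℕ} (hl : Dom b l) {r : Wd M n}
    {c : Wd q n} (hd : IsDiag l r c) (Y : Matrix (Wd M n) (Wd M n) R) (hY : Y ∈ LB R n b)
    (h : Y • eW R r c = 0) : Y * xiM R n l ∈ JB R n b l := by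
  sorry

/-- the weight space of weight `l`. -/
theorem diag_prop {b : Fin M → ℕ} (hb : Big n b) (l : Fin M → ℕ) (Y : Matrix (Wd M n) (Wd M n) R)
    (hY : Y ∈ LB R n b) : ∃ a : R, xiM R n l * Y * xiM R n l - a • xiM R n l ∈ JB R n b l := by
  sorry

end H34.Kem
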