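import Mathlib

/-!
Free rings of varieties of associative (not necessarily unital) rings.
Definitions only.
-/

namespace H34.Kem

/-- The free associative ring (without unit) on the set `X`: finite integral combinations of
nonempty words in the letters of `X`. -/
abbrev NC (X : Type) : Type := MonoidAlgebra ℤ (FreeSemigroup X)

/-- Evaluation of a polynomial at elements of a ring. -/
noncomputable def ev {X A : Type} [NonUnitalRing A] (v : X → A) : NC X →ₙₐ[ℤ] A :=
  MonoidAlgebra.liftMagma ℤ (FreeSemigroup.lift v)

/-- The ring `A` satisfies `f`. -/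
def Sat (A : Type) [NonUnitalRing A] {X : Type} (f : NC X) : Prop := ∀ v : X → A, ev v f = 0

/-- PI rings: some polynomial with a coefficient `1` or `-1` is satisfied. -/
def IsPI (A : Type) [NonUnitalRing A] : Prop :=
  ∃ f : NC ℕ, (∃ w, f.coeff w = 1 ∨ f.coeff w = -1) ∧ Sat A f

/-- The ideal of the polynomials in the letters `X` which are satisfied by all rings of the variety
defined by the set `S` of identities. -/
def TI (S : Set (NC ℕ)) (X : Type) : RingCon (NC X) where
  r f g := ∀ (R : Type) [NonUnitalRing R], (∀ s ∈ S, Sat R s) → Sat R (f - g)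
  iseqv := by
    refine ⟨?_, ?_, ?_⟩
    · intro f R _ _ v; simp
    · intro f g h R _ hR v
      have := h R hR v
      rw [map_sub] at this ⊢
      rw [← neg_sub, this, neg_zero]
    · intro f g k h1 h2 R _ hR v
      have e1 := h1 R hR v
      have e2 := h2 R hR v
      rw [map_sub] at e1 e2 ⊢
      rw [← sub_add_sub_cancel _ (ev v g), e1, e2, add_zero]
  mul' := by
    intro f g k l h1 h2 R _ hR v
    have e1 := h1 R hR v
    have e2 := h2 R hR v
    rw [map_sub, sub_eq_zero] at e1 e2
    rw [map_sub, map_mul, map_mul, e1, e2, sub_self]
  add' := by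
    intro f g k l h1 h2 R _ hR v
    have e1 := h1 R hR v
    have e2 := h2 R hR v
    rw [map_sub, sub_eq_zero] at e1 e2
    rw [map_sub, map_add, map_add, e1, e2, sub_self]

/-- The free ring on `X` of the variety defined by `S`. -/
abbrev FreeR (S : Set (NC ℕ)) (X : Type) : Type := (TI S X).Quotient

noncomputable example (S : Set (NC ℕ)) (X : Type) : NonUnitalRing (FreeR S X) := inferInstance

end H34.Kem
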