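import Pool.Agent.H34.Kem.Delta

/-!
The ideal of the large weights is the annihilator of the alternating functions.
-/

namespace H34.Kem

open Finset Equiv

variable {M n : ℕ}

/-- the ideal generated by the weights with more than `m` letters zero. -/
def am (M n m : ℕ) : AddSubgroup (Matrix (Wd (M + 1) n) (Wd (M + 1) n) ℤ) :=
  AddSubgroup.closure {Z | ∃ (γ : Fin (M + 1) → ℕ) (X Y : Matrix (Wd (M + 1) n) (Wd (M + 1) n) ℤ),
    m < γ 0 ∧ X ∈ LB ℤ n (fun _ : Fin (M + 1) => 0) ∧ Y ∈ LB ℤ n (fun _ : Fin (M + 1) => 0) ∧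
    Z = X * xiM ℤ n γ * Y}

theorem am_kills (m : ℕ) {X : Matrix (Wd (M + 1) n) (Wd (M + 1) n) ℤ} (hX : X ∈ am M n m)
    (Φ : FW ℤ (M + 1) m n) (hΦ : IsAlt Φ) : X • Φ = 0 := by
  sorry

theorem faith (hM : n < M + 1) (m : ℕ) (X : Matrix (Wd (M + 1) n) (Wd (M + 1) n) ℤ)
    (hX : X ∈ LB ℤ n (fun _ : Fin (M + 1) => 0))
    (h : ∀ Φ : FW ℤ (M + 1) m n, IsAlt Φ → X • Φ = 0) : X ∈ am M n m := by
  sorry

end H34.Kem
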