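import Mathlib

/-!
Products of pure ideals in the free ring are pure.
-/

namespace H34.Kem

open Finset

/-- finitely generated left ideals of the free algebra are free. -/
theorem fir (F X : Type) [Field F] (S : Finset (MonoidAlgebra F (FreeMonoid X))) :
    ∃ (k : ℕ) (e : Fin k → MonoidAlgebra F (FreeMonoid X)),
      LinearIndependent (MonoidAlgebra F (FreeMonoid X)) e ∧
      Ideal.span (Set.range e) = Ideal.span (S : Set (MonoidAlgebra F (FreeMonoid X))) := by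
  sorry

/-- products of pure ideals are pure. -/
theorem pur_mul (X : Type) (P Q : AddSubgroup (MonoidAlgebra ℤ (FreeMonoid X)))
    (hP : ∀ x ∈ P, ∀ y, x * y ∈ P) (hQ : ∀ y ∈ Q, ∀ x, x * y ∈ Q)
    (hP' : ∀ (n : ℤ) x, n ≠ 0 → n • x ∈ P → x ∈ P)
    (hQ' : ∀ (n : ℤ) x, n ≠ 0 → n • x ∈ Q → x ∈ Q)
    (n : ℤ) (x : MonoidAlgebra ℤ (FreeMonoid X)) (hn : n ≠ 0)
    (h : n • x ∈ AddSubgroup.closure {z | ∃ y ∈ P, ∃ y' ∈ Q, z = y * y'}) :
    x ∈ AddSubgroup.closure {z | ∃ y ∈ P, ∃ y' ∈ Q, z = y * y'} := by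
  sorry

end H34.Kem
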