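import Pool.Agent.H34.Kem.Homog
import Pool.Agent.H34.Kem.Pur

/-!
Pure ideals of identities.
-/

namespace H34.Kem

open Finset Equiv

/-- ideals of the free ring closed under substitutions. -/
structure TIdl (T : AddSubgroup (NC ℕ)) : Prop where
  left : ∀ x y, y ∈ T → x * y ∈ T
  right : ∀ x y, x ∈ T → x * y ∈ T
  subst : ∀ (v : ℕ → NC ℕ) (f : NC ℕ), f ∈ T → ev v f ∈ T

/-- pure subgroups. -/
def Pure (T : AddSubgroup (NC ℕ)) : Prop := ∀ (n : ℤ) (f : NC ℕ), n ≠ 0 → n • f ∈ T → f ∈ T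

/-- a coefficient one occurs. -/
def HasPI (T : AddSubgroup (NC ℕ)) : Prop := ∃ f ∈ T, ∃ w, f.coeff w = 1 ∨ f.coeff w = -1

/-- the identities of the integral matrices. -/
noncomputable def TM (m : ℕ) : AddSubgroup (NC ℕ) where
  carrier := {f | IdM m f}
  add_mem' := by
    intro a b ha hb X
    rw [map_add, ha X, hb X, add_zero]
  zero_mem' := by
    intro X
    rw [map_zero]
  neg_mem' := by
    intro a ha X
    rw [map_neg, ha X, neg_zero]

/-- product of ideals. -/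
noncomputable def prodT (P Q : AddSubgroup (NC ℕ)) : AddSubgroup (NC ℕ) :=
  AddSubgroup.closure {z | ∃ y ∈ P, ∃ y' ∈ Q, z = y * y'}

/-- product of the ideals of identities of matrices of the sizes in the list. -/
noncomputable def TL : List ℕ → AddSubgroup (NC ℕ)
  | [] => ⊤
  | m :: L => prodT (TM m) (TL L)

theorem tm_tidl (m : ℕ) : TIdl (TM m) := by
  sorry

theorem tm_pure (m : ℕ) : Pure (TM m) := by
  sorry

theorem tm_pi (m : ℕ) : HasPI (TM m) := by
  sorry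

theorem TIdl.prod {P Q : AddSubgroup (NC ℕ)} (hP : TIdl P) (hQ : TIdl Q) : TIdl (prodT P Q) := by
  sorry

theorem Pure.prod {P Q : AddSubgroup (NC ℕ)} (hP : TIdl P) (hQ : TIdl Q) (hP' : Pure P)
    (hQ' : Pure Q) : Pure (prodT P Q) := by
  sorry

theorem HasPI.prod {P Q : AddSubgroup (NC ℕ)} (hP : TIdl P) (hQ : TIdl Q) (hP' : HasPI P)
    (hQ' : HasPI Q) : HasPI (prodT P Q) := by
  sorry

theorem tl_all (L : List ℕ) : TIdl (TL L) ∧ Pure (TL L) ∧ HasPI (TL L) := by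
  sorry

theorem tl_eval (L : List ℕ) {𝔹 : Type} [Ring 𝔹] (v : ℕ → 𝔹) (g : 𝔹)
    (h : ∀ fs : List (NC ℕ), List.Forall₂ IdM L fs → g * (fs.map fun f => ev v f).prod = 0)
    (f : NC ℕ) (hf : f ∈ TL L) : g * ev v f = 0 := by
  sorry

end H34.Kem
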