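import Pool.Agent.H34.Kem.FDefs

/-!
Identities of integral matrices are multihomogeneous.
-/

namespace H34.Kem

open Finset Equiv

/-- identities of the ring of integral matrices. -/
def IdM (m : ℕ) (f : NC ℕ) : Prop := ∀ X : ℕ → Matrix (Fin m) (Fin m) ℤ, ev X f = 0

theorem homog (m : ℕ) (f : NC ℕ) (hf : IdM m f) :
    ∃ (ι : Type) (_ : Fintype ι) (k : ι → ℕ) (c : ∀ i, Perm (Fin (k i)) → ℤ)
      (v : ∀ i, Fin (k i) → ℕ),
      (∀ i, 1 ≤ k i) ∧
      (∀ i (X : ℕ → Matrix (Fin m) (Fin m) ℤ),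
        ∑ s, c i s • (List.ofFn fun j => X (v i (s j))).prod = 0) ∧
      ∀ (𝔹 : Type) [Ring 𝔹] (x : ℕ → 𝔹),
        ev x f = ∑ i, ∑ s, c i s • (List.ofFn fun j => x (v i (s j))).prod := by
  sorry

end H34.Kem
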