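import Pool.Agent.H34.Kem.ThmZ
import Pool.Agent.H34.Kem.Homog

/-!
Rings with a Capelli identity satisfy products of matrix identities.
-/

namespace H34.Kem

open Finset Equiv

theorem kz (m : ℕ) : ∃ L : List ℕ, ∀ (𝔹 : Type) [Ring 𝔹] (B : AddSubgroup 𝔹), IsIdl B →
    Cap B (m + 1) → ∀ v : ℕ → 𝔹, (∀ i, v i ∈ B) → ∀ fs : List (NC ℕ),
    List.Forall₂ IdM L fs → (fs.map fun f => ev v f).prod = 0 := by
  sorry

end H34.Kem
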