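import Pool.Agent.H34.Kem.KemDefs
import Pool.Agent.H34.Kem.FDefs

namespace H34.Kem

open Finset Equiv

variable {𝔹 : Type} [Ring 𝔹]

/-- the list of the letters of a word -/
private def toL (u : FreeSemigroup ℕ) : List ℕ := u.head :: u.tail

private theorem toL_inj {u u' : FreeSemigroup ℕ} (h : toL u = toL u') : u = u' := by
  unfold toL at h
  rw [List.cons.injEq] at h
  exact FreeSemigroup.ext h.1 h.2

private theorem lift_eq (v : ℕ → 𝔹) (u : FreeSemigroup ℕ) :
    FreeSemigroup.lift v u = (List.ofFn fun i => v ((toL u).get i)).prod := by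
  have h : FreeSemigroup.lift v u = ((toL u).map v).prod := by
    induction u using FreeSemigroup.recOnMul with
    | ih1 x => simp [toL]
    | ih2 x y _ hy =>
      rw [map_mul, hy, FreeSemigroup.lift_of]
      simp [toL]
  rw [h]
  congr 1
  conv_lhs => rw [← List.ofFn_get (toL u), List.map_ofFn]
  rfl

private theorem ev_eq (v : ℕ → 𝔹) (f : NC ℕ) : ev v f =
    ∑ u ∈ f.coeff.support, f.coeff u • (List.ofFn fun i => v ((toL u).get i)).prod := by
  unfold ev
  rw [MonoidAlgebra.liftMagma_apply_apply]
  simp only [← lift_eq]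
  rfl

private theorem prod_expand (d n : ℕ) (c : Fin d → Fin n → ℤ) (x : Fin n → 𝔹) :
    (List.ofFn fun i => ∑ j, c i j • x j).prod =
      ∑ g : Fin d → Fin n, (∏ i, c i (g i)) • (List.ofFn fun i => x (g i)).prod := by
  have h := (MultilinearMap.mkPiAlgebraFin ℤ d 𝔹).map_sum (fun i j => c i j • x j)
  rw [MultilinearMap.mkPiAlgebraFin_apply] at h
  rw [h]
  refine Finset.sum_congr rfl fun g _ => ?_
  rw [MultilinearMap.map_smul_univ, MultilinearMap.mkPiAlgebraFin_apply]

private theorem sign_sum {d n : ℕ} (g : Fin d → Fin n) [Decidable (Function.Surjective g)] :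
    ∑ T : Finset (Fin n), (-1 : ℤ) ^ T.card * ∏ i, (if g i ∈ T then (1 : ℤ) else 0) =
      (-1) ^ n * if Function.Surjective g then 1 else 0 := by
  classical
  have h := Finset.prod_add (fun _ : Fin n => (-1 : ℤ))
    (fun j => if ∀ i, g i ≠ j then (1 : ℤ) else 0) Finset.univ
  have h1 : ∏ j : Fin n, ((-1 : ℤ) + if ∀ i, g i ≠ j then (1 : ℤ) else 0) =
      (-1) ^ n * if Function.Surjective g then 1 else 0 := by
    have h2 : ∀ j : Fin n, ((-1 : ℤ) + if ∀ i, g i ≠ j then (1 : ℤ) else 0) =
        if ∃ i, g i = j then -1 else 0 := by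
      intro j
      by_cases hj : ∃ i, g i = j
      · rw [if_pos hj, if_neg, add_zero]
        obtain ⟨i, hi⟩ := hj
        intro h3
        exact h3 i hi
      · rw [if_neg hj, if_pos]
        · norm_num
        · intro i hi
          exact hj ⟨i, hi⟩
    simp only [h2]
    rw [Fintype.prod_ite_zero, Finset.prod_const, Finset.card_univ, Fintype.card_fin]
    by_cases hs : Function.Surjective g
    · rw [if_pos hs, if_pos (fun j => hs j), mul_one]
    · rw [if_neg hs, if_neg (fun h3 => hs fun j => h3 j), mul_zero]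
  rw [← h1, h, Finset.powerset_univ]
  refine Finset.sum_congr rfl fun T _ => ?_
  rw [Finset.prod_const, Finset.prod_boole, Finset.prod_boole]
  have hiff : (∀ i ∈ Finset.univ, g i ∈ T) ↔ (∀ j ∈ Finset.univ \ T, ∀ i, g i ≠ j) := by
    constructor
    · intro h3 j hj i hi
      rw [Finset.mem_sdiff] at hj
      exact hj.2 (hi ▸ h3 i (Finset.mem_univ i))
    · intro h3 i _
      by_contra h4
      exact h3 (g i) (Finset.mem_sdiff.2 ⟨Finset.mem_univ _, h4⟩) i rfl
  by_cases hc : ∀ i ∈ Finset.univ, g i ∈ T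
  · rw [if_pos hc, if_pos (hiff.1 hc)]
  · rw [if_neg hc, if_neg fun h3 => hc (hiff.2 h3)]

open Classical in
/-- the surjective part -/
private noncomputable def srj {n : ℕ} (w : Fin n → ℕ) (x : Fin n → 𝔹) (d : ℕ) (u : Fin d → ℕ) : 𝔹 :=
  ∑ g : Fin d → Fin n, ((if Function.Surjective g then (1 : ℤ) else 0) *
    ∏ i, (if w (g i) = u i then (1 : ℤ) else 0)) • (List.ofFn fun i => x (g i)).prod

private theorem signed {n : ℕ} (w : Fin n → ℕ) (x : Fin n → 𝔹) (d : ℕ) (u : Fin d → ℕ) :
    ∑ T : Finset (Fin n), ((-1 : ℤ) ^ T.card) • (List.ofFn fun i =>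
      ∑ j, (if j ∈ T ∧ w j = u i then (1 : ℤ) else 0) • x j).prod =
      ((-1 : ℤ) ^ n) • srj w x d u := by
  classical
  simp only [prod_expand, Finset.smul_sum, smul_smul, srj]
  rw [Finset.sum_comm]
  refine Finset.sum_congr rfl fun g _ => ?_
  rw [← Finset.sum_smul]
  congr 1
  have h1 := sign_sum g
  rw [← mul_assoc, ← h1, Finset.sum_mul]
  refine Finset.sum_congr rfl fun T _ => ?_
  rw [mul_assoc, ← Finset.prod_mul_distrib]
  congr 1
  refine Finset.prod_congr rfl fun i _ => ?_
  by_cases h3 : g i ∈ T <;> by_cases h4 : w (g i) = u i <;> simp [h3, h4]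

private theorem srj_lt {n : ℕ} (w : Fin n → ℕ) (x : Fin n → 𝔹) (d : ℕ) (u : Fin d → ℕ)
    (hd : d < n) : srj w x d u = 0 := by
  classical
  unfold srj
  refine Finset.sum_eq_zero fun g _ => ?_
  rw [if_neg, zero_mul, zero_smul]
  intro hg
  have := Fintype.card_le_of_surjective g hg
  rw [Fintype.card_fin, Fintype.card_fin] at this
  omega

private theorem srj_mem {B : AddSubgroup 𝔹} (hB : IsIdl B) {n : ℕ} (w : Fin n → ℕ)
    (x : Fin n → 𝔹) (hx : ∀ i, x i ∈ B) (d : ℕ) (hd : 1 ≤ d) (u : Fin d → ℕ) :
    srj w x d u ∈ B := by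
  classical
  unfold srj
  refine B.sum_mem fun g _ => B.zsmul_mem ?_ _
  obtain ⟨e, rfl⟩ : ∃ e, d = e + 1 := ⟨d - 1, by omega⟩
  rw [List.ofFn_succ, List.prod_cons]
  exact hB.right _ _ (hx _)

private theorem srj_eq {n : ℕ} (w : Fin n → ℕ) (x : Fin n → 𝔹) (d : ℕ) (u : Fin d → ℕ)
    (hd : d = n) : srj w x d u =
      ∑ σ : Perm (Fin n), (if List.ofFn u = List.ofFn (fun i => w (σ i)) then (1 : ℤ) else 0) •
        (List.ofFn fun i => x (σ i)).prod := by
  classical
  subst hd
  unfold srj
  symm
  refine Finset.sum_of_injOn (fun σ : Perm (Fin d) => (σ : Fin d → Fin d)) ?_ ?_ ?_ ?_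
  · intro σ _ τ _ h
    exact Equiv.ext fun i => congrFun h i
  · intro σ _
    exact Finset.mem_coe.2 (Finset.mem_univ _)
  · intro g _ hg
    rw [if_neg, zero_mul, zero_smul]
    intro hs
    apply hg
    have hb : Function.Bijective g := hs.bijective_of_finite
    exact ⟨Equiv.ofBijective g hb, Finset.mem_coe.2 (Finset.mem_univ _), rfl⟩
  · intro σ _
    congr 1
    rw [if_pos σ.surjective, one_mul, Fintype.prod_boole]
    have hiff : (List.ofFn u = List.ofFn (fun i => w (σ i))) ↔ (∀ i, w (σ i) = u i) := by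
      rw [List.ofFn_inj]
      constructor
      · intro h i
        exact (congrFun h i).symm
      · intro h
        funext i
        exact (h i).symm
    by_cases hc : ∀ i, w (σ i) = u i
    · rw [if_pos hc, if_pos (hiff.2 hc)]
    · rw [if_neg hc, if_neg fun h3 => hc (hiff.1 h3)]

/-- A polynomial identity with a coefficient prime to `p` gives a multilinear one. -/
theorem multilin {B : AddSubgroup 𝔹} (hB : IsIdl B) (p : ℕ) (hp : ∀ x ∈ B, (p : ℤ) • x = 0)
    (f : NC ℕ) (w : FreeSemigroup ℕ) (hw : ¬ (p : ℤ) ∣ f.coeff w)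
    (h : ∀ v : ℕ → 𝔹, (∀ i, v i ∈ B) → ev v f = 0) :
    ∃ n, 1 ≤ n ∧ ∃ c : Perm (Fin n) → ℤ, ¬ (p : ℤ) ∣ c 1 ∧ MLI B n c := by
  classical
  -- a longest word with a coefficient prime to `p`
  obtain ⟨w0, hw0, hmax⟩ := (f.coeff.support.filter
    fun u => ¬ (p : ℤ) ∣ f.coeff u).exists_max_image (fun u => (toL u).length) ⟨w, by
      rw [Finset.mem_filter, Finsupp.mem_support_iff]
      refine ⟨fun h0 => hw ?_, hw⟩
      rw [h0]
      exact dvd_zero _⟩
  rw [Finset.mem_filter] at hw0
  set n := (toL w0).length with hn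
  have hn1 : 1 ≤ n := by
    rw [hn, toL, List.length_cons]
    omega
  set w' : Fin n → ℕ := fun i => (toL w0).get i with hw'
  have hw0l : List.ofFn w' = toL w0 := List.ofFn_get _
  refine ⟨n, hn1, fun σ => ∑ u ∈ f.coeff.support,
    if toL u = List.ofFn (fun i => w' (σ i)) then f.coeff u else 0, ?_, ?_⟩
  · have h1 : (∑ u ∈ f.coeff.support,
        if toL u = List.ofFn (fun i => w' ((1 : Perm (Fin n)) i)) then f.coeff u else 0) =
        f.coeff w0 := by
      rw [Finset.sum_eq_single w0]
      · rw [if_pos]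
        rw [← hw0l]
        rfl
      · intro u _ hu
        rw [if_neg]
        intro h2
        exact hu (toL_inj (h2.trans hw0l))
      · intro h2
        exact absurd hw0.1 h2
    simp only [h1]
    exact hw0.2
  · intro x hx
    -- the evaluations
    have key : ∀ T : Finset (Fin n), ∑ u ∈ f.coeff.support, f.coeff u •
        (List.ofFn fun i => ∑ j, (if j ∈ T ∧ w' j = (toL u).get i then (1 : ℤ) else 0) •
          x j).prod = 0 := by
      intro T
      have h1 := h (fun a => ∑ j, (if j ∈ T ∧ w' j = a then (1 : ℤ) else 0) • x j)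
        (fun a => B.sum_mem fun j _ => B.zsmul_mem (hx j) _)
      rw [ev_eq] at h1
      exact h1
    have h2 : ∑ u ∈ f.coeff.support, f.coeff u •
        srj w' x (toL u).length (fun i => (toL u).get i) = 0 := by
      have h3 : ((-1 : ℤ) ^ n) • ∑ u ∈ f.coeff.support, f.coeff u •
          srj w' x (toL u).length (fun i => (toL u).get i) = 0 := by
        rw [Finset.smul_sum]
        have h4 : ∀ u ∈ f.coeff.support, ((-1 : ℤ) ^ n) • f.coeff u •
            srj w' x (toL u).length (fun i => (toL u).get i) =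
            ∑ T : Finset (Fin n), ((-1 : ℤ) ^ T.card) • f.coeff u •
              (List.ofFn fun i => ∑ j, (if j ∈ T ∧ w' j = (toL u).get i then (1 : ℤ) else 0) •
                x j).prod := by
          intro u _
          rw [smul_comm, ← signed, Finset.smul_sum]
          exact Finset.sum_congr rfl fun T _ => smul_comm _ _ _
        rw [Finset.sum_congr rfl h4, Finset.sum_comm]
        refine Finset.sum_eq_zero fun T _ => ?_
        rw [← Finset.smul_sum, key T, smul_zero]
      rcases neg_one_pow_eq_or ℤ n with h5 | h5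
      · rw [h5, one_smul] at h3
        exact h3
      · rw [h5, neg_smul, one_smul, neg_eq_zero] at h3
        exact h3
    have h6 : ∀ u ∈ f.coeff.support, f.coeff u •
        srj w' x (toL u).length (fun i => (toL u).get i) =
        ∑ σ : Perm (Fin n), (if toL u = List.ofFn (fun i => w' (σ i)) then f.coeff u else 0) •
          (List.ofFn fun i => x (σ i)).prod := by
      intro u hu
      have hzero : (toL u).length ≠ n →
          ∑ σ : Perm (Fin n), (if toL u = List.ofFn (fun i => w' (σ i)) then f.coeff u else 0) •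
          (List.ofFn fun i => x (σ i)).prod = 0 := by
        intro hne
        refine Finset.sum_eq_zero fun σ _ => ?_
        rw [if_neg, zero_smul]
        intro h7
        apply hne
        rw [h7, List.length_ofFn]
      rcases lt_trichotomy (toL u).length n with hlt | heq | hgt
      · rw [srj_lt _ _ _ _ hlt, smul_zero, hzero hlt.ne]
      · rw [srj_eq _ _ _ _ heq, Finset.smul_sum]
        refine Finset.sum_congr rfl fun σ _ => ?_
        rw [smul_smul]
        congr 1
        have h8 : List.ofFn (fun i => (toL u).get i) = toL u := List.ofFn_get _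
        rw [h8]
        split_ifs
        · rw [mul_one]
        · rw [mul_zero]
      · rw [hzero hgt.ne']
        have hdvd : (p : ℤ) ∣ f.coeff u := by
          by_contra hnd
          have := hmax u (Finset.mem_filter.2 ⟨hu, hnd⟩)
          omega
        obtain ⟨k, hk⟩ := hdvd
        rw [hk, mul_comm, mul_smul, hp _ (srj_mem hB _ _ hx _ (by omega) _), smul_zero]
    rw [Finset.sum_congr rfl h6, Finset.sum_comm] at h2
    rw [← h2]
    exact Finset.sum_congr rfl fun σ _ => Finset.sum_smul
end H34.Kem
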