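import Pool.Agent.H34.Kem.KemDefs

namespace H34.Kem

open Finset Equiv

private lemma kemC_coeff_mul {G : Type} [Group G] [Fintype G] {R : Type} [Semiring R]
    (x y : MonoidAlgebra R G) (h : G) :
    (x * y).coeff h = ∑ g, x.coeff g * y.coeff (g⁻¹ * h) := by
  classical
  rw [MonoidAlgebra.coeff_mul, Finsupp.sum_fintype _ _ (by simp)]
  refine Finset.sum_congr rfl fun g _ => ?_
  rw [Finsupp.sum_fintype _ _ (by simp)]
  rw [Finset.sum_eq_single (g⁻¹ * h)]
  · rw [if_pos (by simp)]
  · intro b _ hb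
    rw [if_neg]
    intro h1
    apply hb
    rw [← h1]; simp
  · intro h1; exact absurd (Finset.mem_univ _) h1

private lemma kemC_coeff_N {G : Type} [Group G] [Fintype G] {R : Type} [Semiring R] (h : G) :
    (∑ g : G, MonoidAlgebra.single g (1 : R)).coeff h = 1 := by
  classical
  rw [MonoidAlgebra.coeff_sum, Finsupp.finsetSum_apply]
  simp [Finsupp.single_apply]

private lemma kemC_N_mul {G : Type} [Group G] [Fintype G] {R : Type} [Semiring R]
    (x : MonoidAlgebra R G) (h : G) :
    ((∑ g : G, MonoidAlgebra.single g (1 : R)) * x).coeff h = ∑ g, x.coeff g := by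
  rw [kemC_coeff_mul]
  simp only [kemC_coeff_N, one_mul]
  exact Fintype.sum_equiv ((Equiv.inv G).trans (Equiv.mulRight h)) _ _ (fun g => rfl)

private lemma kemC_mul_N {G : Type} [Group G] [Fintype G] {R : Type} [Semiring R]
    (x : MonoidAlgebra R G) (h : G) :
    (x * (∑ g : G, MonoidAlgebra.single g (1 : R))).coeff h = ∑ g, x.coeff g := by
  rw [kemC_coeff_mul]
  simp only [kemC_coeff_N, mul_one]

/-- A left ideal which does not contain the sum of the group elements is at least as large in
codimension as an idempotent generated left ideal with augmentation one. -/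
theorem exists_idem {G : Type} [Group G] [Fintype G] (p : ℕ) [Fact p.Prime]
    (L : Ideal (MonoidAlgebra (ZMod p) G))
    (hL : (∑ g : G, MonoidAlgebra.single g (1 : ZMod p)) ∉ L) :
    ∃ e : MonoidAlgebra (ZMod p) G, e * e = e ∧ ∑ g, e.coeff g = 1 ∧
      Module.finrank (ZMod p) (Ideal.span {e}) ≤
        Module.finrank (ZMod p) (MonoidAlgebra (ZMod p) G ⧸ L) := by
  classical
  set N : MonoidAlgebra (ZMod p) G := ∑ g : G, MonoidAlgebra.single g (1 : ZMod p) with hN
  have hNmul : ∀ x : MonoidAlgebra (ZMod p) G, ∀ h, (N * x).coeff h = ∑ g, x.coeff g :=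
    fun x h => kemC_N_mul x h
  have hfin : Finite (MonoidAlgebra (ZMod p) G) :=
    Finite.of_injective _ (MonoidAlgebra.coeff_injective (R := ZMod p) (M := G))
  have hfinI : Finite (Ideal (MonoidAlgebra (ZMod p) G)) :=
    Finite.of_injective (fun I : Ideal (MonoidAlgebra (ZMod p) G) =>
      (I : Set (MonoidAlgebra (ZMod p) G))) SetLike.coe_injective
  obtain ⟨L', hLL', hmax⟩ := Finite.exists_le_maximal
    (p := fun I : Ideal (MonoidAlgebra (ZMod p) G) => N ∉ I) hL
  have hNL' : N ∉ L' := hmax.prop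
  have hbig : ∀ I : Ideal (MonoidAlgebra (ZMod p) G), L' ≤ I → ∀ c ∈ I, c ∉ L' → N ∈ I := by
    intro I hI c hc hcL
    by_contra hNI
    exact hcL (hmax.le_of_ge hNI hI hc)
  -- a functional
  obtain ⟨f, hf, hfL⟩ := Submodule.exists_le_ker_of_notMem
    (p := L'.restrictScalars (ZMod p)) (v := N) hNL'
  -- the element `a`
  let a : MonoidAlgebra (ZMod p) G :=
    MonoidAlgebra.ofCoeff (Finsupp.equivFunOnFinite.symm
      (fun g => (f N)⁻¹ * f (MonoidAlgebra.single g⁻¹ 1)))
  have ha : ∀ g, a.coeff g = (f N)⁻¹ * f (MonoidAlgebra.single g⁻¹ 1) := fun g => rfl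
  have hsum : ∀ b : MonoidAlgebra (ZMod p) G, b = ∑ g, b.coeff g • MonoidAlgebra.single g 1 := by
    intro b
    apply MonoidAlgebra.coeff_injective
    ext h
    rw [MonoidAlgebra.coeff_sum, Finsupp.finsetSum_apply]
    simp [Finsupp.single_apply]
  have hba : ∀ (b : MonoidAlgebra (ZMod p) G) (h : G),
      (b * a).coeff h = (f N)⁻¹ * f (MonoidAlgebra.single h⁻¹ 1 * b) := by
    intro b h
    rw [kemC_coeff_mul]
    simp only [ha]
    generalize (f N)⁻¹ = c
    conv_rhs => rw [hsum b]
    rw [Finset.mul_sum, map_sum, Finset.mul_sum]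
    refine Finset.sum_congr rfl fun g _ => ?_
    rw [Algebra.mul_smul_comm, map_smul, smul_eq_mul, MonoidAlgebra.single_mul_single, mul_one,
      mul_inv_rev, inv_inv]
    ring
  have hLa : ∀ b ∈ L', b * a = 0 := by
    intro b hb
    apply MonoidAlgebra.coeff_injective
    ext h
    rw [hba]
    have h1 : MonoidAlgebra.single h⁻¹ 1 * b ∈ L' := L'.mul_mem_left _ hb
    have h2 : f (MonoidAlgebra.single h⁻¹ 1 * b) = 0 := hfL h1
    rw [h2, mul_zero]; rfl
  have hgN : ∀ h : G, MonoidAlgebra.single h (1 : ZMod p) * N = N := by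
    intro h
    apply MonoidAlgebra.coeff_injective
    ext k
    rw [kemC_mul_N, kemC_coeff_N]
    simp [Finsupp.single_apply]
  have hNa : N * a = N := by
    apply MonoidAlgebra.coeff_injective
    ext h
    rw [hba, hgN, inv_mul_cancel₀ hf, kemC_coeff_N]
  have hN0 : N ≠ 0 := by
    intro h0
    exact hNL' (h0 ▸ L'.zero_mem)
  have haug : ∑ g, a.coeff g = 1 := by
    rw [← hNmul a 1, hNa, kemC_coeff_N]
  -- the right multiplication
  let ρ : MonoidAlgebra (ZMod p) G →ₗ[MonoidAlgebra (ZMod p) G] MonoidAlgebra (ZMod p) G :=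
    LinearMap.toSpanSingleton _ _ a
  have hρ : ∀ b, ρ b = b * a := fun b => rfl
  have hker : LinearMap.ker ρ = L' := by
    apply le_antisymm
    · intro b hb
      by_contra hbL
      have h1 := hbig (LinearMap.ker ρ) (fun c hc => hLa c hc) b hb hbL
      have h2 : N * a = 0 := h1
      rw [hNa] at h2
      exact hN0 h2
    · exact fun c hc => hLa c hc
  -- injectivity on the image
  have hinj : ∀ c : MonoidAlgebra (ZMod p) G, c * a * a = 0 → c * a = 0 := by
    intro c hc
    by_contra hca
    have hcL : c ∉ L' := fun h => hca (hLa c h)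
    have h1 := hbig (LinearMap.ker (ρ.comp ρ)) (fun x hx => by
        show x * a * a = 0
        rw [hLa x hx, zero_mul]) c hc hcL
    have h2 : N * a * a = 0 := h1
    rw [hNa, hNa] at h2
    exact hN0 h2
  let X := LinearMap.range ρ
  have hX : ∀ b ∈ X, b * a ∈ X := fun b hb => ⟨b, rfl⟩
  let φ : X → X := fun b => ⟨b.1 * a, hX b.1 b.2⟩
  have hφ : Function.Injective φ := by
    rintro ⟨b, c, rfl⟩ ⟨b', c', rfl⟩ hbb
    have h1 : c * a * a = c' * a * a := congrArg Subtype.val hbb
    have h2 : (c - c') * a * a = 0 := by rw [sub_mul, sub_mul, h1, sub_self]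
    have h3 := hinj _ h2
    rw [sub_mul, sub_eq_zero] at h3
    exact Subtype.ext h3
  have hφs : Function.Surjective φ := Finite.surjective_of_injective hφ
  have haX : a ∈ X := ⟨1, by rw [hρ, one_mul]⟩
  obtain ⟨⟨e, heX⟩, he⟩ := hφs ⟨a, haX⟩
  have hea : e * a = a := congrArg Subtype.val he
  have hee : e * e = e := by
    have h1 : e * e ∈ X := X.smul_mem e heX
    have h2 : φ ⟨e * e, h1⟩ = φ ⟨e, heX⟩ := by
      apply Subtype.ext
      show e * e * a = e * a
      rw [mul_assoc, hea, hea]
    exact congrArg Subtype.val (hφ h2)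
  have hse : ∑ g, e.coeff g = 1 := by
    have h1 : (N * e) * a = N * a := by rw [mul_assoc, hea]
    have h2 : N * e = (∑ g, e.coeff g) • N := by
      apply MonoidAlgebra.coeff_injective
      ext h
      rw [hNmul, MonoidAlgebra.coeff_smul_apply, kemC_coeff_N, smul_eq_mul, mul_one]
    rw [h2, Algebra.smul_mul_assoc, hNa] at h1
    have h3 := congrArg (fun x => MonoidAlgebra.coeff x 1) h1
    simp only [MonoidAlgebra.coeff_smul_apply] at h3
    rw [kemC_coeff_N, smul_eq_mul, mul_one] at h3
    exact h3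
  refine ⟨e, hee, hse, ?_⟩
  have hfd : Module.Finite (ZMod p) (MonoidAlgebra (ZMod p) G) := inferInstance
  -- dimensions
  have h1 : Module.finrank (ZMod p) (Ideal.span {e}) ≤
      Module.finrank (ZMod p) (X.restrictScalars (ZMod p)) := by
    have hle : (Ideal.span {e}).restrictScalars (ZMod p) ≤ X.restrictScalars (ZMod p) := by
      intro x hx
      have hx' : x ∈ Ideal.span {e} := hx
      have : Ideal.span {e} ≤ X := by
        rw [Ideal.span_le]
        intro y hy
        rw [Set.mem_singleton_iff] at hy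
        rw [hy]; exact heX
      exact this hx'
    exact Submodule.finrank_mono hle
  have h2 : Module.finrank (ZMod p) (X.restrictScalars (ZMod p)) =
      Module.finrank (ZMod p) (MonoidAlgebra (ZMod p) G ⧸ L') := by
    have e1 := (ρ.quotKerEquivRange).restrictScalars (ZMod p)
    have e2 : (MonoidAlgebra (ZMod p) G ⧸ LinearMap.ker ρ) ≃ₗ[ZMod p]
      (MonoidAlgebra (ZMod p) G ⧸ L') :=
      (Submodule.quotEquivOfEq _ _ hker).restrictScalars (ZMod p)
    exact (e1.symm.trans e2).finrank_eq
  have h3 : Module.finrank (ZMod p) (MonoidAlgebra (ZMod p) G ⧸ L') ≤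
      Module.finrank (ZMod p) (MonoidAlgebra (ZMod p) G ⧸ L) := by
    apply LinearMap.finrank_le_finrank_of_surjective
      (f := ((Submodule.factor hLL').restrictScalars (ZMod p)))
    exact Submodule.factor_surjective hLL'
  calc _ ≤ _ := h1
    _ = _ := h2
    _ ≤ _ := h3

end H34.Kem
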