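import Pool.Agent.H34.Kem.KemDefs

namespace H34.Kem

open Finset Equiv

/-- Lifting of idempotents modulo powers of `p`. -/
private lemma kc2_lift {R Q : Type} [Ring R] [Ring Q] (π : R →+* Q)
    (hs : Function.Surjective π) (p : ℕ) (hk : ∀ x, π x = 0 → ∃ z, x = (p : R) * z)
    (e : Q) (he : e * e = e) (k : ℕ) :
    ∃ x : R, π x = e ∧ ∃ z, x * x - x = (p : R) ^ (k + 1) * z := by
  induction k with
  | zero =>
    obtain ⟨x, hx⟩ := hs e
    refine ⟨x, hx, ?_⟩
    obtain ⟨z, hz⟩ := hk (x * x - x) (by rw [map_sub, map_mul, hx, he, sub_self])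
    exact ⟨z, by rw [hz]; simp⟩
  | succ k ih =>
    obtain ⟨x, hx, z, hz⟩ := ih
    refine ⟨3 * x * x - 2 * x * x * x, ?_, ?_⟩
    · simp only [map_sub, map_mul, hx]
      rw [mul_assoc (π 3) e e, mul_assoc (π 2) e e, he, mul_assoc (π 2) e e, he, ← sub_mul]
      have h3 : π 3 - π 2 = 1 := by rw [← map_sub, ← map_one π]; congr 1; norm_num
      rw [h3, one_mul]
    · refine ⟨(p : R) ^ k * z * z * (4 * (x * x - x) - 3), ?_⟩
      have h1 : (3 * x * x - 2 * x * x * x) * (3 * x * x - 2 * x * x * x) -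
          (3 * x * x - 2 * x * x * x) = (x * x - x) * (x * x - x) * (4 * (x * x - x) - 3) := by
        noncomm_ring
      rw [h1]
      have h2 : (x * x - x) * (x * x - x) = (p : R) ^ (k + 1 + 1) * ((p : R) ^ k * z * z) := by
        rw [hz]
        have hc : z * (p : R) ^ (k + 1) = (p : R) ^ (k + 1) * z :=
          ((Nat.cast_commute p z).pow_left _).eq.symm
        calc (p : R) ^ (k + 1) * z * ((p : R) ^ (k + 1) * z)
            = (p : R) ^ (k + 1) * (z * (p : R) ^ (k + 1)) * z := by simp only [mul_assoc]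
          _ = (p : R) ^ (k + 1) * ((p : R) ^ (k + 1) * z) * z := by rw [hc]
          _ = ((p : R) ^ (k + 1) * (p : R) ^ (k + 1)) * (z * z) := by simp only [mul_assoc]
          _ = ((p : R) ^ (k + 1 + 1) * (p : R) ^ k) * (z * z) := by
              rw [← pow_add, ← pow_add]; congr 2; ring
          _ = _ := by simp only [mul_assoc]
      rw [h2]; simp only [mul_assoc]

/-- the action of the integral group ring. -/
private noncomputable def kc2T (G S : Type) [Group G] [AddCommGroup S] [DistribMulAction G S] :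
    MonoidAlgebra ℤ G →ₐ[ℤ] Module.End ℤ S :=
  MonoidAlgebra.lift ℤ (Module.End ℤ S) G (DistribMulAction.toModuleEnd ℤ S)

private lemma kc2T_apply {G S : Type} [Group G] [Fintype G] [AddCommGroup S]
    [DistribMulAction G S] (a : MonoidAlgebra ℤ G) (x : S) :
    kc2T G S a x = ∑ g, a.coeff g • g • x := by
  rw [kc2T, MonoidAlgebra.lift_apply, Finsupp.sum_fintype _ _ (by simp)]
  simp [LinearMap.sum_apply, DistribMulAction.toModuleEnd_apply]

/-- Ranks of lattices are bounded by the dimension of a projective module. -/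
theorem rank_le {G : Type} [Group G] [Fintype G] (p : ℕ) [Fact p.Prime]
    (S : Type) [AddCommGroup S] [Module.Free ℤ S] [Module.Finite ℤ S] [DistribMulAction G S]
    (u : S) (hu : ∀ x : S, u ≠ (p : ℤ) • x) (hinv : ∀ g : G, ∃ x : S, g • u - u = (p : ℤ) • x)
    (c : ℕ) (hc : ∀ w : S, (∀ x : S, w ≠ (p : ℤ) • x) → ∀ (k : ℕ) (x : S),
      ∃ (a : G → ℤ) (y : S), ((p : ℤ) ^ c) • x = ∑ g, a g • g • w + ((p : ℤ) ^ k) • y)
    (e : MonoidAlgebra (ZMod p) G) (he : e * e = e) (he1 : ∑ g, e.coeff g = 1) :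
    Module.finrank ℤ S ≤ Module.finrank (ZMod p) (Ideal.span {e}) := by
  classical
  have hp : p.Prime := Fact.out
  -- the reduction map
  let π : MonoidAlgebra ℤ G →+* MonoidAlgebra (ZMod p) G :=
    MonoidAlgebra.mapRingHom G (Int.castRingHom (ZMod p))
  have hπ : ∀ (a : MonoidAlgebra ℤ G) (g : G), (π a).coeff g = ((a.coeff g : ℤ) : ZMod p) := by
    intro a g; simp [π]
  have hs : Function.Surjective π := by
    intro b
    refine ⟨MonoidAlgebra.ofCoeff (Finsupp.equivFunOnFinite.symm fun g => ((b.coeff g).val : ℤ)), ?_⟩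
    ext g
    rw [hπ]
    simp
  have hk : ∀ x, π x = 0 → ∃ z, x = (p : MonoidAlgebra ℤ G) * z := by
    intro x hx
    have h1 : ∀ g, ∃ c : ℤ, x.coeff g = p * c := by
      intro g
      have := hπ x g
      rw [hx] at this
      exact (ZMod.intCast_zmod_eq_zero_iff_dvd _ p).1 (by simpa using this.symm)
    choose z hz using h1
    refine ⟨MonoidAlgebra.ofCoeff (Finsupp.equivFunOnFinite.symm z), ?_⟩
    rw [← nsmul_eq_mul]
    ext g
    rw [MonoidAlgebra.coeff_smul, Finsupp.smul_apply, hz g, nsmul_eq_mul]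
    rfl
  obtain ⟨E, hE, z, hz⟩ := kc2_lift π hs p hk e he c
  set T := kc2T G S with hT
  have hTa : ∀ a x, T a x = ∑ g, a.coeff g • g • x := kc2T_apply
  set w : S := T E u with hw
  have hwu : ∃ x : S, w = u + (p : ℤ) • x := by
    choose xg hxg using hinv
    have h1 : ∀ g, g • u = u + (p : ℤ) • xg g := fun g => by rw [← hxg g]; abel
    have h2 : ∃ m : ℤ, ∑ g, E.coeff g = 1 + p * m := by
      have : ((∑ g, E.coeff g - 1 : ℤ) : ZMod p) = 0 := by
        push_cast
        have : ∑ g, ((E.coeff g : ℤ) : ZMod p) = 1 := by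
          rw [← he1]
          refine Finset.sum_congr rfl fun g _ => ?_
          rw [← hπ, hE]
        rw [this]; ring
      obtain ⟨m, hm⟩ := (ZMod.intCast_zmod_eq_zero_iff_dvd _ p).1 this
      exact ⟨m, by linarith⟩
    obtain ⟨m, hm⟩ := h2
    refine ⟨m • u + ∑ g, E.coeff g • xg g, ?_⟩
    rw [hw, hT, kc2T_apply]
    simp only [h1, smul_add, Finset.sum_add_distrib, ← Finset.sum_smul, hm]
    rw [add_smul, one_smul, mul_smul, Finset.smul_sum, add_assoc]
    congr 2
    refine Finset.sum_congr rfl fun g _ => ?_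
    rw [smul_comm]
  have hwp : ∀ x : S, w ≠ (p : ℤ) • x := by
    intro x hx
    obtain ⟨y, hy⟩ := hwu
    apply hu (x - y)
    rw [smul_sub, ← hx, hy]; abel
  have hTE : T E w = w + ((p : ℤ) ^ (c + 1)) • T z u := by
    have h1 : E * E = E + (p : MonoidAlgebra ℤ G) ^ (c + 1) * z := by rw [← hz]; abel
    have h2 : T E w = T (E * E) u := by rw [map_mul]; rfl
    rw [h2, h1, map_add, map_mul, map_pow, map_natCast]
    have h3 : ((p : Module.End ℤ S) ^ (c + 1)) = (((p : ℤ) ^ (c + 1) : ℤ) : Module.End ℤ S) := by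
      push_cast; rfl
    rw [h3, LinearMap.add_apply, Module.End.mul_apply, Module.End.intCast_apply]
  -- the sublattice
  let L : (MonoidAlgebra ℤ G × S) →ₗ[ℤ] S :=
    ((LinearMap.applyₗ (R := ℤ) w) ∘ₗ T.toLinearMap).coprod (((p : ℤ) ^ (c + 1)) • LinearMap.id)
  have hL : ∀ a y, L (a, y) = T a w + ((p : ℤ) ^ (c + 1)) • y := by
    intro a y; rw [LinearMap.coprod_apply]; rfl
  let N : Submodule ℤ S := LinearMap.range L
  have hN : ∀ x : S, ((p : ℤ) ^ c) • x ∈ N := by
    intro x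
    obtain ⟨a, y, h⟩ := hc w hwp (c + 1) x
    refine ⟨(MonoidAlgebra.ofCoeff (Finsupp.equivFunOnFinite.symm a), y), ?_⟩
    rw [hL, h, hT, kc2T_apply]
    simp
  have hgN : ∀ g : G, g • w ∈ N := by
    intro g
    refine ⟨(MonoidAlgebra.single g 1, 0), ?_⟩
    rw [hL, hT, kc2T_apply, smul_zero, add_zero]
    rw [Finset.sum_eq_single g]
    · simp
    · intro h _ hh; simp [Ne.symm hh]
    · simp
  let f := Module.finrank ℤ N
  let b : Module.Basis (Fin f) ℤ N := Module.finBasis ℤ N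
  -- rank of `N`
  have hf : Module.finrank ℤ S ≤ f := by
    let I : S →ₗ[ℤ] N := LinearMap.codRestrict N (((p : ℤ) ^ c) • LinearMap.id) (by
      intro x; exact hN x)
    refine LinearMap.finrank_le_finrank_of_injective (f := I) ?_
    intro x y hxy
    have h1 : ((p : ℤ) ^ c) • x = ((p : ℤ) ^ c) • y := congrArg Subtype.val hxy
    exact smul_right_injective S (pow_ne_zero c (by exact_mod_cast hp.ne_zero)) h1
  -- coordinates mod p
  let ψ : N →+ (Fin f → ZMod p) :=
    { toFun := fun x i => ((b.repr x i : ℤ) : ZMod p)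
      map_zero' := by ext i; simp
      map_add' := by intro x y; ext i; simp }
  have hψ1 : ∀ (m : ℤ) (x : N), ψ (m • x) = (m : ZMod p) • ψ x := by
    intro m x; ext i; simp [ψ]
  have hψ2 : ∀ (y : S) (h : ((p : ℤ) ^ (c + 1)) • y ∈ N), ψ ⟨_, h⟩ = 0 := by
    intro y h
    have h1 : (⟨_, h⟩ : N) = (p : ℤ) • (⟨_, hN y⟩ : N) := by
      apply Subtype.ext
      simp only [SetLike.val_smul]
      rw [smul_smul, ← pow_succ']
    rw [h1, hψ1]
    simp
  let wg : G → N := fun g => ⟨g • w, hgN g⟩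
  let Φ : MonoidAlgebra (ZMod p) G →ₗ[ZMod p] (Fin f → ZMod p) :=
    { toFun := fun a => ∑ g, a.coeff g • ψ (wg g)
      map_add' := by intro x y; simp [add_smul, Finset.sum_add_distrib]
      map_smul' := by intro r x; simp [mul_smul, Finset.smul_sum] }
  have hΦ : ∀ a, Φ a = ∑ g, a.coeff g • ψ (wg g) := fun a => rfl
  have hΦπ : ∀ (a : MonoidAlgebra ℤ G) (h : T a w ∈ N), Φ (π a) = ψ ⟨T a w, h⟩ := by
    intro a h
    have h1 : (⟨T a w, h⟩ : N) = ∑ g, a.coeff g • wg g := by
      apply Subtype.ext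
      simp only [AddSubmonoidClass.coe_finsetSum, SetLike.val_smul, wg]
      exact hTa a w
    rw [h1, map_sum, hΦ]
    refine Finset.sum_congr rfl fun g _ => ?_
    rw [hψ1, hπ]
  have hTN : ∀ a, T a w ∈ N := fun a => ⟨(a, 0), by rw [hL]; simp⟩
  have hpN : ∀ y : S, ((p : ℤ) ^ (c + 1)) • y ∈ N := fun y => ⟨(0, y), by rw [hL]; simp⟩
  have hΦs : Function.Surjective Φ := by
    intro v
    let x : N := ∑ i, ((v i).val : ℤ) • b i
    have hx : ψ x = v := by
      ext i
      simp [ψ, x, Finsupp.single_apply]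
    obtain ⟨⟨a, y⟩, hay⟩ := x.2
    refine ⟨π a, ?_⟩
    rw [hΦπ a (hTN a), ← hx]
    have h1 : x = ⟨T a w, hTN a⟩ + ⟨_, hpN y⟩ := by
      apply Subtype.ext
      rw [← hay, hL]; rfl
    rw [h1, map_add, hψ2, add_zero]
  have hΦe : ∀ a, Φ (a * e) = Φ a := by
    intro a
    obtain ⟨A, rfl⟩ := hs a
    rw [← hE, ← map_mul, hΦπ _ (hTN _), hΦπ _ (hTN _)]
    have h1 : (⟨T (A * E) w, hTN _⟩ : N) = ⟨T A w, hTN _⟩ + ⟨_, hpN (T A (T z u))⟩ := by
      apply Subtype.ext
      change T (A * E) w = T A w + ((p : ℤ) ^ (c + 1)) • T A (T z u)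
      rw [map_mul, Module.End.mul_apply, hTE, map_add, map_smul]
    rw [h1, map_add, hψ2, add_zero]
  -- restriction to the left ideal
  let Ψ : (Ideal.span {e} : Ideal (MonoidAlgebra (ZMod p) G)) →ₗ[ZMod p] (Fin f → ZMod p) :=
    { toFun := fun a => Φ a.1
      map_add' := by intro x y; simp
      map_smul' := by intro r x; simp }
  have hΨ : Function.Surjective Ψ := by
    intro v
    obtain ⟨a, ha⟩ := hΦs v
    refine ⟨⟨a * e, Ideal.mul_mem_left _ _ (Ideal.subset_span rfl)⟩, ?_⟩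
    change Φ (a * e) = v
    rw [hΦe, ha]
  have hfin : Module.Finite (ZMod p) (Ideal.span {e} : Ideal (MonoidAlgebra (ZMod p) G)) := by
    have h1 : Finite (MonoidAlgebra (ZMod p) G) :=
      Finite.of_injective (fun a : MonoidAlgebra (ZMod p) G => fun g => a.coeff g) (by
        intro a b h; ext g; exact congrFun h g)
    infer_instance
  have h5 := LinearMap.finrank_le_finrank_of_surjective hΨ
  rw [Module.finrank_fin_fun] at h5
  exact hf.trans h5

end H34.Kem
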