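import Pool.Agent.H34.Kem.KemDefs

namespace H34.Kem

open Finset Equiv

variable {r : ℕ}

private theorem TabB_sum (τ : Tb r) : ∑ q : Fin (r * r), ((τ.1 q : ℕ) : ℤ) = ∑ i : Fin r, (r : ℤ) * (i : ℕ) := by
  rw [← Finset.sum_fiberwise univ τ.1 (fun q => ((τ.1 q : ℕ) : ℤ))]
  refine Finset.sum_congr rfl fun i _ => ?_
  rw [Finset.sum_congr rfl (g := fun _ => ((i : ℕ) : ℤ)) (by
    intro q hq
    rw [(Finset.mem_filter.mp hq).2])]
  rw [Finset.sum_const, τ.2 i, nsmul_eq_mul]

private theorem TabB_meas {τ τ' : Tb r} {h : ℕ} {i j : Fin r} (hij : i < j)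
    {Z : Finset (Fin (r * r))}
    (hZ : ∀ q ∈ Z, ((q : ℕ) < h ∧ τ.1 q = j) ∨ (h ≤ (q : ℕ) ∧ τ.1 q = i))
    (h1 : ∀ q ∉ Z, τ'.1 q = τ.1 q) (h2 : ∀ q ∈ Z, τ'.1 q = i ∨ τ'.1 q = j) (hne : τ' ≠ τ) :
    meas τ < meas τ' := by
  have hij' : ((i : ℕ) : ℤ) < ((j : ℕ) : ℤ) := by exact_mod_cast hij
  have key : ∀ q : Fin (r * r), 0 ≤ (2 * ((q : ℕ) : ℤ) - 2 * (h : ℤ) + 1) *
      (((τ'.1 q : ℕ) : ℤ) - ((τ.1 q : ℕ) : ℤ)) ∧ (τ'.1 q ≠ τ.1 q →
      0 < (2 * ((q : ℕ) : ℤ) - 2 * (h : ℤ) + 1) *
      (((τ'.1 q : ℕ) : ℤ) - ((τ.1 q : ℕ) : ℤ))) := by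
    intro q
    by_cases hq : q ∈ Z
    · rcases hZ q hq with ⟨ha, hb⟩ | ⟨ha, hb⟩ <;> rcases h2 q hq with hc | hc
      · have e : 0 < (2 * ((q : ℕ) : ℤ) - 2 * (h : ℤ) + 1) *
            (((τ'.1 q : ℕ) : ℤ) - ((τ.1 q : ℕ) : ℤ)) := by
          rw [hb, hc]
          apply mul_pos_of_neg_of_neg
          · have : ((q : ℕ) : ℤ) < (h : ℤ) := by exact_mod_cast ha
            linarith
          · linarith
        exact ⟨e.le, fun _ => e⟩
      · rw [hb, hc]; simp
      · rw [hb, hc]; simp
      · have e : 0 < (2 * ((q : ℕ) : ℤ) - 2 * (h : ℤ) + 1) *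
            (((τ'.1 q : ℕ) : ℤ) - ((τ.1 q : ℕ) : ℤ)) := by
          rw [hb, hc]
          apply mul_pos
          · have : (h : ℤ) ≤ ((q : ℕ) : ℤ) := by exact_mod_cast ha
            linarith
          · linarith
        exact ⟨e.le, fun _ => e⟩
    · rw [h1 q hq]; simp
  obtain ⟨q0, hq0⟩ : ∃ q, τ'.1 q ≠ τ.1 q := by
    by_contra hcon
    push Not at hcon
    exact hne (Subtype.ext (funext hcon))
  have hpos : 0 < ∑ q : Fin (r * r), (2 * ((q : ℕ) : ℤ) - 2 * (h : ℤ) + 1) *
      (((τ'.1 q : ℕ) : ℤ) - ((τ.1 q : ℕ) : ℤ)) :=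
    Finset.sum_pos' (fun q _ => (key q).1) ⟨q0, Finset.mem_univ _, (key q0).2 hq0⟩
  have e1 : ∑ q : Fin (r * r), (2 * ((q : ℕ) : ℤ) - 2 * (h : ℤ) + 1) *
      (((τ'.1 q : ℕ) : ℤ) - ((τ.1 q : ℕ) : ℤ)) =
      2 * ((meas τ' : ℤ) - meas τ) + (1 - 2 * (h : ℤ)) *
        (∑ q : Fin (r * r), ((τ'.1 q : ℕ) : ℤ) - ∑ q : Fin (r * r), ((τ.1 q : ℕ) : ℤ)) := by
    unfold meas
    push_cast
    rw [← Finset.sum_sub_distrib, ← Finset.sum_sub_distrib, Finset.mul_sum, Finset.mul_sum,
      ← Finset.sum_add_distrib]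
    refine Finset.sum_congr rfl fun q _ => ?_
    ring
  rw [e1, TabB_sum, TabB_sum, sub_self, mul_zero, add_zero] at hpos
  have : (meas τ : ℤ) < meas τ' := by linarith
  exact_mod_cast this

private theorem TabB_single (τ : Tb r) :
    (Pi.single τ 1 : Tb r → ℤ) ∈
      Submodule.span ℤ ({φ | ∃ τ : Tb r, Bal τ ∧ φ = Pi.single τ 1} ∪
      {φ | ∃ (τ : Tb r) (Z : Finset (Fin (r * r))) (i j : Fin r), GarOK τ Z i j ∧
        φ = gar τ Z i j}) := by
  classical
  -- a bound for the measure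
  obtain ⟨B, hB⟩ : ∃ B : ℕ, ∀ τ : Tb r, meas τ ≤ B := by
    refine ⟨∑ q : Fin (r * r), (q : ℕ) * r, fun τ => ?_⟩
    exact Finset.sum_le_sum fun q _ => Nat.mul_le_mul_left _ (τ.1 q).2.le
  induction hn : B - meas τ using Nat.strong_induction_on generalizing τ with
  | _ n ih =>
  by_cases hbal : Bal τ
  · exact Submodule.subset_span (Or.inl ⟨τ, hbal, rfl⟩)
  unfold Bal at hbal
  push Not at hbal
  obtain ⟨h, i, j, hij, hlt⟩ := hbal
  have hne : i ≠ j := by
    rintro rfl
    exact lt_irrefl _ hlt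
  have hij' : i < j := lt_of_le_of_ne hij hne
  set Z1 : Finset (Fin (r * r)) := univ.filter fun q => (q : ℕ) < h ∧ τ.1 q = j with hZ1
  set Z2 : Finset (Fin (r * r)) := univ.filter fun q => h ≤ (q : ℕ) ∧ τ.1 q = i with hZ2
  set Z : Finset (Fin (r * r)) := Z1 ∪ Z2 with hZdef
  have hZ : ∀ q ∈ Z, ((q : ℕ) < h ∧ τ.1 q = j) ∨ (h ≤ (q : ℕ) ∧ τ.1 q = i) := by
    intro q hq
    rw [hZdef, Finset.mem_union, hZ1, hZ2, Finset.mem_filter, Finset.mem_filter] at hq
    rcases hq with hq | hq
    · exact Or.inl hq.2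
    · exact Or.inr hq.2
  have hdisj : Disjoint Z1 Z2 := by
    rw [Finset.disjoint_left]
    intro q hq hq'
    rw [hZ1, Finset.mem_filter] at hq
    rw [hZ2, Finset.mem_filter] at hq'
    omega
  have hcard : r < Z.card := by
    rw [hZdef, Finset.card_union_of_disjoint hdisj]
    have h3 : (univ.filter fun q : Fin (r * r) => (q : ℕ) < h ∧ τ.1 q = i).card + Z2.card = r := by
      rw [← Finset.card_union_of_disjoint]
      · refine Eq.trans (congrArg Finset.card ?_) (τ.2 i)
        ext q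
        simp only [hZ2, Finset.mem_union, Finset.mem_filter, Finset.mem_univ, true_and]
        constructor
        · rintro (h | h)
          · exact h.2
          · exact h.2
        · intro h4
          rcases lt_or_ge (q : ℕ) h with h5 | h5
          · exact Or.inl ⟨h5, h4⟩
          · exact Or.inr ⟨h5, h4⟩
      · rw [Finset.disjoint_left]
        intro q hq hq'
        rw [Finset.mem_filter] at hq
        rw [hZ2, Finset.mem_filter] at hq'
        omega
    omega
  have hok : GarOK τ Z i j := by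
    refine ⟨hne, fun q hq => ?_, hcard⟩
    rcases hZ q hq with h3 | h3
    · exact Or.inr h3.2
    · exact Or.inl h3.2
  have hself : gar τ Z i j τ = 1 := by
    unfold gar
    rw [if_pos ⟨fun _ _ => rfl, hok.2.1⟩]
  have hdec : (Pi.single τ 1 : Tb r → ℤ) = gar τ Z i j -
      ∑ τ' ∈ univ.erase τ, gar τ Z i j τ' • (Pi.single τ' 1 : Tb r → ℤ) := by
    have h4 : gar τ Z i j = ∑ τ' : Tb r, gar τ Z i j τ' • (Pi.single τ' 1 : Tb r → ℤ) := by
      funext t
      rw [Finset.sum_apply, Finset.sum_eq_single t]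
      · simp
      · intro b _ hb
        simp [Ne.symm hb]
      · intro hb; exact absurd (Finset.mem_univ _) hb
    rw [← Finset.add_sum_erase univ _ (Finset.mem_univ τ), hself, one_smul] at h4
    exact eq_sub_of_add_eq h4.symm
  rw [hdec]
  refine Submodule.sub_mem _ (Submodule.subset_span (Or.inr ⟨τ, Z, i, j, hok, rfl⟩)) ?_
  refine Submodule.sum_mem _ fun τ' hτ' => ?_
  have hne' : τ' ≠ τ := (Finset.mem_erase.mp hτ').1
  by_cases h5 : (∀ q ∉ Z, τ'.1 q = τ.1 q) ∧ (∀ q ∈ Z, τ'.1 q = i ∨ τ'.1 q = j)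
  · refine Submodule.smul_mem _ _ ?_
    have h6 := TabB_meas hij' hZ h5.1 h5.2 hne'
    have h7 := hB τ'
    exact ih (B - meas τ') (by omega) τ' rfl
  · have : gar τ Z i j τ' = 0 := by
      unfold gar
      rw [if_neg h5]
    rw [this, zero_smul]
    exact Submodule.zero_mem _

/-- straightening: ballot tabloids and Garnir elements span. -/
theorem straighten (φ : Tb r → ℤ) :
    φ ∈ Submodule.span ℤ ({φ | ∃ τ : Tb r, Bal τ ∧ φ = Pi.single τ 1} ∪
      {φ | ∃ (τ : Tb r) (Z : Finset (Fin (r * r))) (i j : Fin r), GarOK τ Z i j ∧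
        φ = gar τ Z i j}) := by
  classical
  have h4 : φ = ∑ τ' : Tb r, φ τ' • (Pi.single τ' 1 : Tb r → ℤ) := by
    funext t
    rw [Finset.sum_apply, Finset.sum_eq_single t]
    · simp
    · intro b _ hb
      simp [Ne.symm hb]
    · intro hb; exact absurd (Finset.mem_univ _) hb
  rw [h4]
  exact Submodule.sum_mem _ fun τ' _ => Submodule.smul_mem _ _ (TabB_single τ')

/-- strict rearrangement inequality -/
private theorem TabB_rearr (f : Fin r → ℕ) (hf : StrictMono f) (π : Perm (Fin r)) :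
    π = 1 ∨ ∑ i, f i * (π i : ℕ) < ∑ i, f i * (i : ℕ) := by
  by_cases h : π = 1
  · exact Or.inl h
  right
  have hm : Monovary f (fun i : Fin r => (i : ℕ)) := by
    intro a b hab
    exact hf.monotone (Fin.lt_def.mpr hab).le
  have := (hm.sum_mul_comp_perm_lt_sum_mul_iff (σ := π)).2 (by
    intro hcon
    apply h
    have h1 : ∀ a b : Fin r, π a < π b → a < b := by
      intro a b hab
      have h2 := hcon (show ((fun i : Fin r => (i : ℕ)) ∘ π) a < ((fun i : Fin r => (i : ℕ)) ∘ π) b
        from hab)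
      rcases lt_trichotomy a b with h3 | h3 | h3
      · exact h3
      · subst h3; exact absurd hab (lt_irrefl _)
      · exact absurd (hf h3) (not_lt.mpr h2)
    have h2 : StrictMono (π⁻¹ : Perm (Fin r)) := by
      intro a b hab
      apply h1
      simpa using hab
    have h3 : ∀ a : Fin r, (π⁻¹ : Perm (Fin r)) a = a := by
      have e1 : (OrderIso.refl (Fin r)) = StrictMono.orderIsoOfSurjective _ h2 (π⁻¹).surjective :=
        Subsingleton.elim _ _
      intro a
      have := congrArg (fun e => e a) e1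
      simpa using this.symm
    ext a
    have h4 := h3 (π a)
    have h5 : (π⁻¹ : Perm (Fin r)) (π a) = a := π.symm_apply_apply a
    rw [← h4, h5]; rfl)
  exact this

/-- For a ballot tabloid there is a polytabloid with this leading term. -/
theorem bal_poly (τ : Tb r) (h : Bal τ) : ∃ g : Fin r × Fin r ≃ Fin (r * r), poly g τ = 1 ∧
    ∀ τ' : Tb r, poly g τ' ≠ 0 → τ' = τ ∨ meas τ' < meas τ := by
  classical
  let pos : Fin r → Fin r → Fin (r * r) := fun i k =>
    (univ.filter fun q => τ.1 q = i).orderEmbOfFin (τ.2 i) k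
  have hpos : ∀ i k, τ.1 (pos i k) = i := by
    intro i k
    have := (univ.filter fun q => τ.1 q = i).orderEmbOfFin_mem (τ.2 i) k
    exact (Finset.mem_filter.mp this).2
  have hposm : ∀ i, StrictMono (pos i) := fun i =>
    ((univ.filter fun q => τ.1 q = i).orderEmbOfFin (τ.2 i)).strictMono
  have hinj : Function.Injective (fun p : Fin r × Fin r => pos p.1 p.2) := by
    rintro ⟨i, k⟩ ⟨i', k'⟩ he
    simp only at he
    have h1 : i = i' := by rw [← hpos i k, he, hpos]
    subst h1
    have h2 := (hposm i).injective he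
    rw [h2]
  have hbij : Function.Bijective (fun p : Fin r × Fin r => pos p.1 p.2) := by
    rw [Fintype.bijective_iff_injective_and_card]
    refine ⟨hinj, ?_⟩
    simp
  have hsurj : ∀ q, ∃ k, pos (τ.1 q) k = q := by
    intro q
    obtain ⟨⟨i, k⟩, hik⟩ := hbij.2 q
    simp only at hik
    have : τ.1 q = i := by rw [← hik, hpos]
    exact ⟨k, by rw [this, hik]⟩
  let g : Fin r × Fin r ≃ Fin (r * r) := Equiv.ofBijective _ hbij
  have hg : ∀ i k, g (i, k) = pos i k := fun i k => rfl
  -- the columns are increasing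
  have hcol : ∀ k, StrictMono (fun i => ((pos i k : Fin (r * r)) : ℕ)) := by
    intro k i i' hii'
    by_contra hcon
    have hcon' : ((pos i' k : Fin (r * r)) : ℕ) ≤ (pos i k : Fin (r * r)) := not_lt.mp hcon
    have hne : ((pos i' k : Fin (r * r)) : ℕ) ≠ (pos i k : Fin (r * r)) := by
      intro he
      have h1 : pos i' k = pos i k := Fin.ext he
      have h2 := congrArg τ.1 h1
      rw [hpos, hpos] at h2
      exact absurd h2 (ne_of_gt hii')
    have hlt : ((pos i' k : Fin (r * r)) : ℕ) < (pos i k : Fin (r * r)) :=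
      lt_of_le_of_ne hcon' hne
    have hb := h ((pos i' k : Fin (r * r)) + 1) i i' hii'.le
    have h1 : (k : ℕ) + 1 ≤ (univ.filter fun q : Fin (r * r) =>
        (q : ℕ) < ((pos i' k : Fin (r * r)) : ℕ) + 1 ∧ τ.1 q = i').card := by
      have h2 : ((univ.filter fun l : Fin r => l ≤ k).image (pos i')) ⊆
          (univ.filter fun q : Fin (r * r) =>
        (q : ℕ) < ((pos i' k : Fin (r * r)) : ℕ) + 1 ∧ τ.1 q = i') := by
        intro q hq
        obtain ⟨l, hl, rfl⟩ := Finset.mem_image.mp hq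
        have hl' : l ≤ k := (Finset.mem_filter.mp hl).2
        refine Finset.mem_filter.mpr ⟨Finset.mem_univ _, ?_, hpos _ _⟩
        have := (hposm i').monotone hl'
        have : ((pos i' l : Fin (r * r)) : ℕ) ≤ (pos i' k : Fin (r * r)) := this
        omega
      have h3 := Finset.card_le_card h2
      rw [Finset.card_image_of_injective _ (hposm i').injective] at h3
      have h4 : (univ.filter fun l : Fin r => l ≤ k).card = (k : ℕ) + 1 := by
        have : (univ.filter fun l : Fin r => l ≤ k) = Finset.Iic k := by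
          ext l; simp
        rw [this, Fin.card_Iic]
      omega
    have h5 : (univ.filter fun q : Fin (r * r) =>
        (q : ℕ) < ((pos i' k : Fin (r * r)) : ℕ) + 1 ∧ τ.1 q = i).card ≤ k := by
      have h2 : (univ.filter fun q : Fin (r * r) =>
          (q : ℕ) < ((pos i' k : Fin (r * r)) : ℕ) + 1 ∧ τ.1 q = i) ⊆
          ((univ.filter fun l : Fin r => l < k).image (pos i)) := by
        intro q hq
        obtain ⟨_, hq1, hq2⟩ := Finset.mem_filter.mp hq
        obtain ⟨l, hl⟩ := hsurj q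
        rw [hq2] at hl
        refine Finset.mem_image.mpr ⟨l, Finset.mem_filter.mpr ⟨Finset.mem_univ _, ?_⟩, hl⟩
        rw [← hl] at hq1
        have h6 : ((pos i l : Fin (r * r)) : ℕ) < (pos i k : Fin (r * r)) := by omega
        exact (hposm i).lt_iff_lt.mp (Fin.lt_def.mpr h6)
      have h3 := (Finset.card_le_card h2).trans Finset.card_image_le
      have h4 : (univ.filter fun l : Fin r => l < k).card = (k : ℕ) := by
        have : (univ.filter fun l : Fin r => l < k) = Finset.Iio k := by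
          ext l; simp
        rw [this, Fin.card_Iio]
      omega
    omega
  refine ⟨g, ?_, ?_⟩
  · unfold poly
    refine Finset.prod_eq_one fun j _ => ?_
    have : (fun i k : Fin r => if τ.1 (g (i, j)) = k then (1 : ℤ) else 0) =
        (1 : Matrix (Fin r) (Fin r) ℤ) := by
      funext i k
      rw [hg, hpos, Matrix.one_apply]
    rw [this, Matrix.det_one]
  · intro τ' hτ'
    have hcolinj : ∀ j, Function.Injective (fun i => τ'.1 (g (i, j))) := by
      intro j a b hab
      by_contra hne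
      apply hτ'
      unfold poly
      refine Finset.prod_eq_zero (Finset.mem_univ j) ?_
      refine Matrix.det_zero_of_row_eq hne ?_
      funext k
      simp only at hab
      simp only [hab]
    let π : Fin r → Perm (Fin r) := fun j =>
      Equiv.ofBijective (fun i => τ'.1 (g (i, j))) (Finite.injective_iff_bijective.mp (hcolinj j))
    have hπ : ∀ j i, π j i = τ'.1 (g (i, j)) := fun j i => rfl
    have hm : ∀ t : Tb r, meas t = ∑ j, ∑ i, ((pos i j : Fin (r * r)) : ℕ) *
        ((t.1 (g (i, j)) : Fin r) : ℕ) := by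
      intro t
      unfold meas
      rw [← Equiv.sum_comp g, Fintype.sum_prod_type, Finset.sum_comm]
      rfl
    have hτm : meas τ = ∑ j, ∑ i : Fin r, ((pos i j : Fin (r * r)) : ℕ) * (i : ℕ) := by
      rw [hm]
      refine Finset.sum_congr rfl fun j _ => Finset.sum_congr rfl fun i _ => ?_
      rw [hg, hpos]
    by_cases hall : ∀ j, π j = 1
    · left
      apply Subtype.ext
      funext q
      obtain ⟨⟨i, k⟩, rfl⟩ := g.surjective q
      rw [← hπ, hall, hg, hpos]
      rfl
    · right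
      push Not at hall
      obtain ⟨j0, hj0⟩ := hall
      rw [hm τ', hτm]
      refine Finset.sum_lt_sum (fun j _ => ?_) ⟨j0, Finset.mem_univ _, ?_⟩
      · rcases TabB_rearr _ (hcol j) (π j) with h1 | h1
        · refine Finset.sum_le_sum fun i _ => ?_
          rw [← hπ, h1]
          exact le_rfl
        · exact h1.le
      · rcases TabB_rearr _ (hcol j0) (π j0) with h1 | h1
        · exact absurd h1 hj0
        · exact h1

end H34.Kem
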