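import Pool.Agent.H34.Kem.TabA
import Pool.Agent.H34.Kem.TabB
import Pool.Agent.H34.Kem.KemC
import Pool.Agent.H34.Kem.KemC2

namespace H34.Kem

open Finset Equiv

/-! ### arithmetic -/

theorem tabD_nt1 (p : ℕ) [Fact p.Prime] (q : ℤ) (c k : ℕ) (h : ¬ (p : ℤ) ^ (c + 1) ∣ q) :
    ∃ α β : ℤ, (p : ℤ) ^ c = α * q + β * (p : ℤ) ^ (k + c) := by
  have hp : p.Prime := Fact.out
  have h1 : Int.gcd q ((p : ℤ) ^ (k + c)) ∣ p ^ (k + c) := by
    have := Int.gcd_dvd_right q ((p : ℤ) ^ (k + c))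
    exact_mod_cast this
  obtain ⟨j, -, hj⟩ := (Nat.dvd_prime_pow hp).1 h1
  have hjc : j ≤ c := by
    by_contra hcon
    apply h
    have h2 : ((Int.gcd q ((p : ℤ) ^ (k + c)) : ℕ) : ℤ) ∣ q := Int.gcd_dvd_left q _
    refine dvd_trans ?_ h2
    rw [hj]
    push_cast
    exact pow_dvd_pow _ (by omega)
  have h3 := Int.gcd_eq_gcd_ab q ((p : ℤ) ^ (k + c))
  rw [hj] at h3
  push_cast at h3
  refine ⟨(p : ℤ) ^ (c - j) * Int.gcdA q ((p : ℤ) ^ (k + c)),
    (p : ℤ) ^ (c - j) * Int.gcdB q ((p : ℤ) ^ (k + c)), ?_⟩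
  calc (p : ℤ) ^ c = (p : ℤ) ^ (c - j) * (p : ℤ) ^ j := by rw [← pow_add]; congr 1; omega
    _ = _ := by rw [h3]; ring

theorem tabD_nt2 (p : ℕ) [Fact p.Prime] {Δ : ℤ} (hΔ : Δ ≠ 0) (x : ℤ)
    (h : (p : ℤ) ^ (Δ.natAbs + 1) ∣ Δ * x) : (p : ℤ) ∣ x := by
  have hp : p.Prime := Fact.out
  by_contra hcon
  have h1 : IsCoprime ((p : ℤ) ^ (Δ.natAbs + 1)) x := by
    apply IsCoprime.pow_left
    exact ((Nat.prime_iff_prime_int.1 hp).irreducible.coprime_iff_not_dvd).2 hcon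
  have h2 := h1.dvd_of_dvd_mul_right h
  have h3 : p ^ (Δ.natAbs + 1) ∣ Δ.natAbs := by
    have := Int.natAbs_dvd_natAbs.2 h2
    rwa [Int.natAbs_pow, Int.natAbs_natCast] at this
  have h4 := Nat.le_of_dvd (Int.natAbs_pos.2 hΔ) h3
  have h5 : Δ.natAbs + 1 < p ^ (Δ.natAbs + 1) := Nat.lt_pow_self hp.one_lt
  omega

theorem tabD_gram (p : ℕ) [Fact p.Prime] {B X : Type} [Fintype B] [Fintype X]
    (e : B → X → ℤ) (hinj : ∀ x : B → ℤ, (∀ τ, ∑ b, x b * e b τ = 0) → x = 0) :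
    ∃ c : ℕ, ∀ x : B → ℤ, (∀ b', (p : ℤ) ^ (c + 1) ∣ ∑ τ, (∑ b, x b * e b τ) * e b' τ) →
      ∀ b, (p : ℤ) ∣ x b := by
  classical
  let Γ : Matrix B B ℤ := fun b' b => ∑ τ, e b' τ * e b τ
  have hΓ : ∀ (x : B → ℤ) b', Γ.mulVec x b' = ∑ τ, (∑ b, x b * e b τ) * e b' τ := by
    intro x b'
    simp only [Matrix.mulVec, dotProduct, Γ, Finset.sum_mul]
    rw [Finset.sum_comm]
    refine Finset.sum_congr rfl fun τ _ => Finset.sum_congr rfl fun b _ => ?_
    ring
  have hdet : Γ.det ≠ 0 := by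
    intro h0
    obtain ⟨v, hv, hv0⟩ := Matrix.exists_mulVec_eq_zero_iff.2 h0
    apply hv
    apply hinj
    have h1 : ∑ τ, (∑ b, v b * e b τ) ^ 2 = 0 := by
      have h2 : ∑ b', v b' * Γ.mulVec v b' = 0 := by
        rw [hv0]
        simp
      rw [← h2]
      simp only [hΓ, Finset.mul_sum]
      rw [Finset.sum_comm]
      refine Finset.sum_congr rfl fun τ _ => ?_
      rw [sq, Finset.sum_mul]
      refine Finset.sum_congr rfl fun b _ => ?_
      ring
    intro τ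
    have h3 := (Finset.sum_eq_zero_iff_of_nonneg (fun τ _ => sq_nonneg _)).1 h1 τ (Finset.mem_univ _)
    exact pow_eq_zero_iff (two_ne_zero) |>.1 h3
  refine ⟨Γ.det.natAbs, fun x hx b => tabD_nt2 p hdet _ ?_⟩
  have h1 : (Γ.adjugate.mulVec (Γ.mulVec x)) b = Γ.det * x b := by
    rw [Matrix.mulVec_mulVec, Matrix.adjugate_mul, Matrix.smul_mulVec, Matrix.one_mulVec]
    rfl
  rw [← h1]
  show _ ∣ ∑ b', Γ.adjugate b b' * Γ.mulVec x b'
  refine Finset.dvd_sum fun b' _ => Dvd.dvd.mul_left ?_ _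
  rw [hΓ]
  exact hx b'

/-! ### unitriangular matrices -/

theorem tabD_tri {B : Type} [Fintype B] (m : B → ℕ) (E : B → B → ℤ) (hdiag : ∀ b, E b b = 1)
    (hlow : ∀ b b', E b b' ≠ 0 → b' = b ∨ m b' < m b) :
    Function.Bijective (Fintype.linearCombination ℤ E) := by
  classical
  have hsp : ∀ n, ∀ b, m b = n → (Pi.single b 1 : B → ℤ) ∈ Submodule.span ℤ (Set.range E) := by
    intro n
    induction n using Nat.strong_induction_on with
    | _ n ih =>
      intro b hb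
      have h1 : E b = Pi.single b 1 + ∑ b' ∈ univ.erase b, E b b' • (Pi.single b' 1 : B → ℤ) := by
        have h2 : E b = ∑ b', E b b' • (Pi.single b' 1 : B → ℤ) := pi_eq_sum_univ' (E b)
        rw [← Finset.add_sum_erase univ _ (Finset.mem_univ b), hdiag, one_smul] at h2
        exact h2
      have h3 : (Pi.single b 1 : B → ℤ) =
          E b - ∑ b' ∈ univ.erase b, E b b' • (Pi.single b' 1 : B → ℤ) := by
        rw [eq_sub_iff_add_eq]
        exact h1.symm
      rw [h3]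
      refine Submodule.sub_mem _ (Submodule.subset_span ⟨b, rfl⟩)
        (Submodule.sum_mem _ fun b' hb' => ?_)
      by_cases h0 : E b b' = 0
      · rw [h0, zero_smul]
        exact Submodule.zero_mem _
      · refine Submodule.smul_mem _ _ (ih (m b') ?_ b' rfl)
        rcases hlow b b' h0 with h4 | h4
        · exact absurd h4 (Finset.ne_of_mem_erase hb')
        · omega
  have hsurj : Function.Surjective (Fintype.linearCombination ℤ E) := by
    rw [← LinearMap.range_eq_top, Fintype.range_linearCombination, eq_top_iff]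
    intro f _
    rw [pi_eq_sum_univ' f]
    exact Submodule.sum_mem _ fun b _ => Submodule.smul_mem _ _ (hsp _ b rfl)
  exact ⟨IsNoetherian.injective_of_surjective_endomorphism _ hsurj, hsurj⟩

/-! ### the lattice -/

variable {r : ℕ}

theorem tabD_act_act (τ : Tb r) (σ σ' : Perm (Fin (r * r))) :
    (τ.act σ).act σ' = τ.act (σ * σ') := rfl

theorem tabD_act_one (τ : Tb r) : τ.act 1 = τ := rfl

/-- the action of a permutation as an equivalence. -/
def tabDE (σ : Perm (Fin (r * r))) : Tb r ≃ Tb r where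
  toFun τ := τ.act σ
  invFun τ := τ.act σ⁻¹
  left_inv τ := by
    show (τ.act σ).act σ⁻¹ = τ
    rw [tabD_act_act, mul_inv_cancel, tabD_act_one]
  right_inv τ := by
    show (τ.act σ⁻¹).act σ = τ
    rw [tabD_act_act, inv_mul_cancel, tabD_act_one]

theorem tabD_gar_act (τ : Tb r) (Z : Finset (Fin (r * r))) (i j : Fin r) (σ : Perm (Fin (r * r)))
    (τ' : Tb r) :
    gar τ Z i j (τ'.act σ⁻¹) = gar (τ.act σ) (Z.map σ.symm.toEmbedding) i j τ' := by
  have h1 : ((∀ q ∉ Z, (τ'.act σ⁻¹).1 q = τ.1 q) ∧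
      (∀ q ∈ Z, (τ'.act σ⁻¹).1 q = i ∨ (τ'.act σ⁻¹).1 q = j)) ↔
      ((∀ q ∉ Z.map σ.symm.toEmbedding, τ'.1 q = (τ.act σ).1 q) ∧
        ∀ q ∈ Z.map σ.symm.toEmbedding, τ'.1 q = i ∨ τ'.1 q = j) := by
    simp only [Finset.mem_map_equiv, Equiv.symm_symm]
    have e1 : ∀ q, (τ'.act σ⁻¹).1 q = τ'.1 (σ⁻¹ q) := fun q => rfl
    have e2 : ∀ q, (τ.act σ).1 q = τ.1 (σ q) := fun q => rfl
    have i1 : ∀ q, σ⁻¹ (σ q) = q := fun q => σ.symm_apply_apply q
    have i2 : ∀ q, σ (σ⁻¹ q) = q := fun q => σ.apply_symm_apply q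
    simp only [e1, e2]
    constructor
    · rintro ⟨a1, a2⟩
      refine ⟨fun q hq => ?_, fun q hq => ?_⟩
      · have := a1 (σ q) hq
        rwa [i1] at this
      · have := a2 (σ q) hq
        rwa [i1] at this
    · rintro ⟨a1, a2⟩
      refine ⟨fun q hq => ?_, fun q hq => ?_⟩
      · have := a1 (σ⁻¹ q) (by rwa [i2])
        rwa [i2] at this
      · exact a2 (σ⁻¹ q) (by rwa [i2])
  unfold gar
  exact if_congr h1 rfl rfl

theorem tabD_garOK_act {τ : Tb r} {Z : Finset (Fin (r * r))} {i j : Fin r}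
    (h : GarOK τ Z i j) (σ : Perm (Fin (r * r))) :
    GarOK (τ.act σ) (Z.map σ.symm.toEmbedding) i j := by
  obtain ⟨h1, h2, h3⟩ := h
  refine ⟨h1, fun q hq => ?_, ?_⟩
  · rw [Finset.mem_map_equiv, Equiv.symm_symm] at hq
    exact h2 _ hq
  · rw [Finset.card_map]
    exact h3

/-- the lattice of the functions orthogonal to the Garnir elements. -/
def tabDS (r : ℕ) : Submodule ℤ (Tb r → ℤ) where
  carrier := {φ | ∀ (τ : Tb r) (Z : Finset (Fin (r * r))) (i j : Fin r), GarOK τ Z i j →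
    ∑ τ' : Tb r, gar τ Z i j τ' * φ τ' = 0}
  zero_mem' := by
    intro τ Z i j _
    simp
  add_mem' := by
    intro φ ψ h1 h2 τ Z i j h
    simp only [Pi.add_apply, mul_add, Finset.sum_add_distrib, h1 τ Z i j h, h2 τ Z i j h, add_zero]
  smul_mem' := by
    intro c φ h1 τ Z i j h
    have h2 : ∑ τ' : Tb r, gar τ Z i j τ' * (c • φ) τ' =
        c * ∑ τ' : Tb r, gar τ Z i j τ' * φ τ' := by
      rw [Finset.mul_sum]
      refine Finset.sum_congr rfl fun τ' _ => ?_
      rw [Pi.smul_apply, smul_eq_mul]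
      ring
    rw [h2, h1 τ Z i j h, mul_zero]

theorem tabD_smul_mem (σ : Perm (Fin (r * r))) {φ : Tb r → ℤ} (hφ : φ ∈ tabDS r) :
    (fun τ => φ (τ.act σ)) ∈ tabDS r := by
  intro τ Z i j h
  have h1 := Equiv.sum_comp (tabDE σ) fun τ' => gar τ Z i j (τ'.act σ⁻¹) * φ τ'
  have h2 : ∀ τ', (tabDE σ τ').act σ⁻¹ = τ' := fun τ' => (tabDE σ).left_inv τ'
  simp only [h2] at h1
  show ∑ τ', gar τ Z i j τ' * φ (tabDE σ τ') = 0
  rw [h1]
  simp only [tabD_gar_act]
  exact hφ _ _ _ _ (tabD_garOK_act h σ)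

theorem tabD_poly_mem (g : Fin r × Fin r ≃ Fin (r * r)) : poly g ∈ tabDS r :=
  fun _ _ _ _ h => gar_poly h g

theorem tabD_poly_act (g : Fin r × Fin r ≃ Fin (r * r)) (σ : Perm (Fin (r * r))) (τ : Tb r) :
    poly g (τ.act σ) = poly (g.trans σ) τ := rfl

theorem tabD_pure {p : ℕ} (hp : p ≠ 0) {φ : Tb r → ℤ} (h : (p : ℤ) • φ ∈ tabDS r) :
    φ ∈ tabDS r := by
  intro τ Z i j h1
  have h2 := h τ Z i j h1
  have h3 : ∑ τ' : Tb r, gar τ Z i j τ' * ((p : ℤ) • φ) τ' =
      p * ∑ τ' : Tb r, gar τ Z i j τ' * φ τ' := by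
    rw [Finset.mul_sum]
    refine Finset.sum_congr rfl fun τ' _ => ?_
    rw [Pi.smul_apply, smul_eq_mul]
    ring
  rw [h3] at h2
  exact (mul_eq_zero.1 h2).resolve_left (by exact_mod_cast hp)

open Classical in
theorem tabD_coef (p s : ℕ) [Fact p.Prime] (hr : r + 1 = p ^ s) (τ : Tb r) :
    ∃ c : {τ : Tb r // Bal τ} → ℤ, (∀ φ ∈ tabDS r, φ τ = ∑ b, c b * φ b.1) ∧
      (p : ℤ) ∣ 1 - ∑ b, c b := by
  have key : ∀ ψ ∈ Submodule.span ℤ ({φ | ∃ τ : Tb r, Bal τ ∧ φ = Pi.single τ 1} ∪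
      {φ | ∃ (τ : Tb r) (Z : Finset (Fin (r * r))) (i j : Fin r), GarOK τ Z i j ∧
        φ = gar τ Z i j}), ∃ c : {τ : Tb r // Bal τ} → ℤ,
      (∀ φ ∈ tabDS r, ∑ τ, ψ τ * φ τ = ∑ b, c b * φ b.1) ∧
      (p : ℤ) ∣ ∑ τ, ψ τ - ∑ b, c b := by
    intro ψ hψ
    induction hψ using Submodule.span_induction with
    | mem ψ h =>
      rcases h with ⟨τ, hτ, rfl⟩ | ⟨τ, Z, i, j, h, rfl⟩
      · refine ⟨Pi.single ⟨τ, hτ⟩ 1, ?_, ?_⟩
        · intro φ _
          simp [Pi.single_apply]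
        · simp [Pi.single_apply]
      · refine ⟨0, ?_, ?_⟩
        · intro φ hφ
          rw [hφ τ Z i j h]
          simp
        · simpa using gar_aug h p s hr
    | zero => exact ⟨0, by simp, by simp⟩
    | add ψ ψ' _ _ h h' =>
      obtain ⟨c, h1, h2⟩ := h
      obtain ⟨c', h1', h2'⟩ := h'
      refine ⟨c + c', ?_, ?_⟩
      · intro φ hφ
        simp only [Pi.add_apply, add_mul, Finset.sum_add_distrib, h1 φ hφ, h1' φ hφ]
      · simp only [Pi.add_apply, Finset.sum_add_distrib]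
        rw [add_sub_add_comm]
        exact dvd_add h2 h2'
    | smul a ψ _ h =>
      obtain ⟨c, h1, h2⟩ := h
      refine ⟨a • c, ?_, ?_⟩
      · intro φ hφ
        simp only [Pi.smul_apply, smul_eq_mul, mul_assoc, ← Finset.mul_sum, h1 φ hφ]
      · simp only [Pi.smul_apply, smul_eq_mul, ← Finset.mul_sum, ← mul_sub]
        exact Dvd.dvd.mul_left h2 _
  obtain ⟨c, h1, h2⟩ := key _ (straighten (Pi.single τ 1))
  refine ⟨c, ?_, ?_⟩
  · intro φ hφ
    rw [← h1 φ hφ]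
    simp [Pi.single_apply]
  · simpa [Pi.single_apply] using h2

/-- the action of the permutations on the lattice. -/
@[instance_reducible]
def tabDAct (r : ℕ) : DistribMulAction (Perm (Fin (r * r))) (tabDS r) where
  smul σ φ := ⟨fun τ => φ.1 (τ.act σ), tabD_smul_mem σ φ.2⟩
  one_smul _ := rfl
  mul_smul _ _ _ := rfl
  smul_zero _ := rfl
  smul_add _ _ _ := rfl

attribute [local instance] tabDAct

theorem tabD_smul_apply (σ : Perm (Fin (r * r))) (φ : tabDS r) (τ : Tb r) :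
    (σ • φ).1 τ = φ.1 (τ.act σ) := rfl

theorem tabD_smul_smul (σ : Perm (Fin (r * r))) (n : ℤ) (φ : tabDS r) :
    σ • n • φ = n • σ • φ := rfl

/-- The submodule generated by the translates of `w` and `p ^ k` times everything. -/
def tabDM (p k : ℕ) (w : tabDS r) : Submodule ℤ (tabDS r) where
  carrier := {x | ∃ (a : Perm (Fin (r * r)) → ℤ) (y : tabDS r),
    x = ∑ g, a g • g • w + ((p : ℤ) ^ k) • y}
  zero_mem' := ⟨0, 0, by simp⟩
  add_mem' := by
    rintro _ _ ⟨a, y, rfl⟩ ⟨a', y', rfl⟩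
    refine ⟨a + a', y + y', ?_⟩
    simp only [Pi.add_apply, add_smul, Finset.sum_add_distrib, smul_add]
    abel
  smul_mem' := by
    rintro n _ ⟨a, y, rfl⟩
    refine ⟨fun g => n * a g, n • y, ?_⟩
    rw [smul_add, Finset.smul_sum]
    simp only [smul_smul]
    rw [mul_comm n]

theorem tabDM_smul (p k : ℕ) (w : tabDS r) (σ : Perm (Fin (r * r))) {x : tabDS r}
    (hx : x ∈ tabDM p k w) : σ • x ∈ tabDM p k w := by
  obtain ⟨a, y, rfl⟩ := hx
  refine ⟨fun g => a (σ⁻¹ * g), σ • y, ?_⟩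
  rw [smul_add, Finset.smul_sum, tabD_smul_smul]
  congr 1
  have h1 := Equiv.sum_comp (Equiv.mulLeft σ) fun g => a (σ⁻¹ * g) • g • w
  rw [← h1]
  refine Finset.sum_congr rfl fun g _ => ?_
  rw [Equiv.coe_mulLeft, inv_mul_cancel_left, tabD_smul_smul, mul_smul]

open Classical in
theorem tabD_main (p s r : ℕ) [Fact p.Prime] (hr : r + 1 = p ^ s)
    (hB : 0 < Fintype.card {τ : Tb r // Bal τ})
    (e : MonoidAlgebra (ZMod p) (Perm (Fin (r * r)))) (he : e * e = e)
    (he1 : ∑ g, e.coeff g = 1) :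
    Fintype.card {τ : Tb r // Bal τ} ≤ Module.finrank (ZMod p) (Ideal.span {e}) := by
  have hp : p.Prime := Fact.out
  choose g hg1 hg2 using fun b : {τ : Tb r // Bal τ} => bal_poly b.1 b.2
  have hE := tabD_tri (fun b : {τ : Tb r // Bal τ} => meas b.1) (fun b b' => poly (g b) b'.1) hg1
    (fun b b' h => (hg2 b b'.1 h).imp Subtype.ext id)
  let ρ : tabDS r →ₗ[ℤ] ({τ : Tb r // Bal τ} → ℤ) :=
    { toFun := fun φ b => φ.1 b.1
      map_add' := fun _ _ => rfl
      map_smul' := fun _ _ => rfl }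
  have hcoef := tabD_coef (r := r) p s hr
  choose cf hcf1 hcf2 using hcoef
  have hρi : Function.Injective ρ := by
    intro φ ψ h
    apply Subtype.ext
    funext τ
    rw [hcf1 τ φ.1 φ.2, hcf1 τ ψ.1 ψ.2]
    refine Finset.sum_congr rfl fun b _ => ?_
    rw [show φ.1 b.1 = ψ.1 b.1 from congrFun h b]
  let P : {τ : Tb r // Bal τ} → tabDS r := fun b => ⟨poly (g b), tabD_poly_mem (g b)⟩
  have hlin : ∀ x : {τ : Tb r // Bal τ} → ℤ, ρ (∑ b, x b • P b) =
      Fintype.linearCombination ℤ (fun b b' : {τ : Tb r // Bal τ} => poly (g b) b'.1) x := by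
    intro x
    rw [map_sum, Fintype.linearCombination_apply]
    refine Finset.sum_congr rfl fun b _ => ?_
    rw [map_smul]
    rfl
  have hρs : Function.Surjective ρ := by
    intro f
    obtain ⟨x, hx⟩ := hE.2 f
    exact ⟨∑ b, x b • P b, (hlin x).trans hx⟩
  have hspan : ∀ w : tabDS r, ∃ x : {τ : Tb r // Bal τ} → ℤ, w = ∑ b, x b • P b := by
    intro w
    obtain ⟨x, hx⟩ := hE.2 (ρ w)
    exact ⟨x, hρi (hx.symm.trans (hlin x).symm)⟩
  let ρe := LinearEquiv.ofBijective ρ ⟨hρi, hρs⟩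
  have i1 : Module.Free ℤ (tabDS r) := Module.Free.of_equiv ρe.symm
  have i2 : Module.Finite ℤ (tabDS r) := Module.Finite.equiv ρe.symm
  have hrank : Module.finrank ℤ (tabDS r) = Fintype.card {τ : Tb r // Bal τ} := by
    rw [ρe.finrank_eq, Module.finrank_fintype_fun_eq_card]
  rw [← hrank]
  obtain ⟨u, hu⟩ := hρs fun _ => 1
  have hu1 : ∀ b : {τ : Tb r // Bal τ}, u.1 b.1 = 1 := fun b => congrFun hu b
  have hu2 : ∀ τ, (p : ℤ) ∣ 1 - u.1 τ := by
    intro τ
    rw [hcf1 τ u.1 u.2]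
    simp only [hu1, mul_one]
    exact hcf2 τ
  -- evaluation of sums
  have hev : ∀ (x : {τ : Tb r // Bal τ} → ℤ) (τ : Tb r),
      (∑ b, x b • P b : tabDS r).1 τ = ∑ b, x b * poly (g b) τ := by
    intro x τ
    have h1 : (∑ b, x b • P b : tabDS r).1 = ∑ b, x b • poly (g b) := by
      rw [← Submodule.subtype_apply, map_sum]
      rfl
    rw [h1, Finset.sum_apply]
    rfl
  have hinj : ∀ x : {τ : Tb r // Bal τ} → ℤ, (∀ τ, ∑ b, x b * poly (g b) τ = 0) → x = 0 := by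
    intro x hx
    apply hE.1
    rw [map_zero, ← hlin]
    funext b
    show (∑ b, x b • P b : tabDS r).1 b.1 = 0
    rw [hev, hx]
  obtain ⟨c, hc⟩ := tabD_gram p (fun b => poly (g b)) hinj
  refine rank_le p (tabDS r) u ?_ ?_ c ?_ e he he1
  · intro x hx
    obtain ⟨b0⟩ : Nonempty {τ : Tb r // Bal τ} := Fintype.card_pos_iff.1 hB
    have h1 := hu1 b0
    rw [hx] at h1
    have h2 : (p : ℤ) * x.1 b0.1 = 1 := h1
    have h3 : (p : ℤ) ∣ 1 := ⟨_, h2.symm⟩
    have h4 : p ∣ 1 := by exact_mod_cast h3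
    exact hp.one_lt.ne' (Nat.dvd_one.1 h4)
  · intro σ
    have h1 : ∀ τ, ∃ d, u.1 (τ.act σ) - u.1 τ = p * d := by
      intro τ
      have := dvd_sub (hu2 τ) (hu2 (τ.act σ))
      obtain ⟨d, hd⟩ := this
      exact ⟨d, by rw [← hd]; ring⟩
    choose d hd using h1
    have h2 : (p : ℤ) • d = (σ • u - u).1 := by
      funext τ
      show (p : ℤ) * d τ = u.1 (τ.act σ) - u.1 τ
      rw [hd]
    refine ⟨⟨d, tabD_pure hp.ne_zero (by rw [h2]; exact (σ • u - u).2)⟩, ?_⟩
    apply Subtype.ext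
    exact h2.symm
  · intro w hw k x
    obtain ⟨y, hy⟩ := hspan w
    have hb : ∃ b', ¬ (p : ℤ) ^ (c + 1) ∣ ∑ τ, w.1 τ * poly (g b') τ := by
      by_contra hcon
      push Not at hcon
      have h1 := hc y (fun b' => by
        have h2 := hcon b'
        rw [hy] at h2
        simp only [hev] at h2
        exact h2)
      choose z hz using h1
      apply hw (∑ b, z b • P b)
      rw [hy, Finset.smul_sum]
      refine Finset.sum_congr rfl fun b _ => ?_
      rw [smul_smul, hz]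
    obtain ⟨b', hb'⟩ := hb
    obtain ⟨α, β, hαβ⟩ := tabD_nt1 p _ c k hb'
    obtain ⟨a, ha⟩ := kappa (g b')
    have h1 : (∑ σ, a σ • σ • w : tabDS r) = (∑ τ, w.1 τ * poly (g b') τ) • P b' := by
      apply Subtype.ext
      funext τ
      have h2 : (∑ σ, a σ • σ • w : tabDS r).1 = ∑ σ, a σ • (σ • w).1 := by
        rw [← Submodule.subtype_apply, map_sum]
        rfl
      rw [h2, Finset.sum_apply]
      exact ha w.1 τ
    have hMb' : ((p : ℤ) ^ c) • P b' ∈ tabDM p k w := by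
      refine ⟨fun σ => α * a σ, (β * (p : ℤ) ^ c) • P b', ?_⟩
      have h5 : ∑ σ, (α * a σ) • σ • w = α • (∑ τ, w.1 τ * poly (g b') τ) • P b' := by
        simp only [mul_smul, ← Finset.smul_sum]
        rw [h1]
      rw [h5, ← mul_smul, ← mul_smul, ← add_smul]
      congr 1
      calc (p : ℤ) ^ c = _ := hαβ
        _ = _ := by rw [pow_add]; ring
    have hMb : ∀ b, ((p : ℤ) ^ c) • P b ∈ tabDM p k w := by
      intro b
      have h2 := tabDM_smul p k w ((g b').symm.trans (g b)) hMb'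
      have h3 : ((g b').symm.trans (g b) : Perm (Fin (r * r))) • P b' = P b := by
        apply Subtype.ext
        funext τ
        show poly (g b') (τ.act _) = poly (g b) τ
        rw [tabD_poly_act]
        congr 1
        ext1 q
        simp
      rw [tabD_smul_smul, h3] at h2
      exact h2
    obtain ⟨y', hy'⟩ := hspan x
    have h4 : ((p : ℤ) ^ c) • x ∈ tabDM p k w := by
      rw [hy', Finset.smul_sum]
      refine Submodule.sum_mem _ fun b _ => ?_
      rw [smul_comm]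
      exact Submodule.smul_mem _ _ (hMb b)
    exact h4

open Classical in
/-- left ideals of small codimension contain the sum of the group elements. -/
theorem thmD0 (p s r : ℕ) [Fact p.Prime] (hs : 1 ≤ s) (hr : r + 1 = p ^ s)
    (L : Ideal (MonoidAlgebra (ZMod p) (Perm (Fin (r * r)))))
    (hL : Module.finrank (ZMod p) (MonoidAlgebra (ZMod p) (Perm (Fin (r * r))) ⧸ L) <
      Fintype.card {τ : Tb r // Bal τ}) :
    (∑ σ : Perm (Fin (r * r)), MonoidAlgebra.single σ (1 : ZMod p)) ∈ L := by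
  by_contra hN
  obtain ⟨e, he, he1, he2⟩ := exists_idem p L hN
  have h := tabD_main p s r hr (by omega) e he he1
  omega

/-- the twist by the sign. -/
noncomputable def tabDθ (p : ℕ) (n : ℕ) :
    MonoidAlgebra (ZMod p) (Perm (Fin n)) →ₐ[ZMod p] MonoidAlgebra (ZMod p) (Perm (Fin n)) :=
  MonoidAlgebra.lift (ZMod p) _ (Perm (Fin n))
    { toFun := fun g => MonoidAlgebra.single g ((Perm.sign g : ℤ) : ZMod p)
      map_one' := by
        rw [Perm.sign_one, MonoidAlgebra.one_def]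
        simp
      map_mul' := by
        intro g h
        rw [MonoidAlgebra.single_mul_single, Perm.sign_mul]
        push_cast
        rfl }

theorem tabDθ_single (p : ℕ) (n : ℕ) (g : Perm (Fin n)) (a : ZMod p) :
    tabDθ p n (MonoidAlgebra.single g a) =
      MonoidAlgebra.single g (a * ((Perm.sign g : ℤ) : ZMod p)) := by
  unfold tabDθ
  rw [MonoidAlgebra.lift_single]
  show a • MonoidAlgebra.single g ((Perm.sign g : ℤ) : ZMod p) = _
  rw [MonoidAlgebra.smul_single, smul_eq_mul]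

theorem tabDθ_comp (p : ℕ) (n : ℕ) : (tabDθ p n).comp (tabDθ p n) = AlgHom.id _ _ := by
  apply MonoidAlgebra.algHom_ext
  · intro g
    rw [AlgHom.comp_apply, tabDθ_single, tabDθ_single, AlgHom.id_apply]
    congr 1
    rw [mul_assoc, ← Int.cast_mul]
    have h : ((Perm.sign g : ℤ)) * (Perm.sign g : ℤ) = 1 := by
      rw [← Units.val_mul, Int.units_mul_self]
      rfl
    rw [h]
    simp
  · exact Subsingleton.elim _ _

/-- the same with signs. -/
theorem thmD (p s r : ℕ) [Fact p.Prime] (hs : 1 ≤ s) (hr : r + 1 = p ^ s)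
    (L : Ideal (MonoidAlgebra (ZMod p) (Perm (Fin (r * r)))))
    (hL : Module.finrank (ZMod p) (MonoidAlgebra (ZMod p) (Perm (Fin (r * r))) ⧸ L) <
      Nat.card {τ : Tb r // Bal τ}) :
    (∑ σ : Perm (Fin (r * r)), MonoidAlgebra.single σ ((Perm.sign σ : ℤ) : ZMod p)) ∈ L := by
  classical
  let θ : MonoidAlgebra (ZMod p) (Perm (Fin (r * r))) ≃ₐ[ZMod p]
      MonoidAlgebra (ZMod p) (Perm (Fin (r * r))) :=
    AlgEquiv.ofAlgHom (tabDθ p (r * r)) (tabDθ p (r * r)) (tabDθ_comp _ _) (tabDθ_comp _ _)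
  let L' : Ideal (MonoidAlgebra (ZMod p) (Perm (Fin (r * r)))) := Ideal.comap θ.toRingEquiv L
  have hmem : ∀ x, x ∈ L' ↔ θ x ∈ L := fun x => Iff.rfl
  have e1 := Submodule.Quotient.equiv (L'.restrictScalars (ZMod p)) (L.restrictScalars (ZMod p))
    θ.toLinearEquiv (by
      ext x
      constructor
      · rintro ⟨y, hy, rfl⟩
        exact hy
      · intro hx
        refine ⟨θ.symm x, ?_, θ.apply_symm_apply x⟩
        show θ (θ.symm x) ∈ L
        rw [θ.apply_symm_apply]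
        exact hx)
  have e2 := ((Submodule.Quotient.restrictScalarsEquiv (ZMod p) L').symm.trans e1).trans
    (Submodule.Quotient.restrictScalarsEquiv (ZMod p) L)
  have h1 := thmD0 p s r hs hr L' (by
    rw [← Nat.card_eq_fintype_card]
    refine lt_of_eq_of_lt ?_ hL
    exact e2.finrank_eq)
  rw [hmem, map_sum] at h1
  have h2 : ∀ σ : Perm (Fin (r * r)), θ (MonoidAlgebra.single σ (1 : ZMod p)) =
      MonoidAlgebra.single σ ((Perm.sign σ : ℤ) : ZMod p) := by
    intro σ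
    show tabDθ p (r * r) _ = _
    rw [tabDθ_single, one_mul]
  simpa only [h2] using h1

end H34.Kem
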