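import Pool.Agent.H34.Kem.KemDefs

namespace H34.Kem

open Finset Equiv

/-- prefix words: blocks `1, ..., k`. -/
private def tePL : ℕ → Finset (List ℕ)
  | 0 => {[]}
  | k + 1 => ((tePL k) ×ˢ (List.range (k + 1)).permutations.toFinset).image fun x => x.1 ++ x.2

private def teBallot (a : List ℕ) : Prop :=
  ∀ h i j, i ≤ j → (a.take h).count j ≤ (a.take h).count i

private lemma tePL_spec (k : ℕ) : ∀ a ∈ tePL k, 2 * a.length = k * (k + 1) ∧
    (∀ i, a.count i = k - i) ∧ teBallot a := by
  induction k with
  | zero =>
    intro a ha
    simp only [tePL, Finset.mem_singleton] at ha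
    subst ha
    refine ⟨by simp, fun i => by simp, fun h i j _ => by simp⟩
  | succ k ih =>
    intro c hc
    simp only [tePL, Finset.mem_image, Finset.mem_product, List.mem_toFinset,
      List.mem_permutations, Prod.exists] at hc
    obtain ⟨a, b, ⟨ha, hb⟩, rfl⟩ := hc
    obtain ⟨h1, h2, h3⟩ := ih a ha
    have hlen : b.length = k + 1 := by simpa using hb.length_eq
    have hnd : b.Nodup := hb.nodup_iff.2 List.nodup_range
    have hcnt : ∀ i, b.count i = if i < k + 1 then 1 else 0 := by
      intro i
      rw [hb.count_eq]
      split_ifs with h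
      · exact List.count_eq_one_of_mem List.nodup_range (List.mem_range.2 h)
      · exact List.count_eq_zero.2 (by simpa using h)
    refine ⟨?_, ?_, ?_⟩
    · rw [List.length_append, hlen]; nlinarith
    · intro i
      rw [List.count_append, h2, hcnt]
      split_ifs <;> omega
    · intro h i j hij
      rcases eq_or_lt_of_le hij with rfl | hlt
      · exact le_rfl
      rw [List.take_append, List.count_append, List.count_append]
      rcases le_or_gt h a.length with hle | hgt
      · rw [Nat.sub_eq_zero_of_le hle]
        simpa using h3 h i j hij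
      · rw [List.take_of_length_le hgt.le, h2, h2]
        have e1 : (b.take (h - a.length)).count j ≤ if j < k + 1 then 1 else 0 := by
          rw [← hcnt j]
          exact (List.take_sublist _ _).count_le _
        split_ifs at e1 <;> omega

private lemma tePL_card (k : ℕ) : (tePL k).card = ∏ j ∈ range (k + 1), j.factorial := by
  induction k with
  | zero => simp [tePL]
  | succ k ih =>
    rw [Finset.prod_range_succ, ← ih, tePL, Finset.card_image_of_injOn, Finset.card_product,
      List.toFinset_card_of_nodup (List.nodup_permutations _ List.nodup_range),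
      List.length_permutations, List.length_range]
    rintro ⟨a, b⟩ h1 ⟨c, d⟩ h2 h
    simp only [Finset.coe_product, Set.mem_prod, Finset.mem_coe] at h1 h2 h
    have e1 := (tePL_spec k a h1.1).1
    have e2 := (tePL_spec k c h2.1).1
    have := List.append_inj h (by omega)
    simp [this.1, this.2]

private def teT : ℕ → List ℕ
  | 0 => []
  | i + 1 => teT i ++ List.replicate i i

private lemma teT_len (i : ℕ) : 2 * (teT i).length = i * (i - 1) := by
  induction i with
  | zero => simp [teT]
  | succ i ih =>
    simp only [teT, List.length_append, List.length_replicate, Nat.add_sub_cancel]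
    rcases i with _ | i
    · simp [teT]
    · simp only [Nat.add_sub_cancel] at ih
      nlinarith

private lemma teT_spec (r : ℕ) (a : List ℕ) (ha : a ∈ tePL r) (i : ℕ) (hi : i ≤ r) :
    (∀ j, (a ++ teT i).count j = if j < i then r else r - j) ∧ teBallot (a ++ teT i) := by
  induction i with
  | zero =>
    have := tePL_spec r a ha
    simp only [teT, List.append_nil]
    exact ⟨fun j => by simpa using this.2.1 j, this.2.2⟩
  | succ i ih =>
    obtain ⟨h1, h2⟩ := ih (by omega)
    have hrep : ∀ (m j : ℕ), (List.replicate m i).count j = if j = i then m else 0 := by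
      intro m j
      rw [List.count_replicate]
      by_cases h : j = i
      · subst h; simp
      · have : (i == j) = false := by simpa using fun h' => h h'.symm
        simp [h, this]
    rw [teT, ← List.append_assoc]
    refine ⟨?_, ?_⟩
    · intro j
      rw [List.count_append, h1, hrep]
      split_ifs <;> omega
    · intro h x y hxy
      rcases eq_or_lt_of_le hxy with rfl | hlt
      · exact le_rfl
      rw [List.take_append, List.count_append, List.count_append]
      rcases le_or_gt h (a ++ teT i).length with hle | hgt
      · rw [Nat.sub_eq_zero_of_le hle]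
        simpa using h2 h x y hxy
      · rw [List.take_of_length_le hgt.le, h1, h1, List.take_replicate, hrep, hrep]
        have : min (h - (a ++ teT i).length) i ≤ i := min_le_right _ _
        split_ifs <;> omega

private lemma te_count (L : List ℕ) (n : ℕ) (hn : L.length = n) (j h : ℕ) :
    (univ.filter fun q : Fin n => (q : ℕ) < h ∧ L.getD q 0 = j).card = (L.take h).count j := by
  subst hn
  induction h with
  | zero => simp
  | succ h ih =>
    by_cases hh : h < L.length
    · rw [List.take_add_one, List.count_append, ← ih]
      have e : L[h]? = some (L.getD h 0) := by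
        rw [List.getD_eq_getElem?_getD, List.getElem?_eq_getElem hh]; simp
      rw [e]
      by_cases hj : L.getD h 0 = j
      · have : (univ.filter fun q : Fin L.length => (q : ℕ) < h + 1 ∧ L.getD q 0 = j) =
            insert (⟨h, hh⟩ : Fin L.length)
              (univ.filter fun q : Fin L.length => (q : ℕ) < h ∧ L.getD q 0 = j) := by
          ext q
          simp only [Finset.mem_filter, Finset.mem_univ, true_and, Finset.mem_insert, Fin.ext_iff]
          constructor
          · rintro ⟨h1, h2⟩
            by_cases h3 : (q : ℕ) = h
            · exact Or.inl h3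
            · exact Or.inr ⟨by omega, h2⟩
          · rintro (h1 | h1)
            · exact ⟨by omega, by rw [h1]; exact hj⟩
            · exact ⟨by omega, h1.2⟩
        rw [this, Finset.card_insert_of_notMem (by simp), hj]
        simp
      · have : (univ.filter fun q : Fin L.length => (q : ℕ) < h + 1 ∧ L.getD q 0 = j) =
              (univ.filter fun q : Fin L.length => (q : ℕ) < h ∧ L.getD q 0 = j) := by
          ext q
          simp only [Finset.mem_filter, Finset.mem_univ, true_and]
          constructor
          · rintro ⟨h1, h2⟩
            by_cases h3 : (q : ℕ) = h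
            · rw [h3] at h2; exact absurd h2 hj
            · exact ⟨by omega, h2⟩
          · rintro h1
            exact ⟨by omega, h1.2⟩
        rw [this, Option.toList_some, List.count_singleton, if_neg (by simpa using hj), add_zero]
    · have e1 : L.take (h + 1) = L.take h := by
        rw [List.take_of_length_le (by omega), List.take_of_length_le (by omega)]
      rw [e1, ← ih]
      congr 1
      ext q
      have := q.2
      simp only [Finset.mem_filter, Finset.mem_univ, true_and]
      constructor
      · rintro ⟨_, h2⟩; exact ⟨by omega, h2⟩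
      · rintro ⟨_, h2⟩; exact ⟨by omega, h2⟩

private lemma te_len (r : ℕ) (a : List ℕ) (ha : a ∈ tePL r) : (a ++ teT r).length = r * r := by
  have h1 := (tePL_spec r a ha).1
  have h2 := teT_len r
  rw [List.length_append]
  rcases r with _ | r
  · simp_all
  · simp only [Nat.add_sub_cancel] at h2
    nlinarith

private lemma te_lt (r : ℕ) (a : List ℕ) (ha : a ∈ tePL r) (q : ℕ) (hq : q < r * r) :
    (a ++ teT r).getD q 0 < r := by
  have hl := te_len r a ha
  have hm : (a ++ teT r).getD q 0 ∈ a ++ teT r := by
    rw [List.getD_eq_getElem _ _ (by omega)]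
    exact List.getElem_mem _
  have := (teT_spec r a ha r le_rfl).1 ((a ++ teT r).getD q 0)
  have hp := List.count_pos_iff.2 hm
  rw [this] at hp
  split_ifs at hp <;> omega

private def teTau (r : ℕ) (a : {a // a ∈ tePL r}) (q : Fin (r * r)) : Fin r :=
  ⟨(a.1 ++ teT r).getD q 0, te_lt r a.1 a.2 q q.2⟩

private lemma teTau_count (r : ℕ) (a : {a // a ∈ tePL r}) (h : ℕ) (i : Fin r) :
    (univ.filter fun q : Fin (r * r) => (q : ℕ) < h ∧ teTau r a q = i).card =
      ((a.1 ++ teT r).take h).count (i : ℕ) := by
  rw [← te_count _ (r * r) (te_len r a.1 a.2)]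
  congr 1
  ext q
  simp [teTau, Fin.ext_iff]

private lemma teTau_card (r : ℕ) (a : {a // a ∈ tePL r}) (i : Fin r) :
    (univ.filter fun q : Fin (r * r) => teTau r a q = i).card = r := by
  have h := teTau_count r a (r * r) i
  rw [List.take_of_length_le (te_len r a.1 a.2).le, (teT_spec r a.1 a.2 r le_rfl).1,
    if_pos i.2] at h
  refine Eq.trans ?_ h
  congr 1
  ext q
  simp

/-- there are many ballot tabloids. -/
theorem many_bal (r : ℕ) : ∏ k ∈ range (r + 1), k.factorial ≤ Nat.card {τ : Tb r // Bal τ} := by
  rw [← tePL_card]
  have e : (tePL r).card = Nat.card {a // a ∈ tePL r} := by simp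
  rw [e]
  refine Nat.card_le_card_of_injective
    (fun a => (⟨⟨teTau r a, teTau_card r a⟩, ?_⟩ : {τ : Tb r // Bal τ})) ?_
  · intro h i j hij
    rw [teTau_count, teTau_count]
    exact (teT_spec r a.1 a.2 r le_rfl).2 h i j hij
  · intro a b hab
    have h1 : teTau r a = teTau r b := by
      simpa using hab
    have h2 : a.1 ++ teT r = b.1 ++ teT r := by
      apply List.ext_getElem
      · rw [te_len r a.1 a.2, te_len r b.1 b.2]
      · intro q hq hq'
        have hq2 : q < r * r := by rw [← te_len r a.1 a.2]; exact hq
        have := congrArg (fun f => ((f ⟨q, hq2⟩ : Fin r) : ℕ)) h1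
        simp only [teTau] at this
        rwa [List.getD_eq_getElem _ _ hq, List.getD_eq_getElem _ _ hq'] at this
    exact Subtype.ext (List.append_cancel_right h2)

/-- growth. -/
theorem growth (p : ℕ) (hp : 2 ≤ p) (K : ℕ) : ∃ s r : ℕ, 1 ≤ s ∧ r + 1 = p ^ s ∧
    K ^ (r * r) < ∏ k ∈ range (r + 1), k.factorial := by
  set b := K + 2 with hb
  obtain ⟨N, hN⟩ : ∃ N, ∀ n ≥ N, (b ^ 4) ^ n ≤ n.factorial := by
    have := FloorSemiring.tendsto_pow_div_factorial_atTop ((b : ℝ) ^ 4)
    have h1 := (this.eventually_lt_const (show (0 : ℝ) < 1 by norm_num))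
    obtain ⟨N, hN⟩ := Filter.eventually_atTop.1 h1
    refine ⟨N, fun n hn => ?_⟩
    have := hN n hn
    rw [div_lt_one (by positivity)] at this
    exact_mod_cast this.le
  have key : ∀ r, N ≤ r → (b ^ 4) ^ (∑ k ∈ range (r + 1), k) ≤
      (b ^ 4) ^ (∑ k ∈ range (N + 1), k) * ∏ k ∈ range (r + 1), k.factorial := by
    intro r hr
    induction r, hr using Nat.le_induction with
    | base =>
      exact Nat.le_mul_of_pos_right _ (Finset.prod_pos fun k _ => Nat.factorial_pos k)
    | succ r hr ih =>
      rw [Finset.sum_range_succ _ (r + 1), pow_add, Finset.prod_range_succ _ (r + 1), ← mul_assoc]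
      exact Nat.mul_le_mul ih (hN _ (by omega))
  set s := 2 * N + 3 with hs
  have hps : s < p ^ s := lt_of_lt_of_le (Nat.lt_two_pow_self) (Nat.pow_le_pow_left hp s)
  refine ⟨s, p ^ s - 1, by omega, by omega, ?_⟩
  set r := p ^ s - 1 with hr
  by_contra hcon
  rw [not_lt] at hcon
  have h1 := key r (by omega)
  have h2 : K ^ (r * r) ≤ b ^ (r * r) := Nat.pow_le_pow_left (by omega) _
  have h3 := h1.trans (Nat.mul_le_mul_left _ (hcon.trans h2))
  rw [← pow_mul, ← pow_mul, ← pow_add, Nat.pow_le_pow_iff_right (by omega)] at h3
  have e1 := Finset.sum_range_id_mul_two (r + 1)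
  have e2 := Finset.sum_range_id_mul_two (N + 1)
  simp only [Nat.add_sub_cancel] at e1 e2
  have hr2 : 2 * N + 2 ≤ r := by omega
  nlinarith

end H34.Kem
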