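import Pool.Agent.H34.Kem.KemB2
import Pool.Agent.H34.Kem.TabD
import Pool.Agent.H34.Kem.TabE

namespace H34.Kem

open Finset Equiv

variable {𝔹 : Type} [Ring 𝔹]

/-- Summation over the cosets of a subgroup. -/
private theorem sum_cosets {G K M : Type} [Group G] [Fintype G] [Group K] [Fintype K]
    [AddCommMonoid M] (ι : K →* G) (hι : Function.Injective ι) (F : G → M)
    (h : ∀ σ, ∑ k, F (σ * ι k) = 0) : ∑ σ, F σ = 0 := by
  classical
  rw [← Finset.sum_fiberwise (Finset.univ : Finset G)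
    (fun σ => (QuotientGroup.mk σ : G ⧸ ι.range)) F]
  refine Finset.sum_eq_zero fun q _ => ?_
  obtain ⟨σ, rfl⟩ := QuotientGroup.mk_surjective q
  rw [← h σ]
  symm
  refine Finset.sum_bij (fun k _ => σ * ι k) ?_ ?_ ?_ ?_
  · intro k _
    simp only [Finset.mem_filter, Finset.mem_univ, true_and]
    rw [QuotientGroup.mk_mul_of_mem]
    exact ⟨k, rfl⟩
  · intro k _ k' _ hk
    exact hι (mul_left_cancel hk)
  · intro b hb
    simp only [Finset.mem_filter, Finset.mem_univ, true_and] at hb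
    obtain ⟨k, hk⟩ := QuotientGroup.eq.mp hb.symm
    exact ⟨k, Finset.mem_univ _, by rw [hk]; group⟩
  · intro k _
    rfl

/-- The even positions. -/
private def evenEquiv (n : ℕ) : Fin n ≃ {j : Fin (2 * n) // j.1 % 2 = 0} where
  toFun i := ⟨⟨2 * i.1, by omega⟩, by simp⟩
  invFun j := ⟨j.1.1 / 2, by omega⟩
  left_inv i := by
    apply Fin.ext
    show 2 * i.1 / 2 = i.1
    omega
  right_inv j := by
    obtain ⟨⟨j, hj⟩, hj'⟩ := j
    apply Subtype.ext
    apply Fin.ext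
    show 2 * (j / 2) = j
    simp only at hj'
    omega

private theorem prod_pairs (n : ℕ) (f : Fin (2 * n) → 𝔹) :
    (List.ofFn f).prod = (List.ofFn fun i : Fin n =>
      f ⟨2 * i.1, by omega⟩ * f ⟨2 * i.1 + 1, by omega⟩).prod := by
  rw [List.ofFn_mul', List.prod_flatten, List.map_ofFn]
  congr 2
  funext i
  simp [List.ofFn_succ]

/-- alternating sums with fillers in `B` vanish, so all Capelli sums of double length vanish. -/
theorem cap_of_fill {B : AddSubgroup 𝔹} (hB : IsIdl B) (n : ℕ)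
    (h : ∀ (w : ℕ → 𝔹) (x : Fin n → 𝔹), (∀ i, 1 ≤ i → i < n → w i ∈ B) → (∀ i, x i ∈ B) →
      altSum n w x = 0) : Cap B (2 * n) := by
  intro w a ha
  refine sum_cosets (Perm.extendDomainHom (evenEquiv n)) (Perm.extendDomainHom_injective _) _ ?_
  intro σ
  -- the fillers
  let w' : ℕ → 𝔹 := fun i => if i = 0 then w 0 else
    if hi : 2 * (i - 1) + 1 < 2 * n then
      w (2 * (i - 1) + 1) * a (σ ⟨2 * (i - 1) + 1, hi⟩) * w (2 * (i - 1) + 2) else 1
  let x : Fin n → 𝔹 := fun i => a (σ ⟨2 * i.1, by omega⟩)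
  have h1 := h w' x (by
    intro i hi hi'
    have h2 : 2 * (i - 1) + 1 < 2 * n := by omega
    show (if i = 0 then w 0 else if hi : 2 * (i - 1) + 1 < 2 * n then
      w (2 * (i - 1) + 1) * a (σ ⟨2 * (i - 1) + 1, hi⟩) * w (2 * (i - 1) + 2) else 1) ∈ B
    rw [if_neg (by omega), dif_pos h2]
    exact hB.right _ _ (hB.left _ _ (ha _))) (fun i => ha _)
  have h2 : ∀ π : Perm (Fin n),
      ((Perm.sign (σ * Perm.extendDomainHom (evenEquiv n) π) : ℤˣ) : ℤ) •
        mon (2 * n) w (a ∘ (σ * Perm.extendDomainHom (evenEquiv n) π : Perm (Fin (2 * n)))) =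
      ((Perm.sign σ : ℤˣ) : ℤ) • (((Perm.sign π : ℤˣ) : ℤ) • mon n w' (x ∘ π)) := by
    intro π
    have h3 : Perm.sign (Perm.extendDomainHom (evenEquiv n) π) = Perm.sign π :=
      Perm.sign_extendDomain π (evenEquiv n)
    rw [Perm.sign_mul, h3, Units.val_mul, mul_smul]
    congr 2
    unfold mon
    rw [prod_pairs]
    congr 3
    funext i
    have e1 : (Perm.extendDomainHom (evenEquiv n) π) (⟨2 * i.1, by omega⟩ : Fin (2 * n)) =
        ⟨2 * (π i).1, by omega⟩ :=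
      Perm.extendDomain_apply_image π (evenEquiv n) i
    have e2 : (Perm.extendDomainHom (evenEquiv n) π) (⟨2 * i.1 + 1, by omega⟩ : Fin (2 * n)) =
        ⟨2 * i.1 + 1, by omega⟩ :=
      Perm.extendDomain_apply_not_subtype π (evenEquiv n) (by
        show ¬ (2 * i.1 + 1) % 2 = 0
        omega)
    have e3 : w' (i.1 + 1) = w (2 * i.1 + 1) * a (σ ⟨2 * i.1 + 1, by omega⟩) * w (2 * i.1 + 2) := by
      show (if i.1 + 1 = 0 then w 0 else if hi : 2 * (i.1 + 1 - 1) + 1 < 2 * n then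
        w (2 * (i.1 + 1 - 1) + 1) * a (σ ⟨2 * (i.1 + 1 - 1) + 1, hi⟩) *
          w (2 * (i.1 + 1 - 1) + 2) else 1) = _
      rw [if_neg (by omega), dif_pos (by omega)]
      simp only [Nat.add_sub_cancel]
    simp only [Function.comp_apply, Perm.mul_apply, e1, e2, e3, x]
    simp only [mul_assoc]
  show ∑ π : Perm (Fin n), ((Perm.sign (σ * Perm.extendDomainHom (evenEquiv n) π) : ℤˣ) : ℤ) •
        mon (2 * n) w (a ∘ (σ * Perm.extendDomainHom (evenEquiv n) π : Perm (Fin (2 * n)))) = 0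
  rw [Finset.sum_congr rfl fun π _ => h2 π, ← Finset.smul_sum]
  have h4 : ∑ π : Perm (Fin n), ((Perm.sign π : ℤˣ) : ℤ) • mon n w' (x ∘ π) = 0 := h1
  rw [h4, smul_zero]

/-- Kemer: PI rings of characteristic `p` satisfy a Capelli identity. -/
theorem kemer {B : AddSubgroup 𝔹} (hB : IsIdl B) (p : ℕ) [Fact p.Prime]
    (hp : ∀ x ∈ B, (p : ℤ) • x = 0) (d : ℕ) (hd : 1 ≤ d)
    (c : Perm (Fin d) → ℤ) (hc : ¬ (p : ℤ) ∣ c 1) (h : MLI B d c) : ∃ M, Cap B M := by
  have hp2 : 2 ≤ p := (Fact.out : p.Prime).two_le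
  obtain ⟨s, r, hs, hr, hK⟩ := growth p hp2 (d ^ 4)
  have hr1 : 1 ≤ r := by
    have : p ^ 1 ≤ p ^ s := Nat.pow_le_pow_right (by omega) hs
    rw [pow_one] at this
    omega
  have hn : 1 ≤ r * r := Nat.mul_pos hr1 hr1
  obtain ⟨L, hL, hL'⟩ := lfill hB p hp d hd c hc h (r * r) hn
  have h1 : Module.finrank (ZMod p) (MonoidAlgebra (ZMod p) (Perm (Fin (r * r))) ⧸ L) <
      Nat.card {τ : Tb r // Bal τ} := by
    refine lt_of_le_of_lt hL (lt_of_le_of_lt ?_ (lt_of_lt_of_le hK (many_bal r)))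
    calc (d - 1) ^ (2 * (2 * (r * r) - 1)) ≤ d ^ (2 * (2 * (r * r) - 1)) :=
          Nat.pow_le_pow_left (by omega) _
      _ ≤ d ^ (4 * (r * r)) := Nat.pow_le_pow_right hd (by omega)
      _ = (d ^ 4) ^ (r * r) := by rw [pow_mul]
  have h2 := thmD p s r hs hr L h1
  refine ⟨2 * (r * r), cap_of_fill hB (r * r) fun w x hw hx => ?_⟩
  rw [← hL' _ h2 w x hw hx]
  refine Finset.sum_congr rfl fun σ _ => ?_
  -- the coefficient
  have h3 : (∑ σ : Perm (Fin (r * r)),
      MonoidAlgebra.single σ ((Perm.sign σ : ℤ) : ZMod p)).coeff σ = ((Perm.sign σ : ℤ) : ZMod p) := by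
    classical
    rw [MonoidAlgebra.coeff_sum, Finsupp.finsetSum_apply, Finset.sum_eq_single σ]
    · simp [MonoidAlgebra.coeff_single]
    · intro τ _ hτ
      simp [MonoidAlgebra.coeff_single, hτ]
    · intro h4
      exact absurd (Finset.mem_univ _) h4
  rw [h3]
  -- the monomial is killed by `p`
  have h4 : mon (r * r) w (x ∘ σ) ∈ B := by
    unfold mon
    obtain ⟨n, hn'⟩ : ∃ n, r * r = n + 1 := ⟨r * r - 1, by omega⟩
    refine hB.left _ _ ?_
    have h5 : ∀ (k : ℕ) (y : Fin k → 𝔹), 1 ≤ k → (∀ i, y i ∈ B) → (List.ofFn y).prod ∈ B := by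
      intro k y hk hy
      cases k with
      | zero => omega
      | succ k =>
        rw [List.ofFn_succ, List.prod_cons]
        exact hB.right _ _ (hy 0)
    exact h5 _ _ hn fun i => hB.right _ _ (hx _)
  have h5 : ((p : ℤ)) ∣ (Perm.sign σ : ℤ) - (((Perm.sign σ : ℤ) : ZMod p).val : ℤ) := by
    rw [← ZMod.intCast_zmod_eq_zero_iff_dvd]
    push_cast
    rw [ZMod.natCast_zmod_val, sub_self]
  obtain ⟨k, hk⟩ := h5
  rw [← sub_eq_zero, ← sub_smul, hk, mul_comm, mul_smul, hp _ h4, smul_zero]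

end H34.Kem
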