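import Pool.Agent.H34.Kem.FinA
import Pool.Agent.H34.Kem.KZ
import Pool.Agent.H34.Kem.KemA
import Pool.Agent.H34.Kem.KemF

/-!
Rings with a Capelli identity, rings of characteristic p.
-/

namespace H34.Kem

open Finset Equiv

theorem Cap.succ {𝔹 : Type} [Ring 𝔹] {B : AddSubgroup 𝔹} (hB : IsIdl B) {m : ℕ} (h : Cap B m) :
    Cap B (m + 1) := by
  sorry

theorem cap_pure (N : ℕ) : ∃ Q : AddSubgroup (NC ℕ), TIdl Q ∧ Pure Q ∧ HasPI Q ∧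
    ∀ (𝔹 : Type) [Ring 𝔹] (B : AddSubgroup 𝔹), IsIdl B → Cap B N → ∀ v : ℕ → 𝔹,
      (∀ i, v i ∈ B) → ∀ f ∈ Q, ev v f = 0 := by
  sorry

/-- the prime case. -/
theorem prime_pure (A : Type) [NonUnitalRing A] (hA : IsPI A) (p : ℕ) (hp : p.Prime) :
    ∃ Q : AddSubgroup (NC ℕ), TIdl Q ∧ Pure Q ∧ HasPI Q ∧
      ∀ f ∈ Q, ∀ v : ℕ → A, ∃ a : A, ev v f = (p : ℤ) • a := by
  sorry

/-- the Capelli case. -/
theorem capelli_pure (A : Type) [NonUnitalRing A] (n N : ℕ)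
    (h : ∀ (w : ℕ → Unitization ℤ A) (a : Fin N → A),
      n • altSum N w (fun i => (Unitization.inr (a i) : Unitization ℤ A)) = 0) :
    ∃ Q : AddSubgroup (NC ℕ), TIdl Q ∧ Pure Q ∧ HasPI Q ∧
      ∀ f ∈ Q, ∀ v : ℕ → A, (n : ℤ) • ev v f = 0 := by
  sorry

end H34.Kem
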