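import Pool.Agent.H34.Kem.FinB

/-!
The main theorem.
-/

namespace H34.Kem

open Finset Equiv

/-- a pure ideal of identities inside the identities of `A`. -/
theorem exists_pure (A : Type) [NonUnitalRing A] (hA : IsPI A)
    (h : (∃ n : ℕ, 0 < n ∧ ∀ a : A, (∃ k : ℕ, 0 < k ∧ k • a = 0) → n • a = 0) ∨
      (∃ n N : ℕ, 0 < n ∧ ∀ (w : ℕ → Unitization ℤ A) (a : Fin N → A),
        n • altSum N w (fun i => (Unitization.inr (a i) : Unitization ℤ A)) = 0)) :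
    ∃ T : AddSubgroup (NC ℕ), TIdl T ∧ Pure T ∧ HasPI T ∧ ∀ f ∈ T, Sat A f := by
  sorry

/-- free rings of a pure ideal of identities. -/
theorem free_of_pure (X : Type) [Nonempty X] (S : Set (NC ℕ)) (T : AddSubgroup (NC ℕ))
    (hT : TIdl T) (hT' : Pure T) (hT'' : HasPI T) (h : ∀ f ∈ T, Sat (FreeR S X) f) :
    IsPI (FreeR (T : Set (NC ℕ)) X) ∧
    (∀ (k : ℕ) (a : FreeR (T : Set (NC ℕ)) X), 0 < k → k • a = 0 → a = 0) ∧
    ∃ φ : FreeR (T : Set (NC ℕ)) X →ₙ+* FreeR S X, Function.Surjective φ := by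
  sorry

/-- The main theorem. -/
theorem main (X : Type) [Nonempty X] (S : Set (NC ℕ)) (hPI : IsPI (FreeR S X))
    (h : (∃ n : ℕ, 0 < n ∧ ∀ a : FreeR S X, (∃ k : ℕ, 0 < k ∧ k • a = 0) → n • a = 0) ∨
      (∃ n N : ℕ, 0 < n ∧ ∀ (w : ℕ → Unitization ℤ (FreeR S X)) (a : Fin N → FreeR S X),
        n • altSum N w (fun i => (Unitization.inr (a i) : Unitization ℤ (FreeR S X))) = 0)) :
    ∃ (Y : Type) (_ : Nonempty Y) (S' : Set (NC ℕ)), IsPI (FreeR S' Y) ∧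
      (∀ (k : ℕ) (a : FreeR S' Y), 0 < k → k • a = 0 → a = 0) ∧
      ∃ φ : FreeR S' Y →ₙ+* FreeR S X, Function.Surjective φ := by
  obtain ⟨T, h1, h2, h3, h4⟩ := exists_pure (FreeR S X) hPI h
  obtain ⟨h5, h6, h7⟩ := free_of_pure X S T h1 h2 h3 h4
  exact ⟨X, inferInstance, T, h5, h6, h7⟩

end H34.Kem
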