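import Pool.Agent.H34.Kem.KemDefs

namespace H34.Kem

open Finset Equiv

variable {𝔹 : Type} [Ring 𝔹]

/-- cutting a list at the letters of a sublist -/
private theorem kemB_split {α : Type} : ∀ (vs l : List α), vs.Sublist l →
    ∃ (l0 : List α) (Ls : List (α × List α)),
      l = l0 ++ (Ls.map fun q => q.1 :: q.2).flatten ∧ Ls.map Prod.fst = vs := by
  intro vs
  induction vs with
  | nil => intro l _; exact ⟨l, [], by simp, rfl⟩
  | cons a vs ih =>
    intro l h
    obtain ⟨r1, r2, rfl, ha, h2⟩ := List.cons_sublist_iff.mp h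
    obtain ⟨s, t, rfl⟩ := List.append_of_mem ha
    obtain ⟨l0, Ls, h3, h4⟩ := ih r2 h2
    refine ⟨s, (a, t ++ l0) :: Ls, ?_, ?_⟩
    · rw [h3]
      simp
    · simp [h4]

private theorem kemB_lex {α : Type} [LT α] : ∀ (d : ℕ) (B B' : Fin d → List α) (k : Fin d),
    (∀ j, j < k → B' j = B j) → (∃ a a' s s', B k = a :: s ∧ B' k = a' :: s' ∧ a' < a) →
    (List.ofFn B').flatten < (List.ofFn B).flatten := by
  intro d
  induction d with
  | zero => intro B B' k; exact k.elim0
  | succ d ih =>
    intro B B' k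
    refine Fin.cases ?_ ?_ k
    · rintro - ⟨a, a', s, s', h1, h2, h3⟩
      rw [List.ofFn_succ, List.ofFn_succ, List.flatten_cons, List.flatten_cons, h1, h2]
      exact List.Lex.rel h3
    · intro k h1 h2
      rw [List.ofFn_succ, List.ofFn_succ, List.flatten_cons, List.flatten_cons,
        h1 0 (Fin.succ_pos k)]
      exact List.append_left_lt (ih (fun i => B i.succ) (fun i => B' i.succ) k
        (fun j hj => h1 j.succ (Fin.succ_lt_succ_iff.mpr hj)) h2)

private theorem kemB_perm {N : ℕ} (σ : Perm (Fin N)) (l : List (Fin N))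
    (h : l.Perm (List.ofFn σ)) : ∃ σ' : Perm (Fin N), l = List.ofFn σ' := by
  have hlen : l.length = N := by rw [h.length_eq, List.length_ofFn]
  have hnd : l.Nodup := h.nodup_iff.mpr (List.nodup_ofFn.mpr σ.injective)
  let f : Fin N → Fin N := fun i => l.get (i.cast hlen.symm)
  have hf : Function.Injective f := fun i j hij => by
    have := (List.nodup_iff_injective_get.mp hnd) hij
    simpa [Fin.ext_iff] using this
  refine ⟨Equiv.ofBijective f (Finite.injective_iff_bijective.mp hf), ?_⟩
  apply List.ext_get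
  · simp [hlen]
  · intro n h1 h2
    simp [f]

section good

variable {N : ℕ}

/-- there is a decreasing sequence of `k + 1` letters ending at the position `i` -/
private def kemBP (σ : Perm (Fin N)) (k : ℕ) (i : Fin N) : Prop :=
  ∃ t : Fin (k + 1) → Fin N, StrictMono t ∧ StrictAnti (fun j => σ (t j)) ∧ t (Fin.last k) = i

open Classical in
private noncomputable def kemBD (σ : Perm (Fin N)) (i : Fin N) : ℕ :=
  Nat.findGreatest (fun k => kemBP σ k i) N

private theorem kemBP_zero (σ : Perm (Fin N)) (i : Fin N) : kemBP σ 0 i :=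
  ⟨fun _ => i, fun a b hab => absurd hab (by omega), fun a b hab => absurd hab (by omega), rfl⟩

private theorem kemBP_D (σ : Perm (Fin N)) (i : Fin N) : kemBP σ (kemBD σ i) i := by
  classical
  exact Nat.findGreatest_spec (P := fun k => kemBP σ k i) (Nat.zero_le N) (kemBP_zero σ i)

private theorem kemBD_lt (σ : Perm (Fin N)) (i j : Fin N) (hij : i < j) (h : σ j < σ i) :
    kemBD σ i < kemBD σ j := by
  classical
  obtain ⟨t, h1, h2, h3⟩ := kemBP_D σ i
  have hP : kemBP σ (kemBD σ i + 1) j := by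
    have hs : ∀ (k : Fin (kemBD σ i + 1)), (Fin.snoc t j : Fin (kemBD σ i + 1 + 1) → Fin N)
        k.castSucc = t k := fun k => by simp
    have hl : (Fin.snoc t j : Fin (kemBD σ i + 1 + 1) → Fin N) (Fin.last _) = j := by simp
    refine ⟨Fin.snoc t j, ?_, ?_, hl⟩
    · rw [Fin.strictMono_iff_lt_succ]
      intro k
      refine Fin.lastCases ?_ (fun k => ?_) k
      · rw [hs, Fin.succ_last, hl, h3]
        exact hij
      · rw [hs, Fin.succ_castSucc, hs]
        exact h1 Fin.castSucc_lt_succ
    · rw [Fin.strictAnti_iff_succ_lt]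
      intro k
      refine Fin.lastCases ?_ (fun k => ?_) k
      · show σ _ < σ _
        rw [hs, Fin.succ_last, hl, h3]
        exact h
      · show σ _ < σ _
        rw [hs, Fin.succ_castSucc, hs]
        exact h2 Fin.castSucc_lt_succ
  have hN : kemBD σ i + 1 ≤ N := by
    have := Fintype.card_le_of_injective t h1.injective
    rwa [Fintype.card_fin, Fintype.card_fin] at this
  exact Nat.le_findGreatest (P := fun k => kemBP σ k j) hN hP

private def kemBGood (d : ℕ) (σ : Perm (Fin N)) : Prop :=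
  ¬ ∃ t : Fin d → Fin N, StrictMono t ∧ StrictAnti (fun j => σ (t j))

private theorem kemBD_good (d : ℕ) (σ : Perm (Fin N)) (h : kemBGood d σ) (i : Fin N) :
    kemBD σ i < d - 1 := by
  by_contra hcon
  have hd : d ≤ kemBD σ i + 1 := by omega
  obtain ⟨t, h1, h2, -⟩ := kemBP_D σ i
  exact h ⟨fun j => t (Fin.castLE hd j), fun a b hab => h1 ((Fin.castLE_lt_castLE_iff hd).mpr hab),
    fun a b hab => h2 ((Fin.castLE_lt_castLE_iff hd).mpr hab)⟩

private theorem kemB_inj (σ σ' : Perm (Fin N)) (h1 : kemBD σ = kemBD σ')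
    (h2 : (fun v => kemBD σ (σ.symm v)) = fun v => kemBD σ' (σ'.symm v)) : σ = σ' := by
  have hmono : ∀ (τ : Perm (Fin N)) (k : ℕ),
      StrictMono (fun i : {i // kemBD τ i = k} => τ i.1) := by
    rintro τ k ⟨i, hi⟩ ⟨j, hj⟩ hij
    have hij' : i < j := hij
    show τ i < τ j
    rcases lt_trichotomy (τ i) (τ j) with h | h | h
    · exact h
    · exact absurd (τ.injective h) hij'.ne
    · have := kemBD_lt τ i j hij' h
      omega
  have hrange : ∀ (τ : Perm (Fin N)) (k : ℕ),
      Set.range (fun i : {i // kemBD τ i = k} => τ i.1) = {v | kemBD τ (τ.symm v) = k} := by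
    intro τ k
    ext v
    constructor
    · rintro ⟨⟨i, hi⟩, rfl⟩
      show kemBD τ (τ.symm (τ i)) = k
      rw [Equiv.symm_apply_apply, hi]
    · intro hv
      exact ⟨⟨τ.symm v, hv⟩, Equiv.apply_symm_apply _ _⟩
  ext i : 1
  have h3 : ∀ k, (fun i : {i // kemBD σ i = k} => σ i.1) = fun i : {i // kemBD σ i = k} =>
      σ' i.1 := by
    intro k
    have e1 : StrictMono (fun i : {i // kemBD σ i = k} => σ' i.1) := by
      rw [h1]
      exact hmono σ' k
    rw [← StrictMono.range_inj (hmono σ k) e1, hrange]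
    have e2 : Set.range (fun i : {i // kemBD σ i = k} => σ' i.1) =
        {v | kemBD σ' (σ'.symm v) = k} := by
      rw [h1]
      exact hrange σ' k
    rw [e2]
    ext v
    exact (congrFun h2 v).congr_left
  exact congrFun (h3 (kemBD σ i)) ⟨i, rfl⟩

open Classical in
private theorem kemB_card (d : ℕ) :
    (univ.filter fun σ : Perm (Fin N) => kemBGood d σ).card ≤ (d - 1) ^ (2 * N) := by
  have h : (univ.filter fun σ : Perm (Fin N) => kemBGood d σ).card ≤
      ((Fintype.piFinset fun _ : Fin N => Finset.range (d - 1)) ×ˢ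
        (Fintype.piFinset fun _ : Fin N => Finset.range (d - 1))).card := by
    refine Finset.card_le_card_of_injOn
      (fun σ => ((kemBD σ, fun v => kemBD σ (σ.symm v)) : (Fin N → ℕ) × (Fin N → ℕ))) ?_ ?_
    · intro σ hσ
      have hg := (mem_filter.mp (mem_coe.mp hσ)).2
      rw [mem_coe, mem_product, Fintype.mem_piFinset, Fintype.mem_piFinset]
      exact ⟨fun i => mem_range.mpr (kemBD_good d σ hg i),
        fun i => mem_range.mpr (kemBD_good d σ hg _)⟩
    · intro σ _ σ' _ hσ
      rw [Prod.mk.injEq] at hσ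
      exact kemB_inj σ σ' hσ.1 hσ.2
  refine h.trans (le_of_eq ?_)
  rw [card_product, Fintype.card_piFinset_const, card_range, two_mul, pow_add]

end good

/-- Latyshev's argument: all monomials of degree `N` are combinations of few ones. -/
theorem latyshev {B : AddSubgroup 𝔹} (hB : IsIdl B) (p : ℕ) [Fact p.Prime]
    (hp : ∀ x ∈ B, (p : ℤ) • x = 0) (d : ℕ) (hd : 1 ≤ d)
    (c : Perm (Fin d) → ℤ) (hc : ¬ (p : ℤ) ∣ c 1) (h : MLI B d c) (N : ℕ) :
    ∃ S : Finset (Perm (Fin N)), S.card ≤ (d - 1) ^ (2 * N) ∧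
      ∀ σ : Perm (Fin N), ∃ b : Perm (Fin N) → ℤ, (∀ τ, τ ∉ S → b τ = 0) ∧
        ∀ x : Fin N → 𝔹, (∀ i, x i ∈ B) →
          (List.ofFn fun i => x (σ i)).prod = ∑ τ, b τ • (List.ofFn fun i => x (τ i)).prod := by
  classical
  refine ⟨univ.filter fun σ => kemBGood d σ, kemB_card d, ?_⟩
  have hmap : ∀ (x : Fin N → 𝔹) (σ : Perm (Fin N)),
      (List.ofFn fun i => x (σ i)).prod = ((List.ofFn σ).map x).prod := by
    intro x σ
    rw [List.map_ofFn]
    rfl
  have hwf : WellFounded (fun σ' σ : Perm (Fin N) => List.ofFn σ' < List.ofFn σ) := by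
    have : IsTrans (Perm (Fin N)) (fun σ' σ => List.ofFn σ' < List.ofFn σ) :=
      ⟨fun _ _ _ h1 h2 => lt_trans h1 h2⟩
    have : Std.Irrefl (fun σ' σ : Perm (Fin N) => List.ofFn σ' < List.ofFn σ) :=
      ⟨fun _ h => lt_irrefl _ h⟩
    exact Finite.wellFounded_of_trans_of_irrefl _
  intro σ
  induction σ using hwf.induction with
  | _ σ ih =>
  by_cases hgood : kemBGood d σ
  · refine ⟨Pi.single σ 1, ?_, ?_⟩
    · intro τ hτ
      apply Pi.single_eq_of_ne
      rintro rfl
      exact hτ (mem_filter.mpr ⟨mem_univ _, hgood⟩)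
    · intro x _
      rw [Finset.sum_eq_single σ]
      · rw [Pi.single_eq_same, one_smul]
      · intro τ _ hτ
        rw [Pi.single_eq_of_ne hτ, zero_smul]
      · intro hσ
        exact absurd (mem_univ σ) hσ
  obtain ⟨t, ht1, ht2⟩ := not_not.mp hgood
  have hsub : (List.ofFn fun j => σ (t j)).Sublist (List.ofFn σ) := by
    rw [List.sublist_iff_exists_fin_orderEmbedding_get_eq]
    refine ⟨OrderEmbedding.ofStrictMono
      (fun i => (t (i.cast (List.length_ofFn))).cast (List.length_ofFn).symm) ?_, ?_⟩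
    · intro i j hij
      exact ht1 hij
    · intro i
      simp only [List.get_ofFn]
      rfl
  obtain ⟨l0, Ls, hl, hLs⟩ := kemB_split _ _ hsub
  have hlen : Ls.length = d := by
    have := congrArg List.length hLs
    rwa [List.length_map, List.length_ofFn] at this
  subst hlen
  -- the blocks
  obtain ⟨Bl, hBl⟩ : ∃ Bl : Fin Ls.length → List (Fin N), Bl = fun k =>
      (Ls.get k).1 :: (Ls.get k).2 := ⟨_, rfl⟩
  have hflat : (Ls.map fun q => q.1 :: q.2) = List.ofFn Bl := by
    rw [hBl]
    apply List.ext_get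
    · simp
    · intro n h1 h2
      simp
  have hv : ∀ k, (Ls.get k).1 = σ (t k) := by
    intro k
    have h1 : Ls.map Prod.fst = List.ofFn fun k => (Ls.get k).1 := by
      apply List.ext_get
      · simp
      · intro n h1 h2
        simp
    rw [h1] at hLs
    exact congrFun (List.ofFn_injective hLs) k
  rw [hflat] at hl
  -- permuted words
  have hperm : ∀ ρ : Perm (Fin Ls.length), ∃ σ' : Perm (Fin N),
      l0 ++ (List.ofFn fun k => Bl (ρ k)).flatten = List.ofFn σ' := by
    intro ρ
    apply kemB_perm σ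
    rw [hl]
    exact List.Perm.append_left l0 (List.Perm.flatten (ρ.ofFn_comp_perm Bl))
  choose s hs using hperm
  have hs1 : s 1 = σ := by
    have h1 := hs 1
    have h2 : (fun k => Bl ((1 : Perm (Fin Ls.length)) k)) = Bl := rfl
    rw [h2, ← hl] at h1
    exact (Equiv.coe_fn_injective (List.ofFn_injective h1)).symm
  have hlt : ∀ ρ, ρ ≠ 1 → List.ofFn (s ρ) < List.ofFn σ := by
    intro ρ hρ
    rw [← hs ρ]
    rw [hl]
    apply List.append_left_lt
    have hne : (univ.filter fun k => ρ k ≠ k).Nonempty := by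
      by_contra hcon
      rw [Finset.not_nonempty_iff_eq_empty, filter_eq_empty_iff] at hcon
      apply hρ
      ext k : 1
      exact not_not.mp (hcon (mem_univ k))
    obtain ⟨k, hk, hkmin⟩ := (univ.filter fun k => ρ k ≠ k).exists_min_image id hne
    have hbelow : ∀ j, j < k → ρ j = j := by
      intro j hj
      by_contra hcon
      exact absurd (hkmin j (mem_filter.mpr ⟨mem_univ _, hcon⟩)) (not_le.mpr hj)
    have hk' : ρ k ≠ k := (mem_filter.mp hk).2
    have hgt : k < ρ k := by
      rcases lt_trichotomy (ρ k) k with h1 | h1 | h1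
      · exact absurd (ρ.injective (hbelow _ h1)) hk'
      · exact absurd h1 hk'
      · exact h1
    refine kemB_lex _ Bl (fun k => Bl (ρ k)) k (fun j hj => ?_) ?_
    · show Bl (ρ j) = Bl j
      rw [hbelow j hj]
    · refine ⟨(Ls.get k).1, (Ls.get (ρ k)).1, (Ls.get k).2, (Ls.get (ρ k)).2, ?_, ?_, ?_⟩
      · rw [hBl]
      · rw [hBl]
      · rw [hv, hv]
        exact ht2 hgt
  -- coefficients
  have hcop : IsCoprime (c 1) (p : ℤ) := by
    have hprime : Prime (p : ℤ) := Nat.prime_iff_prime_int.mp Fact.out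
    exact ((hprime.coprime_iff_not_dvd).mpr hc).symm
  obtain ⟨q, m, hqm⟩ := hcop
  have hih : ∀ ρ : Perm (Fin Ls.length), ρ ≠ 1 → ∃ b : Perm (Fin N) → ℤ,
      (∀ τ, τ ∉ (univ.filter fun σ => kemBGood Ls.length σ) → b τ = 0) ∧
        ∀ x : Fin N → 𝔹, (∀ i, x i ∈ B) →
          (List.ofFn fun i => x (s ρ i)).prod = ∑ τ, b τ • (List.ofFn fun i => x (τ i)).prod :=
    fun ρ hρ => ih (s ρ) (hlt ρ hρ)
  choose! bb hbb1 hbb2 using hih
  refine ⟨fun τ => ∑ ρ ∈ univ.erase (1 : Perm (Fin Ls.length)), (-q * c ρ) * bb ρ τ, ?_, ?_⟩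
  · intro τ hτ
    refine Finset.sum_eq_zero fun ρ hρ => ?_
    rw [hbb1 ρ (ne_of_mem_erase hρ) τ hτ, mul_zero]
  · intro x hx
    have hmemB : ∀ l : List (Fin N), l ≠ [] → (l.map x).prod ∈ B := by
      intro l hne
      cases l with
      | nil => exact absurd rfl hne
      | cons a l =>
        rw [List.map_cons, List.prod_cons]
        exact hB.right _ _ (hx a)
    -- the identity
    have hid := h (fun k => ((Bl k).map x).prod) (fun k => hmemB _ (by rw [hBl]; simp))
    have hword : ∀ ρ : Perm (Fin Ls.length), (l0.map x).prod *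
        (List.ofFn fun k => ((Bl (ρ k)).map x).prod).prod =
        (List.ofFn fun i => x (s ρ i)).prod := by
      intro ρ
      rw [hmap, ← hs ρ, List.map_append, List.prod_append, List.map_flatten, List.prod_flatten,
        List.map_ofFn, List.map_ofFn]
      rfl
    have hsum : ∑ ρ, c ρ • (List.ofFn fun i => x (s ρ i)).prod = 0 := by
      have h1 : ∑ ρ, c ρ • (List.ofFn fun i => x (s ρ i)).prod = (l0.map x).prod *
          ∑ ρ, c ρ • (List.ofFn fun k => ((Bl (ρ k)).map x).prod).prod := by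
        rw [Finset.mul_sum]
        refine Finset.sum_congr rfl fun ρ _ => ?_
        rw [mul_smul_comm, hword]
      rw [h1, hid, mul_zero]
    rw [← Finset.add_sum_erase _ _ (mem_univ (1 : Perm (Fin Ls.length))), hs1] at hsum
    obtain ⟨P, hP⟩ : ∃ P, P = (List.ofFn fun i => x (σ i)).prod := ⟨_, rfl⟩
    rw [← hP] at hsum
    have hpP : (p : ℤ) • P = 0 := by
      apply hp
      rw [hP, hmap]
      apply hmemB
      rw [hl]
      intro hnil
      have h2 : (List.ofFn Bl).flatten = [] := (List.append_eq_nil_iff.mp hnil).2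
      rw [List.flatten_eq_nil_iff] at h2
      have h3 := h2 (Bl ⟨0, hd⟩) (List.mem_ofFn.mpr ⟨_, rfl⟩)
      rw [hBl] at h3
      exact absurd h3 (by simp)
    have hmain : P = ∑ ρ ∈ univ.erase (1 : Perm (Fin Ls.length)),
        (-q * c ρ) • (List.ofFn fun i => x (s ρ i)).prod := by
      have h1 : P = (q * c 1 + m * p) • P := by rw [hqm, one_smul]
      have h2 : (m * (p : ℤ)) • P = 0 := by rw [mul_smul, hpP, smul_zero]
      have h3 : q • (c 1 • P) = - (q • ∑ ρ ∈ univ.erase (1 : Perm (Fin Ls.length)),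
          c ρ • (List.ofFn fun i => x (s ρ i)).prod) := by
        rw [← smul_neg]
        congr 1
        exact eq_neg_of_add_eq_zero_left hsum
      rw [add_smul, h2, add_zero, mul_smul, h3, Finset.smul_sum, ← Finset.sum_neg_distrib] at h1
      rw [h1]
      refine Finset.sum_congr rfl fun ρ _ => ?_
      rw [← mul_smul, ← neg_smul, neg_mul]
    rw [← hP, hmain]
    have hterm : ∀ ρ ∈ univ.erase (1 : Perm (Fin Ls.length)),
        (-q * c ρ) • (List.ofFn fun i => x (s ρ i)).prod =
        ∑ τ, ((-q * c ρ) * bb ρ τ) • (List.ofFn fun i => x (τ i)).prod := by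
      intro ρ hρ
      rw [hbb2 ρ (ne_of_mem_erase hρ) x hx, Finset.smul_sum]
      exact Finset.sum_congr rfl fun τ _ => (mul_smul _ _ _).symm
    rw [Finset.sum_congr rfl hterm, Finset.sum_comm]
    refine Finset.sum_congr rfl fun τ _ => ?_
    rw [Finset.sum_smul]

end H34.Kem
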