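import Pool.Agent.H34.Kem.KemB

namespace H34.Kem

open Finset Equiv

variable {𝔹 : Type} [Ring 𝔹]

/-- The even positions. -/
private def evenEquiv' (m : ℕ) : Fin (m + 1) ≃ {j : Fin (2 * m + 1) // j.1 % 2 = 0} where
  toFun i := ⟨⟨2 * i.1, by omega⟩, by simp⟩
  invFun j := ⟨j.1.1 / 2, by omega⟩
  left_inv i := by
    apply Fin.ext
    show 2 * i.1 / 2 = i.1
    omega
  right_inv j := by
    obtain ⟨⟨j, hj⟩, hj'⟩ := j
    apply Subtype.ext
    apply Fin.ext
    show 2 * (j / 2) = j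
    simp only at hj'
    omega

private theorem prod_pairs' (n : ℕ) (f : Fin (2 * n) → 𝔹) :
    (List.ofFn f).prod = (List.ofFn fun i : Fin n =>
      f ⟨2 * i.1, by omega⟩ * f ⟨2 * i.1 + 1, by omega⟩).prod := by
  rw [List.ofFn_mul', List.prod_flatten, List.map_ofFn]
  congr 2
  funext i
  simp [List.ofFn_succ]

private theorem zsmul_congr {p : ℕ} {m : 𝔹} (hm : (p : ℤ) • m = 0) {z z' : ℤ}
    (h : (z : ZMod p) = (z' : ZMod p)) : z • m = z' • m := by
  obtain ⟨k, hk⟩ := (ZMod.intCast_eq_intCast_iff_dvd_sub _ _ _).mp h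
  rw [← sub_eq_zero, ← sub_smul, ← neg_sub, hk, neg_smul, mul_comm, mul_smul, hm, smul_zero,
    neg_zero]

private theorem prod_mem {B : AddSubgroup 𝔹} (hB : IsIdl B) (k : ℕ) (y : Fin k → 𝔹) (hk : 1 ≤ k)
    (hy : ∀ i, y i ∈ B) : (List.ofFn y).prod ∈ B := by
  cases k with
  | zero => omega
  | succ k =>
    rw [List.ofFn_succ, List.prod_cons]
    exact hB.right _ _ (hy 0)

/-- The value of an element of the group algebra. -/
private def phi (p n : ℕ) (w : ℕ → 𝔹) (x : Fin n → 𝔹)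
    (a : MonoidAlgebra (ZMod p) (Perm (Fin n))) : 𝔹 :=
  ∑ σ : Perm (Fin n), ((a.coeff σ).val : ℤ) • mon n w (x ∘ σ)

private theorem phi_add (p n : ℕ) [Fact p.Prime] (w : ℕ → 𝔹) (x : Fin n → 𝔹)
    (h : ∀ σ : Perm (Fin n), (p : ℤ) • mon n w (x ∘ σ) = 0)
    (a b : MonoidAlgebra (ZMod p) (Perm (Fin n))) :
    phi p n w x (a + b) = phi p n w x a + phi p n w x b := by
  unfold phi
  rw [← Finset.sum_add_distrib]
  refine Finset.sum_congr rfl fun σ _ => ?_
  rw [← add_smul]
  apply zsmul_congr (h σ)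
  push_cast
  simp only [ZMod.natCast_zmod_val, MonoidAlgebra.coeff_add, Finsupp.add_apply]

private theorem phi_single_mul (p n : ℕ) [Fact p.Prime] (w : ℕ → 𝔹) (x : Fin n → 𝔹)
    (h : ∀ σ : Perm (Fin n), (p : ℤ) • mon n w (x ∘ σ) = 0)
    (a : MonoidAlgebra (ZMod p) (Perm (Fin n))) (π : Perm (Fin n)) (r : ZMod p) :
    phi p n w x (MonoidAlgebra.single π r * a) = (r.val : ℤ) • phi p n w (x ∘ π) a := by
  unfold phi
  rw [Finset.smul_sum, ← Equiv.sum_comp (Equiv.mulLeft π)]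
  refine Finset.sum_congr rfl fun σ _ => ?_
  have h1 : (x ∘ π) ∘ σ = x ∘ (π * σ : Perm (Fin n)) := rfl
  rw [smul_smul, h1]
  simp only [Equiv.coe_mulLeft]
  apply zsmul_congr (h (π * σ))
  push_cast
  rw [ZMod.natCast_zmod_val, ZMod.natCast_zmod_val, ZMod.natCast_zmod_val,
    MonoidAlgebra.coeff_single_mul_apply]
  congr 2
  group

/-- The left ideal of the identities with fillers has small codimension. -/
theorem lfill {B : AddSubgroup 𝔹} (hB : IsIdl B) (p : ℕ) [Fact p.Prime]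
    (hp : ∀ x ∈ B, (p : ℤ) • x = 0) (d : ℕ) (hd : 1 ≤ d)
    (c : Perm (Fin d) → ℤ) (hc : ¬ (p : ℤ) ∣ c 1) (h : MLI B d c) (n : ℕ) (hn : 1 ≤ n) :
    ∃ L : Ideal (MonoidAlgebra (ZMod p) (Perm (Fin n))),
      Module.finrank (ZMod p) (MonoidAlgebra (ZMod p) (Perm (Fin n)) ⧸ L) ≤
        (d - 1) ^ (2 * (2 * n - 1)) ∧
      ∀ a ∈ L, ∀ (w : ℕ → 𝔹) (x : Fin n → 𝔹), (∀ i, 1 ≤ i → i < n → w i ∈ B) → (∀ i, x i ∈ B) →
        ∑ σ : Perm (Fin n), ((a.coeff σ).val : ℤ) • mon n w (x ∘ σ) = 0 := by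
  classical
  obtain ⟨m, rfl⟩ : ∃ m, n = m + 1 := ⟨n - 1, by omega⟩
  -- monomials are killed by `p`
  have hmon : ∀ (w : ℕ → 𝔹) (x : Fin (m + 1) → 𝔹), (∀ i, x i ∈ B) → ∀ σ : Perm (Fin (m + 1)),
      (p : ℤ) • mon (m + 1) w (x ∘ σ) = 0 := by
    intro w x hx σ
    exact hp _ (hB.left _ _ (prod_mem hB _ _ hn fun i => hB.right _ _ (hx _)))
  let L : Ideal (MonoidAlgebra (ZMod p) (Perm (Fin (m + 1)))) :=
    { carrier := {a | ∀ (w : ℕ → 𝔹) (x : Fin (m + 1) → 𝔹),
        (∀ i, 1 ≤ i → i < m + 1 → w i ∈ B) → (∀ i, x i ∈ B) → phi p (m + 1) w x a = 0}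
      add_mem' := by
        intro a b ha hb w x hw hx
        rw [phi_add p (m + 1) w x (hmon w x hx), ha w x hw hx, hb w x hw hx, add_zero]
      zero_mem' := by
        intro w x hw hx
        unfold phi
        refine Finset.sum_eq_zero fun σ _ => ?_
        simp
      smul_mem' := by
        intro b a ha
        refine MonoidAlgebra.induction_linear (motive := fun b => b • a ∈ {a | ∀ (w : ℕ → 𝔹)
          (x : Fin (m + 1) → 𝔹), (∀ i, 1 ≤ i → i < m + 1 → w i ∈ B) → (∀ i, x i ∈ B) →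
            phi p (m + 1) w x a = 0}) b ?_ ?_ ?_
        · intro w x hw hx
          rw [zero_smul]
          unfold phi
          refine Finset.sum_eq_zero fun σ _ => ?_
          simp
        · intro b b' hb hb' w x hw hx
          rw [add_smul, phi_add p (m + 1) w x (hmon w x hx), hb w x hw hx, hb' w x hw hx, add_zero]
        · intro π r w x hw hx
          rw [smul_eq_mul, phi_single_mul p (m + 1) w x (hmon w x hx),
            ha w (x ∘ π) hw (fun i => hx _), smul_zero] }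
  refine ⟨L, ?_, fun a ha w x hw hx => ha w x hw hx⟩
  obtain ⟨S, hS, hb⟩ := latyshev hB p hp d hd c hc h (2 * m + 1)
  choose b hb0 hb using hb
  let hat : Perm (Fin (m + 1)) → Perm (Fin (2 * m + 1)) := fun σ =>
    σ.extendDomain (evenEquiv' m)
  let Φ : MonoidAlgebra (ZMod p) (Perm (Fin (m + 1))) →ₗ[ZMod p] (S → ZMod p) :=
    { toFun := fun a τ => ∑ σ, a.coeff σ * ((b (hat σ) τ.1 : ℤ) : ZMod p)
      map_add' := by
        intro a a'
        funext τ
        simp only [MonoidAlgebra.coeff_add, Finsupp.add_apply, Pi.add_apply, add_mul,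
          Finset.sum_add_distrib]
      map_smul' := by
        intro r a
        funext τ
        simp only [MonoidAlgebra.coeff_smul, Finsupp.smul_apply, Pi.smul_apply, smul_eq_mul,
          mul_assoc, Finset.mul_sum, RingHom.id_apply] }
  -- the kernel
  have hker : LinearMap.ker Φ ≤ L.restrictScalars (ZMod p) := by
    intro a ha w x hw hx
    -- the coefficients vanish
    have h0 : ∀ τ, ∑ σ, a.coeff σ * ((b (hat σ) τ : ℤ) : ZMod p) = 0 := by
      intro τ
      by_cases hτ : τ ∈ S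
      · exact congrFun (LinearMap.mem_ker.mp ha) ⟨τ, hτ⟩
      · refine Finset.sum_eq_zero fun σ _ => ?_
        rw [hb0 _ τ hτ, Int.cast_zero, mul_zero]
    let z : Fin (2 * m + 1) → 𝔹 := fun j => if j.1 % 2 = 0 then x ⟨j.1 / 2, by omega⟩ else
      w (j.1 / 2 + 1)
    have hz : ∀ j, z j ∈ B := by
      intro j
      show (if j.1 % 2 = 0 then x ⟨j.1 / 2, by omega⟩ else w (j.1 / 2 + 1)) ∈ B
      split_ifs with hj
      · exact hx _
      · exact hw _ (by omega) (by omega)
    have hz0 : ∀ i : Fin (m + 1), z ⟨2 * i.1, by omega⟩ = x i := by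
      intro i
      show (if (2 * i.1) % 2 = 0 then x ⟨(2 * i.1) / 2, by omega⟩ else w ((2 * i.1) / 2 + 1)) = x i
      rw [if_pos (by omega)]
      congr 1
      apply Fin.ext
      show (2 * i.1) / 2 = i.1
      omega
    have hz1 : ∀ (i : ℕ) (hi : 2 * i + 1 < 2 * m + 1), z ⟨2 * i + 1, hi⟩ = w (i + 1) := by
      intro i hi
      show (if (2 * i + 1) % 2 = 0 then x ⟨(2 * i + 1) / 2, by omega⟩ else
        w ((2 * i + 1) / 2 + 1)) = w (i + 1)
      rw [if_neg (by omega)]
      congr 1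
      omega
    have hm : ∀ σ : Perm (Fin (m + 1)), mon (m + 1) w (x ∘ σ) =
        w 0 * (List.ofFn fun j => z (hat σ j)).prod * w (m + 1) := by
      intro σ
      have e1 : ∀ i : Fin (m + 1), (hat σ) (⟨2 * i.1, by omega⟩ : Fin (2 * m + 1)) =
          ⟨2 * (σ i).1, by omega⟩ := fun i =>
        Perm.extendDomain_apply_image σ (evenEquiv' m) i
      have e2 : ∀ (i : ℕ) (hi : 2 * i + 1 < 2 * m + 1),
          (hat σ) (⟨2 * i + 1, hi⟩ : Fin (2 * m + 1)) = ⟨2 * i + 1, hi⟩ := fun i hi =>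
        Perm.extendDomain_apply_not_subtype σ (evenEquiv' m) (by
          show ¬ (2 * i + 1) % 2 = 0
          omega)
      unfold mon
      rw [mul_assoc]
      congr 1
      rw [List.ofFn_succ', List.ofFn_succ', List.concat_eq_append, List.concat_eq_append,
        List.prod_append, List.prod_append, List.prod_singleton, List.prod_singleton, prod_pairs',
        mul_assoc]
      congr 1
      · congr 2
        funext i
        have e3 := e1 i.castSucc
        have e4 := e2 i.1 (by omega)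
        show x (σ i.castSucc) * w (i.1 + 1) = z (hat σ ⟨2 * i.1, by omega⟩) *
          z (hat σ ⟨2 * i.1 + 1, by omega⟩)
        have e3' : (hat σ) (⟨2 * i.1, by omega⟩ : Fin (2 * m + 1)) =
          ⟨2 * (σ i.castSucc).1, by omega⟩ := e3
        rw [e3', e4, hz0, hz1]
      · have e3 : hat σ (Fin.last (2 * m)) = ⟨2 * (σ (Fin.last m)).1, by omega⟩ := e1 (Fin.last m)
        rw [e3, hz0]
        rfl
    show ∑ σ : Perm (Fin (m + 1)), ((a.coeff σ).val : ℤ) • mon (m + 1) w (x ∘ σ) = 0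
    have h1 : ∀ σ : Perm (Fin (m + 1)), ((a.coeff σ).val : ℤ) • mon (m + 1) w (x ∘ σ) =
        ∑ τ : Perm (Fin (2 * m + 1)), (((a.coeff σ).val : ℤ) * b (hat σ) τ) •
          (w 0 * (List.ofFn fun j => z (τ j)).prod * w (m + 1)) := by
      intro σ
      rw [hm, hb (hat σ) z hz, Finset.mul_sum, Finset.sum_mul, Finset.smul_sum]
      refine Finset.sum_congr rfl fun τ _ => ?_
      rw [mul_smul, mul_smul_comm, smul_mul_assoc]
    rw [Finset.sum_congr rfl fun σ _ => h1 σ, Finset.sum_comm]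
    refine Finset.sum_eq_zero fun τ _ => ?_
    rw [← Finset.sum_smul]
    have h2 : (p : ℤ) • (w 0 * (List.ofFn fun j => z (τ j)).prod * w (m + 1)) = 0 :=
      hp _ (hB.right _ _ (hB.left _ _ (prod_mem hB _ _ (by omega) fun i => hz _)))
    rw [zsmul_congr (z' := 0) h2, zero_smul]
    push_cast
    rw [← h0 τ]
    refine Finset.sum_congr rfl fun σ _ => ?_
    rw [ZMod.natCast_zmod_val]
  -- dimensions
  have e1 : Module.finrank (ZMod p) (MonoidAlgebra (ZMod p) (Perm (Fin (m + 1))) ⧸ L) =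
      Module.finrank (ZMod p) (MonoidAlgebra (ZMod p) (Perm (Fin (m + 1))) ⧸
        (L.restrictScalars (ZMod p))) :=
    (LinearEquiv.finrank_eq (Submodule.Quotient.restrictScalarsEquiv (ZMod p) L)).symm
  have e2 := Submodule.finrank_quotient_add_finrank (L.restrictScalars (ZMod p))
  have e3 := LinearMap.finrank_range_add_finrank_ker Φ
  have e4 := Submodule.finrank_mono hker
  have e5 := Submodule.finrank_le (LinearMap.range Φ)
  rw [Module.finrank_fintype_fun_eq_card, Fintype.card_coe] at e5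
  have e6 : 2 * (2 * (m + 1) - 1) = 2 * (2 * m + 1) := by omega
  rw [e6, e1]
  omega

end H34.Kem
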