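import Mathlib

/-!
Definitions for the characteristic p part: ideals, alternating sums, multilinear identities,
tabloids of a square shape.
-/

namespace H34.Kem

open Finset Equiv

/-- ideals of a ring, as additive subgroups. -/
structure IsIdl {𝔹 : Type} [Ring 𝔹] (B : AddSubgroup 𝔹) : Prop where
  left : ∀ x y, y ∈ B → x * y ∈ B
  right : ∀ x y, x ∈ B → x * y ∈ B

variable {𝔹 : Type} [Ring 𝔹]

/-- `w 0 * c 0 * w 1 * c 1 * ... * c (k-1) * w k`. -/
def mon (k : ℕ) (w : ℕ → 𝔹) (c : Fin k → 𝔹) : 𝔹 :=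
  w 0 * (List.ofFn fun i : Fin k => c i * w (i + 1)).prod

/-- the Capelli sum. -/
def altSum (m : ℕ) (w : ℕ → 𝔹) (a : Fin m → 𝔹) : 𝔹 :=
  ∑ σ : Perm (Fin m), (Perm.sign σ : ℤ) • mon m w (a ∘ σ)

/-- `B` satisfies the Capelli identity of order `m` (all fillers, also the unit, are allowed). -/
def Cap (B : AddSubgroup 𝔹) (m : ℕ) : Prop :=
  ∀ (w : ℕ → 𝔹) (a : Fin m → 𝔹), (∀ i, a i ∈ B) → altSum m w a = 0

/-- multilinear identities of `B`. -/
def MLI (B : AddSubgroup 𝔹) (n : ℕ) (c : Perm (Fin n) → ℤ) : Prop :=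
  ∀ x : Fin n → 𝔹, (∀ i, x i ∈ B) → ∑ σ, c σ • (List.ofFn fun i => x (σ i)).prod = 0

/-- tabloids of the square shape. -/
abbrev Tb (r : ℕ) : Type :=
  {τ : Fin (r * r) → Fin r // ∀ i, (univ.filter fun q => τ q = i).card = r}

/-- the action on tabloids. -/
def Tb.act {r : ℕ} (τ : Tb r) (σ : Perm (Fin (r * r))) : Tb r :=
  ⟨τ.1 ∘ σ, fun i => (Finset.card_bij (fun q _ => σ q) (by simp) (by simp) (by
      intro q hq
      exact ⟨σ.symm q, by simpa using hq, by simp⟩)).trans (τ.2 i)⟩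

/-- ballot condition. -/
def Bal {r : ℕ} (τ : Tb r) : Prop :=
  ∀ (h : ℕ) (i j : Fin r), i ≤ j → (univ.filter fun q : Fin (r * r) => (q : ℕ) < h ∧ τ.1 q = j).card ≤
    (univ.filter fun q : Fin (r * r) => (q : ℕ) < h ∧ τ.1 q = i).card

/-- polytabloids, indexed by tableaux. -/
def poly {r : ℕ} (g : Fin r × Fin r ≃ Fin (r * r)) (τ : Tb r) : ℤ :=
  ∏ j, Matrix.det (fun i k : Fin r => if τ.1 (g (i, j)) = k then (1 : ℤ) else 0)

open Classical in
/-- Garnir elements: all redistributions of the letters `i`, `j` on the set `Z`. -/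
noncomputable def gar {r : ℕ} (τ : Tb r) (Z : Finset (Fin (r * r))) (i j : Fin r) (τ' : Tb r) : ℤ :=
  if (∀ q ∉ Z, τ'.1 q = τ.1 q) ∧ (∀ q ∈ Z, τ'.1 q = i ∨ τ'.1 q = j) then 1 else 0

/-- admissible data for Garnir elements. -/
def GarOK {r : ℕ} (τ : Tb r) (Z : Finset (Fin (r * r))) (i j : Fin r) : Prop :=
  i ≠ j ∧ (∀ q ∈ Z, τ.1 q = i ∨ τ.1 q = j) ∧ r < Z.card

/-- measure for the straightening. -/
def meas {r : ℕ} (τ : Tb r) : ℕ := ∑ q : Fin (r * r), (q : ℕ) * (τ.1 q : ℕ)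

end H34.Kem
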