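import Pool.Agent.H34.Kem.WeylE
import Pool.Agent.H34.Kem.AbsF

/-!
The test modules and the vanishing of derivations for the invariant matrices.
-/

namespace H34.Kem

open Finset Equiv

variable {F : Type} [Field F] {M q n : ℕ}

theorem big0 {b : Fin M → ℕ} (hb : Big n b) : Big n (fun _ : Fin M => 0) := by
  sorry

theorem testE {b : Fin M → ℕ} (hb : Big n b) (l : Lam M n)
    (hl : (TriLB F (big0 hb)).xi l ∉ Jup (F := F) (TriLB F (big0 hb)).xi l) :
    ∃ (E : Type) (_ : AddCommGroup E) (_ : Module (LB F n (fun _ : Fin M => 0)) E)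
      (_ : Module F E) (_ : IsScalarTower F (LB F n (fun _ : Fin M => 0)) E),
      (TriLB F (big0 hb)).Test (TriLB F hb) (Subalgebra.inclusion (LB_le b)) l E := by
  sorry

/-- every derivation of the block preserving matrices into the dual of a quotient is inner. -/
theorem deriv_LB {b : Fin M → ℕ} (hb : Big n b) (U : Set (Lam M n))
    (hU : ∀ l m, l ∈ U → l ≤ m → m ∈ U)
    (δ : LB F n b →ₗ[F] LB F n (fun _ : Fin M => 0) →ₗ[F] F)
    (h0 : ∀ a, ∀ l ∈ U, ∀ x y, δ a (x * (TriLB F (big0 hb)).xi l * y) = 0)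
    (hδ : ∀ a b' s, δ (a * b') s = δ b' (s * Subalgebra.inclusion (LB_le b) a) +
      δ a (Subalgebra.inclusion (LB_le b) b' * s)) :
    ∃ φ : LB F n (fun _ : Fin M => 0) →ₗ[F] F,
      (∀ l ∈ U, ∀ x y, φ (x * (TriLB F (big0 hb)).xi l * y) = 0) ∧
      ∀ a s, δ a s = φ (s * Subalgebra.inclusion (LB_le b) a) -
        φ (Subalgebra.inclusion (LB_le b) a * s) := by
  sorry

end H34.Kem
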