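import Pool.Agent.H34.Kem.Faith
import Pool.Agent.H34.Kem.TestE

/-!
The quotient of the invariant matrices by the large weights and the commutators has no torsion.
-/

namespace H34.Kem

open Finset Equiv

variable {M n : ℕ}

/-- commutators with the block preserving matrices. -/
def cm (n : ℕ) (b : Fin (M + 1) → ℕ) : AddSubgroup (Matrix (Wd (M + 1) n) (Wd (M + 1) n) ℤ) :=
  AddSubgroup.closure {Z | ∃ X Y : Matrix (Wd (M + 1) n) (Wd (M + 1) n) ℤ,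
    X ∈ LB ℤ n (fun _ : Fin (M + 1) => 0) ∧ Y ∈ LB ℤ n b ∧ Z = X * Y - Y * X}

theorem no_p_torsion {b : Fin (M + 1) → ℕ} (hb : Big n b) (m p : ℕ) (hp : p.Prime)
    (X : Matrix (Wd (M + 1) n) (Wd (M + 1) n) ℤ) (hX : X ∈ LB ℤ n (fun _ : Fin (M + 1) => 0))
    (h : (p : ℤ) • X ∈ am M n m ⊔ cm n b) : X ∈ am M n m ⊔ cm n b := by
  sorry

theorem no_torsion {b : Fin (M + 1) → ℕ} (hb : Big n b) (m N : ℕ) (hN : N ≠ 0)
    (X : Matrix (Wd (M + 1) n) (Wd (M + 1) n) ℤ) (hX : X ∈ LB ℤ n (fun _ : Fin (M + 1) => 0))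
    (h : (N : ℤ) • X ∈ am M n m ⊔ cm n b) : X ∈ am M n m ⊔ cm n b := by
  sorry

end H34.Kem
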