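import Pool.Agent.H34.Kem.ZubB
import Pool.Agent.H34.Kem.BigD

namespace H34.Kem

open Finset Equiv

variable {𝔹 : Type} [Ring 𝔹] {B : AddSubgroup 𝔹} {M : ℕ}

private theorem pvA_idl (τ : 𝔹) (hτ : Cen τ) : IsIdl (AddMonoidHom.mulLeft τ).range := by
  constructor
  · rintro x _ ⟨y, rfl⟩
    refine ⟨x * y, ?_⟩
    show τ * (x * y) = x * (τ * y)
    rw [← mul_assoc, hτ x, mul_assoc]
  · rintro _ y ⟨x, rfl⟩
    exact ⟨x * y, (mul_assoc τ x y).symm⟩

private theorem pvA_unit (τ : 𝔹) (hτ : Cen τ) (hτ' : IsNilpotent τ) :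
    ∀ x ∈ (AddMonoidHom.mulLeft τ).range, IsUnit (1 + x) := by
  rintro _ ⟨y, rfl⟩
  apply IsNilpotent.isUnit_one_add
  obtain ⟨n, hn⟩ := hτ'
  refine ⟨n, ?_⟩
  show (τ * y) ^ n = 0
  have h1 : Commute τ y := hτ y
  rw [h1.mul_pow, hn, zero_mul]

/-- invariance under conjugation by block diagonal central matrices. -/
theorem PD.val_conj (hB : IsIdl B) (P : PD 𝔹 M) (hC : Cap B (P.m + 1)) (hP : P.InB B)
    (τ : 𝔹) (hτ : Cen τ) (hτ' : IsNilpotent τ) (T s : Matrix (Fin M) (Fin M) 𝔹)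
    (hT : ∀ i j, Cen (T i j)) (hs : ∀ i j, Cen (s i j))
    (hbl : ∀ i j, s i j ≠ 0 → P.bl i = P.bl j) :
    P.val ((τ • T) * (1 + τ • s)) = P.val ((1 + τ • s) * (τ • T)) := by
  obtain ⟨𝔫, h𝔫⟩ : ∃ 𝔫 : AddSubgroup 𝔹, 𝔫 = (AddMonoidHom.mulLeft τ).range := ⟨_, rfl⟩
  have hn : IsIdl 𝔫 := by
    rw [h𝔫]
    exact pvA_idl τ hτ
  have hu : ∀ x ∈ 𝔫, IsUnit (1 + x) := by
    rw [h𝔫]
    exact pvA_unit τ hτ hτ'
  have hmem : ∀ y, τ * y ∈ 𝔫 := by
    intro y
    rw [h𝔫]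
    exact ⟨y, rfl⟩
  obtain ⟨T0, hT0⟩ : ∃ T0, T0 = τ • T := ⟨_, rfl⟩
  obtain ⟨s1, hs1⟩ : ∃ s1, s1 = 1 + τ • s := ⟨_, rfl⟩
  rw [← hT0, ← hs1]
  have hT0m : ∀ i j, T0 i j ∈ 𝔫 := by
    intro i j
    rw [hT0]
    exact hmem _
  have hs1m : In1 𝔫 s1 := by
    intro i j
    rw [hs1, add_sub_cancel_left]
    exact hmem _
  -- entries of `s1`
  have hs1c : ∀ i j, Cen (s1 i j) := by
    intro i j y
    have h1 : s1 i j = (1 : Matrix (Fin M) (Fin M) 𝔹) i j + τ * s i j := by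
      rw [hs1]
      rfl
    rw [h1]
    have h2 : (1 : Matrix (Fin M) (Fin M) 𝔹) i j * y = y * (1 : Matrix (Fin M) (Fin M) 𝔹) i j := by
      rw [Matrix.one_apply]
      split_ifs
      · rw [one_mul, mul_one]
      · rw [zero_mul, mul_zero]
    rw [add_mul, mul_add, h2, mul_assoc, hs i j y, ← mul_assoc, hτ y, mul_assoc]
  have hs1b : ∀ i j, s1 i j ≠ 0 → P.bl i = P.bl j := by
    intro i j h
    by_cases hij : i = j
    · rw [hij]
    · apply hbl
      intro h0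
      apply h
      rw [hs1]
      show (1 : Matrix (Fin M) (Fin M) 𝔹) i j + τ * s i j = 0
      rw [Matrix.one_apply_ne hij, h0, mul_zero, add_zero]
  -- `s1` commutes with `X0`
  have hcomm : s1 * P.X0 = P.X0 * s1 := by
    ext i j
    rw [PD.X0, Matrix.mul_diagonal, Matrix.diagonal_mul]
    by_cases h : s1 i j = 0
    · rw [h, zero_mul, mul_zero]
    · rw [hs1b i j h]
      exact hs1c i j _
  -- memberships
  have hmulr : ∀ (X Y : Matrix (Fin M) (Fin M) 𝔹), (∀ i j, X i j ∈ 𝔫) → ∀ i j,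
      (X * Y) i j ∈ 𝔫 := by
    intro X Y hX i j
    rw [Matrix.mul_apply]
    exact AddSubgroup.sum_mem _ fun k _ => hn.right _ _ (hX i k)
  have hmull : ∀ (X Y : Matrix (Fin M) (Fin M) 𝔹), (∀ i j, Y i j ∈ 𝔫) → ∀ i j,
      (X * Y) i j ∈ 𝔫 := by
    intro X Y hY i j
    rw [Matrix.mul_apply]
    exact AddSubgroup.sum_mem _ fun k _ => hn.left _ _ (hY k j)
  obtain ⟨M1, hM1⟩ : ∃ M1, M1 = P.MM (T0 * s1) := ⟨_, rfl⟩
  obtain ⟨M2, hM2⟩ : ∃ M2, M2 = P.MM (s1 * T0) := ⟨_, rfl⟩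
  have hM1m : In1 𝔫 M1 := by
    intro i j
    rw [hM1, PD.MM, add_sub_cancel_left]
    exact hmulr _ _ (hmulr _ _ hT0m) i j
  have hM2m : In1 𝔫 M2 := by
    intro i j
    rw [hM2, PD.MM, add_sub_cancel_left]
    exact hmulr _ _ (hmull _ _ hT0m) i j
  have hconj : s1 * M1 = M2 * s1 := by
    rw [hM1, hM2, PD.MM, PD.MM, mul_add, add_mul, mul_one, one_mul]
    congr 1
    rw [mul_assoc, hcomm, ← mul_assoc T0, ← mul_assoc s1, ← mul_assoc s1, mul_assoc (s1 * T0)]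
  obtain ⟨E, _, D, hD, hSim⟩ := exists_D hB P.m hC
  have hDeq : D (bigdet M1) = D (bigdet M2) := by
    have h1 := bigdet_mul hn hu D hD s1 M1 hs1m hM1m
    have h2 := bigdet_mul hn hu D hD M2 s1 hM2m hs1m
    rw [hconj, h2, hD (bigdet M2)] at h1
    have h3 : IsUnit (D (bigdet s1)) := by
      have h4 : IsUnit (bigdet s1) := by
        have h5 := hu _ (bigdet_mem hn hu s1 hs1m)
        rwa [add_sub_cancel] at h5
      exact h4.map D
    exact (h3.mul_left_cancel h1).symm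
  have hG : G2 P.m P.w P.π (fun i => bigdet M1 * P.a i) P.b =
      G2 P.m P.w P.π (fun i => bigdet M2 * P.a i) P.b :=
    (hSim _ _).mp hDeq P.w P.π P.a P.b hP.ha hP.hb
  -- the traces
  have hM1u : IsUnit M1 := In1.isUnit hn hu hM1m
  have hM2u : IsUnit M2 := In1.isUnit hn hu hM2m
  have hinv : Ring.inverse M2 * s1 = s1 * Ring.inverse M1 := by
    have h1 : Ring.inverse M2 * (s1 * M1) * Ring.inverse M1 =
        Ring.inverse M2 * (M2 * s1) * Ring.inverse M1 := by rw [hconj]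
    rw [← mul_assoc (Ring.inverse M2) M2, Ring.inverse_mul_cancel _ hM2u, one_mul,
      ← mul_assoc, mul_assoc, Ring.mul_inverse_cancel _ hM1u, mul_one] at h1
    exact h1
  have hform : ∀ (N T' : Matrix (Fin M) (Fin M) 𝔹), (∑ i, ∑ j, if P.bl i = 0 then
      N i j * T' j i else 0) = ∑ i, if P.bl i = 0 then (N * T') i i else 0 := by
    intro N T'
    refine Finset.sum_congr rfl fun i _ => ?_
    by_cases h : P.bl i = 0
    · simp only [if_pos h]
      rw [Matrix.mul_apply]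
    · simp only [if_neg h]
      exact Finset.sum_const_zero
  have hh : P.hval (T0 * s1) = P.hval (s1 * T0) := by
    rw [PD.hval, PD.hval, ← hM1, ← hM2, hform, hform]
    obtain ⟨Y, hY⟩ : ∃ Y, Y = Ring.inverse M1 * T0 := ⟨_, rfl⟩
    have e1 : Ring.inverse M1 * (T0 * s1) = Y * s1 := by rw [hY, mul_assoc]
    have e2 : Ring.inverse M2 * (s1 * T0) = s1 * Y := by
      rw [hY, ← mul_assoc, hinv, mul_assoc]
    rw [e1, e2]
    have e3 : ∀ i, (if P.bl i = 0 then (Y * s1) i i else 0) =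
        ∑ j, if P.bl i = 0 then Y i j * s1 j i else 0 := by
      intro i
      by_cases h : P.bl i = 0
      · simp only [if_pos h]
        rw [Matrix.mul_apply]
      · simp only [if_neg h]
        exact Finset.sum_const_zero.symm
    have e4 : ∀ i, (if P.bl i = 0 then (s1 * Y) i i else 0) =
        ∑ j, if P.bl i = 0 then s1 i j * Y j i else 0 := by
      intro i
      by_cases h : P.bl i = 0
      · simp only [if_pos h]
        rw [Matrix.mul_apply]
      · simp only [if_neg h]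
        exact Finset.sum_const_zero.symm
    rw [Finset.sum_congr rfl fun i _ => e3 i, Finset.sum_congr rfl fun i _ => e4 i,
      Finset.sum_comm]
    refine Finset.sum_congr rfl fun i _ => Finset.sum_congr rfl fun j _ => ?_
    by_cases h : s1 i j = 0
    · rw [h, zero_mul, mul_zero, ite_self, ite_self]
    · rw [hs1b i j h, hs1c i j]
  rw [PD.val, PD.val, ← hM1, ← hM2, hh, hG]

end H34.Kem
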