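import Pool.Agent.H34.Kem.PvA
import Pool.Agent.H34.Kem.CapT

namespace H34.Kem

open Finset Equiv
open scoped TensorProduct

variable {𝔹 : Type} [Ring 𝔹] {B : AddSubgroup 𝔹} {M : ℕ}

/-! ### degrees -/

section Deg

variable {R R' : Type} [Ring R] [Ring R'] {φ : R →+* R'} {z : R'}

/-- polynomials of degree at most `e` in `z` with coefficients in the image of `φ`. -/
private def Dg (φ : R →+* R') (z : R') (e : ℕ) (x : R') : Prop :=
  ∃ p : Polynomial R, p.natDegree ≤ e ∧ p.eval₂ φ z = x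

private theorem Dg.zero (e : ℕ) : Dg φ z e 0 := ⟨0, by simp, by simp⟩

private theorem Dg.add {e : ℕ} {x y : R'} (hx : Dg φ z e x) (hy : Dg φ z e y) :
    Dg φ z e (x + y) := by
  obtain ⟨p, hp, rfl⟩ := hx
  obtain ⟨q, hq, rfl⟩ := hy
  exact ⟨p + q, (Polynomial.natDegree_add_le _ _).trans (max_le hp hq), by
    rw [Polynomial.eval₂_add]⟩

private theorem Dg.zsmul {e : ℕ} {x : R'} (c : ℤ) (hx : Dg φ z e x) : Dg φ z e (c • x) := by
  obtain ⟨p, hp, rfl⟩ := hx
  refine ⟨c • p, (Polynomial.natDegree_smul_le _ _).trans hp, ?_⟩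
  rw [Polynomial.eval₂_eq_sum_range' φ (Nat.lt_succ_of_le ((Polynomial.natDegree_smul_le c p).trans hp)),
    Polynomial.eval₂_eq_sum_range' φ (Nat.lt_succ_of_le hp), Finset.smul_sum]
  refine Finset.sum_congr rfl fun i _ => ?_
  rw [Polynomial.coeff_smul, map_zsmul, smul_mul_assoc]

private theorem Dg.sum {ι : Type} {e : ℕ} {s : Finset ι} {f : ι → R'}
    (h : ∀ i ∈ s, Dg φ z e (f i)) : Dg φ z e (∑ i ∈ s, f i) := by
  classical
  induction s using Finset.induction_on with
  | empty => simpa using Dg.zero e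
  | insert a s ha ih =>
    rw [Finset.sum_insert ha]
    exact (h a (Finset.mem_insert_self _ _)).add (ih fun i hi => h i (Finset.mem_insert_of_mem hi))

private theorem Dg.mul (hz : Cen z) {e e' : ℕ} {x y : R'} (hx : Dg φ z e x) (hy : Dg φ z e' y) :
    Dg φ z (e + e') (x * y) := by
  obtain ⟨p, hp, rfl⟩ := hx
  obtain ⟨q, hq, rfl⟩ := hy
  refine ⟨p * q, (Polynomial.natDegree_mul_le).trans (add_le_add hp hq), ?_⟩
  have hc : ∀ a, Commute (φ a) z := fun a => (hz (φ a)).symm
  exact Polynomial.eval₂_mul_noncomm φ z (fun k => hc _)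

private theorem Dg.const (e : ℕ) (r : R) : Dg φ z e (φ r) :=
  ⟨Polynomial.C r, by simp, by simp⟩

private theorem Dg.zz : Dg φ z 1 z :=
  ⟨Polynomial.X, Polynomial.natDegree_X_le, by simp⟩

private theorem Dg.mono {e e' : ℕ} (h : e ≤ e') {x : R'} (hx : Dg φ z e x) : Dg φ z e' x := by
  obtain ⟨p, hp, rfl⟩ := hx
  exact ⟨p, hp.trans h, rfl⟩

private theorem Dg.listProd (hz : Cen z) : ∀ (k : ℕ) (c : Fin k → R') (e : Fin k → ℕ),
    (∀ i, Dg φ z (e i) (c i)) → Dg φ z (∑ i, e i) (List.ofFn c).prod := by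
  intro k
  induction k with
  | zero => intro c e _; simpa using Dg.const (φ := φ) (z := z) 0 1
  | succ k ih =>
    intro c e h
    rw [List.ofFn_succ, List.prod_cons, Fin.sum_univ_succ]
    exact (h 0).mul hz (ih _ _ fun i => h i.succ)

private theorem Dg.mon (hz : Cen z) (k : ℕ) (w : ℕ → R) (c : Fin k → R') (e : Fin k → ℕ)
    (h : ∀ i, Dg φ z (e i) (c i)) :
    Dg φ z (∑ i, e i) (mon k (φ ∘ w) c) := by
  have h2 := (Dg.const (φ := φ) (z := z) 0 (w 0)).mul hz (Dg.listProd hz k
    (fun i => c i * (φ ∘ w) (i + 1)) e (fun i => by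
      have := (h i).mul hz (Dg.const (φ := φ) (z := z) 0 (w (i + 1)))
      simpa using this))
  rw [zero_add] at h2
  exact h2

/-- degrees of double alternating sums. -/
private theorem Dg.G2 (hz : Cen z) (m : ℕ) (w : ℕ → R) (π : Fin (m + m) ≃ Fin m ⊕ Fin m)
    (a : Fin m → R') (b : Fin m → R) (e : Fin m → ℕ) (h : ∀ i, Dg φ z (e i) (a i)) :
    Dg φ z (∑ i, e i) (H34.Kem.G2 m (φ ∘ w) π a (φ ∘ b)) := by
  unfold H34.Kem.G2
  refine Dg.sum fun σ _ => Dg.sum fun τ _ => Dg.zsmul _ ?_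
  have h1 := Dg.mon hz (m + m) w (fun i => Sum.elim (a ∘ σ) ((φ ∘ b) ∘ τ) (π i))
    (fun i => Sum.elim (e ∘ σ) (fun _ => 0) (π i)) (by
      intro i
      rcases π i with j | j
      · exact h _
      · exact Dg.const _ _)
  have h2 : ∑ i, Sum.elim (e ∘ σ) (fun _ => 0) (π i) = ∑ i, e i := by
    rw [Equiv.sum_comp π (fun x => Sum.elim (e ∘ σ) (fun _ : Fin m => 0) x), Fintype.sum_sum_type]
    simp only [Sum.elim_inl, Sum.elim_inr, Finset.sum_const_zero, add_zero]
    exact Equiv.sum_comp σ e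
  rw [h2] at h1
  exact h1

end Deg


/-! ### ideals of multiples of a nilpotent central element -/

section Tau

variable {R : Type} [Ring R]

/-- multiples of a central element. -/
private def tauI (τ : R) : AddSubgroup R where
  carrier := {x | ∃ y, x = τ * y}
  zero_mem' := ⟨0, by simp⟩
  add_mem' := by
    rintro _ _ ⟨a, rfl⟩ ⟨b, rfl⟩
    exact ⟨a + b, by rw [mul_add]⟩
  neg_mem' := by
    rintro _ ⟨a, rfl⟩
    exact ⟨-a, by rw [mul_neg]⟩

private theorem tauI_idl {τ : R} (h : Cen τ) : IsIdl (tauI τ) where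
  left := by
    rintro x _ ⟨b, rfl⟩
    exact ⟨x * b, by rw [← mul_assoc, ← h x, mul_assoc]⟩
  right := by
    rintro _ y ⟨a, rfl⟩
    exact ⟨a * y, by rw [mul_assoc]⟩

private theorem tauI_unit {τ : R} (h : Cen τ) (hn : IsNilpotent τ) :
    ∀ x ∈ tauI τ, IsUnit (1 + x) := by
  rintro _ ⟨b, rfl⟩
  obtain ⟨k, hk⟩ := hn
  have : IsNilpotent (τ * b) := ⟨k, by
    have hc : Commute τ b := h b
    rw [hc.mul_pow, hk, zero_mul]⟩
  exact this.isUnit_one_add

end Tau

/-! ### the abstract statement -/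

section Abstract

private theorem mat_left {R : Type} [Ring R] {N : AddSubgroup R} (hN : IsIdl N) {k : ℕ}
    (A X : Matrix (Fin k) (Fin k) R) (h : ∀ i j, X i j ∈ N) : ∀ i j, (A * X) i j ∈ N := by
  intro i j
  rw [Matrix.mul_apply]
  exact N.sum_mem fun l _ => hN.left _ _ (h _ _)

private theorem mat_right {R : Type} [Ring R] {N : AddSubgroup R} (hN : IsIdl N) {k : ℕ}
    (X A : Matrix (Fin k) (Fin k) R) (h : ∀ i j, X i j ∈ N) : ∀ i j, (X * A) i j ∈ N := by
  intro i j
  rw [Matrix.mul_apply]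
  exact N.sum_mem fun l _ => hN.right _ _ (h _ _)

variable {R R' : Type} [Ring R] [Ring R'] (φ : R →+* R') (z : R')

private theorem abs_deg (hz : Cen z) (N : AddSubgroup R) (hN : IsIdl N)
    (hNu : ∀ x ∈ N, IsUnit (1 + x)) (N' : AddSubgroup R') (hN' : IsIdl N')
    (hNu' : ∀ x ∈ N', IsUnit (1 + x)) (hNN : ∀ x ∈ N, φ x ∈ N') (B' : AddSubgroup R')
    (hB' : IsIdl B') (P : PD R (M + 1)) (hC : Cap B' (P.m + 1)) (hP : (P.map φ).InB B')
    (t1 s : Matrix (Fin (M + 1)) (Fin (M + 1)) R) (ht1 : In1 N t1) (hs : ∀ i j, s i j ∈ N) :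
    Dg φ z P.m ((P.map φ).val (t1.map φ *
      Matrix.diagonal (fun i : Fin (M + 1) => if i = 0 then z else 1) * s.map φ)) := by
  classical
  obtain ⟨E, hE, D, hDc, hDS⟩ := exists_D (B := B') hB' P.m hC
  set X0 := P.X0 with hX0d
  have hX0 : (P.map φ).X0 = X0.map φ := by
    rw [hX0d, PD.X0, PD.X0, Matrix.diagonal_map (map_zero φ)]
    congr 1
    funext i
    show (if P.bl i = 0 then 0 else φ (P.x (P.bl i - 1))) =
      φ (if P.bl i = 0 then 0 else P.x (P.bl i - 1))
    split_ifs <;> simp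
  set Z : Matrix (Fin (M + 1)) (Fin (M + 1)) R' :=
    Matrix.diagonal (fun i : Fin (M + 1) => if i = 0 then z else 1) with hZ
  set Y : Matrix (Fin (M + 1)) (Fin (M + 1)) R := s * X0 * t1 with hYd
  have hY : ∀ i j, Y i j ∈ N := mat_right hN _ _ (mat_right hN _ _ hs)
  have hY' : Y.map φ = s.map φ * X0.map φ * t1.map φ := by
    rw [hYd, Matrix.map_mul, Matrix.map_mul]
  set T : Matrix (Fin (M + 1)) (Fin (M + 1)) R' := t1.map φ * Z * s.map φ with hT
  set A := (P.map φ).MM T with hA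
  have hA' : A = 1 + T * X0.map φ := by rw [hA, PD.MM, hX0]
  set M' : Matrix (Fin (M + 1)) (Fin (M + 1)) R' := 1 + Z * Y.map φ with hM'd
  have hAM : A * t1.map φ = t1.map φ * M' := by
    rw [hA', hM'd, hY', hT]
    noncomm_ring
  have hs' : ∀ i j, (s.map φ) i j ∈ N' := fun i j => hNN _ (hs i j)
  have hM' : In1 N' M' := by
    intro i j
    rw [hM'd, add_sub_cancel_left]
    exact mat_left hN' _ _ (fun i j => hNN _ (hY i j)) i j
  have hAin : In1 N' A := by
    intro i j
    rw [hA', add_sub_cancel_left]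
    exact mat_right hN' _ _ (mat_left hN' _ _ hs') i j
  have ht1' : In1 N' (t1.map φ) := by
    intro i j
    have : (t1.map φ - 1) i j = φ ((t1 - 1) i j) := by
      rw [Matrix.sub_apply, Matrix.sub_apply, Matrix.map_apply, map_sub]
      congr 1
      by_cases hij : i = j
      · subst hij; simp
      · simp [hij]
    rw [this]
    exact hNN _ (ht1 i j)
  -- the multiplicative determinant
  have hd1 : D (bigdet A) = D (bigdet M') := by
    have e1 := bigdet_mul hN' hNu' D hDc A (t1.map φ) hAin ht1'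
    have e2 := bigdet_mul hN' hNu' D hDc (t1.map φ) M' ht1' hM'
    rw [hAM, e2] at e1
    have hu : IsUnit (D (bigdet (t1.map φ))) := by
      have h3 := hNu' _ (bigdet_mem hN' hNu' _ ht1')
      rw [add_sub_cancel] at h3
      exact h3.map D
    rw [hDc (bigdet A)] at e1
    exact (hu.mul_left_cancel e1).symm
  -- the complement
  set S : Matrix (Fin M) (Fin M) R := 1 + Y.submatrix Fin.succ Fin.succ with hSd
  have hS : In1 N S := by
    intro i j
    rw [hSd, add_sub_cancel_left]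
    exact hY _ _
  obtain ⟨Su, hSu⟩ := hS.isUnit hN hNu
  set Si : Matrix (Fin M) (Fin M) R := (Su⁻¹ : (Matrix (Fin M) (Fin M) R)ˣ).1 with hSi
  have hSS : S * Si = 1 := by rw [← hSu, hSi]; exact Su.mul_inv
  have hSS' : Si * S = 1 := by rw [← hSu, hSi]; exact Su.inv_mul
  have hone : ∀ {k : ℕ}, (1 : Matrix (Fin k) (Fin k) R).map φ = 1 := by
    intro k
    exact Matrix.map_one φ (map_zero φ) (map_one φ)
  have hsub : M'.submatrix Fin.succ Fin.succ = S.map φ := by
    ext i j
    rw [Matrix.submatrix_apply, hM'd, hSd, Matrix.add_apply, hZ, Matrix.diagonal_mul,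
      Matrix.map_apply, Matrix.map_apply, Matrix.add_apply, map_add, Matrix.submatrix_apply]
    congr 1
    · by_cases hij : i = j
      · subst hij; simp
      · have : i.succ ≠ j.succ := fun h => hij (Fin.succ_injective _ h)
        simp [hij, this]
    · simp
  set f : R := Y 0 0 - ∑ i, ∑ j, Y 0 i.succ * Si i j * Y j.succ 0 with hf
  set kk : R' := 1 + z * φ f with hkk
  have hd2 : D (bigdet M') = D (bigdet (S.map φ)) * D kk := by
    have e1 := bigdet_other hN' hNu' D hDc M' hM' (Si.map φ)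
      (by rw [hsub, ← Matrix.map_mul, hSS, hone]) (by rw [hsub, ← Matrix.map_mul, hSS', hone])
    rw [hsub] at e1
    rw [e1]
    congr 2
    rw [hkk, hf, map_sub, mul_sub, hM'd]
    have e3 : ∀ i, (1 + Z * Y.map φ) 0 (Fin.succ i) = z * φ (Y 0 i.succ) := by
      intro i
      rw [Matrix.add_apply, hZ, Matrix.diagonal_mul, Matrix.one_apply_ne (Fin.succ_ne_zero i).symm]
      simp
    have e4 : ∀ i, (1 + Z * Y.map φ) (Fin.succ i) 0 = φ (Y i.succ 0) := by
      intro i
      rw [Matrix.add_apply, hZ, Matrix.diagonal_mul, Matrix.one_apply_ne (Fin.succ_ne_zero i)]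
      simp
    have e5 : (1 + Z * Y.map φ) 0 0 = 1 + z * φ (Y 0 0) := by
      rw [Matrix.add_apply, hZ, Matrix.diagonal_mul]
      simp
    simp only [e3, e4, e5, Matrix.map_apply, map_sum, map_mul, Finset.mul_sum, mul_assoc]
    abel
  have hbS : bigdet (S.map φ) = φ (bigdet S) := (bigdet_map hN hNu φ S hS).symm
  have hd3 : D (bigdet A) = D (kk * φ (bigdet S)) := by
    rw [hd1, hd2, hbS, map_mul, hDc]
  have hsim : Sim B' P.m (bigdet A) (kk * φ (bigdet S)) := (hDS _ _).1 hd3
  -- the inverse of kk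
  have hfN : f ∈ N := by
    rw [hf]
    refine N.sub_mem (hY _ _) (N.sum_mem fun i _ => N.sum_mem fun j _ => ?_)
    exact hN.left _ _ (hY _ _)
  obtain ⟨ku, hku⟩ := hNu' (z * φ f) (hN'.left _ _ (hNN _ hfN))
  rw [← hkk] at hku
  set ki : R' := (ku⁻¹ : R'ˣ).1 with hki
  have hk1 : kk * ki = 1 := by rw [← hku, hki]; exact ku.mul_inv
  have hk2 : ki * kk = 1 := by rw [← hku, hki]; exact ku.inv_mul
  -- column and row
  set L : Fin (M + 1) → R := Fin.cons 1 (fun a => - ∑ j, Si a j * Y j.succ 0) with hL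
  set Rw : Fin (M + 1) → R := Fin.cons 1 (fun b => - ∑ i, Y 0 i.succ * Si i b) with hRw
  set S0 : Matrix (Fin (M + 1)) (Fin (M + 1)) R :=
    Matrix.of fun i j => @Fin.cases M (fun _ => R) 0
      (fun a => @Fin.cases M (fun _ => R) 0 (fun b => Si a b) j) i with hS0
  set W : Matrix (Fin (M + 1)) (Fin (M + 1)) R' :=
    S0.map φ + Matrix.of (fun a b => z * φ (L a) * ki * φ (Rw b)) with hW
  have m00 : M' 0 0 = 1 + z * φ (Y 0 0) := by
    rw [hM'd, Matrix.add_apply, hZ, Matrix.diagonal_mul]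
    simp
  have m0s : ∀ i, M' 0 (Fin.succ i) = z * φ (Y 0 i.succ) := by
    intro i
    rw [hM'd, Matrix.add_apply, hZ, Matrix.diagonal_mul,
      Matrix.one_apply_ne (Fin.succ_ne_zero i).symm]
    simp
  have ms0 : ∀ i, M' (Fin.succ i) 0 = φ (Y i.succ 0) := by
    intro i
    rw [hM'd, Matrix.add_apply, hZ, Matrix.diagonal_mul, Matrix.one_apply_ne (Fin.succ_ne_zero i)]
    simp
  have mss : ∀ i j, M' (Fin.succ i) (Fin.succ j) = φ (S i j) := by
    intro i j
    have := congrFun (congrFun hsub i) j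
    rwa [Matrix.submatrix_apply, Matrix.map_apply] at this
  have hMW : M' * W = Z := by
    have hU : ∀ a, M' a 0 + ∑ j : Fin M, M' a j.succ * φ (L j.succ) = if a = 0 then kk else 0 := by
      intro a
      refine Fin.cases ?_ (fun i => ?_) a
      · rw [if_pos rfl, m00, hkk, hf, add_assoc]
        congr 1
        rw [map_sub, mul_sub, sub_eq_add_neg]
        congr 1
        simp only [m0s, hL, Fin.cons_succ, map_neg, map_sum, map_mul, Finset.mul_sum, mul_neg,
          mul_assoc, Finset.sum_neg_distrib]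
      · rw [if_neg (Fin.succ_ne_zero i), ms0]
        have e1 : ∑ j : Fin M, M' i.succ j.succ * φ (L j.succ) =
            - φ (∑ k, (S * Si) i k * Y k.succ 0) := by
          simp only [mss, hL, Fin.cons_succ, ← map_mul, ← map_sum, mul_neg, Finset.sum_neg_distrib,
            map_neg]
          congr 2
          simp only [Matrix.mul_apply, Finset.mul_sum, Finset.sum_mul, mul_assoc]
          rw [Finset.sum_comm]
        rw [e1, hSS]
        simp [Matrix.one_apply]
    have hV : ∀ a b, ∑ j : Fin M, M' a j.succ * φ (S0 j.succ b) =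
        if a = 0 then (if b = 0 then 0 else - (z * φ (Rw b))) else if a = b then 1 else 0 := by
      intro a b
      refine Fin.cases ?_ (fun i => ?_) a
      · rw [if_pos rfl]
        refine Fin.cases ?_ (fun c => ?_) b
        · rw [if_pos rfl]
          simp [hS0]
        · rw [if_neg (Fin.succ_ne_zero c)]
          simp only [m0s, hRw, hS0, Matrix.of_apply, Fin.cases_succ, Fin.cons_succ, map_neg,
            map_sum, map_mul, Finset.mul_sum, mul_neg, neg_neg, mul_assoc]
      · rw [if_neg (Fin.succ_ne_zero i)]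
        refine Fin.cases ?_ (fun c => ?_) b
        · rw [if_neg (Fin.succ_ne_zero i)]
          simp [hS0]
        · have e1 : ∑ j : Fin M, M' i.succ j.succ * φ (S0 j.succ c.succ) = φ ((S * Si) i c) := by
            simp only [mss, hS0, Matrix.of_apply, Fin.cases_succ, Matrix.mul_apply, map_sum,
              map_mul]
          rw [e1, hSS]
          by_cases hic : i = c
          · subst hic; simp
          · have : i.succ ≠ c.succ := fun h => hic (Fin.succ_injective _ h)
            simp [hic, this]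
    ext a b
    have e0 : (M' * W) a b = ∑ j : Fin M, M' a j.succ * φ (S0 j.succ b) +
        z * (M' a 0 + ∑ j : Fin M, M' a j.succ * φ (L j.succ)) * ki * φ (Rw b) := by
      rw [Matrix.mul_apply, Fin.sum_univ_succ]
      have w0 : W 0 b = z * ki * φ (Rw b) := by
        simp [hW, hS0, hL]
      have ws : ∀ j : Fin M, W j.succ b = φ (S0 j.succ b) + z * φ (L j.succ) * ki * φ (Rw b) := by
        intro j
        simp [hW]
      simp only [w0, ws, mul_add, Finset.sum_add_distrib, add_mul, Finset.mul_sum, Finset.sum_mul]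
      have e2 : ∀ y x : R', y * (z * x) = z * (y * x) := by
        intro y x
        rw [← mul_assoc, ← hz, mul_assoc]
      simp only [mul_assoc, e2]
      abel
    rw [e0, hU, hV, hZ]
    refine Fin.cases ?_ (fun i => ?_) a
    · rw [if_pos rfl, if_pos rfl]
      refine Fin.cases ?_ (fun c => ?_) b
      · rw [if_pos rfl, mul_assoc z, hk1]
        simp [hRw]
      · rw [if_neg (Fin.succ_ne_zero c), mul_assoc z, hk1, mul_one,
          Matrix.diagonal_apply_ne _ (Fin.succ_ne_zero c).symm]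
        simp
    · rw [if_neg (Fin.succ_ne_zero i), if_neg (Fin.succ_ne_zero i), Matrix.diagonal_apply]
      simp
  have hinv : Ring.inverse A * T = t1.map φ * W * s.map φ := by
    have hAu : IsUnit A := hAin.isUnit hN' hNu'
    have e1 : A * (t1.map φ * W * s.map φ) = T := by
      rw [← mul_assoc, ← mul_assoc, hAM, mul_assoc (t1.map φ), hMW, hT]
    rw [← e1, ← mul_assoc, Ring.inverse_mul_cancel _ hAu, one_mul]
  -- the degree of the double sum
  set a'' : Fin P.m → R := fun i => bigdet S * P.a i with ha''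
  have haB : ∀ i, φ (a'' i) ∈ B' := by
    intro i
    rw [ha'', map_mul]
    exact hB'.left _ _ (hP.ha i)
  set G : R' := G2 P.m (φ ∘ P.w) P.π (fun i => kk * φ (a'' i)) (φ ∘ P.b) with hG
  have hGA : G2 P.m (φ ∘ P.w) P.π (fun i => bigdet A * φ (P.a i)) (φ ∘ P.b) = G := by
    rw [hG]
    have := hsim (φ ∘ P.w) P.π (fun i => φ (P.a i)) (φ ∘ P.b) hP.ha hP.hb
    rw [this]
    congr 1
    funext i
    rw [ha'', map_mul, mul_assoc]
  have hkD : Dg φ z 1 kk := by
    rw [hkk]
    refine Dg.add ?_ ?_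
    · have := Dg.const (φ := φ) (z := z) 1 1
      rwa [map_one] at this
    · exact (Dg.zz (φ := φ)).mul hz (Dg.const 0 f)
  have hkaD : ∀ i, Dg φ z 1 (kk * φ (a'' i)) := fun i => hkD.mul hz (Dg.const 0 _)
  have hGD : Dg φ z P.m G := by
    have := Dg.G2 (φ := φ) hz P.m P.w P.π (fun i => kk * φ (a'' i)) P.b (fun _ => 1) hkaD
    simpa using this
  have hcr : ∀ y : R, φ y ∈ B' → Dg φ z P.m (z * (ki * φ y * G)) := by
    intro y hy
    have e1 := G2_cramer hB' P.m hC (φ ∘ P.w) P.π (fun i => kk * φ (a'' i)) (φ ∘ P.b) (φ y)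
      (fun i => hB'.left _ _ (haB i)) hP.hb hy
    rw [← hG] at e1
    have e2 : z * (ki * φ y * G) = ∑ j, z * (φ (a'' j) *
        G2 P.m (φ ∘ P.w) P.π (Function.update (fun i => kk * φ (a'' i)) j (φ y)) (φ ∘ P.b)) := by
      rw [mul_assoc, e1, Finset.mul_sum, Finset.mul_sum]
      refine Finset.sum_congr rfl fun j _ => ?_
      congr 1
      rw [← mul_assoc, ← mul_assoc, hk2, one_mul]
    rw [e2]
    refine Dg.sum fun j _ => ?_
    have e3 := Dg.G2 (φ := φ) hz P.m P.w P.π (Function.update (fun i => kk * φ (a'' i)) j (φ y)) P.b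
      (Function.update (fun _ => 1) j 0) (by
        intro i
        by_cases hij : i = j
        · subst hij
          simp only [Function.update_self]
          exact Dg.const 0 y
        · simp only [Function.update_of_ne hij]
          exact hkaD i)
    have e4 : ∑ i, Function.update (fun _ : Fin P.m => 1) j 0 i = P.m - 1 := by
      rw [Finset.sum_update_of_mem (Finset.mem_univ j)]
      simp [Finset.card_sdiff]
    rw [e4] at e3
    have e5 := (Dg.zz (φ := φ)).mul hz ((Dg.const (φ := φ) (z := z) 0 (a'' j)).mul hz e3)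
    have hm : 1 + (0 + (P.m - 1)) = P.m := by
      have := j.pos
      omega
    rwa [hm] at e5
  -- the value
  have hval : (P.map φ).val T = ∑ i, if P.bl i = 0 then
      (t1.map φ * W * s.map φ) i i * φ P.u * G else 0 := by
    have e1 : (P.map φ).val T = (P.map φ).hval T * φ P.u * G := by
      rw [← hGA]
      rfl
    have e2 : (P.map φ).hval T = ∑ i, if P.bl i = 0 then (t1.map φ * W * s.map φ) i i else 0 := by
      rw [← hinv]
      unfold PD.hval
      refine Finset.sum_congr rfl fun i _ => ?_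
      rw [Matrix.mul_apply]
      by_cases h : P.bl i = 0
      · rw [if_pos h]
        refine Finset.sum_congr rfl fun j _ => ?_
        have h' : (P.map φ).bl i = 0 := h
        rw [if_pos h']
      · rw [if_neg h]
        refine Finset.sum_eq_zero fun j _ => ?_
        have h' : ¬ (P.map φ).bl i = 0 := h
        rw [if_neg h']
    rw [e1, e2, Finset.sum_mul, Finset.sum_mul]
    refine Finset.sum_congr rfl fun i _ => ?_
    split_ifs <;> simp
  rw [hval]
  refine Dg.sum fun i _ => ?_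
  split_ifs with h
  swap
  · exact Dg.zero _
  rw [Matrix.mul_apply, Finset.sum_mul, Finset.sum_mul]
  refine Dg.sum fun b _ => ?_
  rw [Matrix.mul_apply, Finset.sum_mul, Finset.sum_mul, Finset.sum_mul]
  refine Dg.sum fun a _ => ?_
  have hWab : W a b = φ (S0 a b) + z * φ (L a) * ki * φ (Rw b) := by
    simp [hW]
  rw [hWab, mul_add, add_mul, add_mul, add_mul]
  refine Dg.add ?_ ?_
  · have e1 : (t1.map φ) i a * φ (S0 a b) * (s.map φ) b i * φ P.u * G =
        φ (t1 i a * S0 a b * s b i * P.u) * G := by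
      simp only [map_mul, Matrix.map_apply]
    rw [e1]
    have := (Dg.const (φ := φ) (z := z) 0 (t1 i a * S0 a b * s b i * P.u)).mul hz hGD
    rwa [zero_add] at this
  · have e1 : (t1.map φ) i a * (z * φ (L a) * ki * φ (Rw b)) * (s.map φ) b i * φ P.u * G =
        φ (t1 i a * L a) * (z * (ki * φ (Rw b * s b i * P.u) * G)) := by
      simp only [map_mul, Matrix.map_apply]
      have e2 : φ (t1 i a) * (z * φ (L a) * ki * φ (Rw b)) =
          φ (t1 i a) * φ (L a) * (z * (ki * φ (Rw b))) := by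
        rw [mul_assoc z, mul_assoc z, ← mul_assoc _ z, ← hz (φ (t1 i a)), mul_assoc (φ (t1 i a)),
          ← mul_assoc (φ (L a)) z, ← hz (φ (L a))]
        simp only [mul_assoc]
        rw [← mul_assoc z (φ (t1 i a)), hz (φ (t1 i a))]
        simp only [mul_assoc]
      rw [e2]
      simp only [mul_assoc]
    rw [e1]
    have e3 := (Dg.const (φ := φ) (z := z) 0 (t1 i a * L a)).mul hz
      (hcr (Rw b * s b i * P.u) (by
        rw [map_mul]
        exact hB'.left _ _ hP.hu))
    rwa [zero_add] at e3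

end Abstract

/-- the value has small degree in the variable attached to the letter zero. -/
theorem PD.valC_deg (hB : IsIdl B) (P : PD 𝔹 (M + 1)) (hC : Cap B (P.m + 1)) (hP : P.InB B)
    (C : Type) [CommRing C] (τ : C) (hτ' : IsNilpotent τ)
    (t s : Matrix (Fin (M + 1)) (Fin (M + 1)) C) :
    ∃ E : ℕ → C ⊗[ℤ] 𝔹,
      P.valC (Polynomial C) ((1 + τ • t).map Polynomial.C *
        Matrix.diagonal (fun i => if i = 0 then Polynomial.X else 1) *
        (τ • s).map Polynomial.C) =
      ∑ j ∈ range (P.m + 1), ((Polynomial.X ^ j : Polynomial C) ⊗ₜ[ℤ] (1 : 𝔹)) *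
        Algebra.TensorProduct.map (Polynomial.C : C →+* Polynomial C).toIntAlgHom
          (AlgHom.id ℤ 𝔹) (E j) := by
  set φ : C ⊗[ℤ] 𝔹 →+* Polynomial C ⊗[ℤ] 𝔹 :=
    (Algebra.TensorProduct.map (Polynomial.C : C →+* Polynomial C).toIntAlgHom
          (AlgHom.id ℤ 𝔹)).toRingHom with hφ
  have hφa : ∀ x, φ x = Algebra.TensorProduct.map (Polynomial.C : C →+* Polynomial C).toIntAlgHom
          (AlgHom.id ℤ 𝔹) x := fun _ => rfl
  set z : Polynomial C ⊗[ℤ] 𝔹 := (Polynomial.X : Polynomial C) ⊗ₜ[ℤ] (1 : 𝔹) with hzd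
  have cen : ∀ (D : Type) [CommRing D] (d : D), Cen (d ⊗ₜ[ℤ] (1 : 𝔹)) := by
    intro D _ d y
    induction y using TensorProduct.induction_on with
    | zero => simp
    | tmul c b => simp [Algebra.TensorProduct.tmul_mul_tmul, mul_comm]
    | add a b ha hb => rw [mul_add, add_mul, ha, hb]
  have hz : Cen z := cen _ _
  set τ1 : C ⊗[ℤ] 𝔹 := τ ⊗ₜ[ℤ] (1 : 𝔹) with hτ1
  set τ2 : Polynomial C ⊗[ℤ] 𝔹 := (Polynomial.C τ) ⊗ₜ[ℤ] (1 : 𝔹) with hτ2
  have hφτ : φ τ1 = τ2 := by
    rw [hφa, hτ1, hτ2, Algebra.TensorProduct.map_tmul]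
    rfl
  have nil1 : IsNilpotent τ1 := by
    have := hτ'.map (Algebra.TensorProduct.includeLeftRingHom : C →+* C ⊗[ℤ] 𝔹)
    exact this
  have nil2 : IsNilpotent τ2 := hφτ ▸ nil1.map φ
  set P1 : PD (C ⊗[ℤ] 𝔹) (M + 1) := P.map fun y => (1 : C) ⊗ₜ[ℤ] y with hP1
  have hPP : (P.map fun y => (1 : Polynomial C) ⊗ₜ[ℤ] y) = P1.map φ := by
    have h1 : (fun y : 𝔹 => (1 : Polynomial C) ⊗ₜ[ℤ] y) = φ ∘ (fun y => (1 : C) ⊗ₜ[ℤ] y) := by
      funext y
      rw [Function.comp_apply, hφa, Algebra.TensorProduct.map_tmul]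
      simp
    rw [h1]
    rfl
  have key := abs_deg (M := M) φ z hz (tauI τ1) (tauI_idl (cen _ _)) (tauI_unit (cen _ _) nil1)
    (tauI τ2) (tauI_idl (cen _ _)) (tauI_unit (cen _ _) nil2) (by
      rintro _ ⟨y, rfl⟩
      exact ⟨φ y, by rw [map_mul, hφτ]⟩) (BT (Polynomial C) B) (BT_idl hB _) P1
    (BT_cap hB _ _ hC) (by
      have hmem : ∀ y ∈ B, φ ((1 : C) ⊗ₜ[ℤ] y) ∈ BT (Polynomial C) B := by
        intro y hy
        refine AddSubgroup.subset_closure ⟨1, y, hy, ?_⟩
        rw [hφa, Algebra.TensorProduct.map_tmul]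
        simp
      exact ⟨fun i => hmem _ (hP.ha i), fun i => hmem _ (hP.hb i), hmem _ hP.hu,
        fun i => hmem _ (hP.hx i)⟩)
    ((1 + τ • t).map fun c => c ⊗ₜ[ℤ] (1 : 𝔹)) ((τ • s).map fun c => c ⊗ₜ[ℤ] (1 : 𝔹)) (by
      intro i j
      refine ⟨(t i j) ⊗ₜ[ℤ] (1 : 𝔹), ?_⟩
      rw [Matrix.sub_apply, Matrix.map_apply, Matrix.add_apply, Matrix.smul_apply,
        TensorProduct.add_tmul]
      by_cases hij : i = j
      · subst hij
        simp [hτ1, Algebra.TensorProduct.one_def, Algebra.TensorProduct.tmul_mul_tmul]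
      · simp [hij, hτ1, Algebra.TensorProduct.tmul_mul_tmul])
    (by
      intro i j
      refine ⟨(s i j) ⊗ₜ[ℤ] (1 : 𝔹), ?_⟩
      simp [hτ1, Algebra.TensorProduct.tmul_mul_tmul])
  have hmat : ((1 + τ • t).map Polynomial.C *
        Matrix.diagonal (fun i : Fin (M + 1) => if i = 0 then (Polynomial.X : Polynomial C) else 1) *
        (τ • s).map Polynomial.C).map (fun c => c ⊗ₜ[ℤ] (1 : 𝔹)) =
      ((1 + τ • t).map fun c => c ⊗ₜ[ℤ] (1 : 𝔹)).map φ *
      Matrix.diagonal (fun i : Fin (M + 1) => if i = 0 then z else 1) *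
      ((τ • s).map fun c => c ⊗ₜ[ℤ] (1 : 𝔹)).map φ := by
    set ι : Polynomial C →+* Polynomial C ⊗[ℤ] 𝔹 := Algebra.TensorProduct.includeLeftRingHom
      with hι
    have hιa : (fun c : Polynomial C => c ⊗ₜ[ℤ] (1 : 𝔹)) = ι := rfl
    have h2 : ∀ X : Matrix (Fin (M + 1)) (Fin (M + 1)) C,
        (X.map Polynomial.C).map ι = (X.map fun c => c ⊗ₜ[ℤ] (1 : 𝔹)).map φ := by
      intro X
      ext i j
      simp only [Matrix.map_apply]
      rw [hφa, Algebra.TensorProduct.map_tmul, ← hιa]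
      simp
    rw [hιa, Matrix.map_mul, Matrix.map_mul, h2, h2]
    congr 2
    rw [Matrix.diagonal_map (map_zero ι)]
    congr 1
    funext i
    by_cases h0 : i = 0
    · rw [if_pos h0, if_pos h0]
      rfl
    · rw [if_neg h0, if_neg h0, map_one]
  obtain ⟨p, hp, he⟩ := key
  refine ⟨fun j => p.coeff j, ?_⟩
  unfold PD.valC
  rw [hPP, hmat, ← he, Polynomial.eval₂_eq_sum_range' φ (Nat.lt_succ_of_le hp)]
  refine Finset.sum_congr rfl fun j _ => ?_
  rw [← hφa]
  have : ((Polynomial.X ^ j : Polynomial C) ⊗ₜ[ℤ] (1 : 𝔹)) = z ^ j := by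
    rw [hzd, Algebra.TensorProduct.tmul_pow, one_pow]
  rw [this]
  have hcz : Commute z (φ (p.coeff j)) := hz _
  exact (hcz.pow_left j).eq.symm

end H34.Kem
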