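import Pool.Agent.H34.Kem.BigD

namespace H34.Kem

open Finset Equiv
open scoped TensorProduct

variable {𝔹 : Type} [Ring 𝔹] {M : ℕ}

private theorem PvC_mon_map {R R' : Type} [Ring R] [Ring R'] (f : R →+* R') (k : ℕ) (w : ℕ → R)
    (c : Fin k → R) : f (mon k w c) = mon k (f ∘ w) (f ∘ c) := by
  unfold mon
  rw [map_mul, map_list_prod, List.map_ofFn]
  simp only [Function.comp_def, map_mul]

private theorem PvC_G2_map {R R' : Type} [Ring R] [Ring R'] (f : R →+* R') (m : ℕ) (w : ℕ → R)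
    (π : Fin (m + m) ≃ Fin m ⊕ Fin m) (a b : Fin m → R) :
    f (G2 m w π a b) = G2 m (f ∘ w) π (f ∘ a) (f ∘ b) := by
  unfold G2
  rw [map_sum]
  refine Finset.sum_congr rfl fun σ _ => ?_
  rw [map_sum]
  refine Finset.sum_congr rfl fun τ _ => ?_
  rw [map_zsmul, PvC_mon_map]
  congr 2
  funext i
  simp only [Function.comp_apply]
  rcases π i with j | j <;> simp

private theorem PvC_map_inverse {R R' : Type} [Ring R] [Ring R'] (f : R →+* R') {x : R}
    (hx : IsUnit x) : f (Ring.inverse x) = Ring.inverse (f x) := by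
  obtain ⟨u, rfl⟩ := hx
  rw [Ring.inverse_unit]
  have : f (u : R) = ((Units.map (f : R →* R') u : R'ˣ) : R') := rfl
  rw [this, Ring.inverse_unit]
  simp

private theorem PvC_MM_map {R R' : Type} [Ring R] [Ring R'] (f : R →+* R') (P : PD R M)
    (T : Matrix (Fin M) (Fin M) R) : (P.map f).MM (T.map f) = (P.MM T).map f := by
  unfold PD.MM
  have h1 : (1 + T * P.X0).map f = f.mapMatrix (1 + T * P.X0) := rfl
  have h2 : T.map f = f.mapMatrix T := rfl
  have h3 : (P.map f).X0 = f.mapMatrix P.X0 := by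
    unfold PD.X0
    rw [RingHom.mapMatrix_apply, Matrix.diagonal_map (map_zero f)]
    congr 1
    funext i
    show (if P.bl i = 0 then (0 : R') else f (P.x (P.bl i - 1))) =
      f (if P.bl i = 0 then 0 else P.x (P.bl i - 1))
    by_cases hb : P.bl i = 0
    · rw [if_pos hb, if_pos hb, map_zero]
    · rw [if_neg hb, if_neg hb]
  rw [h1, h2, h3, map_add, map_one, map_mul]

private theorem PvC_val_map {R R' : Type} [Ring R] [Ring R'] (f : R →+* R') (P : PD R M)
    (T : Matrix (Fin M) (Fin M) R) {𝔫 : AddSubgroup R} (hn : IsIdl 𝔫)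
    (hu : ∀ x ∈ 𝔫, IsUnit (1 + x)) (hM : In1 𝔫 (P.MM T)) :
    f (P.val T) = (P.map f).val (T.map f) := by
  unfold PD.val
  rw [map_mul, map_mul, PvC_G2_map]
  have hH : f (P.hval T) = (P.map f).hval (T.map f) := by
    unfold PD.hval
    rw [map_sum]
    refine Finset.sum_congr rfl fun i _ => ?_
    rw [map_sum]
    refine Finset.sum_congr rfl fun j _ => ?_
    have hinv : (Ring.inverse ((P.map f).MM (T.map f))) i j = f ((Ring.inverse (P.MM T)) i j) := by
      rw [PvC_MM_map]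
      have := PvC_map_inverse (f.mapMatrix (m := Fin M)) (In1.isUnit hn hu hM)
      rw [RingHom.mapMatrix_apply, RingHom.mapMatrix_apply] at this
      rw [← this]
      rfl
    rw [hinv]
    by_cases hb : P.bl i = 0
    · rw [if_pos hb, if_pos (show (P.map f).bl i = 0 from hb), map_mul]
      rfl
    · rw [if_neg hb, if_neg (show ¬ (P.map f).bl i = 0 from hb), map_zero]
  rw [hH]
  have hG : (f ∘ fun i => bigdet (P.MM T) * P.a i) =
      fun i => bigdet ((P.map f).MM (T.map f)) * (P.map f).a i := by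
    funext i
    simp only [Function.comp_apply]
    rw [map_mul, bigdet_map hn hu f _ hM, PvC_MM_map]
    rfl
  rw [hG]
  rfl

/-- the ideal generated by a central element. -/
private def PvC_nn {R : Type} [Ring R] (z : R) : AddSubgroup R := (AddMonoidHom.mulLeft z).range

private theorem PvC_mem_nn {R : Type} [Ring R] (z x : R) : z * x ∈ PvC_nn z := ⟨x, rfl⟩

private theorem PvC_nn_idl {R : Type} [Ring R] {z : R} (hz : Cen z) : IsIdl (PvC_nn z) := by
  constructor
  · rintro x y ⟨y', rfl⟩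
    show x * (z * y') ∈ _
    rw [← mul_assoc, ← hz x, mul_assoc]
    exact PvC_mem_nn _ _
  · rintro x y ⟨x', rfl⟩
    show z * x' * y ∈ _
    rw [mul_assoc]
    exact PvC_mem_nn _ _

private theorem PvC_nn_unit {R : Type} [Ring R] {z : R} (hz : Cen z) (hn : IsNilpotent z) :
    ∀ x ∈ PvC_nn z, IsUnit (1 + x) := by
  rintro x ⟨y, rfl⟩
  show IsUnit (1 + z * y)
  have : IsNilpotent (z * y) := by
    have hc : Commute z y := hz y
    exact hc.isNilpotent_mul_right hn
  exact this.isUnit_one_add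

private theorem PvC_cen (C : Type) [CommRing C] (c : C) : Cen (c ⊗ₜ[ℤ] (1 : 𝔹)) := by
  intro y
  induction y using TensorProduct.induction_on with
  | zero => simp
  | tmul x y => simp [mul_comm c x]
  | add x y hx hy => rw [mul_add, add_mul, hx, hy]

private theorem PvC_nil (C : Type) [CommRing C] {τ : C} (hτ : IsNilpotent τ) :
    IsNilpotent (τ ⊗ₜ[ℤ] (1 : 𝔹)) := by
  obtain ⟨n, hn⟩ := hτ
  refine ⟨n, ?_⟩
  rw [Algebra.TensorProduct.tmul_pow, hn, TensorProduct.zero_tmul]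

private theorem PvC_In1 (P : PD 𝔹 M) (C : Type) [CommRing C] (τ : C)
    (t : Matrix (Fin M) (Fin M) C) :
    In1 (PvC_nn (τ ⊗ₜ[ℤ] (1 : 𝔹))) ((P.map fun y => (1 : C) ⊗ₜ[ℤ] y).MM
      ((τ • t).map fun c => c ⊗ₜ[ℤ] (1 : 𝔹))) := by
  intro i j
  unfold PD.MM
  rw [add_sub_cancel_left, Matrix.mul_apply]
  refine AddSubgroup.sum_mem _ fun l _ => ?_
  have : ((τ • t).map fun c => c ⊗ₜ[ℤ] (1 : 𝔹)) i l = (τ ⊗ₜ[ℤ] (1 : 𝔹)) * (t i l ⊗ₜ[ℤ] (1 : 𝔹)) := by
    simp [Matrix.map_apply, Matrix.smul_apply]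
  rw [this, mul_assoc]
  exact PvC_mem_nn _ _

private theorem PvC_nat (P : PD 𝔹 M) {C C' : Type} [CommRing C] [CommRing C'] (f : C →+* C')
    {τ : C} (hτ : IsNilpotent τ) (t : Matrix (Fin M) (Fin M) C) :
    (Algebra.TensorProduct.map f.toIntAlgHom (AlgHom.id ℤ 𝔹)) (P.valC C (τ • t)) =
      P.valC C' (f τ • t.map f) := by
  unfold PD.valC
  have h := PvC_val_map
    ((Algebra.TensorProduct.map f.toIntAlgHom (AlgHom.id ℤ 𝔹)) : C ⊗[ℤ] 𝔹 →+* C' ⊗[ℤ] 𝔹)
    (P.map fun y => (1 : C) ⊗ₜ[ℤ] y) ((τ • t).map fun c => c ⊗ₜ[ℤ] (1 : 𝔹))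
    (PvC_nn_idl (PvC_cen (𝔹 := 𝔹) C τ)) (PvC_nn_unit (PvC_cen C τ) (PvC_nil C hτ)) (PvC_In1 P C τ t)
  refine Eq.trans h ?_
  have e1 : ((P.map fun y => (1 : C) ⊗ₜ[ℤ] y).map
      ((Algebra.TensorProduct.map f.toIntAlgHom (AlgHom.id ℤ 𝔹)) : C ⊗[ℤ] 𝔹 →+* C' ⊗[ℤ] 𝔹)) =
      P.map fun y => (1 : C') ⊗ₜ[ℤ] y := by
    unfold PD.map
    simp [Function.comp_def]
  have e2 : (((τ • t).map fun c => c ⊗ₜ[ℤ] (1 : 𝔹)).map
      ((Algebra.TensorProduct.map f.toIntAlgHom (AlgHom.id ℤ 𝔹)) : C ⊗[ℤ] 𝔹 →+* C' ⊗[ℤ] 𝔹)) =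
      ((f τ • t.map f).map fun c => c ⊗ₜ[ℤ] (1 : 𝔹)) := by
    ext i j
    simp [Matrix.map_apply, Matrix.smul_apply]
  rw [e1, e2]

private def PvC_good (𝔹 : Type) [Ring 𝔹] {M : ℕ} (N : ℕ) {U : Type} [CommRing U] (X : U)
    (t : Matrix (Fin M) (Fin M) U) (z : U ⊗[ℤ] 𝔹) : Prop :=
  ∃ (S : Finset (Fin M × Fin M →₀ ℕ)) (Q : (Fin M × Fin M →₀ ℕ) → ℕ → 𝔹),
    (∀ A, A ∉ S → ∀ d, Q A d = 0) ∧
    z = ∑ A ∈ S, ∑ d ∈ range (N + 1),
      (X ^ d * A.prod fun e k => t e.1 e.2 ^ k) ⊗ₜ[ℤ] Q A d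

section good

variable {U : Type} [CommRing U] {X : U} {t : Matrix (Fin M) (Fin M) U}

private theorem PvC_good_zero (N : ℕ) : PvC_good 𝔹 N X t 0 :=
  ⟨∅, fun _ _ => 0, fun _ _ _ => rfl, by simp⟩

private theorem PvC_good_add {N : ℕ} {z z' : U ⊗[ℤ] 𝔹} (h : PvC_good 𝔹 N X t z)
    (h' : PvC_good 𝔹 N X t z') : PvC_good 𝔹 N X t (z + z') := by
  classical
  obtain ⟨S, Q, h1, h2⟩ := h
  obtain ⟨S', Q', h1', h2'⟩ := h'
  refine ⟨S ∪ S', fun A d => Q A d + Q' A d, ?_, ?_⟩
  · intro A hA d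
    rw [Finset.mem_union, not_or] at hA
    show Q A d + Q' A d = 0
    rw [h1 A hA.1, h1' A hA.2, add_zero]
  · have e1 : z = ∑ A ∈ S ∪ S', ∑ d ∈ range (N + 1),
        (X ^ d * A.prod fun e k => t e.1 e.2 ^ k) ⊗ₜ[ℤ] Q A d := by
      rw [h2]
      refine Finset.sum_subset Finset.subset_union_left fun A _ hA => ?_
      refine Finset.sum_eq_zero fun d _ => ?_
      rw [h1 A hA, TensorProduct.tmul_zero]
    have e2 : z' = ∑ A ∈ S ∪ S', ∑ d ∈ range (N + 1),
        (X ^ d * A.prod fun e k => t e.1 e.2 ^ k) ⊗ₜ[ℤ] Q' A d := by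
      rw [h2']
      refine Finset.sum_subset Finset.subset_union_right fun A _ hA => ?_
      refine Finset.sum_eq_zero fun d _ => ?_
      rw [h1' A hA, TensorProduct.tmul_zero]
    rw [e1, e2, ← Finset.sum_add_distrib]
    refine Finset.sum_congr rfl fun A _ => ?_
    rw [← Finset.sum_add_distrib]
    refine Finset.sum_congr rfl fun d _ => ?_
    rw [TensorProduct.tmul_add]

private theorem PvC_good_mon {N : ℕ} (hX : X ^ (N + 1) = 0) (d : ℕ) (A : Fin M × Fin M →₀ ℕ)
    (y : 𝔹) : PvC_good 𝔹 N X t ((X ^ d * A.prod fun e k => t e.1 e.2 ^ k) ⊗ₜ[ℤ] y) := by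
  classical
  by_cases hd : d < N + 1
  · refine ⟨{A}, fun A' d' => if A' = A ∧ d' = d then y else 0, ?_, ?_⟩
    · intro A' hA' d'
      rw [Finset.mem_singleton] at hA'
      simp [hA']
    · rw [Finset.sum_singleton, Finset.sum_eq_single d]
      · simp
      · intro b _ hb
        simp [hb]
      · intro h
        exact absurd (Finset.mem_range.2 hd) h
  · have : X ^ d = 0 := by
      rw [show d = (N + 1) + (d - (N + 1)) by omega, pow_add, hX, zero_mul]
    rw [this, zero_mul, TensorProduct.zero_tmul]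
    exact PvC_good_zero N

private theorem PvC_good_all {N : ℕ} (hX : X ^ (N + 1) = 0)
    (g : Polynomial (MvPolynomial (Fin M × Fin M) ℤ) →+* U) (hg : Function.Surjective g)
    (gX : g Polynomial.X = X) (gt : ∀ e, g (Polynomial.C (MvPolynomial.X e)) = t e.1 e.2)
    (z : U ⊗[ℤ] 𝔹) : PvC_good 𝔹 N X t z := by
  induction z using TensorProduct.induction_on with
  | zero => exact PvC_good_zero N
  | add x y hx hy => exact PvC_good_add hx hy
  | tmul c y =>
    obtain ⟨p, rfl⟩ := hg c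
    induction p using Polynomial.induction_on' with
    | add p q hp hq =>
      rw [map_add, TensorProduct.add_tmul]
      exact PvC_good_add hp hq
    | monomial d a =>
      induction a using MvPolynomial.induction_on' with
      | monomial A z =>
        have : g (Polynomial.monomial d (MvPolynomial.monomial A z)) =
            z • (X ^ d * A.prod fun e k => t e.1 e.2 ^ k) := by
          rw [← Polynomial.C_mul_X_pow_eq_monomial, MvPolynomial.monomial_eq, map_mul, map_mul,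
            map_mul, map_pow, gX]
          simp only [Finsupp.prod, map_prod, map_pow, gt]
          rw [zsmul_eq_mul]
          have e : (MvPolynomial.C z : MvPolynomial (Fin M × Fin M) ℤ) =
              ((z : ℤ) : MvPolynomial (Fin M × Fin M) ℤ) := by
            simp
          rw [e]
          simp only [map_intCast]
          ring
        rw [this, TensorProduct.smul_tmul]
        exact PvC_good_mon hX d A _
      | add p q hp hq =>
        rw [map_add, map_add, TensorProduct.add_tmul]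
        exact PvC_good_add hp hq

end good

private theorem PvC_univ (M N : ℕ) : ∃ (U : Type) (_ : CommRing U) (X : U)
    (t : Matrix (Fin M) (Fin M) U) (g : Polynomial (MvPolynomial (Fin M × Fin M) ℤ) →+* U),
    X ^ (N + 1) = 0 ∧ Function.Surjective g ∧ g Polynomial.X = X ∧
    (∀ e, g (Polynomial.C (MvPolynomial.X e)) = t e.1 e.2) ∧
    ∀ (C : Type) [CommRing C] (τ : C) (_ : τ ^ (N + 1) = 0) (s : Matrix (Fin M) (Fin M) C),
      ∃ f : U →+* C, f X = τ ∧ t.map f = s := by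
  let I : Ideal (Polynomial (MvPolynomial (Fin M × Fin M) ℤ)) :=
    Ideal.span {(Polynomial.X : Polynomial (MvPolynomial (Fin M × Fin M) ℤ)) ^ (N + 1)}
  refine ⟨_ ⧸ I, inferInstance, Ideal.Quotient.mk I Polynomial.X,
    Matrix.of fun i j => Ideal.Quotient.mk I (Polynomial.C (MvPolynomial.X (i, j))),
    Ideal.Quotient.mk I, ?_, Ideal.Quotient.mk_surjective, rfl, fun e => rfl, ?_⟩
  · rw [← map_pow, Ideal.Quotient.eq_zero_iff_mem]
    exact Ideal.subset_span rfl
  · intro C _ τ hτ s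
    refine ⟨Ideal.Quotient.lift I (Polynomial.eval₂RingHom
      (MvPolynomial.eval₂Hom (Int.castRingHom C) (fun e => s e.1 e.2)) τ) ?_, ?_, ?_⟩
    · intro a ha
      rw [Ideal.mem_span_singleton] at ha
      obtain ⟨b, rfl⟩ := ha
      rw [map_mul, map_pow]
      simp [hτ]
    · rw [Ideal.Quotient.lift_mk]
      simp
    · ext i j
      rw [Matrix.map_apply, Matrix.of_apply, Ideal.Quotient.lift_mk]
      simp

/-- the value is given by universal polynomials. -/
theorem PD.valC_univ (P : PD 𝔹 M) (N : ℕ) :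
    ∃ (S : Finset (Fin M × Fin M →₀ ℕ)) (Q : (Fin M × Fin M →₀ ℕ) → ℕ → 𝔹),
      (∀ A, A ∉ S → ∀ d, Q A d = 0) ∧
      ∀ (C : Type) [CommRing C] (τ : C) (_ : τ ^ (N + 1) = 0) (t : Matrix (Fin M) (Fin M) C),
        P.valC C (τ • t) = ∑ A ∈ S, ∑ d ∈ range (N + 1),
          (τ ^ d * A.prod fun e k => t e.1 e.2 ^ k) ⊗ₜ[ℤ] Q A d := by
  obtain ⟨U, _, X, t₀, g, hX, hg, gX, gt, hf⟩ := PvC_univ M N
  obtain ⟨S, Q, h1, h2⟩ := PvC_good_all hX g hg gX gt (P.valC U (X • t₀))
  refine ⟨S, Q, h1, ?_⟩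
  intro C _ τ hτ t
  obtain ⟨f, hf1, hf2⟩ := hf C τ hτ t
  have h3 := PvC_nat P f (τ := X) ⟨N + 1, hX⟩ t₀
  rw [hf1, hf2] at h3
  rw [← h3, h2, map_sum]
  refine Finset.sum_congr rfl fun A _ => ?_
  rw [map_sum]
  refine Finset.sum_congr rfl fun d _ => ?_
  rw [Algebra.TensorProduct.map_tmul]
  congr 1
  show f _ = _
  rw [map_mul, map_pow, hf1, Finsupp.prod, Finsupp.prod, map_prod]
  congr 1
  refine Finset.prod_congr rfl fun e _ => ?_
  rw [map_pow, ← hf2]
  rfl

private theorem PvC_chain {R : Type} [Ring R] : ∀ (k : ℕ) (K : Fin (k + 1) → R) (c : Fin k → R),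
    K (Fin.last k) = 1 → (∀ i : Fin k, K i.castSucc = c i * K i.succ) → K 0 = (List.ofFn c).prod
  | 0, K, c, h, _ => by simpa using h
  | k + 1, K, c, h, h' => by
    rw [List.ofFn_succ, List.prod_cons]
    have h1 := h' 0
    rw [Fin.castSucc_zero] at h1
    rw [h1]
    congr 1
    exact PvC_chain k (fun i => K i.succ) (fun i => c i.succ) h fun i => h' i.succ

section cyc

variable {R : Type} [Ring R] {k : ℕ} {α : Fin (k + 1) → Fin M} {e : Fin (k + 1) → R}
  {T : Matrix (Fin M) (Fin M) R}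

private theorem PvC_T_in (hα : Function.Injective α)
    (hT : ∀ i j, T i j = ∑ l, if i = α l ∧ j = α (finRotate (k + 1) l) then e l else 0)
    (l : Fin (k + 1)) (j : Fin M) : T (α l) j = if j = α (finRotate (k + 1) l) then e l else 0 := by
  rw [hT, Finset.sum_eq_single l]
  · simp
  · intro b _ hb
    rw [if_neg]
    rintro ⟨h, -⟩
    exact hb (hα h).symm
  · intro h
    exact absurd (Finset.mem_univ _) h

private theorem PvC_T_out
    (hT : ∀ i j, T i j = ∑ l, if i = α l ∧ j = α (finRotate (k + 1) l) then e l else 0)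
    {i : Fin M} (hi : ∀ l, i ≠ α l) (j : Fin M) : T i j = 0 := by
  rw [hT]
  refine Finset.sum_eq_zero fun l _ => ?_
  rw [if_neg]
  rintro ⟨h, -⟩
  exact hi l h

variable (P : PD R M) {v : Fin k → ℕ}

private theorem PvC_X0 (i j : Fin M) :
    (T * P.X0) i j = T i j * (if P.bl j = 0 then 0 else P.x (P.bl j - 1)) := by
  unfold PD.X0
  rw [Matrix.mul_diagonal]

private theorem PvC_N_cast (hα : Function.Injective α) (hv : ∀ i : Fin k, P.bl (α i.succ) = v i + 1)
    (hT : ∀ i j, T i j = ∑ l, if i = α l ∧ j = α (finRotate (k + 1) l) then e l else 0)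
    (i : Fin k) (j : Fin M) :
    (T * P.X0) (α i.castSucc) j = if j = α i.succ then e i.castSucc * P.x (v i) else 0 := by
  rw [PvC_X0, PvC_T_in hα hT, finRotate_of_lt (by simp)]
  by_cases h : j = α i.succ
  · rw [if_pos h, if_pos (by rw [h]; rfl), h, hv, if_neg (by omega)]
    simp
  · rw [if_neg h, if_neg, zero_mul]
    exact h

private theorem PvC_N_last (hα : Function.Injective α) (h0 : P.bl (α 0) = 0)
    (hT : ∀ i j, T i j = ∑ l, if i = α l ∧ j = α (finRotate (k + 1) l) then e l else 0)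
    (j : Fin M) : (T * P.X0) (α (Fin.last k)) j = 0 := by
  rw [PvC_X0, PvC_T_in hα hT, finRotate_last]
  by_cases h : j = α 0
  · rw [h, h0, if_pos rfl, if_pos rfl, mul_zero]
  · rw [if_neg h, zero_mul]

private theorem PvC_N_out
    (hT : ∀ i j, T i j = ∑ l, if i = α l ∧ j = α (finRotate (k + 1) l) then e l else 0)
    {i : Fin M} (hi : ∀ l, i ≠ α l) (j : Fin M) : (T * P.X0) i j = 0 := by
  rw [PvC_X0, PvC_T_out hT hi, zero_mul]

private theorem PvC_det (hα : Function.Injective α) (h0 : P.bl (α 0) = 0)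
    (hv : ∀ i : Fin k, P.bl (α i.succ) = v i + 1)
    (hT : ∀ i j, T i j = ∑ l, if i = α l ∧ j = α (finRotate (k + 1) l) then e l else 0) :
    bigdet (P.MM T) = 1 := by
  unfold PD.MM
  have hρ : ∀ l : Fin (k + 1), (∑ l' : Fin (k + 1), if α l' = α l then (l' : ℕ) else 0) = l := by
    intro l
    rw [Finset.sum_eq_single l]
    · simp
    · intro b _ hb
      rw [if_neg fun h => hb (hα h)]
    · intro h
      exact absurd (Finset.mem_univ _) h
  refine bigdet_acyclic _ (fun j => ∑ l' : Fin (k + 1), if α l' = j then (l' : ℕ) else 0) ?_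
  intro i j hij
  by_cases hi : ∃ l, i = α l
  · obtain ⟨l, rfl⟩ := hi
    induction l using Fin.lastCases with
    | last => exact absurd (PvC_N_last P hα h0 hT j) hij
    | cast l =>
      rw [PvC_N_cast P hα hv hT] at hij
      by_cases hj : j = α l.succ
      · subst hj
        show (∑ l' : Fin (k + 1), if α l' = α l.castSucc then (l' : ℕ) else 0) <
          ∑ l' : Fin (k + 1), if α l' = α l.succ then (l' : ℕ) else 0
        rw [hρ, hρ]
        simp
      · rw [if_neg hj] at hij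
        exact absurd rfl hij
  · push Not at hi
    exact absurd (PvC_N_out P hT hi j) hij

private theorem PvC_inv (hα : Function.Injective α) (h0 : P.bl (α 0) = 0)
    (hv : ∀ i : Fin k, P.bl (α i.succ) = v i + 1)
    (hT : ∀ i j, T i j = ∑ l, if i = α l ∧ j = α (finRotate (k + 1) l) then e l else 0)
    (hU : IsUnit (P.MM T)) :
    (Ring.inverse (P.MM T)) (α 0) (α (Fin.last k)) =
      (List.ofFn fun i : Fin k => -(e i.castSucc * P.x (v i))).prod := by
  have hK : (1 + T * P.X0) * Ring.inverse (P.MM T) = 1 := Ring.mul_inverse_cancel _ hU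
  have hK' : ∀ i j, (Ring.inverse (P.MM T)) i j +
      ∑ l, (T * P.X0) i l * (Ring.inverse (P.MM T)) l j = (1 : Matrix (Fin M) (Fin M) R) i j := by
    intro i j
    rw [← hK, add_mul, one_mul, Matrix.add_apply, Matrix.mul_apply (M := T * P.X0)]
  refine PvC_chain k (fun l => (Ring.inverse (P.MM T)) (α l) (α (Fin.last k))) _ ?_ ?_
  · have h := hK' (α (Fin.last k)) (α (Fin.last k))
    rw [Finset.sum_eq_zero, add_zero, Matrix.one_apply_eq] at h
    · exact h
    · intro l _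
      rw [PvC_N_last P hα h0 hT, zero_mul]
  · intro i
    have h := hK' (α i.castSucc) (α (Fin.last k))
    rw [Finset.sum_eq_single (α i.succ), PvC_N_cast P hα hv hT, if_pos rfl, Matrix.one_apply_ne] at h
    · show (Ring.inverse (P.MM T)) (α i.castSucc) (α (Fin.last k)) =
        -(e i.castSucc * P.x (v i)) * (Ring.inverse (P.MM T)) (α i.succ) (α (Fin.last k))
      rw [neg_mul]
      exact eq_neg_of_add_eq_zero_left h
    · intro h'
      have := hα h'
      exact absurd this (Fin.castSucc_lt_last i).ne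
    · intro l _ hl
      rw [PvC_N_cast P hα hv hT, if_neg hl, zero_mul]
    · intro h'
      exact absurd (Finset.mem_univ _) h'

private theorem PvC_hval (hα : Function.Injective α) (h0 : P.bl (α 0) = 0)
    (hv : ∀ i : Fin k, P.bl (α i.succ) = v i + 1)
    (hT : ∀ i j, T i j = ∑ l, if i = α l ∧ j = α (finRotate (k + 1) l) then e l else 0)
    (hU : IsUnit (P.MM T)) :
    P.hval T = (List.ofFn fun i : Fin k => -(e i.castSucc * P.x (v i))).prod *
      e (Fin.last k) := by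
  rw [← PvC_inv P hα h0 hv hT hU]
  unfold PD.hval
  have key : ∀ i j, P.bl i = 0 → T j i ≠ 0 → i = α 0 ∧ j = α (Fin.last k) := by
    intro i j hi hji
    by_cases hj : ∃ l, j = α l
    · obtain ⟨l, rfl⟩ := hj
      rw [PvC_T_in hα hT] at hji
      by_cases h : i = α (finRotate (k + 1) l)
      · induction l using Fin.lastCases with
        | last =>
          rw [finRotate_last] at h
          exact ⟨h, rfl⟩
        | cast l =>
          exfalso
          rw [finRotate_of_lt (by simp)] at h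
          have h2 : i = α l.succ := h
          rw [h2, hv] at hi
          omega
      · rw [if_neg h] at hji
        exact absurd rfl hji
    · push Not at hj
      exact absurd (PvC_T_out hT hj i) hji
  rw [Finset.sum_eq_single (α 0), Finset.sum_eq_single (α (Fin.last k)), if_pos h0,
    PvC_T_in hα hT, finRotate_last, if_pos rfl]
  · intro j _ hj
    rw [if_pos h0]
    by_cases hT0 : T j (α 0) = 0
    · rw [hT0, mul_zero]
    · exact absurd (key _ _ h0 hT0).2 hj
  · intro h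
    exact absurd (Finset.mem_univ _) h
  · intro i _ hi
    refine Finset.sum_eq_zero fun j _ => ?_
    by_cases hb : P.bl i = 0
    · rw [if_pos hb]
      by_cases hT0 : T j i = 0
      · rw [hT0, mul_zero]
      · exact absurd (key _ _ hb hT0).1 hi
    · rw [if_neg hb]
  · intro h
    exact absurd (Finset.mem_univ _) h

end cyc

private theorem PvC_tprod {C : Type} [CommRing C] : ∀ (k : ℕ) (c : Fin k → C) (y : Fin k → 𝔹),
    (List.ofFn fun i => -((c i ⊗ₜ[ℤ] (1 : 𝔹)) * ((1 : C) ⊗ₜ[ℤ] y i))).prod =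
      (∏ i, c i) ⊗ₜ[ℤ] (((-1 : ℤ) ^ k) • (List.ofFn y).prod)
  | 0, c, y => by simp [Algebra.TensorProduct.one_def]
  | k + 1, c, y => by
    rw [List.ofFn_succ, List.prod_cons, PvC_tprod k (fun i => c i.succ) (fun i => y i.succ),
      List.ofFn_succ, List.prod_cons, Fin.prod_univ_succ]
    rw [Algebra.TensorProduct.tmul_mul_tmul, mul_one, one_mul, ← TensorProduct.tmul_neg,
      Algebra.TensorProduct.tmul_mul_tmul]
    congr 1
    rw [pow_succ, mul_smul, neg_one_smul, mul_smul_comm, neg_mul, smul_neg]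

/-- the value of a matrix supported on a cycle. -/
theorem PD.valC_cycle (P : PD 𝔹 M) (C : Type) [CommRing C] (τ : C) (hτ : IsNilpotent τ) (k : ℕ)
    (α : Fin (k + 1) → Fin M) (hα : Function.Injective α) (h0 : P.bl (α 0) = 0) (v : Fin k → ℕ)
    (hv : ∀ i : Fin k, P.bl (α i.succ) = v i + 1) (ε : Fin (k + 1) → C) :
    P.valC C (τ • Matrix.of fun i j => ∑ l, if i = α l ∧ j = α (finRotate (k + 1) l) then ε l else 0) =
      (τ ^ (k + 1) * ∏ l, ε l) ⊗ₜ[ℤ] (((-1 : ℤ) ^ k) • ((List.ofFn fun i => P.x (v i)).prod *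
        P.u * G2 P.m P.w P.π P.a P.b)) := by
  have hT : ∀ i j, ((τ • Matrix.of fun i j => ∑ l, if i = α l ∧ j = α (finRotate (k + 1) l) then
      ε l else 0).map fun c => c ⊗ₜ[ℤ] (1 : 𝔹)) i j =
      ∑ l, if i = α l ∧ j = α (finRotate (k + 1) l) then (τ * ε l) ⊗ₜ[ℤ] (1 : 𝔹) else 0 := by
    intro i j
    rw [Matrix.map_apply, Matrix.smul_apply, Matrix.of_apply, smul_eq_mul, Finset.mul_sum,
      TensorProduct.sum_tmul]
    refine Finset.sum_congr rfl fun l _ => ?_
    split_ifs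
    · rfl
    · rw [mul_zero, TensorProduct.zero_tmul]
  have hU := In1.isUnit (PvC_nn_idl (PvC_cen (𝔹 := 𝔹) C τ))
    (PvC_nn_unit (PvC_cen C τ) (PvC_nil C hτ)) (PvC_In1 P C τ
      (Matrix.of fun i j => ∑ l, if i = α l ∧ j = α (finRotate (k + 1) l) then ε l else 0))
  unfold PD.valC PD.val
  rw [PvC_hval (P.map fun y => (1 : C) ⊗ₜ[ℤ] y) (v := v) hα h0 hv hT hU,
    PvC_det (P.map fun y => (1 : C) ⊗ₜ[ℤ] y) (v := v) hα h0 hv hT]
  have hG : G2 (P.map fun y => (1 : C) ⊗ₜ[ℤ] y).m (P.map fun y => (1 : C) ⊗ₜ[ℤ] y).w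
      (P.map fun y => (1 : C) ⊗ₜ[ℤ] y).π
      (fun i => 1 * (P.map fun y => (1 : C) ⊗ₜ[ℤ] y).a i) (P.map fun y => (1 : C) ⊗ₜ[ℤ] y).b =
      (1 : C) ⊗ₜ[ℤ] G2 P.m P.w P.π P.a P.b := by
    have h := PvC_G2_map ((Algebra.TensorProduct.includeRight : 𝔹 →ₐ[ℤ] C ⊗[ℤ] 𝔹) : 𝔹 →+* C ⊗[ℤ] 𝔹)
      P.m P.w P.π P.a P.b
    simp only [one_mul]
    exact h.symm
  rw [hG]
  have hP := PvC_tprod k (fun i => τ * ε i.castSucc) (fun i => P.x (v i))
  have hP' : (List.ofFn fun i : Fin k => -(((τ * ε i.castSucc) ⊗ₜ[ℤ] (1 : 𝔹)) *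
      (P.map fun y => (1 : C) ⊗ₜ[ℤ] y).x (v i))).prod =
      (∏ i : Fin k, τ * ε i.castSucc) ⊗ₜ[ℤ] (((-1 : ℤ) ^ k) • (List.ofFn fun i => P.x (v i)).prod) := hP
  rw [hP']
  have hu : (P.map fun y => (1 : C) ⊗ₜ[ℤ] y).u = (1 : C) ⊗ₜ[ℤ] P.u := rfl
  rw [hu, Algebra.TensorProduct.tmul_mul_tmul, Algebra.TensorProduct.tmul_mul_tmul,
    Algebra.TensorProduct.tmul_mul_tmul]
  congr 1
  · rw [Finset.prod_mul_distrib, Finset.prod_const, Finset.card_univ, Fintype.card_fin,
      Fin.prod_univ_castSucc]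
    ring
  · rw [mul_one, smul_mul_assoc, smul_mul_assoc]

end H34.Kem
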