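import Pool.Agent.H34.Kem.NT

/-!
The element attached to a matrix identity.
-/

namespace H34.Kem

open Finset Equiv

/-- the injective word permuted by `s`. -/
def als {k M : ℕ} (α : Fin (k + 1) → Fin (M + 1)) (s : Perm (Fin k)) : Fin (k + 1) → Fin (M + 1) :=
  Fin.cons (α 0) (fun i => α (s i).succ)

/-- the element attached to coefficients. -/
noncomputable def zz {k M : ℕ} (c : Perm (Fin k) → ℤ) (α : Fin (k + 1) → Fin (M + 1)) :
    Matrix (Wd (M + 1) (k + 1)) (Wd (M + 1) (k + 1)) ℤ :=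
  ∑ s, c s • orb ℤ (als α s) (als α s ∘ finRotate (k + 1))

/-- linearisation of a multihomogeneous identity. -/
theorem linearise {A : Type} [Ring A] (k : ℕ) (c : Perm (Fin k) → ℤ) (v : Fin k → ℕ)
    (hid : ∀ X : ℕ → A, ∑ s, c s • (List.ofFn fun i => X (v (s i))).prod = 0)
    (y : Fin k → A) :
    ∑ g : Perm (Fin k), ∑ s : Perm (Fin k), (if v ∘ g = v then c s else 0) •
      (List.ofFn fun i => y (g (s i))).prod = 0 := by
  sorry

theorem rat (k M m : ℕ) (c : Perm (Fin k) → ℤ) (v : Fin k → ℕ)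
    (hid : ∀ X : ℕ → Matrix (Fin m) (Fin m) ℤ, ∑ s, c s • (List.ofFn fun i => X (v (s i))).prod = 0)
    (b : Fin (M + 1) → ℕ) (hb : Big (k + 1) b) (α : Fin (k + 1) → Fin (M + 1))
    (hα : Function.Injective α) (h0 : b (α 0) = 0) (hv : ∀ i : Fin k, b (α i.succ) = v i + 1) :
    zz c α ∈ am M (k + 1) m ⊔ cm (k + 1) b := by
  sorry

end H34.Kem
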