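import Pool.Agent.H34.Kem.Defs

/-!
Weights of alternating functions.
-/

namespace H34.Kem

open Finset Equiv

variable {M q n : ℕ}

/-- the weights are at most the weight of the diagram. -/
theorem alt_wt_le {b : Fin M → ℕ} (hb : Monotone b) {l : Fin M → ℕ} (hl : Dom b l) {r : Wd M n}
    {c : Wd q n} (hd : IsDiag l r c) (w : Wd M n) (x : Wd q n)
    (hi : Function.Injective fun p => (w p, x p))
    (h : ∃ σ : Perm (Fin n), b ∘ w = (b ∘ r) ∘ σ ∧ x = c ∘ σ) : ¬ wlt l (cnt w) := by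
  sorry

/-- the case of equality. -/
theorem alt_wt_eq {b : Fin M → ℕ} (hb : Monotone b) {l : Fin M → ℕ} (hl : Dom b l) {r : Wd M n}
    {c : Wd q n} (hd : IsDiag l r c) (w : Wd M n) (x : Wd q n)
    (hi : Function.Injective fun p => (w p, x p))
    (h : ∃ σ : Perm (Fin n), b ∘ w = (b ∘ r) ∘ σ ∧ x = c ∘ σ) (hw : cnt w = l) :
    ∃ σ : Perm (Fin n), w = r ∘ σ ∧ x = c ∘ σ := by
  sorry

/-- dominant weights have no letter at the end of a block. -/
theorem dom_last {b : Fin M → ℕ} (hb : Big n b) {l : Fin M → ℕ} (hl : Dom b l)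
    (hn : ∑ i, l i = n) (i : Fin M) : ∃ s : Fin M, b s = b i ∧ l s = 0 ∧ i ≤ s ∧
      ∀ j, b j = b i → j ≤ s := by
  sorry

/-- semistandard fillings of content `l` are trivial. -/
theorem SS_wt {b : Fin M → ℕ} (hb : Monotone b) {l : Fin M → ℕ} (hl : Dom b l) {r : Wd M n}
    {c : Wd q n} (hd : IsDiag l r c) (u : Wd M n) (hu : SS b r c u) (hw : cnt u = l) :
    u = r := by
  sorry

end H34.Kem
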