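import Pool.Agent.H34.Kem.Basic
import Pool.Agent.H34.Kem.Wts

/-!
Straightening of alternating functions.
-/

namespace H34.Kem

open Finset Equiv

variable {R : Type} [CommRing R] {M q n : ℕ}

/-- the part of the alternating functions generated by the weights above `l`. -/
def EB (R : Type) [CommRing R] (M q n : ℕ) (b : Fin M → ℕ) (δ : Fin q → ℕ) (l : Fin M → ℕ) :
    Submodule R (FW R M q n) :=
  Submodule.span R {Φ | ∃ (γ : Fin M → ℕ) (Y : Matrix (Wd M n) (Wd M n) R) (Ψ : FW R M q n),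
    wlt l γ ∧ Y ∈ LB R n b ∧ IsAlt Ψ ∧ IsCol δ Ψ ∧ Φ = Y • (xiM R n γ • Ψ)}

theorem strE {b : Fin M → ℕ} (hb : Big n b) {l : Fin M → ℕ} (hl : Dom b l) {r : Wd M n}
    {c : Wd q n} (hd : IsDiag l r c) (y : Wd q n) :
    eW R r y ∈ Submodule.span R {Φ | ∃ y', SSt b r c y' ∧ cnt y' = cnt y ∧ Φ = eW R r y'} ⊔
      EB R M q n b (cnt y) l := by
  sorry

end H34.Kem
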