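import Pool.Agent.H34.Kem.Basic
import Pool.Agent.H34.Kem.Wts

/-!
Straightening of the fillings of a diagram.
-/

namespace H34.Kem

open Finset Equiv

variable {R : Type} [CommRing R] {M q n : ℕ}

theorem strG {b : Fin M → ℕ} (hb : Big n b) {l : Fin M → ℕ} (hl : Dom b l) {r : Wd M n}
    {c : Wd q n} (hd : IsDiag l r c) (u : Wd M n) (hu : b ∘ u = b ∘ r) :
    orb R u r ∈ Submodule.span R {Z | ∃ v, SS b r c v ∧ Z = orb R v r} ⊔ JB R n b l := by
  sorry

end H34.Kem
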