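import Pool.Agent.H34.Kem.KemDefs

namespace H34.Kem

open Finset Equiv

variable {r : ℕ}

private theorem tabA_act_act (τ : Tb r) (σ ρ : Perm (Fin (r * r))) :
    (τ.act σ).act ρ = τ.act (σ * ρ) := by
  apply Subtype.ext
  funext q
  rfl

private theorem tabA_act_one (τ : Tb r) : τ.act 1 = τ := by
  apply Subtype.ext
  funext q
  rfl

private theorem tabA_gar_aux {τ τ' : Tb r} {Z : Finset (Fin (r * r))} {i j : Fin r}
    {a b : Fin (r * r)} (ha : a ∈ Z) (hb : b ∈ Z)
    (h : (∀ q ∉ Z, τ'.1 q = τ.1 q) ∧ (∀ q ∈ Z, τ'.1 q = i ∨ τ'.1 q = j)) :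
    (∀ q ∉ Z, (τ'.act (swap a b)).1 q = τ.1 q) ∧
      (∀ q ∈ Z, (τ'.act (swap a b)).1 q = i ∨ (τ'.act (swap a b)).1 q = j) := by
  constructor
  · intro q hq
    have h1 : q ≠ a := fun e => hq (e ▸ ha)
    have h2 : q ≠ b := fun e => hq (e ▸ hb)
    show τ'.1 (swap a b q) = τ.1 q
    rw [swap_apply_of_ne_of_ne h1 h2]
    exact h.1 q hq
  · intro q hq
    show τ'.1 (swap a b q) = i ∨ τ'.1 (swap a b q) = j
    apply h.2
    by_cases h1 : q = a
    · subst h1; rw [swap_apply_left]; exact hb
    by_cases h2 : q = b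
    · subst h2; rw [swap_apply_right]; exact ha
    · rw [swap_apply_of_ne_of_ne h1 h2]; exact hq

private theorem tabA_swap_swap (τ : Tb r) (a b : Fin (r * r)) :
    (τ.act (swap a b)).act (swap a b) = τ := by
  rw [tabA_act_act, Equiv.swap_mul_self, tabA_act_one]

private theorem tabA_gar_swap (τ τ' : Tb r) {Z : Finset (Fin (r * r))} (i j : Fin r)
    {a b : Fin (r * r)} (ha : a ∈ Z) (hb : b ∈ Z) :
    gar τ Z i j (τ'.act (swap a b)) = gar τ Z i j τ' := by
  unfold gar
  by_cases h : (∀ q ∉ Z, τ'.1 q = τ.1 q) ∧ (∀ q ∈ Z, τ'.1 q = i ∨ τ'.1 q = j)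
  · rw [if_pos h, if_pos (tabA_gar_aux ha hb h)]
  · rw [if_neg h, if_neg]
    intro h'
    apply h
    have := tabA_gar_aux ha hb h'
    rwa [tabA_swap_swap] at this

private theorem tabA_poly_swap (g : Fin r × Fin r ≃ Fin (r * r)) (τ' : Tb r) (i₁ i₂ j₀ : Fin r)
    (hi : i₁ ≠ i₂) :
    poly g (τ'.act (swap (g (i₁, j₀)) (g (i₂, j₀)))) = - poly g τ' := by
  unfold poly
  rw [← Finset.mul_prod_erase univ _ (Finset.mem_univ j₀),
    ← Finset.mul_prod_erase univ (fun j => Matrix.det
      (fun i k : Fin r => if τ'.1 (g (i, j)) = k then (1 : ℤ) else 0)) (Finset.mem_univ j₀),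
    ← neg_mul]
  congr 1
  · have h1 : (fun i k : Fin r => if (τ'.act (swap (g (i₁, j₀)) (g (i₂, j₀)))).1 (g (i, j₀)) = k
        then (1 : ℤ) else 0) =
        Matrix.submatrix (fun i k : Fin r => if τ'.1 (g (i, j₀)) = k then (1 : ℤ) else 0)
          (swap i₁ i₂) id := by
      funext i k
      show (if τ'.1 (swap (g (i₁, j₀)) (g (i₂, j₀)) (g (i, j₀))) = k then (1 : ℤ) else 0) =
        if τ'.1 (g (swap i₁ i₂ i, j₀)) = k then (1 : ℤ) else 0
      have h2 : swap (g (i₁, j₀)) (g (i₂, j₀)) (g (i, j₀)) = g (swap i₁ i₂ i, j₀) := by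
        by_cases e1 : i = i₁
        · subst e1; simp
        by_cases e2 : i = i₂
        · subst e2; simp
        rw [swap_apply_of_ne_of_ne e1 e2, swap_apply_of_ne_of_ne]
        · intro e
          have := g.injective e
          simp only [Prod.mk.injEq, and_true] at this
          exact e1 this
        · intro e
          have := g.injective e
          simp only [Prod.mk.injEq, and_true] at this
          exact e2 this
      rw [h2]
    rw [h1]
    refine (Matrix.det_permute (swap i₁ i₂) _).trans ?_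
    rw [Equiv.Perm.sign_swap hi]
    simp
  · apply Finset.prod_congr rfl
    intro j hj
    have hj' : j ≠ j₀ := Finset.ne_of_mem_erase hj
    congr 1
    funext i k
    show (if τ'.1 (swap (g (i₁, j₀)) (g (i₂, j₀)) (g (i, j))) = k then (1 : ℤ) else 0) = _
    rw [swap_apply_of_ne_of_ne]
    · intro e
      have := g.injective e
      simp only [Prod.mk.injEq] at this
      exact hj' this.2
    · intro e
      have := g.injective e
      simp only [Prod.mk.injEq] at this
      exact hj' this.2

/-- Garnir elements are orthogonal to polytabloids. -/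
theorem gar_poly {τ : Tb r} {Z : Finset (Fin (r * r))} {i j : Fin r} (h : GarOK τ Z i j)
    (g : Fin r × Fin r ≃ Fin (r * r)) : ∑ τ' : Tb r, gar τ Z i j τ' * poly g τ' = 0 := by
  obtain ⟨hij, hZ, hc⟩ := h
  obtain ⟨a, ha, b, hb, hab, he⟩ := Finset.exists_ne_map_eq_of_card_lt_of_maps_to
    (s := Z) (t := (univ : Finset (Fin r))) (f := fun q => (g.symm q).2)
    (by simpa using hc) (fun _ _ => Finset.mem_coe.2 (Finset.mem_univ _))
  obtain ⟨⟨i₁, j₀⟩, rfl⟩ := g.surjective a
  obtain ⟨⟨i₂, j₁⟩, rfl⟩ := g.surjective b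
  simp only [Equiv.symm_apply_apply] at he
  subst he
  have hi : i₁ ≠ i₂ := fun e => hab (by rw [e])
  have hinv : Function.Involutive (fun τ' : Tb r => τ'.act (swap (g (i₁, j₀)) (g (i₂, j₀)))) :=
    fun τ' => tabA_swap_swap τ' _ _
  have key : ∑ τ' : Tb r, gar τ Z i j τ' * poly g τ' =
      ∑ τ' : Tb r, -(gar τ Z i j τ' * poly g τ') := by
    rw [← Equiv.sum_comp (hinv.toPerm _)]
    apply Finset.sum_congr rfl
    intro τ' _
    show gar τ Z i j (τ'.act (swap (g (i₁, j₀)) (g (i₂, j₀)))) *
      poly g (τ'.act (swap (g (i₁, j₀)) (g (i₂, j₀)))) = _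
    rw [tabA_gar_swap τ τ' i j ha hb, tabA_poly_swap g τ' i₁ i₂ j₀ hi]
    ring
  rw [Finset.sum_neg_distrib] at key
  omega

private theorem tabA_dvd_choose {p s : ℕ} (hp : p.Prime) {m b : ℕ} (hb : b < p ^ s) (hm : m < b) :
    p ∣ (p ^ s + m).choose b := by
  rw [Nat.add_choose_eq]
  apply Finset.dvd_sum
  intro x hx
  rw [Finset.HasAntidiagonal.mem_antidiagonal] at hx
  by_cases h0 : x.1 = 0
  · have : x.2 = b := by omega
    rw [this, Nat.choose_eq_zero_of_lt hm]
    simp
  · exact Dvd.dvd.mul_right (hp.dvd_choose_pow h0 (by omega)) _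

open Classical in
/-- the support of a Garnir element is in bijection with the subsets of `Z` of the right size. -/
private theorem tabA_gar_card {τ : Tb r} {Z : Finset (Fin (r * r))} {i j : Fin r}
    (hij : i ≠ j) (hZ : ∀ q ∈ Z, τ.1 q = i ∨ τ.1 q = j) :
    (univ.filter fun τ' : Tb r => (∀ q ∉ Z, τ'.1 q = τ.1 q) ∧
      (∀ q ∈ Z, τ'.1 q = i ∨ τ'.1 q = j)).card =
      Z.card.choose (Z.filter fun q => τ.1 q = j).card := by
  rw [← Finset.card_powersetCard]
  refine Finset.card_bij' (fun τ' _ => Z.filter fun q => τ'.1 q = j)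
    (fun W hW => ⟨fun q => if q ∈ Z then (if q ∈ W then j else i) else τ.1 q, ?_⟩) ?_ ?_ ?_ ?_
  · -- the redistribution is a tabloid
    intro k
    rw [Finset.mem_powersetCard] at hW
    obtain ⟨hWZ, hWc⟩ := hW
    have hsplit : ∀ f : Fin (r * r) → Fin r,
        (univ.filter fun q => f q = k).card = (Z.filter fun q => f q = k).card +
          (Zᶜ.filter fun q => f q = k).card := by
      intro f
      rw [← Finset.card_union_of_disjoint]
      · congr 1
        ext q
        simp only [Finset.mem_filter, Finset.mem_univ, true_and, Finset.mem_union,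
          Finset.mem_compl]
        tauto
      · rw [Finset.disjoint_left]
        intro q hq hq'
        simp only [Finset.mem_filter, Finset.mem_compl] at hq hq'
        exact hq'.1 hq.1
    have h1 := τ.2 k
    rw [hsplit] at h1 ⊢
    have h2 : (Zᶜ.filter fun q => (if q ∈ Z then (if q ∈ W then j else i) else τ.1 q) = k) =
        (Zᶜ.filter fun q => τ.1 q = k) := by
      apply Finset.filter_congr
      intro q hq
      rw [Finset.mem_compl] at hq
      rw [if_neg hq]
    have h3 : (Z.filter fun q => (if q ∈ Z then (if q ∈ W then j else i) else τ.1 q) = k).card =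
        (Z.filter fun q => τ.1 q = k).card := by
      by_cases hkj : k = j
      · subst hkj
        rw [← hWc]
        congr 1
        ext q
        simp only [Finset.mem_filter]
        constructor
        · rintro ⟨hq, hq'⟩
          rw [if_pos hq] at hq'
          by_contra hn
          rw [if_neg hn] at hq'
          exact hij hq'
        · intro hq
          exact ⟨hWZ hq, by rw [if_pos (hWZ hq), if_pos hq]⟩
      by_cases hki : k = i
      · subst hki
        have e1 : (Z.filter fun q => (if q ∈ Z then (if q ∈ W then j else k) else τ.1 q) = k) =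
            Z \ W := by
          ext q
          simp only [Finset.mem_filter, Finset.mem_sdiff]
          constructor
          · rintro ⟨hq, hq'⟩
            refine ⟨hq, fun hn => ?_⟩
            rw [if_pos hq, if_pos hn] at hq'
            exact hij hq'.symm
          · rintro ⟨hq, hq'⟩
            exact ⟨hq, by rw [if_pos hq, if_neg hq']⟩
        have e2 : (Z.filter fun q => τ.1 q = k) = Z \ (Z.filter fun q => τ.1 q = j) := by
          ext q
          simp only [Finset.mem_filter, Finset.mem_sdiff, not_and]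
          constructor
          · rintro ⟨hq, hq'⟩
            exact ⟨hq, fun _ e => hij (hq'.symm.trans e)⟩
          · rintro ⟨hq, hq'⟩
            exact ⟨hq, (hZ q hq).resolve_right (hq' hq)⟩
        rw [e1, e2, Finset.card_sdiff_of_subset hWZ,
          Finset.card_sdiff_of_subset (Finset.filter_subset _ _), hWc]
      · have e1 : (Z.filter fun q => (if q ∈ Z then (if q ∈ W then j else i) else τ.1 q) = k) =
            ∅ := by
          apply Finset.filter_eq_empty_iff.2
          intro q hq
          rw [if_pos hq]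
          split_ifs
          · exact fun e => hkj e.symm
          · exact fun e => hki e.symm
        have e2 : (Z.filter fun q => τ.1 q = k) = ∅ := by
          apply Finset.filter_eq_empty_iff.2
          intro q hq e
          rcases hZ q hq with h | h
          · exact hki (e.symm.trans h)
          · exact hkj (e.symm.trans h)
        rw [e1, e2]
    rw [h2, h3]
    exact h1
  · -- maps to
    intro τ' hτ'
    simp only [Finset.mem_filter, Finset.mem_univ, true_and] at hτ'
    rw [Finset.mem_powersetCard]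
    refine ⟨Finset.filter_subset _ _, ?_⟩
    have hsplit : ∀ f : Fin (r * r) → Fin r,
        (univ.filter fun q => f q = j).card = (Z.filter fun q => f q = j).card +
          (Zᶜ.filter fun q => f q = j).card := by
      intro f
      rw [← Finset.card_union_of_disjoint]
      · congr 1
        ext q
        simp only [Finset.mem_filter, Finset.mem_univ, true_and, Finset.mem_union,
          Finset.mem_compl]
        tauto
      · rw [Finset.disjoint_left]
        intro q hq hq'
        simp only [Finset.mem_filter, Finset.mem_compl] at hq hq'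
        exact hq'.1 hq.1
    have h1 := τ.2 j
    have h2 := τ'.2 j
    rw [hsplit] at h1 h2
    have h3 : (Zᶜ.filter fun q => τ'.1 q = j) = (Zᶜ.filter fun q => τ.1 q = j) := by
      apply Finset.filter_congr
      intro q hq
      rw [Finset.mem_compl] at hq
      rw [hτ'.1 q hq]
    rw [h3] at h2
    omega
  · -- maps back
    intro W hW
    simp only [Finset.mem_filter, Finset.mem_univ, true_and]
    constructor
    · intro q hq
      rw [if_neg hq]
    · intro q hq
      rw [if_pos hq]
      split_ifs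
      · exact Or.inr rfl
      · exact Or.inl rfl
  · intro τ' hτ'
    simp only [Finset.mem_filter, Finset.mem_univ, true_and] at hτ'
    apply Subtype.ext
    funext q
    show (if q ∈ Z then (if q ∈ Z.filter fun q => τ'.1 q = j then j else i) else τ.1 q) = τ'.1 q
    by_cases hq : q ∈ Z
    · rw [if_pos hq]
      by_cases hj : τ'.1 q = j
      · rw [if_pos (Finset.mem_filter.2 ⟨hq, hj⟩), hj]
      · have hn : ¬ (q ∈ Z.filter fun q => τ'.1 q = j) := fun h => hj (Finset.mem_filter.1 h).2
        rw [if_neg hn]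
        exact ((hτ'.2 q hq).resolve_right hj).symm
    · rw [if_neg hq, hτ'.1 q hq]
  · intro W hW
    rw [Finset.mem_powersetCard] at hW
    ext q
    simp only [Finset.mem_filter]
    constructor
    · rintro ⟨hq, hq'⟩
      rw [if_pos hq] at hq'
      by_contra hn
      rw [if_neg hn] at hq'
      exact hij hq'
    · intro hq
      exact ⟨hW.1 hq, by rw [if_pos (hW.1 hq), if_pos hq]⟩

/-- Augmentation of Garnir elements. -/
theorem gar_aug {τ : Tb r} {Z : Finset (Fin (r * r))} {i j : Fin r} (h : GarOK τ Z i j)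
    (p s : ℕ) [Fact p.Prime] (hr : r + 1 = p ^ s) : (p : ℤ) ∣ ∑ τ' : Tb r, gar τ Z i j τ' := by
  classical
  obtain ⟨hij, hZ, hc⟩ := h
  have h1 : ∑ τ' : Tb r, gar τ Z i j τ' = ((univ.filter fun τ' : Tb r =>
      (∀ q ∉ Z, τ'.1 q = τ.1 q) ∧ (∀ q ∈ Z, τ'.1 q = i ∨ τ'.1 q = j)).card : ℤ) := by
    rw [Finset.card_filter]
    push_cast
    apply Finset.sum_congr rfl
    intro τ' _
    unfold gar
    congr
  rw [h1, tabA_gar_card hij hZ, Int.natCast_dvd_natCast]
  have hj : (Z.filter fun q => τ.1 q = j).card ≤ r :=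
    (Finset.card_le_card (Finset.filter_subset_filter _ (Finset.subset_univ _))).trans_eq (τ.2 j)
  have hi : (Z.filter fun q => τ.1 q = i).card ≤ r :=
    (Finset.card_le_card (Finset.filter_subset_filter _ (Finset.subset_univ _))).trans_eq (τ.2 i)
  have hs : Z.card = (Z.filter fun q => τ.1 q = i).card + (Z.filter fun q => τ.1 q = j).card := by
    rw [← Finset.card_union_of_disjoint]
    · congr 1
      ext q
      simp only [Finset.mem_union, Finset.mem_filter]
      constructor
      · intro hq
        rcases hZ q hq with h | h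
        · exact Or.inl ⟨hq, h⟩
        · exact Or.inr ⟨hq, h⟩
      · rintro (h | h)
        · exact h.1
        · exact h.1
    · rw [Finset.disjoint_left]
      intro q hq hq'
      rw [Finset.mem_filter] at hq hq'
      exact hij (hq.2.symm.trans hq'.2)
  have hZc : Z.card = p ^ s + (Z.card - p ^ s) := by omega
  rw [hZc]
  exact tabA_dvd_choose (Fact.out : p.Prime) (by omega) (by omega)

/-- a column preserving permutation. -/
private def tabA_col (g : Fin r × Fin r ≃ Fin (r * r)) (P : Fin r → Perm (Fin r)) :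
    Perm (Fin (r * r)) :=
  (g.symm.trans
    { toFun := fun x => (P x.2 x.1, x.2)
      invFun := fun x => ((P x.2).symm x.1, x.2)
      left_inv := fun x => by simp
      right_inv := fun x => by simp }).trans g

private theorem tabA_col_apply (g : Fin r × Fin r ≃ Fin (r * r)) (P : Fin r → Perm (Fin r))
    (i j : Fin r) : tabA_col g P (g (i, j)) = g (P j i, j) := by
  simp [tabA_col]

private theorem tabA_det_aux (M N : Matrix (Fin r) (Fin r) ℤ) :
    (∑ π : Perm (Fin r), ((Perm.sign π : ℤˣ) : ℤ) * ∏ i, ∑ k, M (π i) k * N i k) =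
    Matrix.det M * Matrix.det N := by
  rw [← Matrix.det_transpose N, ← Matrix.det_mul, Matrix.det_apply']
  simp only [Matrix.mul_apply, Matrix.transpose_apply, Int.cast_id]

private theorem tabA_det (g : Fin r × Fin r ≃ Fin (r * r)) (τ τ' : Tb r) (j : Fin r) :
    (∑ π : Perm (Fin r), ((Perm.sign π : ℤˣ) : ℤ) *
      ∏ i, (if τ.1 (g (π i, j)) = τ'.1 (g (i, j)) then (1 : ℤ) else 0)) =
    Matrix.det (fun i k : Fin r => if τ.1 (g (i, j)) = k then (1 : ℤ) else 0) *
      Matrix.det (fun i k : Fin r => if τ'.1 (g (i, j)) = k then (1 : ℤ) else 0) := by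
  refine Eq.trans ?_ (tabA_det_aux
    (fun i k : Fin r => if τ.1 (g (i, j)) = k then (1 : ℤ) else 0)
    (fun i k : Fin r => if τ'.1 (g (i, j)) = k then (1 : ℤ) else 0))
  apply Finset.sum_congr rfl
  intro π _
  congr 1
  apply Finset.prod_congr rfl
  intro i _
  simp only [mul_ite, mul_one, mul_zero]
  rw [Finset.sum_ite_eq]
  simp

/-- The alternating column sum acts on functions with rank one. -/
theorem kappa (g : Fin r × Fin r ≃ Fin (r * r)) :
    ∃ a : Perm (Fin (r * r)) → ℤ, ∀ (φ : Tb r → ℤ) (τ : Tb r),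
      ∑ σ, a σ * φ (τ.act σ) = (∑ τ', φ τ' * poly g τ') * poly g τ := by
  refine ⟨fun σ => ∑ P : Fin r → Perm (Fin r), if tabA_col g P = σ then
    ∏ j, ((Perm.sign (P j) : ℤˣ) : ℤ) else 0, ?_⟩
  intro φ τ
  have h1 : ∑ σ, (∑ P : Fin r → Perm (Fin r), if tabA_col g P = σ then
      ∏ j, ((Perm.sign (P j) : ℤˣ) : ℤ) else 0) * φ (τ.act σ) =
      ∑ P : Fin r → Perm (Fin r), (∏ j, ((Perm.sign (P j) : ℤˣ) : ℤ)) *
        φ (τ.act (tabA_col g P)) := by
    simp only [Finset.sum_mul]
    rw [Finset.sum_comm]
    apply Finset.sum_congr rfl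
    intro P _
    simp only [ite_mul, zero_mul]
    rw [Finset.sum_ite_eq]
    simp
  rw [h1]
  have h2 : ∀ P : Fin r → Perm (Fin r), φ (τ.act (tabA_col g P)) =
      ∑ τ' : Tb r, φ τ' * ∏ j, ∏ i,
        (if τ.1 (g (P j i, j)) = τ'.1 (g (i, j)) then (1 : ℤ) else 0) := by
    intro P
    have h3 : ∀ τ' : Tb r, (∏ j, ∏ i,
        (if τ.1 (g (P j i, j)) = τ'.1 (g (i, j)) then (1 : ℤ) else 0)) =
        if τ.act (tabA_col g P) = τ' then 1 else 0 := by
      intro τ'
      split_ifs with he
      · apply Finset.prod_eq_one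
        intro j _
        apply Finset.prod_eq_one
        intro i _
        rw [if_pos]
        rw [← he]
        show _ = τ.1 (tabA_col g P (g (i, j)))
        rw [tabA_col_apply]
      · by_contra hne
        apply he
        apply Subtype.ext
        funext q
        obtain ⟨⟨i, j⟩, rfl⟩ := g.surjective q
        show τ.1 (tabA_col g P (g (i, j))) = τ'.1 (g (i, j))
        rw [tabA_col_apply]
        by_contra hn
        apply hne
        apply Finset.prod_eq_zero (Finset.mem_univ j)
        apply Finset.prod_eq_zero (Finset.mem_univ i)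
        rw [if_neg hn]
    simp only [h3, mul_ite, mul_one, mul_zero]
    rw [Finset.sum_ite_eq]
    simp
  simp only [h2, Finset.mul_sum]
  rw [Finset.sum_comm, Finset.sum_mul]
  apply Finset.sum_congr rfl
  intro τ' _
  have h4 : ∀ P : Fin r → Perm (Fin r), (∏ j, ((Perm.sign (P j) : ℤˣ) : ℤ)) * (φ τ' * ∏ j, ∏ i,
        (if τ.1 (g (P j i, j)) = τ'.1 (g (i, j)) then (1 : ℤ) else 0)) =
      φ τ' * ∏ j, (((Perm.sign (P j) : ℤˣ) : ℤ) * ∏ i,
        (if τ.1 (g (P j i, j)) = τ'.1 (g (i, j)) then (1 : ℤ) else 0)) := by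
    intro P
    rw [Finset.prod_mul_distrib]
    ring
  simp only [h4]
  rw [← Finset.mul_sum, mul_assoc]
  congr 1
  unfold poly
  rw [← Finset.prod_mul_distrib]
  have h5 := Finset.prod_univ_sum (fun _ : Fin r => (univ : Finset (Perm (Fin r))))
    (fun j π => ((Perm.sign π : ℤˣ) : ℤ) * ∏ i,
        (if τ.1 (g (π i, j)) = τ'.1 (g (i, j)) then (1 : ℤ) else 0))
  rw [Fintype.piFinset_univ] at h5
  rw [← h5]
  apply Finset.prod_congr rfl
  intro j _
  rw [tabA_det, mul_comm]

end H34.Kem
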