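import Pool.Agent.H34.Kem.ThetaA

/-!
The functional Theta: construction, conjugation and degree.
-/

namespace H34.Kem

open Finset Equiv
open scoped TensorProduct

variable {𝔹 : Type} [Ring 𝔹] {B : AddSubgroup 𝔹} {M : ℕ}

theorem th_univ (P : PD 𝔹 (M + 1)) (n : ℕ) :
    ∃ Θ : Matrix (Wd (M + 1) n) (Wd (M + 1) n) ℤ →+ 𝔹,
      ∀ (C : Type) [CommRing C] (τ : C) (_ : τ ^ (2 * n + 1) = 0)
        (t : Matrix (Fin (M + 1)) (Fin (M + 1)) C) (L : C →+ ℤ)
        (X : Matrix (Wd (M + 1) n) (Wd (M + 1) n) ℤ),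
        (∀ (l d : ℕ) (p : ℕ → Fin (M + 1) × Fin (M + 1)),
          L (τ ^ d * ∏ i : Fin l, t (p i).1 (p i).2) =
            if l = n ∧ d = n then X (fun i => (p i).1) (fun i => (p i).2) else 0) →
        thLam L (P.valC C (τ • t)) = Θ X := by
  classical
  obtain ⟨S, Q, hS, hQ⟩ := P.valC_univ (2 * n)
  choose l p hp using fun A : Fin (M + 1) × Fin (M + 1) →₀ ℕ => th_words A
  refine ⟨{ toFun := fun X => ∑ A ∈ S,
              (if l A = n then X (fun i => (p A i).1) (fun i => (p A i).2) else 0) • Q A n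
            map_zero' := ?_
            map_add' := ?_ }, ?_⟩
  · refine Finset.sum_eq_zero fun A _ => ?_
    simp
  · intro X Y
    rw [← Finset.sum_add_distrib]
    refine Finset.sum_congr rfl fun A _ => ?_
    rw [← add_smul]
    split_ifs <;> simp [Matrix.add_apply]
  · intro C _ τ hτ t L X hX
    rw [hQ C τ hτ t, map_sum]
    refine Finset.sum_congr rfl fun A _ => ?_
    rw [map_sum]
    have h1 : ∀ d, thLam L ((τ ^ d * A.prod fun e k => t e.1 e.2 ^ k) ⊗ₜ[ℤ] Q A d) =
        (if l A = n ∧ d = n then X (fun i => (p A i).1) (fun i => (p A i).2) else 0) • Q A d := by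
      intro d
      rw [thLam_tmul, hp A C (fun e => t e.1 e.2), hX]
    simp_rw [h1]
    rw [Finset.sum_eq_single n]
    · simp
    · intro d _ hd
      rw [if_neg (fun h => hd h.2), zero_smul]
    · intro h
      exact absurd (Finset.mem_range.2 (by omega)) h

theorem th_cen (C : Type) [CommRing C] (c : C) : Cen (c ⊗ₜ[ℤ] (1 : 𝔹)) := by
  intro y
  induction y using TensorProduct.induction_on with
  | zero => simp
  | tmul a b => simp [Algebra.TensorProduct.tmul_mul_tmul, mul_comm]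
  | add a b ha hb => rw [mul_add, add_mul, ha, hb]

/-- invariance under conjugation. -/
theorem th_conj (hB : IsIdl B) (P : PD 𝔹 M) (hC : Cap B (P.m + 1)) (hP : P.InB B)
    (C : Type) [CommRing C] (τ : C) (hτ : IsNilpotent τ) (t s : Matrix (Fin M) (Fin M) C)
    (hbl : ∀ i j, s i j ≠ 0 → P.bl i = P.bl j) :
    P.valC C (τ • (t * (1 + τ • s))) = P.valC C (τ • ((1 + τ • s) * t)) := by
  let ι : C →+* C ⊗[ℤ] 𝔹 := Algebra.TensorProduct.includeLeftRingHom
  have hι : ∀ c, ι c = c ⊗ₜ[ℤ] (1 : 𝔹) := fun c => rfl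
  have hfun : (fun c : C => c ⊗ₜ[ℤ] (1 : 𝔹)) = ι := rfl
  have e1 : (τ • (t * (1 + τ • s))).map ι = (ι τ • t.map ι) * (1 + ι τ • s.map ι) := by
    ext i j
    simp only [Matrix.map_apply, Matrix.smul_apply, Matrix.mul_apply, Matrix.add_apply,
      smul_eq_mul, map_mul, map_sum, map_add, Finset.mul_sum, mul_assoc]
    refine Finset.sum_congr rfl fun x _ => ?_
    congr 3
    simp only [Matrix.one_apply]
    split_ifs <;> simp
  have e2 : (τ • ((1 + τ • s) * t)).map ι = (1 + ι τ • s.map ι) * (ι τ • t.map ι) := by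
    ext i j
    simp only [Matrix.map_apply, Matrix.smul_apply, Matrix.mul_apply, Matrix.add_apply,
      smul_eq_mul, map_mul, map_sum, map_add, Finset.mul_sum]
    refine Finset.sum_congr rfl fun x _ => ?_
    have : ι ((1 : Matrix (Fin M) (Fin M) C) i x) = (1 : Matrix (Fin M) (Fin M) (C ⊗[ℤ] 𝔹)) i x := by
      simp only [Matrix.one_apply]
      split_ifs <;> simp
    rw [this, ← mul_assoc, ← mul_assoc]
    congr 1
    exact th_cen C τ _
  have e3 := PD.val_conj (BT_idl hB C) (P.map fun y => (1 : C) ⊗ₜ[ℤ] y) (BT_cap hB C _ hC)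
    (by
      refine ⟨fun i => ?_, fun i => ?_, ?_, fun i => ?_⟩
      · exact AddSubgroup.subset_closure ⟨1, P.a i, hP.ha i, rfl⟩
      · exact AddSubgroup.subset_closure ⟨1, P.b i, hP.hb i, rfl⟩
      · exact AddSubgroup.subset_closure ⟨1, P.u, hP.hu, rfl⟩
      · exact AddSubgroup.subset_closure ⟨1, P.x i, hP.hx i, rfl⟩)
    (ι τ) (th_cen C τ) (hτ.map ι) (t.map ι) (s.map ι) (fun i j => th_cen C _)
    (fun i j => th_cen C _) (by
      intro i j h
      refine hbl i j fun h0 => h ?_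
      rw [Matrix.map_apply, h0, map_zero])
  unfold PD.valC
  rw [hfun, e1, e2]
  exact e3

section weights

/-- the degree in the first family. -/
noncomputable def thD1 (E : Type) [Fintype E] : (Option (E ⊕ E) →₀ ℕ) →+ ℕ :=
  ∑ e : E, Finsupp.applyAddHom (some (Sum.inl e))

/-- the degree in the second family. -/
noncomputable def thD2 (E : Type) [Fintype E] : (Option (E ⊕ E) →₀ ℕ) →+ ℕ :=
  ∑ e : E, Finsupp.applyAddHom (some (Sum.inr e))

/-- the degree in the nilpotent variable. -/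
def thD0 (E : Type) : (Option (E ⊕ E) →₀ ℕ) →+ ℕ := Finsupp.applyAddHom none

variable {E : Type}

/-- exponent of a variable of the first family. -/
noncomputable def thmt (e : E) : Option (E ⊕ E) →₀ ℕ := Finsupp.single (some (Sum.inl e)) 1

/-- exponent of a variable of the second family. -/
noncomputable def thms (e : E) : Option (E ⊕ E) →₀ ℕ := Finsupp.single (some (Sum.inr e)) 1

/-- exponent of the nilpotent variable. -/
noncomputable def thmz (E : Type) : Option (E ⊕ E) →₀ ℕ := Finsupp.single none 1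

theorem thD0_t (e : E) : thD0 E (thmt e) = 0 := by
  simp [thD0, thmt]
theorem thD0_s (e : E) : thD0 E (thms e) = 0 := by
  simp [thD0, thms]
theorem thD0_z : thD0 E (thmz E) = 1 := by
  simp [thD0, thmz]
theorem thD1_t [Fintype E] (e : E) : thD1 E (thmt e) = 1 := by
  classical
  simp [thD1, thmt, AddMonoidHom.finsetSum_apply, Finsupp.single_apply]
theorem thD1_s [Fintype E] (e : E) : thD1 E (thms e) = 0 := by
  simp [thD1, thms, AddMonoidHom.finsetSum_apply]
theorem thD1_z [Fintype E] : thD1 E (thmz E) = 0 := by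
  simp [thD1, thmz, AddMonoidHom.finsetSum_apply]
theorem thD2_t [Fintype E] (e : E) : thD2 E (thmt e) = 0 := by
  simp [thD2, thmt, AddMonoidHom.finsetSum_apply]
theorem thD2_s [Fintype E] (e : E) : thD2 E (thms e) = 1 := by
  classical
  simp [thD2, thms, AddMonoidHom.finsetSum_apply, Finsupp.single_apply]
theorem thD2_z [Fintype E] : thD2 E (thmz E) = 0 := by
  simp [thD2, thmz, AddMonoidHom.finsetSum_apply]

/-- the exponent of a pair of pairs of words. -/
noncomputable def thtot {n : ℕ} (a a' b b' : Wd M n) :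
    Option ((Fin M × Fin M) ⊕ (Fin M × Fin M)) →₀ ℕ :=
  (2 * n) • thmz _ + ∑ i, thmt (a i, a' i) + ∑ i, thms (b i, b' i)

theorem thD0_tot {n : ℕ} (a a' b b' : Wd M n) : thD0 _ (thtot a a' b b') = 2 * n := by
  simp [thtot, thD0_t, thD0_s, thD0_z]
theorem thD1_tot {n : ℕ} (a a' b b' : Wd M n) : thD1 _ (thtot a a' b b') = n := by
  simp [thtot, thD1_t, thD1_s, thD1_z]
theorem thD2_tot {n : ℕ} (a a' b b' : Wd M n) : thD2 _ (thtot a a' b b') = n := by
  simp [thtot, thD2_t, thD2_s, thD2_z]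

theorem thtot_inj {n : ℕ} {a a' b b' c c' d d' : Wd M n}
    (h : thtot a a' b b' = thtot c c' d d') :
    (∃ σ : Perm (Fin n), c = a ∘ σ ∧ c' = a' ∘ σ) ∧
      ∃ σ : Perm (Fin n), d = b ∘ σ ∧ d' = b' ∘ σ := by
  constructor
  · obtain ⟨σ, hσ⟩ := th_perm (fun i => (a i, a' i)) (fun i => (c i, c' i)) (by
      ext e
      have := DFunLike.congr_fun h (some (Sum.inl e))
      simp only [thtot, thmz, thmt, thms, Finsupp.add_apply, Finsupp.smul_apply,
        Finsupp.finsetSum_apply, Finsupp.single_apply, Option.some.injEq, Sum.inl.injEq,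
        reduceCtorEq, if_false, Finset.sum_const_zero, smul_zero, zero_add, add_zero] at this
      simpa only [Finsupp.finsetSum_apply, Finsupp.single_apply] using this)
    exact ⟨σ, funext fun i => congrArg Prod.fst (congrFun hσ i),
      funext fun i => congrArg Prod.snd (congrFun hσ i)⟩
  · obtain ⟨σ, hσ⟩ := th_perm (fun i => (b i, b' i)) (fun i => (d i, d' i)) (by
      ext e
      have := DFunLike.congr_fun h (some (Sum.inr e))
      simp only [thtot, thmz, thmt, thms, Finsupp.add_apply, Finsupp.smul_apply,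
        Finsupp.finsetSum_apply, Finsupp.single_apply, Option.some.injEq, Sum.inr.injEq,
        reduceCtorEq, if_false, Finset.sum_const_zero, smul_zero, zero_add, add_zero] at this
      simpa only [Finsupp.finsetSum_apply, Finsupp.single_apply] using this)
    exact ⟨σ, funext fun i => congrArg Prod.fst (congrFun hσ i),
      funext fun i => congrArg Prod.snd (congrFun hσ i)⟩

open Classical in
/-- the functional attached to two invariant matrices, on exponents. -/
noncomputable def thF {n : ℕ} (X Y : Matrix (Wd M n) (Wd M n) ℤ)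
    (m : Option ((Fin M × Fin M) ⊕ (Fin M × Fin M)) →₀ ℕ) : ℤ :=
  if h : ∃ q : (Wd M n × Wd M n) × (Wd M n × Wd M n), m = thtot q.1.1 q.1.2 q.2.1 q.2.2 then
    X h.choose.1.1 h.choose.1.2 * Y h.choose.2.1 h.choose.2.2 else 0

/-- invariance under simultaneous permutations of positions. -/
def ThInv {n : ℕ} (X : Matrix (Wd M n) (Wd M n) ℤ) : Prop :=
  ∀ (σ : Perm (Fin n)) w w', X (w ∘ σ) (w' ∘ σ) = X w w'

theorem thF_tot {n : ℕ} {X Y : Matrix (Wd M n) (Wd M n) ℤ} (hX : ThInv X) (hY : ThInv Y)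
    (a a' b b' : Wd M n) : thF X Y (thtot a a' b b') = X a a' * Y b b' := by
  have h : ∃ q : (Wd M n × Wd M n) × (Wd M n × Wd M n),
      thtot a a' b b' = thtot q.1.1 q.1.2 q.2.1 q.2.2 := ⟨((a, a'), (b, b')), rfl⟩
  rw [thF, dif_pos h]
  obtain ⟨⟨σ, h1, h2⟩, ⟨σ', h3, h4⟩⟩ := thtot_inj h.choose_spec
  rw [h1, h2, h3, h4, hX, hY]

theorem thF_ne {n : ℕ} (X Y : Matrix (Wd M n) (Wd M n) ℤ)
    (m : Option ((Fin M × Fin M) ⊕ (Fin M × Fin M)) →₀ ℕ) (h : thF X Y m ≠ 0) :
    thD0 _ m = 2 * n ∧ thD1 _ m = n ∧ thD2 _ m = n := by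
  by_cases h0 : ∃ q : (Wd M n × Wd M n) × (Wd M n × Wd M n), m = thtot q.1.1 q.1.2 q.2.1 q.2.2
  · obtain ⟨q, rfl⟩ := h0
    exact ⟨thD0_tot _ _ _ _, thD1_tot _ _ _ _, thD2_tot _ _ _ _⟩
  · rw [thF, dif_neg h0] at h
    exact absurd rfl h

end weights

end H34.Kem
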