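import Pool.Agent.H34.Kem.Defs
import Pool.Agent.H34.Kem.PvB
import Pool.Agent.H34.Kem.PvC
import Pool.Agent.H34.Kem.ThetaB

namespace H34.Kem

open Finset Equiv
open scoped TensorProduct

variable {𝔹 : Type} [Ring 𝔹] {B : AddSubgroup 𝔹} {M : ℕ}

/-- the generic matrix of the first family. -/
noncomputable def thT (M N : ℕ) : Matrix (Fin M) (Fin M) (ThTR ((Fin M × Fin M) ⊕ (Fin M × Fin M)) N) :=
  Matrix.of fun i j => thMo _ _ (Multiplicative.ofAdd (thmt (i, j)))

/-- the generic matrix of the second family, respecting the blocks. -/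
noncomputable def thS (M N : ℕ) (bl : Fin M → ℕ) :
    Matrix (Fin M) (Fin M) (ThTR ((Fin M × Fin M) ⊕ (Fin M × Fin M)) N) :=
  Matrix.of fun i j => if bl i = bl j then thMo _ _ (Multiplicative.ofAdd (thms (i, j))) else 0

/-- the nilpotent variable. -/
noncomputable def thZ (M N : ℕ) : ThTR ((Fin M × Fin M) ⊕ (Fin M × Fin M)) N :=
  thMo _ _ (Multiplicative.ofAdd (thmz _))

theorem th_tot1 {n : ℕ} (w w' w'' : Wd M n) :
    n • thmz (Fin M × Fin M) +
      ∑ i, (thmz (Fin M × Fin M) + thmt (w i, w'' i) + thms (w'' i, w' i)) =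
      thtot w w'' w'' w' := by
  rw [thtot, Finset.sum_add_distrib, Finset.sum_add_distrib, Finset.sum_const, Finset.card_fin,
    two_mul, add_smul]
  abel

theorem th_tot2 {n : ℕ} (w w' w'' : Wd M n) :
    n • thmz (Fin M × Fin M) +
      ∑ i, (thmz (Fin M × Fin M) + thms (w i, w'' i) + thmt (w'' i, w' i)) =
      thtot w'' w' w w'' := by
  rw [thtot, Finset.sum_add_distrib, Finset.sum_add_distrib, Finset.sum_const, Finset.card_fin,
    two_mul, add_smul]
  abel

theorem th_key1 {n : ℕ} {X Y : Matrix (Wd M n) (Wd M n) ℤ} (hX : ThInv X) (hY : ThInv Y)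
    (bl : Fin M → ℕ) (hYb : ∀ w w', Y w w' ≠ 0 → bl ∘ w = bl ∘ w')
    (L : ThTR ((Fin M × Fin M) ⊕ (Fin M × Fin M)) (2 * n) →+ ℤ)
    (hL : ∀ m, L (thMo _ (2 * n) (Multiplicative.ofAdd m)) = thF X Y m)
    (l d : ℕ) (p : ℕ → Fin M × Fin M) :
    L (thZ M (2 * n) ^ d * ∏ i : Fin l,
      (thT M (2 * n) * (1 + thZ M (2 * n) • thS M (2 * n) bl)) (p i).1 (p i).2) =
      if l = n ∧ d = n then (X * Y) (fun i => (p i).1) (fun i => (p i).2) else 0 := by
  classical
  refine (th_expand (thMo _ (2 * n)) L (thF X Y) hL (thD0 _) (thD1 _) (thD2 _) n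
    (thF_ne X Y) (thmz _) thD0_z thD1_z thD2_z (fun e => thmt e)
    (fun e c => thmz _ + thmt (e.1, c) + thms (c, e.2)) (fun e c => bl c = bl e.2)
    (fun e => (thT M (2 * n) * (1 + thZ M (2 * n) • thS M (2 * n) bl)) e.1 e.2)
    ?_ ?_ ?_ ?_ ?_ ?_ ?_ l d p).trans ?_
  rotate_right
  · congr 1
    rw [Matrix.mul_apply]
    refine Finset.sum_congr rfl fun w _ => ?_
    rw [th_tot1, thF_tot hX hY]
    split_ifs with h
    · rfl
    · symm
      rw [mul_eq_zero]
      right
      by_contra hne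
      exact h fun i => congrFun (hYb _ _ hne) i
  · intro e
    rw [mul_add, mul_one, Matrix.add_apply, Matrix.mul_apply]
    congr 1
    refine Finset.sum_congr rfl fun c _ => ?_
    rw [Matrix.smul_apply, smul_eq_mul, thS, thT, Matrix.of_apply, Matrix.of_apply, thZ]
    split_ifs with h
    · rw [ofAdd_add, ofAdd_add, map_mul, map_mul]
      ring
    · ring
  · intro e; exact thD0_t _
  · intro e; exact thD1_t _
  · intro e; exact thD2_t _
  · intro e c; rw [map_add, map_add, thD0_z, thD0_t, thD0_s]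
  · intro e c; rw [map_add, map_add, thD1_z, thD1_t, thD1_s]
  · intro e c; rw [map_add, map_add, thD2_z, thD2_t, thD2_s]

theorem th_key2 {n : ℕ} {X Y : Matrix (Wd M n) (Wd M n) ℤ} (hX : ThInv X) (hY : ThInv Y)
    (bl : Fin M → ℕ) (hYb : ∀ w w', Y w w' ≠ 0 → bl ∘ w = bl ∘ w')
    (L : ThTR ((Fin M × Fin M) ⊕ (Fin M × Fin M)) (2 * n) →+ ℤ)
    (hL : ∀ m, L (thMo _ (2 * n) (Multiplicative.ofAdd m)) = thF X Y m)
    (l d : ℕ) (p : ℕ → Fin M × Fin M) :
    L (thZ M (2 * n) ^ d * ∏ i : Fin l,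
      ((1 + thZ M (2 * n) • thS M (2 * n) bl) * thT M (2 * n)) (p i).1 (p i).2) =
      if l = n ∧ d = n then (Y * X) (fun i => (p i).1) (fun i => (p i).2) else 0 := by
  classical
  refine (th_expand (thMo _ (2 * n)) L (thF X Y) hL (thD0 _) (thD1 _) (thD2 _) n
    (thF_ne X Y) (thmz _) thD0_z thD1_z thD2_z (fun e => thmt e)
    (fun e c => thmz _ + thms (e.1, c) + thmt (c, e.2)) (fun e c => bl e.1 = bl c)
    (fun e => ((1 + thZ M (2 * n) • thS M (2 * n) bl) * thT M (2 * n)) e.1 e.2)
    ?_ ?_ ?_ ?_ ?_ ?_ ?_ l d p).trans ?_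
  rotate_right
  · congr 1
    rw [Matrix.mul_apply]
    refine Finset.sum_congr rfl fun w _ => ?_
    rw [th_tot2, thF_tot hX hY]
    split_ifs with h
    · exact mul_comm _ _
    · symm
      rw [mul_eq_zero]
      left
      by_contra hne
      exact h fun i => congrFun (hYb _ _ hne) i
  · intro e
    rw [add_mul, one_mul, Matrix.add_apply, Matrix.mul_apply]
    congr 1
    refine Finset.sum_congr rfl fun c _ => ?_
    rw [Matrix.smul_apply, smul_eq_mul, thS, thT, Matrix.of_apply, Matrix.of_apply, thZ]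
    split_ifs with h
    · rw [ofAdd_add, ofAdd_add, map_mul, map_mul]
    · ring
  · intro e; exact thD0_t _
  · intro e; exact thD1_t _
  · intro e; exact thD2_t _
  · intro e c; rw [map_add, map_add, thD0_z, thD0_t, thD0_s]
  · intro e c; rw [map_add, map_add, thD1_z, thD1_t, thD1_s]
  · intro e c; rw [map_add, map_add, thD2_z, thD2_t, thD2_s]

/-- monomials with one more variable. -/
noncomputable def thMoP (V : Type) (N : ℕ) :
    Multiplicative (ℕ × (Option V →₀ ℕ)) →* Polynomial (ThTR V N) where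
  toFun q := Polynomial.X ^ (Multiplicative.toAdd q).1 *
    Polynomial.C (thMo V N (Multiplicative.ofAdd (Multiplicative.toAdd q).2))
  map_one' := by simp
  map_mul' q q' := by
    rw [toAdd_mul, Prod.fst_add, Prod.snd_add, ofAdd_add, map_mul, Polynomial.C_mul,
      pow_add (Polynomial.X : Polynomial (ThTR V N))]
    ring

theorem thMoP_apply (V : Type) (N : ℕ) (k : ℕ) (m : Option V →₀ ℕ) :
    thMoP V N (Multiplicative.ofAdd (k, m)) =
      Polynomial.X ^ k * Polynomial.C (thMo V N (Multiplicative.ofAdd m)) := rfl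

/-- the matrix with the additional variable. -/
noncomputable def thW (M N : ℕ) : Matrix (Fin (M + 1)) (Fin (M + 1))
    (Polynomial (ThTR ((Fin (M + 1) × Fin (M + 1)) ⊕ (Fin (M + 1) × Fin (M + 1))) N)) :=
  (1 + thZ (M + 1) N • thT (M + 1) N).map Polynomial.C *
    Matrix.diagonal (fun i => if i = 0 then Polynomial.X else 1) *
    (thS (M + 1) N fun _ => 0).map Polynomial.C

theorem th_key3 {n : ℕ} {X Y : Matrix (Wd (M + 1) n) (Wd (M + 1) n) ℤ} (hX : ThInv X)
    (hY : ThInv Y) (j : ℕ) (hXj : ∀ w w', X w w' ≠ 0 → cnt w' 0 = j)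
    (L : ThTR ((Fin (M + 1) × Fin (M + 1)) ⊕ (Fin (M + 1) × Fin (M + 1))) (2 * n) →+ ℤ)
    (hL : ∀ m, L (thMo _ (2 * n) (Multiplicative.ofAdd m)) = thF X Y m)
    (l d : ℕ) (p : ℕ → Fin (M + 1) × Fin (M + 1)) :
    (L.comp (Polynomial.lcoeff _ j).toAddMonoidHom)
      (Polynomial.C (thZ (M + 1) (2 * n)) ^ d * ∏ i : Fin l,
        thW M (2 * n) (p i).1 (p i).2) =
      if l = n ∧ d = n then (X * Y) (fun i => (p i).1) (fun i => (p i).2) else 0 := by
  classical
  have hz : Polynomial.C (thZ (M + 1) (2 * n)) =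
      thMoP _ (2 * n) (Multiplicative.ofAdd (0, thmz _)) := by
    rw [thMoP_apply, pow_zero, one_mul, thZ]
  rw [hz]
  refine (th_expand (thMoP _ (2 * n)) (L.comp (Polynomial.lcoeff _ j).toAddMonoidHom)
    (fun q => if q.1 = j then thF X Y q.2 else 0) ?_
    ((thD0 _).comp (AddMonoidHom.snd _ _)) ((thD2 _).comp (AddMonoidHom.snd _ _))
    ((thD1 _).comp (AddMonoidHom.snd _ _)) n ?_ (0, thmz _) thD0_z thD2_z thD1_z
    (fun e => (if e.1 = 0 then 1 else 0, thms e))
    (fun e c => (if c = 0 then 1 else 0, thmz _ + thmt (e.1, c) + thms (c, e.2)))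
    (fun e c => True)
    (fun e => thW M (2 * n) e.1 e.2)
    ?_ ?_ ?_ ?_ ?_ ?_ ?_ l d p).trans ?_
  rotate_right
  · congr 1
    rw [Matrix.mul_apply]
    refine Finset.sum_congr rfl fun w _ => ?_
    have e1 : (n • ((0 : ℕ), thmz (Fin (M + 1) × Fin (M + 1))) +
        ∑ i : Fin n, ((if w i = 0 then 1 else 0 : ℕ), thmz (Fin (M + 1) × Fin (M + 1)) +
          thmt ((p i).1, w i) + thms (w i, (p i).2))) =
        (cnt w 0, thtot (fun i : Fin n => (p i).1) w w (fun i => (p i).2)) := by
      rw [← th_tot1]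
      refine Prod.ext ?_ ?_
      · rw [Prod.fst_add, Prod.fst_sum, Prod.smul_fst]
        simp [cnt]
      · rw [Prod.snd_add, Prod.snd_sum, Prod.smul_snd]
    rw [if_pos (fun _ => trivial), e1]
    simp only
    rw [thF_tot hX hY]
    split_ifs with h
    · rfl
    · symm
      rw [mul_eq_zero]
      left
      by_contra hne
      exact h (hXj _ _ hne)
  rotate_left 2
  · intro e
    rw [thW, Matrix.mul_apply]
    simp only [Matrix.mul_diagonal, Matrix.map_apply, Matrix.add_apply, Matrix.smul_apply,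
      smul_eq_mul, thS, thT, Matrix.of_apply, if_true, map_add, add_mul, Finset.sum_add_distrib,
      thMoP_apply, thZ]
    congr 1
    · rw [Finset.sum_eq_single e.1]
      · rw [Matrix.one_apply_eq, map_one, one_mul]
        split_ifs <;> simp
      · intro c _ hc
        rw [Matrix.one_apply_ne hc.symm, map_zero, zero_mul, zero_mul]
      · intro h; exact absurd (mem_univ _) h
    · refine Finset.sum_congr rfl fun c _ => ?_
      rw [ofAdd_add, ofAdd_add, map_mul (thMo _ _), map_mul (thMo _ _)]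
      simp only [map_mul]
      split_ifs
      · rw [pow_one]; ring
      · rw [pow_zero]; ring
  · intro e; exact thD0_s _
  · intro e; exact thD2_s _
  · intro e; exact thD1_s _
  · intro e c
    show thD0 _ (thmz _ + thmt (e.1, c) + thms (c, e.2)) = 1
    rw [map_add, map_add, thD0_z, thD0_t, thD0_s]
  · intro e c
    show thD2 _ (thmz _ + thmt (e.1, c) + thms (c, e.2)) = 1
    rw [map_add, map_add, thD2_z, thD2_t, thD2_s]
  · intro e c
    show thD1 _ (thmz _ + thmt (e.1, c) + thms (c, e.2)) = 1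
    rw [map_add, map_add, thD1_z, thD1_t, thD1_s]
  · rintro ⟨k, m⟩
    rw [thMoP_apply]
    show L ((Polynomial.X ^ k * Polynomial.C (thMo _ (2 * n) (Multiplicative.ofAdd m))).coeff j) = _
    rw [Polynomial.X_pow_mul, Polynomial.coeff_C_mul, Polynomial.coeff_X_pow]
    by_cases h : j = k
    · rw [if_pos h, mul_one, if_pos h.symm, hL]
    · rw [if_neg h, mul_zero, map_zero, if_neg (fun h' => h h'.symm)]
  · rintro ⟨k, m⟩ h
    by_cases h' : k = j
    · simp only [h', if_true] at h
      obtain ⟨a0, a1, a2⟩ := thF_ne X Y m h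
      exact ⟨a0, a2, a1⟩
    · simp only [if_neg h'] at h
      exact absurd rfl h

theorem th_inv_xi {n : ℕ} {X : Matrix (Wd M n) (Wd M n) ℤ} (hX : ThInv X) (γ : Fin M → ℕ) :
    ThInv (X * xiM ℤ n γ) := by
  intro σ w w'
  rw [xiM, Matrix.mul_diagonal, Matrix.mul_diagonal, hX]
  have : cnt (w' ∘ σ) = cnt w' := by
    funext j
    simp only [cnt]
    refine Finset.card_bij (fun i _ => σ i) ?_ ?_ ?_
    · intro i hi; simpa using hi
    · intro i _ i' _ h; exact σ.injective h
    · intro i hi; exact ⟨σ.symm i, by simpa using hi, by simp⟩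
  rw [this]

/-- the expansion for a cycle. -/
theorem th_key4 {n : ℕ} (r : Perm (Fin n)) (α : Fin n → Fin M) (hα : Function.Injective α)
    (L : ThTR (Fin n) (2 * n) →+ ℤ)
    (hL : ∀ m, L (thMo _ (2 * n) (Multiplicative.ofAdd m)) =
      if m = n • Finsupp.single none 1 + ∑ l, Finsupp.single (some l) 1 then 1 else 0)
    (l d : ℕ) (p : ℕ → Fin M × Fin M) :
    L (thMo (Fin n) (2 * n) (Multiplicative.ofAdd (Finsupp.single none 1)) ^ d * ∏ i : Fin l,
      (Matrix.of fun i j => ∑ l', if i = α l' ∧ j = α (r l') then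
        thMo (Fin n) (2 * n) (Multiplicative.ofAdd (Finsupp.single (some l') 1)) else 0 :
          Matrix (Fin M) (Fin M) (ThTR (Fin n) (2 * n))) (p i).1 (p i).2) =
      if l = n ∧ d = n then orb ℤ α (α ∘ r) (fun i => (p i).1) (fun i => (p i).2) else 0 := by
  classical
  have e1 : L (thMo (Fin n) (2 * n) (Multiplicative.ofAdd (Finsupp.single none 1)) ^ d *
      ∏ i : Fin l, (Matrix.of fun i j => ∑ l', if i = α l' ∧ j = α (r l') then
        thMo (Fin n) (2 * n) (Multiplicative.ofAdd (Finsupp.single (some l') 1)) else 0 :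
          Matrix (Fin M) (Fin M) (ThTR (Fin n) (2 * n))) (p i).1 (p i).2) =
      ∑ f : Fin l → Fin n, if ∀ i : Fin l, (p i).1 = α (f i) ∧ (p i).2 = α (r (f i)) then
        (if (d • Finsupp.single none 1 + ∑ i : Fin l, Finsupp.single (some (f i)) 1 :
          Option (Fin n) →₀ ℕ) = n • Finsupp.single none 1 + ∑ l, Finsupp.single (some l) 1
          then (1 : ℤ) else 0) else 0 := by
    simp only [Matrix.of_apply]
    rw [Finset.prod_univ_sum, Fintype.piFinset_univ, Finset.mul_sum, map_sum]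
    refine Finset.sum_congr rfl fun f _ => ?_
    rw [Finset.prod_ite_zero]
    simp only [Finset.mem_univ, forall_true_left]
    split_ifs with h h1
    · have e2 : thMo (Fin n) (2 * n) (Multiplicative.ofAdd (Finsupp.single none 1)) ^ d *
          ∏ i : Fin l, thMo (Fin n) (2 * n) (Multiplicative.ofAdd (Finsupp.single (some (f i)) 1)) =
          thMo (Fin n) (2 * n) (Multiplicative.ofAdd
            (d • Finsupp.single none 1 + ∑ i : Fin l, Finsupp.single (some (f i)) 1)) := by
        rw [ofAdd_add, map_mul, ofAdd_nsmul, map_pow, ofAdd_sum, map_prod]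
      rw [e2, hL, if_pos h1]
    · have e2 : thMo (Fin n) (2 * n) (Multiplicative.ofAdd (Finsupp.single none 1)) ^ d *
          ∏ i : Fin l, thMo (Fin n) (2 * n) (Multiplicative.ofAdd (Finsupp.single (some (f i)) 1)) =
          thMo (Fin n) (2 * n) (Multiplicative.ofAdd
            (d • Finsupp.single none 1 + ∑ i : Fin l, Finsupp.single (some (f i)) 1)) := by
        rw [ofAdd_add, map_mul, ofAdd_nsmul, map_pow, ofAdd_sum, map_prod]
      rw [e2, hL, if_neg h1]
    · rw [mul_zero, map_zero]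
  have hdeg : ∀ f : Fin l → Fin n, (d • Finsupp.single none 1 +
      ∑ i : Fin l, Finsupp.single (some (f i)) 1 :
      Option (Fin n) →₀ ℕ) = n • Finsupp.single none 1 + ∑ l, Finsupp.single (some l) 1 →
      l = n ∧ d = n ∧ ∀ j, (∑ i : Fin l, if f i = j then 1 else 0) = 1 := by
    intro f h
    have h0 := DFunLike.congr_fun h none
    simp at h0
    have h1 : ∀ j, (∑ i : Fin l, if f i = j then 1 else 0) = 1 := by
      intro j
      have := DFunLike.congr_fun h (some j)
      simpa [Finsupp.finsetSum_apply, Finsupp.single_apply] using this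
    refine ⟨?_, h0, h1⟩
    have h2 : ∑ j : Fin n, (∑ i : Fin l, if f i = j then 1 else 0) = n := by
      rw [Finset.sum_congr rfl fun j _ => h1 j]
      simp
    rw [Finset.sum_comm] at h2
    simpa using h2
  rw [e1]
  by_cases hld : l = n ∧ d = n
  · obtain ⟨hl, hd⟩ := hld
    subst hd
    subst hl
    rw [if_pos ⟨rfl, rfl⟩]
    by_cases ho : ∃ σ : Perm (Fin l), (fun i : Fin l => (p i).1) = α ∘ σ ∧
        (fun i : Fin l => (p i).2) = (α ∘ r) ∘ σ
    · rw [orb, if_pos ho]
      obtain ⟨σ, h1, h2⟩ := ho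
      rw [Finset.sum_eq_single (σ : Fin l → Fin l)]
      · rw [if_pos (fun i => ⟨congrFun h1 i, congrFun h2 i⟩), if_pos]
        congr 1
        exact Equiv.sum_comp σ fun i => (Finsupp.single (some i) 1 : Option (Fin l) →₀ ℕ)
      · intro f _ hf
        rw [if_neg]
        intro h
        apply hf
        funext i
        exact hα ((h i).1.symm.trans (congrFun h1 i))
      · intro h; exact absurd (mem_univ _) h
    · rw [orb, if_neg ho]
      refine Finset.sum_eq_zero fun f _ => ?_
      split_ifs with h h1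
      · exfalso
        apply ho
        obtain ⟨-, -, h2⟩ := hdeg f h1
        have hs : Function.Surjective f := by
          intro j
          by_contra hj
          push Not at hj
          have := h2 j
          rw [Finset.sum_eq_zero (fun i _ => if_neg (hj i))] at this
          exact zero_ne_one this
        have hb : Function.Bijective f := Finite.surjective_iff_bijective.1 hs
        exact ⟨Equiv.ofBijective f hb, funext fun i => (h i).1, funext fun i => (h i).2⟩
      · rfl
      · rfl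
  · rw [if_neg hld]
    refine Finset.sum_eq_zero fun f _ => ?_
    split_ifs with h h1
    · obtain ⟨h2, h3, -⟩ := hdeg f h1
      exact absurd ⟨h2, h3⟩ hld
    · rfl
    · rfl

theorem th_low (C : Type) [CommRing C] (L : C →+ ℤ) {i j : ℕ} (hne : i ≠ j) (e : C ⊗[ℤ] 𝔹) :
    thLam (L.comp (Polynomial.lcoeff C j).toAddMonoidHom)
      (((Polynomial.X ^ i : Polynomial C) ⊗ₜ[ℤ] (1 : 𝔹)) *
        Algebra.TensorProduct.map (Polynomial.C : C →+* Polynomial C).toIntAlgHom
          (AlgHom.id ℤ 𝔹) e) = 0 := by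
  induction e using TensorProduct.induction_on with
  | zero => simp
  | tmul a b =>
    rw [Algebra.TensorProduct.map_tmul, Algebra.TensorProduct.tmul_mul_tmul, thLam_tmul]
    have : (L.comp (Polynomial.lcoeff C j).toAddMonoidHom)
        (Polynomial.X ^ i * (Polynomial.C : C →+* Polynomial C).toIntAlgHom a) = 0 := by
      show L ((Polynomial.X ^ i * Polynomial.C a).coeff j) = 0
      rw [Polynomial.X_pow_mul, Polynomial.coeff_C_mul, Polynomial.coeff_X_pow,
        if_neg hne.symm, mul_zero, map_zero]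
    rw [this, zero_smul]
  | add a b ha hb => rw [map_add, mul_add, map_add, ha, hb, add_zero]

/-- the linear functional on matrices attached to the data. -/
theorem exists_theta (hB : IsIdl B) (P : PD 𝔹 (M + 1)) (hC : Cap B (P.m + 1)) (hP : P.InB B)
    (k : ℕ) :
    ∃ Θ : Matrix (Wd (M + 1) (k + 1)) (Wd (M + 1) (k + 1)) ℤ →+ 𝔹,
      (∀ X ∈ LB ℤ (k + 1) (fun _ : Fin (M + 1) => 0), ∀ Y ∈ LB ℤ (k + 1) P.bl,
        Θ (X * Y) = Θ (Y * X)) ∧
      (∀ X ∈ LB ℤ (k + 1) (fun _ : Fin (M + 1) => 0),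
        ∀ Y ∈ LB ℤ (k + 1) (fun _ : Fin (M + 1) => 0), ∀ γ : Fin (M + 1) → ℕ, P.m < γ 0 →
        Θ (X * xiM ℤ (k + 1) γ * Y) = 0) ∧
      ∀ (α : Fin (k + 1) → Fin (M + 1)) (v : Fin k → ℕ), Function.Injective α →
        P.bl (α 0) = 0 → (∀ i : Fin k, P.bl (α i.succ) = v i + 1) →
        Θ (orb ℤ α (α ∘ finRotate (k + 1))) =
          ((-1 : ℤ) ^ k) • ((List.ofFn fun i => P.x (v i)).prod *
            P.u * G2 P.m P.w P.π P.a P.b) := by
  classical
  obtain ⟨Θ, hΘ⟩ := th_univ P (k + 1)
  have hnil : thZ (M + 1) (2 * (k + 1)) ^ (2 * (k + 1) + 1) = 0 := thMo_nil _ _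
  refine ⟨Θ, ?_, ?_, ?_⟩
  · intro X hX Y hY
    obtain ⟨L, hL⟩ := th_exists_fun ((Fin (M + 1) × Fin (M + 1)) ⊕ (Fin (M + 1) × Fin (M + 1)))
      (2 * (k + 1)) (thF X Y) (by
        intro m hm
        by_contra h
        have := (thF_ne X Y m h).1
        have h2 : thD0 (Fin (M + 1) × Fin (M + 1)) m = m none := rfl
        omega)
    rw [← hΘ _ _ hnil (thT (M + 1) _ * (1 + thZ (M + 1) _ • thS (M + 1) _ P.bl)) L (X * Y)
      (th_key1 hX.1 hY.1 P.bl hY.2 L hL),
      ← hΘ _ _ hnil ((1 + thZ (M + 1) _ • thS (M + 1) _ P.bl) * thT (M + 1) _) L (Y * X)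
      (th_key2 hX.1 hY.1 P.bl hY.2 L hL)]
    congr 1
    refine th_conj hB P hC hP _ _ ⟨_, hnil⟩ _ _ ?_
    intro i j h
    by_contra h0
    exact h (if_neg h0)
  · intro X hX Y hY γ hγ
    have hX' := th_inv_xi hX.1 γ
    obtain ⟨L, hL⟩ := th_exists_fun ((Fin (M + 1) × Fin (M + 1)) ⊕ (Fin (M + 1) × Fin (M + 1)))
      (2 * (k + 1)) (thF (X * xiM ℤ (k + 1) γ) Y) (by
        intro m hm
        by_contra h
        have := (thF_ne _ Y m h).1
        have h2 : thD0 (Fin (M + 1) × Fin (M + 1)) m = m none := rfl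
        omega)
    rw [← hΘ _ (Polynomial.C (thZ (M + 1) (2 * (k + 1)))) (by rw [← map_pow, hnil, map_zero])
      (thW M _) (L.comp (Polynomial.lcoeff _ (γ 0)).toAddMonoidHom) (X * xiM ℤ (k + 1) γ * Y)
      (th_key3 hX' hY.1 (γ 0) (by
        intro w w' h
        rw [xiM, Matrix.mul_diagonal] at h
        have := right_ne_zero_of_mul h
        by_contra h0
        exact this (if_neg fun h1 => h0 (by rw [h1]))) L hL)]
    obtain ⟨E, hE⟩ := P.valC_deg hB hC hP _ (thZ (M + 1) (2 * (k + 1))) ⟨_, hnil⟩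
      (thT (M + 1) _) (thS (M + 1) _ fun _ => 0)
    have e1 : Polynomial.C (thZ (M + 1) (2 * (k + 1))) • thW M (2 * (k + 1)) =
        (1 + thZ (M + 1) (2 * (k + 1)) • thT (M + 1) (2 * (k + 1))).map Polynomial.C *
        Matrix.diagonal (fun i => if i = 0 then Polynomial.X else 1) *
        (thZ (M + 1) (2 * (k + 1)) • thS (M + 1) (2 * (k + 1)) fun _ => 0).map
          Polynomial.C := by
      rw [thW]
      ext1 i j
      simp only [Matrix.smul_apply, Matrix.mul_apply, Matrix.map_apply, smul_eq_mul, map_mul,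
        Finset.mul_sum]
      refine Finset.sum_congr rfl fun x _ => ?_
      ring
    rw [e1, hE, map_sum]
    refine Finset.sum_eq_zero fun i hi => ?_
    have hne : i ≠ γ 0 := by
      have := Finset.mem_range.1 hi
      omega
    exact th_low _ L hne _
  · intro α v hα h0 hv
    obtain ⟨L, hL⟩ := th_exists_fun (Fin (k + 1)) (2 * (k + 1))
      (fun m => if m = (k + 1) • Finsupp.single none 1 + ∑ l, Finsupp.single (some l) 1
        then 1 else 0) (by
        intro m hm
        rw [if_neg]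
        rintro rfl
        simp at hm
        omega)
    have hnil' := thMo_nil (Fin (k + 1)) (2 * (k + 1))
    rw [← hΘ _ _ hnil' _ L _ (th_key4 (finRotate (k + 1)) α hα L hL),
      P.valC_cycle _ _ ⟨_, hnil'⟩ k α hα h0 v hv, thLam_tmul]
    have e2 : thMo (Fin (k + 1)) (2 * (k + 1)) (Multiplicative.ofAdd (Finsupp.single none 1)) ^
          (k + 1) * ∏ i, thMo (Fin (k + 1)) (2 * (k + 1))
            (Multiplicative.ofAdd (Finsupp.single (some i) 1)) =
          thMo (Fin (k + 1)) (2 * (k + 1)) (Multiplicative.ofAdd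
            ((k + 1) • Finsupp.single none 1 + ∑ i, Finsupp.single (some i) 1)) := by
        rw [ofAdd_add, map_mul, ofAdd_nsmul, map_pow, ofAdd_sum, map_prod]
    rw [e2, hL, if_pos rfl, one_smul]

end H34.Kem
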