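import Pool.Agent.H34.Kem.Defs
import Pool.Agent.H34.Kem.PvB
import Pool.Agent.H34.Kem.PvC

/-!
Coefficient extraction for the functional Theta.
-/

namespace H34.Kem

open Finset Equiv
open scoped TensorProduct

/-- truncated polynomials. -/
abbrev ThTR (V : Type) (N : ℕ) : Type :=
  MvPolynomial (Option V) ℤ ⧸
    Ideal.span {(MvPolynomial.X none : MvPolynomial (Option V) ℤ) ^ (N + 1)}

/-- monomials of the truncated polynomial ring. -/
noncomputable def thMo (V : Type) (N : ℕ) : Multiplicative (Option V →₀ ℕ) →* ThTR V N :=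
  (Ideal.Quotient.mk (Ideal.span
    {(MvPolynomial.X none : MvPolynomial (Option V) ℤ) ^ (N + 1)})).toMonoidHom.comp
    (MvPolynomial.monomialOneHom ℤ (Option V))

theorem th_exists_fun (V : Type) (N : ℕ) (F : (Option V →₀ ℕ) → ℤ)
    (hF : ∀ m, N < m none → F m = 0) :
    ∃ L : ThTR V N →+ ℤ, ∀ m, L (thMo V N (Multiplicative.ofAdd m)) = F m := by
  classical
  let L0 : MvPolynomial (Option V) ℤ →ₗ[ℤ] ℤ :=
    (MvPolynomial.basisMonomials (Option V) ℤ).constr ℤ F
  have h0 : ∀ m, L0 (MvPolynomial.monomial m 1) = F m := by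
    intro m
    have := (MvPolynomial.basisMonomials (Option V) ℤ).constr_basis ℤ F m
    rwa [MvPolynomial.coe_basisMonomials] at this
  let I := Ideal.span {(MvPolynomial.X none : MvPolynomial (Option V) ℤ) ^ (N + 1)}
  have h1 : ∀ x ∈ I, L0 x = 0 := by
    intro x hx
    obtain ⟨y, rfl⟩ := Ideal.mem_span_singleton'.1 hx
    have h2 : L0.comp (LinearMap.mulRight ℤ ((MvPolynomial.X none :
        MvPolynomial (Option V) ℤ) ^ (N + 1))) = 0 := by
      refine (MvPolynomial.basisMonomials (Option V) ℤ).ext fun m => ?_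
      rw [MvPolynomial.coe_basisMonomials, LinearMap.comp_apply, LinearMap.mulRight_apply,
        MvPolynomial.X_pow_eq_monomial, MvPolynomial.monomial_mul, one_mul, h0]
      refine (hF _ ?_).trans rfl
      simp
      omega
    exact LinearMap.congr_fun h2 y
  refine ⟨QuotientAddGroup.lift I.toAddSubgroup L0.toAddMonoidHom ?_, ?_⟩
  · intro x hx
    exact h1 x hx
  · intro m
    exact h0 m

theorem thMo_nil (V : Type) (N : ℕ) :
    thMo V N (Multiplicative.ofAdd (Finsupp.single none 1)) ^ (N + 1) = 0 := by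
  have : thMo V N (Multiplicative.ofAdd (Finsupp.single none 1)) =
      Ideal.Quotient.mk _ (MvPolynomial.X none) := rfl
  rw [this, ← map_pow, Ideal.Quotient.eq_zero_iff_mem]
  exact Ideal.mem_span_singleton_self _

/-- extension of a functional to the tensor product. -/
noncomputable def thLam {C : Type} [CommRing C] {𝔹 : Type} [Ring 𝔹] (L : C →+ ℤ) :
    C ⊗[ℤ] 𝔹 →+ 𝔹 :=
  (TensorProduct.lift ((LinearMap.lsmul ℤ 𝔹).comp L.toIntLinearMap)).toAddMonoidHom

theorem thLam_tmul {C : Type} [CommRing C] {𝔹 : Type} [Ring 𝔹] (L : C →+ ℤ) (c : C) (y : 𝔹) :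
    thLam L (c ⊗ₜ[ℤ] y) = L c • y :=
  TensorProduct.lift.tmul (f' := (LinearMap.lsmul ℤ 𝔹).comp L.toIntLinearMap) c y

theorem th_perm {E : Type} {n : ℕ} (f g : Fin n → E)
    (h : ∑ i, Finsupp.single (f i) 1 = ∑ i, (Finsupp.single (g i) 1 : E →₀ ℕ)) :
    ∃ σ : Perm (Fin n), g = f ∘ σ := by
  classical
  have hc : ∀ e, Fintype.card {i // g i = e} = Fintype.card {i // f i = e} := by
    intro e
    have := DFunLike.congr_fun h e
    simp only [Finsupp.finsetSum_apply, Finsupp.single_apply] at this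
    rw [Fintype.card_subtype, Fintype.card_subtype]
    simp only [Finset.card_filter]
    exact this.symm
  refine ⟨(Equiv.sigmaFiberEquiv g).symm.trans ((Equiv.sigmaCongrRight fun e =>
    Fintype.equivOfCardEq (hc e)).trans (Equiv.sigmaFiberEquiv f)), ?_⟩
  funext i
  simp only [Function.comp_apply, Equiv.trans_apply]
  exact (((Fintype.equivOfCardEq (hc (g i))) ⟨i, rfl⟩).2).symm

theorem th_words {E : Type} [Inhabited E] (A : E →₀ ℕ) :
    ∃ (l : ℕ) (p : ℕ → E), ∀ (C : Type) [CommRing C] (T : E → C),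
      (A.prod fun e k => T e ^ k) = ∏ i : Fin l, T (p i) := by
  classical
  obtain ⟨L, hL⟩ := Quot.exists_rep (Finsupp.toMultiset A)
  refine ⟨L.length, fun i => L.getD i default, ?_⟩
  intro C _ T
  have h1 : (A.prod fun e k => T e ^ k) = ((Finsupp.toMultiset A).map T).prod := by
    rw [Finsupp.toMultiset_map, Finsupp.prod_toMultiset, Finsupp.prod_mapDomain_index]
    · intro; simp
    · intro _ _ _; rw [pow_add]
  have h2 : ((Finsupp.toMultiset A).map T).prod = (L.map T).prod := by
    rw [← hL]; simp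
  rw [h1, h2, ← Fin.prod_univ_fun_getElem]
  refine Finset.prod_congr rfl fun i _ => ?_
  simp

open Classical in
theorem th_expand {M0 R E O : Type} [AddCommMonoid M0] [CommRing R] [Fintype O]
    (mo : Multiplicative M0 →* R) (L : R →+ ℤ)
    (F : M0 → ℤ) (hL : ∀ m, L (mo (Multiplicative.ofAdd m)) = F m) (D0 D1 D2 : M0 →+ ℕ) (n : ℕ)
    (hF : ∀ m, F m ≠ 0 → D0 m = 2 * n ∧ D1 m = n ∧ D2 m = n) (τ0 : M0)
    (h00 : D0 τ0 = 1) (h01 : D1 τ0 = 0) (h02 : D2 τ0 = 0)
    (μ0 : E → M0) (μ1 : E → O → M0) (good : E → O → Prop)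
    (T : E → R) (hT : ∀ e, T e = mo (Multiplicative.ofAdd (μ0 e)) +
      ∑ c, if good e c then mo (Multiplicative.ofAdd (μ1 e c)) else 0)
    (h10 : ∀ e, D0 (μ0 e) = 0) (h11 : ∀ e, D1 (μ0 e) = 1) (h12 : ∀ e, D2 (μ0 e) = 0)
    (h20 : ∀ e c, D0 (μ1 e c) = 1) (h21 : ∀ e c, D1 (μ1 e c) = 1) (h22 : ∀ e c, D2 (μ1 e c) = 1)
    (l d : ℕ) (p : ℕ → E) :
    L (mo (Multiplicative.ofAdd τ0) ^ d * ∏ i : Fin l, T (p i)) =
      if l = n ∧ d = n then ∑ w : Fin n → O, (if ∀ i : Fin n, good (p i) (w i) then
        F (n • τ0 + ∑ i : Fin n, μ1 (p i) (w i)) else 0) else 0 := by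
  set gd : E → Option O → Prop := fun e o => o.elim True (good e) with hgd
  set μ : E → Option O → M0 := fun e o => o.elim (μ0 e) (μ1 e) with hμ
  have hT' : ∀ e, T e = ∑ o : Option O, if gd e o then mo (Multiplicative.ofAdd (μ e o)) else 0 := by
    intro e
    rw [hT, Fintype.sum_option]
    simp [hgd, hμ]
  have e1 : L (mo (Multiplicative.ofAdd τ0) ^ d * ∏ i : Fin l, T (p i)) =
      ∑ f : Fin l → Option O, if ∀ i : Fin l, gd (p i) (f i) then
        F (d • τ0 + ∑ i : Fin l, μ (p i) (f i)) else 0 := by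
    simp_rw [hT']
    rw [Finset.prod_univ_sum, Fintype.piFinset_univ, Finset.mul_sum, map_sum]
    refine Finset.sum_congr rfl fun f _ => ?_
    rw [Finset.prod_ite_zero]
    simp only [Finset.mem_univ, forall_true_left]
    split_ifs with h
    · have e2 : mo (Multiplicative.ofAdd τ0) ^ d *
          ∏ i : Fin l, mo (Multiplicative.ofAdd (μ (p i) (f i))) =
          mo (Multiplicative.ofAdd (d • τ0 + ∑ i : Fin l, μ (p i) (f i))) := by
        rw [ofAdd_add, map_mul, ofAdd_nsmul, map_pow, ofAdd_sum, map_prod]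
      rw [e2, hL]
    · rw [mul_zero, map_zero]
  have hD1 : ∀ f : Fin l → Option O, D1 (d • τ0 + ∑ i : Fin l, μ (p i) (f i)) = l := by
    intro f
    rw [map_add, map_nsmul, h01, smul_zero, zero_add, map_sum]
    have : ∀ i ∈ (univ : Finset (Fin l)), D1 (μ (p i) (f i)) = 1 := by
      intro i _
      rcases f i with _ | c
      · exact h11 _
      · exact h21 _ _
    rw [Finset.sum_congr rfl this]
    simp
  have hc : ∀ (e : E) (o : Option O), D2 (μ e o) = (if o = none then 0 else 1) := by
    intro e o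
    rcases o with _ | c
    · exact h12 _
    · show D2 (μ1 e c) = _
      simpa using h22 e c
  have hc0 : ∀ (e : E) (o : Option O), D0 (μ e o) = (if o = none then 0 else 1) := by
    intro e o
    rcases o with _ | c
    · exact h10 _
    · show D0 (μ1 e c) = _
      simpa using h20 e c
  have hD2 : ∀ f : Fin l → Option O, D2 (d • τ0 + ∑ i : Fin l, μ (p i) (f i)) =
      ∑ i : Fin l, (if f i = none then 0 else 1) := by
    intro f
    rw [map_add, map_nsmul, h02, smul_zero, zero_add, map_sum]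
    exact Finset.sum_congr rfl fun i _ => hc _ _
  have hD0 : ∀ f : Fin l → Option O, D0 (d • τ0 + ∑ i : Fin l, μ (p i) (f i)) =
      d + ∑ i : Fin l, (if f i = none then 0 else 1) := by
    intro f
    rw [map_add, map_nsmul, h00, map_sum]
    simp only [smul_eq_mul, mul_one]
    exact congrArg _ (Finset.sum_congr rfl fun i _ => hc0 _ _)
  rw [e1]
  by_cases hld : l = n ∧ d = n
  · obtain ⟨hl, hd⟩ := hld
    subst hd
    subst hl
    rw [if_pos ⟨rfl, rfl⟩]
    symm
    refine Fintype.sum_of_injective (fun (w : Fin l → O) (i : Fin l) => some (w i)) ?_ _ _ ?_ ?_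
    · intro w w' h
      funext i
      exact Option.some_injective _ (congrFun h i)
    · intro f hf
      by_contra hne
      split_ifs at hne with hg
      · have h2 := (hF _ hne).2.2
        rw [hD2] at h2
        apply hf
        have h3 : ∀ i, f i ≠ none := by
          intro i hi
          have : ∑ i : Fin l, (if f i = none then 0 else 1) < ∑ i : Fin l, 1 := by
            refine Finset.sum_lt_sum (fun j _ => by split_ifs <;> simp) ⟨i, mem_univ _, by simp [hi]⟩
          rw [h2] at this
          simp at this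
        refine ⟨fun i => (f i).get (Option.ne_none_iff_isSome.1 (h3 i)), ?_⟩
        funext i
        simp
      · exact hne rfl
    · intro w
      rfl
  · rw [if_neg hld]
    refine Finset.sum_eq_zero fun f _ => ?_
    split_ifs with hg
    · by_contra hne
      obtain ⟨a0, a1, a2⟩ := hF _ hne
      rw [hD0] at a0
      rw [hD1] at a1
      rw [hD2] at a2
      omega
    · rfl

end H34.Kem
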