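import Pool.Agent.H34.Kem.Rat
import Pool.Agent.H34.Kem.Theta

/-!
Matrix identities times the square of the Capelli ideal.
-/

namespace H34.Kem

open Finset Equiv

theorem thmZ {𝔹 : Type} [Ring 𝔹] {B : AddSubgroup 𝔹} (hB : IsIdl B) (m : ℕ)
    (hC : Cap B (m + 1)) (k : ℕ) (c : Perm (Fin k) → ℤ) (v : Fin k → ℕ)
    (hid : ∀ X : ℕ → Matrix (Fin m) (Fin m) ℤ, ∑ s, c s • (List.ofFn fun i => X (v (s i))).prod = 0)
    (w : ℕ → 𝔹) (π : Fin (m + m) ≃ Fin m ⊕ Fin m) (a b : Fin m → 𝔹) (ha : ∀ i, a i ∈ B)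
    (hb : ∀ i, b i ∈ B) (u : 𝔹) (hu : u ∈ B) (x : ℕ → 𝔹) (hx : ∀ i, x i ∈ B) :
    (∑ s, c s • (List.ofFn fun i => x (v (s i))).prod) * u * G2 m w π a b = 0 := by
  sorry

end H34.Kem
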