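import Pool.Agent.H34.Kem.Delta
import Pool.Agent.H34.Kem.Abs

/-!
The invariant matrices as an algebra with ordered idempotents.
-/

namespace H34.Kem

open Finset Equiv

variable {F : Type} [Field F] {M q n : ℕ}

/-- weights with bounded entries, ordered lexicographically. -/
abbrev Lam (M n : ℕ) : Type := Lex (Fin M → Fin (n + 1))

/-- the weight as a function to the natural numbers. -/
def wtf (l : Lam M n) : Fin M → ℕ := fun i => (ofLex l i : ℕ)

theorem wtf_lt (l l' : Lam M n) : l < l' ↔ wlt (wtf l) (wtf l') := by
  sorry

/-- the structure on the block preserving invariant matrices. -/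
noncomputable def TriLB (F : Type) [Field F] {b : Fin M → ℕ} (hb : Big n b) :
    Tri F (LB F n b) (Lam M n) where
  xi l := ⟨xiM F n (wtf l), xiM_mem b _⟩
  idem := by
    sorry
  orth := by
    sorry
  sum_xi := by
    sorry
  tau :=
    { toFun := fun X => ⟨X.1.transpose, transpose_mem X.2⟩
      map_add' := by
        intro X Y; apply Subtype.ext; simp [Matrix.transpose_add]
      map_smul' := by
        intro a X; apply Subtype.ext; simp [Matrix.transpose_smul] }
  tau_mul := by
    sorry
  tau_tau := by
    sorry
  tau_xi := by
    sorry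
  diag := by
    sorry

theorem jup_iff {b : Fin M → ℕ} (hb : Big n b) (l : Lam M n) (X : LB F n b) :
    X ∈ Jup (F := F) (TriLB F hb).xi l ↔ X.1 ∈ JB F n b (wtf l) := by
  sorry

end H34.Kem
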