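import Pool.Agent.H34.Kem.TriI
import Pool.Agent.H34.Kem.StrE
import Pool.Agent.H34.Kem.AbsB

/-!
The alternating functions of given column content are filtered by Weyl modules.
-/

namespace H34.Kem

open Finset Equiv

variable {F : Type} [Field F] {M q n : ℕ}

/-- alternating functions of given column content. -/
def EE (F : Type) [Field F] {M q : ℕ} (n : ℕ) (b : Fin M → ℕ) (δ : Fin q → ℕ) :
    Submodule (LB F n b) (FW F M q n) where
  carrier := {Φ | IsAlt Φ ∧ IsCol δ Φ}
  add_mem' := by
    sorry
  zero_mem' := by
    sorry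
  smul_mem' := by
    sorry

theorem weylE {b : Fin M → ℕ} (hb : Big n b) (δ : Fin q → ℕ) :
    (TriLB F hb).IsWeyl (EE F n b δ) := by
  sorry

end H34.Kem
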