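import Pool.Agent.H34.Kem.ZubDefs

namespace H34.Kem

open Finset Equiv

variable {𝔹 : Type} [Ring 𝔹] {B : AddSubgroup 𝔹}

/-! ### Elementary facts on `mon` -/

private theorem mon_zero (w : ℕ → 𝔹) (c : Fin 0 → 𝔹) : mon 0 w c = w 0 := by
  simp [mon]

private theorem mon_succ (N : ℕ) (w : ℕ → 𝔹) (c : Fin (N + 1) → 𝔹) :
    mon (N + 1) w c = w 0 * c 0 * mon N (fun i => w (i + 1)) (fun i => c i.succ) := by
  simp only [mon, List.ofFn_succ, List.prod_cons, Fin.val_zero, Fin.val_succ, zero_add]
  simp only [mul_assoc]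

private theorem mon_congr {N : ℕ} {w w' : ℕ → 𝔹} {c c' : Fin N → 𝔹} (hw : w = w') (hc : c = c') :
    mon N w c = mon N w' c' := by rw [hw, hc]

/-- a left factor can be absorbed in the fillers. -/
private theorem mon_absorb_left (k : ℕ) (w : ℕ → 𝔹) (y : 𝔹) :
    ∃ w' : ℕ → 𝔹, ∀ x : Fin k → 𝔹, y * mon k w x = mon k w' x := by
  refine ⟨fun i => if i = 0 then y * w 0 else w i, fun x => ?_⟩
  simp [mon, mul_assoc]

/-- all slots which are not in the image of `e` are absorbed in the fillers. -/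
private theorem absorb : ∀ (N k : ℕ) (w : ℕ → 𝔹) (e : Fin k → Fin N), StrictMono e →
    ∀ d : Fin N → 𝔹, ∃ w' : ℕ → 𝔹, ∀ x : Fin k → 𝔹,
      mon N w (Function.extend e x d) = mon k w' x := by
  intro N
  induction N with
  | zero =>
    intro k w e he d
    have hk : k = 0 := by
      rcases Nat.eq_zero_or_pos k with h | h
      · exact h
      · exact absurd (e ⟨0, h⟩).2 (by omega)
    subst hk
    exact ⟨w, fun x => by rw [mon_zero, mon_zero]⟩
  | succ N ih =>
    intro k w e he d
    by_cases h0 : ∃ i, e i = 0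
    · obtain ⟨i, hi⟩ := h0
      obtain ⟨k, rfl⟩ : ∃ k', k = k' + 1 := ⟨k - 1, by have := i.2; omega⟩
      have hi0 : i = 0 := by
        by_contra hne
        have h1 : (0 : Fin (k + 1)) < i := Fin.pos_of_ne_zero hne
        have h2 := he h1
        rw [hi] at h2
        exact absurd h2 (Fin.not_lt_zero _)
      subst hi0
      have hne : ∀ j : Fin k, e j.succ ≠ 0 := by
        intro j hj
        have h2 := he (Fin.succ_pos j)
        rw [hi, hj] at h2
        exact lt_irrefl _ h2
      let e' : Fin k → Fin N := fun j => (e j.succ).pred (hne j)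
      have he' : StrictMono e' := by
        intro a b hab
        exact Fin.pred_lt_pred_iff.mpr (he (Fin.succ_lt_succ_iff.mpr hab))
      have hsucc : ∀ j, e j.succ = (e' j).succ := fun j => by simp [e']
      obtain ⟨w', hw'⟩ := ih k (fun i => w (i + 1)) e' he' (fun i => d i.succ)
      refine ⟨fun i => if i = 0 then w 0 else w' (i - 1), fun x => ?_⟩
      rw [mon_succ, mon_succ]
      have e1 : Function.extend e x d 0 = x 0 := by
        conv_lhs => rw [← hi]
        exact he.injective.extend_apply _ _ _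
      have e2 : (fun i : Fin N => Function.extend e x d i.succ) =
          Function.extend e' (fun i => x i.succ) (fun i => d i.succ) := by
        funext i
        by_cases hex : ∃ j, e' j = i
        · obtain ⟨j, rfl⟩ := hex
          rw [he'.injective.extend_apply, ← hsucc, he.injective.extend_apply]
        · rw [Function.extend_apply' _ _ _ hex, Function.extend_apply']
          rintro ⟨j, hj⟩
          refine Fin.cases (fun hj => ?_) (fun j hj => ?_) j hj
          · rw [hi] at hj
            exact absurd hj.symm (Fin.succ_ne_zero _)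
          · rw [hsucc] at hj
            exact hex ⟨j, Fin.succ_injective _ hj⟩
      rw [e1, e2, hw']
      simp
    · have hne : ∀ j : Fin k, e j ≠ 0 := fun j hj => h0 ⟨j, hj⟩
      let e' : Fin k → Fin N := fun j => (e j).pred (hne j)
      have he' : StrictMono e' := by
        intro a b hab
        exact Fin.pred_lt_pred_iff.mpr (he hab)
      have hsucc : ∀ j, e j = (e' j).succ := fun j => by simp [e']
      obtain ⟨w', hw'⟩ := ih k (fun i => w (i + 1)) e' he' (fun i => d i.succ)
      obtain ⟨w'', hw''⟩ := mon_absorb_left k w' (w 0 * d 0)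
      refine ⟨w'', fun x => ?_⟩
      rw [mon_succ]
      have e1 : Function.extend e x d 0 = d 0 := Function.extend_apply' _ _ _ h0
      have e2 : (fun i : Fin N => Function.extend e x d i.succ) =
          Function.extend e' x (fun i => d i.succ) := by
        funext i
        by_cases hex : ∃ j, e' j = i
        · obtain ⟨j, rfl⟩ := hex
          rw [he'.injective.extend_apply, ← hsucc, he.injective.extend_apply]
        · rw [Function.extend_apply' _ _ _ hex, Function.extend_apply']
          rintro ⟨j, hj⟩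
          rw [hsucc] at hj
          exact hex ⟨j, Fin.succ_injective _ hj⟩
      rw [e1, e2, hw', hw'']

/-- the alternating sum over variables in arbitrary different slots vanishes. -/
private theorem alt_zero {k : ℕ} (hC : Cap B k) (N : ℕ) (w : ℕ → 𝔹) (p : Fin k → Fin N)
    (hp : Function.Injective p) (d : Fin N → 𝔹) (x : Fin k → 𝔹) (hx : ∀ i, x i ∈ B) :
    ∑ κ : Perm (Fin k), (Perm.sign κ : ℤ) • mon N w (Function.extend p (x ∘ κ) d) = 0 := by
  set ρ := Tuple.sort p with hρ
  have hmono : StrictMono (p ∘ ρ) :=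
    (Tuple.monotone_sort p).strictMono_of_injective (hp.comp ρ.injective)
  obtain ⟨w', hw'⟩ := absorb N k w (p ∘ ρ) hmono d
  have h1 : ∀ κ : Perm (Fin k), Function.extend p (x ∘ κ) d =
      Function.extend (p ∘ ρ) (x ∘ (κ * ρ : Perm (Fin k))) d := by
    intro κ
    funext s
    by_cases hex : ∃ i, p i = s
    · obtain ⟨i, rfl⟩ := hex
      rw [hp.extend_apply]
      have : p i = (p ∘ ρ) (ρ.symm i) := by simp
      rw [this, hmono.injective.extend_apply]
      simp
    · rw [Function.extend_apply' _ _ _ hex, Function.extend_apply']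
      rintro ⟨j, hj⟩
      exact hex ⟨ρ j, hj⟩
  have h2 : ∑ κ : Perm (Fin k), (Perm.sign κ : ℤ) • mon N w (Function.extend p (x ∘ κ) d) =
      ∑ κ : Perm (Fin k), ((Perm.sign ρ : ℤ) * (Perm.sign κ : ℤ)) • mon k w' (x ∘ κ) := by
    refine Fintype.sum_equiv (Equiv.mulRight ρ) _ _ fun κ => ?_
    rw [h1, hw', Equiv.coe_mulRight, Perm.sign_mul]
    congr 1
    push_cast
    have hs : (Perm.sign ρ : ℤ) * (Perm.sign ρ : ℤ) = 1 := by
      rw [← Units.val_mul, Int.units_mul_self, Units.val_one]
    linear_combination (-(Perm.sign κ : ℤ)) * hs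
  rw [h2]
  simp only [mul_smul]
  rw [← Finset.smul_sum]
  have := hC w' x hx
  rw [altSum] at this
  rw [this, smul_zero]

/-- a sum over a group vanishes if all sums over the cosets of a subgroup vanish. -/
private theorem sum_coset_zero {G K M : Type*} [Group G] [Fintype G] [Group K] [Fintype K]
    [AddCommMonoid M] (ι : K →* G) (hι : Function.Injective ι) (f : G → M)
    (h : ∀ g, ∑ k, f (ι k * g) = 0) : ∑ g, f g = 0 := by
  classical
  have h1 : ∑ g, f g = ∑ g, f g⁻¹ := (Fintype.sum_equiv (Equiv.inv G) _ _ fun g => by simp)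
  rw [h1]
  have h2 : ∑ g, f g⁻¹ = ∑ q : (G ⧸ ι.range) × ι.range, f ((q.1.out * q.2)⁻¹) := by
    symm
    refine Fintype.sum_bijective (fun q : (G ⧸ ι.range) × ι.range => q.1.out * (q.2 : G)) ?_ _ _
      fun q => rfl
    have hmk : ∀ q : (G ⧸ ι.range) × ι.range,
        ((q.1.out * (q.2 : G) : G) : G ⧸ ι.range) = q.1 := by
      intro q
      rw [QuotientGroup.mk_mul_of_mem _ q.2.2, QuotientGroup.out_eq']
    constructor
    · intro q q' hqq
      have hq1 : q.1 = q'.1 := by
        rw [← hmk q, ← hmk q']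
        exact congrArg _ hqq
      refine Prod.ext hq1 (Subtype.ext ?_)
      simp only [hq1] at hqq
      exact mul_left_cancel hqq
    · intro g
      have hg : ((g : G ⧸ ι.range).out)⁻¹ * g ∈ ι.range := by
        rw [← QuotientGroup.eq, QuotientGroup.out_eq']
      exact ⟨((g : G ⧸ ι.range), ⟨_, hg⟩), by simp⟩
  rw [h2, Fintype.sum_prod_type]
  refine Finset.sum_eq_zero fun q _ => ?_
  have h3 : ∑ y : ι.range, f ((q.out * (y : G))⁻¹) = ∑ k : K, f (ι k * q.out⁻¹) := by
    symm
    refine Fintype.sum_equiv ((MonoidHom.ofInjective hι).toEquiv.trans (Equiv.inv _)) _ _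
      fun k => ?_
    simp [mul_inv_rev, MonoidHom.ofInjective_apply]
  exact h3.trans (h _)

/-- the inner alternating sum. -/
private theorem G2_eq (m : ℕ) (w : ℕ → 𝔹) (π : Fin (m + m) ≃ Fin m ⊕ Fin m) (a b : Fin m → 𝔹) :
    G2 m w π a b = ∑ τ : Perm (Fin m), (Perm.sign τ : ℤ) • ∑ σ : Perm (Fin m),
      (Perm.sign σ : ℤ) • mon (m + m) w (fun i => Sum.elim (a ∘ σ) (b ∘ τ) (π i)) := by
  rw [G2, Finset.sum_comm]
  refine Finset.sum_congr rfl fun τ _ => ?_
  rw [Finset.smul_sum]
  refine Finset.sum_congr rfl fun σ _ => ?_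
  rw [smul_smul, mul_comm]

private theorem cramer_aux (m : ℕ) (hC : Cap B (m + 1)) (w : ℕ → 𝔹)
    (π : Fin (m + m) ≃ Fin m ⊕ Fin m) (a : Fin m → 𝔹) (c : Fin m → 𝔹) (u : 𝔹)
    (ha : ∀ i, a i ∈ B) (hu : u ∈ B) :
    u * ∑ σ : Perm (Fin m), (Perm.sign σ : ℤ) •
      mon (m + m) w (fun i => Sum.elim (a ∘ σ) c (π i)) =
    ∑ j, a j * ∑ σ : Perm (Fin m), (Perm.sign σ : ℤ) •
      mon (m + m) w (fun i => Sum.elim (Function.update a j u ∘ σ) c (π i)) := by
  set p : Fin (m + 1) → Fin (m + m + 1) := Fin.cons 0 (fun i => (π.symm (Sum.inl i)).succ) with hp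
  set d : Fin (m + m + 1) → 𝔹 := Fin.cons 0 (fun s => Sum.elim 0 c (π s)) with hd
  set x : Fin (m + 1) → 𝔹 := Fin.cons u a with hx
  set w' : ℕ → 𝔹 := fun i => if i = 0 then 1 else w (i - 1) with hw'
  have hpinj : Function.Injective p := by
    intro i j hij
    refine Fin.cases (fun hij => ?_) (fun i hij => ?_) i hij
    · refine Fin.cases (fun _ => rfl) (fun j hij => ?_) j hij
      simp only [hp, Fin.cons_zero, Fin.cons_succ] at hij
      exact absurd hij.symm (Fin.succ_ne_zero _)
    · refine Fin.cases (fun hij => ?_) (fun j hij => ?_) j hij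
      · simp only [hp, Fin.cons_zero, Fin.cons_succ] at hij
        exact absurd hij (Fin.succ_ne_zero _)
      · simp only [hp, Fin.cons_succ] at hij
        have h2 := π.symm.injective (Fin.succ_injective _ hij)
        rw [Sum.inl.inj h2]
  have hxB : ∀ i, x i ∈ B := by
    intro i
    refine Fin.cases ?_ (fun i => ?_) i
    · simpa [hx] using hu
    · simpa [hx] using ha i
  have hz := alt_zero hC (m + m + 1) w' p hpinj d x hxB
  have hterm : ∀ κ : Perm (Fin (m + 1)), mon (m + m + 1) w' (Function.extend p (x ∘ κ) d) =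
      x (κ 0) * mon (m + m) w (fun s => Sum.elim (fun i => x (κ i.succ)) c (π s)) := by
    intro κ
    rw [mon_succ]
    have e0 : Function.extend p (x ∘ κ) d 0 = x (κ 0) := by
      have : p 0 = 0 := by simp [hp]
      conv_lhs => rw [← this]
      rw [hpinj.extend_apply]
      rfl
    have e1 : (fun i : Fin (m + m) => Function.extend p (x ∘ κ) d i.succ) =
        fun s => Sum.elim (fun i => x (κ i.succ)) c (π s) := by
      funext s
      rcases hs : π s with i | j
      · have h3 : s = π.symm (Sum.inl i) := by rw [← hs]; simp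
        have h4 : s.succ = p i.succ := by simp [hp, h3]
        rw [h4, hpinj.extend_apply]
        rfl
      · rw [Function.extend_apply']
        · simp [hd, hs]
        · rintro ⟨i, hi⟩
          refine Fin.cases (fun hi => ?_) (fun i hi => ?_) i hi
          · simp only [hp, Fin.cons_zero] at hi
            exact absurd hi.symm (Fin.succ_ne_zero _)
          · simp only [hp, Fin.cons_succ] at hi
            have h5 := Fin.succ_injective _ hi
            rw [← h5] at hs
            simp at hs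
    rw [e0, e1]
    simp [hw']
  simp only [hterm] at hz
  rw [← Equiv.sum_comp Equiv.Perm.decomposeFin.symm, Fintype.sum_prod_type,
    Fin.sum_univ_succ] at hz
  have h0 : ∑ e : Perm (Fin m), (Perm.sign (Equiv.Perm.decomposeFin.symm ((0 : Fin (m + 1)), e)) : ℤ) •
      (x ((Equiv.Perm.decomposeFin.symm ((0 : Fin (m + 1)), e)) 0) * mon (m + m) w (fun s =>
        Sum.elim (fun i => x ((Equiv.Perm.decomposeFin.symm ((0 : Fin (m + 1)), e)) i.succ)) c (π s))) =
      u * ∑ σ : Perm (Fin m), (Perm.sign σ : ℤ) •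
        mon (m + m) w (fun i => Sum.elim (a ∘ σ) c (π i)) := by
    rw [Finset.mul_sum]
    refine Finset.sum_congr rfl fun e _ => ?_
    rw [Equiv.Perm.decomposeFin.symm_sign, if_pos rfl, one_mul,
      Equiv.Perm.decomposeFin_symm_apply_zero, mul_smul_comm]
    have : (fun i : Fin m => x ((Equiv.Perm.decomposeFin.symm ((0 : Fin (m + 1)), e)) i.succ)) =
        a ∘ e := by
      funext i
      rw [Equiv.Perm.decomposeFin_symm_apply_succ]
      simp [hx]
    rw [this]
    simp [hx]
  have hj : ∀ j : Fin m, ∑ e : Perm (Fin m),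
      (Perm.sign (Equiv.Perm.decomposeFin.symm (j.succ, e)) : ℤ) •
      (x ((Equiv.Perm.decomposeFin.symm (j.succ, e)) 0) * mon (m + m) w (fun s =>
        Sum.elim (fun i => x ((Equiv.Perm.decomposeFin.symm (j.succ, e)) i.succ)) c (π s))) =
      - (a j * ∑ σ : Perm (Fin m), (Perm.sign σ : ℤ) •
        mon (m + m) w (fun i => Sum.elim (Function.update a j u ∘ σ) c (π i))) := by
    intro j
    rw [Finset.mul_sum, ← Finset.sum_neg_distrib]
    refine Finset.sum_congr rfl fun e _ => ?_
    rw [Equiv.Perm.decomposeFin.symm_sign, if_neg (Fin.succ_ne_zero _),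
      Equiv.Perm.decomposeFin_symm_apply_zero, mul_smul_comm]
    have : (fun i : Fin m => x ((Equiv.Perm.decomposeFin.symm (j.succ, e)) i.succ)) =
        Function.update a j u ∘ e := by
      funext i
      rw [Equiv.Perm.decomposeFin_symm_apply_succ]
      by_cases hij : e i = j
      · rw [hij, Equiv.swap_apply_right]
        simp [hx, hij]
      · rw [Equiv.swap_apply_of_ne_of_ne (Fin.succ_ne_zero _)
          (fun h => hij (Fin.succ_injective _ h))]
        simp [hx, Function.update_of_ne hij]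
    rw [this]
    simp [hx]
  rw [h0] at hz
  rw [Finset.sum_congr rfl fun j _ => hj j, Finset.sum_neg_distrib] at hz
  exact eq_of_sub_eq_zero (by rw [sub_eq_add_neg]; exact hz)

private theorem sign_comm_aux (m : ℕ) (s : Finset (Fin m)) :
    ∃ P : Perm (Fin m ⊕ Fin m), (∀ i, P (Sum.inl i) = if i ∈ s then Sum.inr i else Sum.inl i) ∧
      (∀ i, P (Sum.inr i) = if i ∈ s then Sum.inl i else Sum.inr i) ∧
      Perm.sign P = (-1) ^ s.card := by
  classical
  induction s using Finset.induction_on with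
  | empty => exact ⟨1, by simp, by simp, by simp⟩
  | insert i0 s hi0 ih =>
    obtain ⟨P, h1, h2, h3⟩ := ih
    refine ⟨Equiv.swap (Sum.inl i0) (Sum.inr i0) * P, ?_, ?_, ?_⟩
    · intro i
      rw [Perm.mul_apply, h1]
      by_cases hi : i = i0
      · subst hi
        simp [hi0]
      · by_cases his : i ∈ s
        · rw [if_pos his, if_pos (Finset.mem_insert_of_mem his)]
          exact Equiv.swap_apply_of_ne_of_ne (by simp) (by simpa using hi)
        · rw [if_neg his, if_neg (by simp [hi, his])]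
          exact Equiv.swap_apply_of_ne_of_ne (by simpa using hi) (by simp)
    · intro i
      rw [Perm.mul_apply, h2]
      by_cases hi : i = i0
      · subst hi
        simp [hi0]
      · by_cases his : i ∈ s
        · rw [if_pos his, if_pos (Finset.mem_insert_of_mem his)]
          exact Equiv.swap_apply_of_ne_of_ne (by simpa using hi) (by simp)
        · rw [if_neg his, if_neg (by simp [hi, his])]
          exact Equiv.swap_apply_of_ne_of_ne (by simp) (by simpa using hi)
    · rw [Perm.sign_mul, h3, Perm.sign_swap (by simp), Finset.card_insert_of_notMem hi0, pow_succ,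
        mul_comm]

private theorem sign_comm (m : ℕ) :
    Perm.sign (Equiv.sumComm (Fin m) (Fin m) : Perm (Fin m ⊕ Fin m)) = (-1) ^ m := by
  obtain ⟨P, h1, h2, h3⟩ := sign_comm_aux m Finset.univ
  have : (Equiv.sumComm (Fin m) (Fin m) : Perm (Fin m ⊕ Fin m)) = P := by
    ext x
    rcases x with i | i
    · rw [h1]; simp
    · rw [h2]; simp
  rw [this, h3]
  simp

/-- sums over the permutations which preserve the sides. -/
private theorem sum_sides (m : ℕ) (f : Perm (Fin m ⊕ Fin m) → 𝔹) :
    ∑ ρ : Perm (Fin m ⊕ Fin m), (if ∀ j, (ρ⁻¹ (Sum.inr j)).isRight = true then f ρ else 0) =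
      ∑ p : Perm (Fin m) × Perm (Fin m), f (Equiv.Perm.sumCongr p.1 p.2) := by
  symm
  refine Fintype.sum_of_injective (fun p => Equiv.Perm.sumCongrHom (Fin m) (Fin m) p)
    Equiv.Perm.sumCongrHom_injective _ _ ?_ ?_
  · intro ρ hρ
    rw [if_neg]
    intro hc
    apply hρ
    have : ρ ∈ (Equiv.Perm.sumCongrHom (Fin m) (Fin m)).range := by
      refine Equiv.Perm.mem_sumCongrHom_range_of_perm_mapsTo_inl ?_
      rintro _ ⟨i, rfl⟩
      rcases hx : ρ (Sum.inl i) with i' | j
      · exact ⟨i', rfl⟩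
      · exfalso
        have h1 := hc j
        rw [← hx] at h1
        simp at h1
    exact this
  · intro p
    rw [if_pos]
    · rfl
    · intro j
      rfl

/-- `1` if the variable `inr j` stands in a right slot. -/
private def rr {m : ℕ} (ρ : Perm (Fin m ⊕ Fin m)) (j : Fin m) : ℤ :=
  if (ρ⁻¹ (Sum.inr j)).isRight = true then 1 else 0

private theorem swap_aux (m : ℕ) (hC : Cap B (m + 1)) (w : ℕ → 𝔹)
    (π : Fin (m + m) ≃ Fin m ⊕ Fin m) (z : Fin m ⊕ Fin m → 𝔹) (hz : ∀ v, z v ∈ B)
    (T : Finset (Fin m)) (hT : T ≠ Finset.univ) :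
    ∑ ρ : Perm (Fin m ⊕ Fin m), (∏ j ∈ T, rr ρ j) •
      ((Perm.sign ρ : ℤ) • mon (m + m) w (fun s => z (ρ (π s)))) = 0 := by
  obtain ⟨j0, hj0⟩ : ∃ j0, j0 ∉ T := by
    by_contra h
    push Not at h
    exact hT (Finset.eq_univ_iff_forall.mpr h)
  let v : Fin (m + 1) ↪ Fin m ⊕ Fin m := ⟨Fin.cons (Sum.inr j0) Sum.inl, by
    intro i j hij
    refine Fin.cases (fun hij => ?_) (fun i hij => ?_) i hij
    · refine Fin.cases (fun _ => rfl) (fun j hij => ?_) j hij
      simp at hij
    · refine Fin.cases (fun hij => ?_) (fun j hij => ?_) j hij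
      · simp at hij
      · simp only [Fin.cons_succ, Sum.inl.injEq] at hij
        rw [hij]⟩
  refine sum_coset_zero (Equiv.Perm.viaEmbeddingHom v) (Equiv.Perm.viaEmbeddingHom_injective v) _ ?_
  intro ρ
  have hr : ∀ κ : Perm (Fin (m + 1)),
      ∏ j ∈ T, rr (Equiv.Perm.viaEmbeddingHom v κ * ρ) j = ∏ j ∈ T, rr ρ j := by
    intro κ
    refine Finset.prod_congr rfl fun j hj => ?_
    have hnot : (Sum.inr j : Fin m ⊕ Fin m) ∉ Set.range v := by
      rintro ⟨i, hi⟩
      refine Fin.cases (fun hi => ?_) (fun i hi => ?_) i hi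
      · have : (Sum.inr j0 : Fin m ⊕ Fin m) = Sum.inr j := hi
        exact hj0 (Sum.inr.inj this ▸ hj)
      · have : (Sum.inl i : Fin m ⊕ Fin m) = Sum.inr j := hi
        simp at this
    have h1 : (Equiv.Perm.viaEmbeddingHom v κ * ρ)⁻¹ (Sum.inr j) = ρ⁻¹ (Sum.inr j) := by
      rw [mul_inv_rev, Perm.mul_apply, ← map_inv, Equiv.Perm.viaEmbeddingHom_apply,
        Equiv.Perm.viaEmbedding_apply_of_notMem _ _ _ hnot]
    simp only [rr, h1]
  simp only [hr]
  rw [← Finset.smul_sum]
  have hs : ∀ κ : Perm (Fin (m + 1)),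
      Perm.sign (Equiv.Perm.viaEmbeddingHom v κ) = Perm.sign κ := by
    intro κ
    rw [Equiv.Perm.viaEmbeddingHom_apply, Equiv.Perm.viaEmbedding]
    convert Perm.sign_extendDomain κ (Equiv.ofInjective v.1 v.2)
  set p : Fin (m + 1) → Fin (m + m) := fun i => π.symm (ρ⁻¹ (v i)) with hp
  have hpinj : Function.Injective p := fun i j hij => v.injective (ρ⁻¹.injective (π.symm.injective hij))
  have hz0 := alt_zero hC (m + m) w p hpinj (fun s => z (ρ (π s))) (fun i => z (v i))
    (fun i => hz _)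
  have hterm : ∀ κ : Perm (Fin (m + 1)),
      ((Perm.sign (Equiv.Perm.viaEmbeddingHom v κ * ρ) : ℤ) •
        mon (m + m) w (fun s => z ((Equiv.Perm.viaEmbeddingHom v κ * ρ) (π s)))) =
      (Perm.sign ρ : ℤ) • ((Perm.sign κ : ℤ) • mon (m + m) w
        (Function.extend p ((fun i => z (v i)) ∘ κ) (fun s => z (ρ (π s))))) := by
    intro κ
    rw [Perm.sign_mul, hs, smul_smul]
    push_cast
    rw [mul_comm]
    congr 1
    refine mon_congr rfl ?_
    funext s
    by_cases hex : ∃ i, p i = s
    · obtain ⟨i, rfl⟩ := hex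
      rw [hpinj.extend_apply]
      have h1 : ρ (π (p i)) = v i := by simp [hp]
      rw [Function.comp_apply, h1, Equiv.Perm.viaEmbeddingHom_apply,
        Equiv.Perm.viaEmbedding_apply]
      rfl
    · rw [Function.extend_apply' _ _ _ hex, Function.comp_apply,
        Equiv.Perm.viaEmbeddingHom_apply, Equiv.Perm.viaEmbedding_apply_of_notMem]
      rintro ⟨i, hi⟩
      refine hex ⟨i, ?_⟩
      simp [hp, hi]
  rw [Finset.sum_congr rfl fun κ _ => hterm κ, ← Finset.smul_sum, hz0, smul_zero, smul_zero]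

/-- the two groups of variables can be exchanged. -/
theorem G2_swap (hB : IsIdl B) (m : ℕ) (hC : Cap B (m + 1)) (w : ℕ → 𝔹)
    (π : Fin (m + m) ≃ Fin m ⊕ Fin m) (a b : Fin m → 𝔹) (ha : ∀ i, a i ∈ B) (hb : ∀ i, b i ∈ B) :
    G2 m w π a b = G2 m w π b a := by
  set z : Fin m ⊕ Fin m → 𝔹 := Sum.elim a b with hzdef
  have hz : ∀ v, z v ∈ B := by
    rintro (i | i)
    · exact ha i
    · exact hb i
  set F : Perm (Fin m ⊕ Fin m) → 𝔹 := fun ρ =>
    (Perm.sign ρ : ℤ) • mon (m + m) w (fun s => z (ρ (π s))) with hF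
  -- inclusion and exclusion
  have h1 : ∑ ρ : Perm (Fin m ⊕ Fin m), (∏ j, (1 + -rr ρ j)) • F ρ =
      ((-1 : ℤ) ^ m) • ∑ ρ : Perm (Fin m ⊕ Fin m), (∏ j, rr ρ j) • F ρ := by
    simp only [Finset.prod_one_add, Finset.sum_smul]
    rw [Finset.sum_comm]
    rw [Finset.sum_eq_single_of_mem Finset.univ (by simp)]
    · rw [Finset.smul_sum]
      refine Finset.sum_congr rfl fun ρ _ => ?_
      rw [Finset.prod_neg, mul_smul, Finset.card_univ, Fintype.card_fin]
    · intro T _ hT
      have h2 := swap_aux m hC w π z hz T hT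
      have h3 : ∑ ρ : Perm (Fin m ⊕ Fin m), (∏ j ∈ T, -rr ρ j) • F ρ =
          ((-1 : ℤ) ^ T.card) • ∑ ρ : Perm (Fin m ⊕ Fin m), (∏ j ∈ T, rr ρ j) • F ρ := by
        rw [Finset.smul_sum]
        refine Finset.sum_congr rfl fun ρ _ => ?_
        rw [Finset.prod_neg, mul_smul]
      rw [h3, h2, smul_zero]
  have hR : ∑ ρ : Perm (Fin m ⊕ Fin m), (∏ j, rr ρ j) • F ρ = G2 m w π a b := by
    have e1 : ∀ ρ : Perm (Fin m ⊕ Fin m), (∏ j, rr ρ j) • F ρ =
        if ∀ j, (ρ⁻¹ (Sum.inr j)).isRight = true then F ρ else 0 := by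
      intro ρ
      by_cases hc : ∀ j, (ρ⁻¹ (Sum.inr j)).isRight = true
      · rw [if_pos hc, Finset.prod_eq_one (fun j _ => by simp only [rr]; rw [if_pos (hc j)]), one_smul]
      · rw [if_neg hc]
        push Not at hc
        obtain ⟨j, hj⟩ := hc
        rw [Finset.prod_eq_zero (Finset.mem_univ j) (by simp only [rr]; rw [if_neg hj]), zero_smul]
    simp only [e1]
    rw [sum_sides, Fintype.sum_prod_type, G2]
    refine Finset.sum_congr rfl fun σ _ => Finset.sum_congr rfl fun τ _ => ?_
    simp only [hF, Perm.sign_sumCongr]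
    push_cast
    congr 1
    refine mon_congr rfl ?_
    funext s
    rcases π s with i | i <;> simp [hzdef]
  have hL : ∑ ρ : Perm (Fin m ⊕ Fin m), (∏ j, (1 + -rr ρ j)) • F ρ =
      ((-1 : ℤ) ^ m) • G2 m w π b a := by
    rw [← Equiv.sum_comp (Equiv.mulRight (Equiv.sumComm (Fin m) (Fin m) : Perm (Fin m ⊕ Fin m)))]
    have e1 : ∀ ρ : Perm (Fin m ⊕ Fin m),
        (∏ j, (1 + -rr ((Equiv.mulRight (Equiv.sumComm (Fin m) (Fin m) : Perm (Fin m ⊕ Fin m))) ρ) j)) •
          F ((Equiv.mulRight (Equiv.sumComm (Fin m) (Fin m) : Perm (Fin m ⊕ Fin m))) ρ) =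
        if ∀ j, (ρ⁻¹ (Sum.inr j)).isRight = true then
          F (ρ * (Equiv.sumComm (Fin m) (Fin m) : Perm (Fin m ⊕ Fin m))) else 0 := by
      intro ρ
      rw [Equiv.coe_mulRight]
      have hrr : ∀ j, 1 + -rr (ρ * (Equiv.sumComm (Fin m) (Fin m) : Perm (Fin m ⊕ Fin m))) j =
          rr ρ j := by
        intro j
        have hinv : (ρ * (Equiv.sumComm (Fin m) (Fin m) : Perm (Fin m ⊕ Fin m)))⁻¹ (Sum.inr j) =
            Sum.swap (ρ⁻¹ (Sum.inr j)) := rfl
        simp only [rr, hinv]
        rcases ρ⁻¹ (Sum.inr j) with i | i <;> simp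
      simp only [hrr]
      by_cases hc : ∀ j, (ρ⁻¹ (Sum.inr j)).isRight = true
      · rw [if_pos hc, Finset.prod_eq_one (fun j _ => by simp only [rr]; rw [if_pos (hc j)]), one_smul]
      · rw [if_neg hc]
        push Not at hc
        obtain ⟨j, hj⟩ := hc
        rw [Finset.prod_eq_zero (Finset.mem_univ j) (by simp only [rr]; rw [if_neg hj]), zero_smul]
    simp only [e1]
    rw [sum_sides m (fun ρ => F (ρ * (Equiv.sumComm (Fin m) (Fin m) : Perm (Fin m ⊕ Fin m)))),
      Fintype.sum_prod_type, Finset.sum_comm, G2, Finset.smul_sum]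
    refine Finset.sum_congr rfl fun σ _ => ?_
    rw [Finset.smul_sum]
    refine Finset.sum_congr rfl fun τ _ => ?_
    simp only [hF, Perm.sign_mul, Perm.sign_sumCongr, sign_comm, smul_smul]
    push_cast
    have hcoef : ((Perm.sign τ : ℤ) * (Perm.sign σ : ℤ)) * (-1) ^ m =
        (-1) ^ m * ((Perm.sign σ : ℤ) * (Perm.sign τ : ℤ)) := by ring
    rw [hcoef]
    congr 1
    refine mon_congr rfl ?_
    funext s
    rw [Function.comp_apply]
    rcases π s with i | i <;> simp [hzdef]
  rw [hL, hR] at h1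
  have h4 := congrArg (fun y => ((-1 : ℤ) ^ m) • y) h1
  simp only [smul_smul, ← mul_pow] at h4
  simpa using h4.symm

/-- Cramer's rule. -/
theorem G2_cramer (hB : IsIdl B) (m : ℕ) (hC : Cap B (m + 1)) (w : ℕ → 𝔹)
    (π : Fin (m + m) ≃ Fin m ⊕ Fin m) (a b : Fin m → 𝔹) (u : 𝔹) (ha : ∀ i, a i ∈ B)
    (hb : ∀ i, b i ∈ B) (hu : u ∈ B) :
    u * G2 m w π a b = ∑ j, a j * G2 m w π (Function.update a j u) b := by
  simp only [G2_eq, Finset.mul_sum]
  rw [Finset.sum_comm]
  refine Finset.sum_congr rfl fun τ _ => ?_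
  have := cramer_aux m hC w π a (b ∘ τ) u ha hu
  rw [mul_smul_comm, this, Finset.smul_sum]
  refine Finset.sum_congr rfl fun j _ => ?_
  rw [mul_smul_comm]

end H34.Kem
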