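import Pool.Agent.H34.Kem.ZubA

namespace H34.Kem

open Finset Equiv

variable {𝔹 : Type} [Ring 𝔹] {B : AddSubgroup 𝔹}

theorem mon_succ_ZB (k : ℕ) (w : ℕ → 𝔹) (c : Fin (k + 1) → 𝔹) :
    mon (k + 1) w c = w 0 * c 0 * mon k (fun s => w (s + 1)) (fun i => c i.succ) := by
  unfold mon
  rw [List.ofFn_succ, List.prod_cons]
  simp only [Fin.val_zero, Fin.val_succ, zero_add, mul_assoc]

theorem mon_shift (k : ℕ) : ∀ (w g : ℕ → 𝔹) (c : Fin k → 𝔹), g k = 1 →
    mon k w (fun i => g i * c i) = mon k (fun s => w s * g s) c := by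
  induction k with
  | zero =>
    intro w g c hg
    unfold mon
    simp [hg]
  | succ k ih =>
    intro w g c hg
    rw [mon_succ_ZB, mon_succ_ZB]
    have h1 := ih (fun s => w (s + 1)) (fun s => g (s + 1)) (fun i => c i.succ) hg
    simp only [Fin.val_zero, Fin.val_succ] at h1 ⊢
    rw [h1]
    simp only [mul_assoc]

/-- the multiplier of the slots. -/
def slotg (m : ℕ) (π : Fin (m + m) ≃ Fin m ⊕ Fin m) (h : 𝔹) (s : ℕ) : 𝔹 :=
  if hs : s < m + m then Sum.elim (fun _ => h) (fun _ => 1) (π ⟨s, hs⟩) else 1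

theorem G2_fill (m : ℕ) (w : ℕ → 𝔹) (π : Fin (m + m) ≃ Fin m ⊕ Fin m) (a b : Fin m → 𝔹) (h : 𝔹) :
    G2 m w π (fun i => h * a i) b = G2 m (fun s => w s * slotg m π h s) π a b := by
  unfold G2
  refine Finset.sum_congr rfl fun σ _ => ?_
  refine Finset.sum_congr rfl fun τ _ => ?_
  congr 1
  have h1 : slotg m π h (m + m) = 1 := by
    unfold slotg
    rw [dif_neg (lt_irrefl _)]
  rw [← mon_shift (m + m) w (slotg m π h) _ h1]
  congr 1
  funext i
  have h2 : slotg m π h (i : ℕ) = Sum.elim (fun _ => h) (fun _ => 1) (π i) := by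
    unfold slotg
    rw [dif_pos i.2]
  rw [h2]
  cases π i with
  | inl j => rfl
  | inr j => exact (one_mul _).symm

/-- left multiplication can be moved to the other group. -/
theorem G2_shift (hB : IsIdl B) (m : ℕ) (hC : Cap B (m + 1)) (w : ℕ → 𝔹)
    (π : Fin (m + m) ≃ Fin m ⊕ Fin m) (a b : Fin m → 𝔹) (h : 𝔹) (ha : ∀ i, a i ∈ B)
    (hb : ∀ i, b i ∈ B) :
    G2 m w π (fun i => h * a i) b = G2 m w π a (fun i => h * b i) := by
  rw [G2_fill, G2_swap hB m hC _ π a b ha hb, ← G2_fill,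
    G2_swap hB m hC w π _ a (fun i => hB.left _ _ (hb i)) ha]

theorem Sim.refl (m : ℕ) (h : 𝔹) : Sim B m h h := fun _ _ _ _ _ _ => rfl

theorem Sim.symm {m : ℕ} {h h' : 𝔹} (H : Sim B m h h') : Sim B m h' h :=
  fun w π a b ha hb => (H w π a b ha hb).symm

theorem Sim.trans {m : ℕ} {h h' h'' : 𝔹} (H : Sim B m h h') (H' : Sim B m h' h'') :
    Sim B m h h'' :=
  fun w π a b ha hb => (H w π a b ha hb).trans (H' w π a b ha hb)

theorem Sim.comm (hB : IsIdl B) (m : ℕ) (hC : Cap B (m + 1)) (h h' : 𝔹) :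
    Sim B m (h * h') (h' * h) := by
  intro w π a b ha hb
  have h1 : G2 m w π (fun i => h * h' * a i) b = G2 m w π a (fun i => h' * h * b i) := by
    have e1 : (fun i => h * h' * a i) = fun i => h * (h' * a i) := by
      funext i; rw [mul_assoc]
    rw [e1, G2_shift hB m hC w π (fun i => h' * a i) b h (fun i => hB.left _ _ (ha i)) hb,
      G2_shift hB m hC w π a (fun i => h * b i) h' ha (fun i => hB.left _ _ (hb i))]
    congr 1
    funext i
    rw [mul_assoc]
  rw [h1, G2_shift hB m hC w π a b (h' * h) ha hb]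

theorem Sim.mul_right (hB : IsIdl B) {m : ℕ} {h h' : 𝔹} (H : Sim B m h h') (x : 𝔹) :
    Sim B m (h * x) (h' * x) := by
  intro w π a b ha hb
  have h1 := H w π (fun i => x * a i) b (fun i => hB.left _ _ (ha i)) hb
  simp only [← mul_assoc] at h1
  exact h1

/-- the relation `Sim` is the kernel of a homomorphism with commuting values. -/
theorem exists_D (hB : IsIdl B) (m : ℕ) (hC : Cap B (m + 1)) :
    ∃ (E : Type) (_ : Monoid E) (D : 𝔹 →* E), (∀ x y, D x * D y = D y * D x) ∧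
      ∀ x y, D x = D y ↔ Sim B m x y := by
  have hr : ∀ {h h' : 𝔹} (_ : Sim B m h h') (x : 𝔹), Sim B m (h * x) (h' * x) :=
    fun H x => H.mul_right hB x
  have hl : ∀ {h h' : 𝔹} (_ : Sim B m h h') (x : 𝔹), Sim B m (x * h) (x * h') :=
    fun H x => ((Sim.comm hB m hC x _).trans (hr H x)).trans (Sim.comm hB m hC _ x)
  let c : Con 𝔹 :=
    { r := Sim B m
      iseqv := ⟨Sim.refl m, Sim.symm, Sim.trans⟩
      mul' := fun {x y z w} h1 h2 => (hr h1 z).trans (hl h2 y) }
  refine ⟨c.Quotient, inferInstance, c.mk', ?_, ?_⟩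
  · intro x y
    rw [← map_mul, ← map_mul]
    exact (Con.eq c).mpr (Sim.comm hB m hC x y)
  · intro x y
    exact Con.eq c

end H34.Kem
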