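import Pool.Agent.H34.Kem.KemDefs

/-!
Double Capelli sums, product of pivots, and the value attached to a matrix.
Definitions only.
-/

namespace H34.Kem

open Finset Equiv

variable {𝔹 : Type} [Ring 𝔹]

/-- double alternating sum; the `m+m` slots are divided by `π`. -/
def G2 (m : ℕ) (w : ℕ → 𝔹) (π : Fin (m + m) ≃ Fin m ⊕ Fin m) (a b : Fin m → 𝔹) : 𝔹 :=
  ∑ σ : Perm (Fin m), ∑ τ : Perm (Fin m), ((Perm.sign σ : ℤ) * (Perm.sign τ : ℤ)) •
    mon (m + m) w (fun i => Sum.elim (a ∘ σ) (b ∘ τ) (π i))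

/-- left multiplications which have the same effect in all double alternating sums. -/
def Sim (B : AddSubgroup 𝔹) (m : ℕ) (h h' : 𝔹) : Prop :=
  ∀ (w : ℕ → 𝔹) (π : Fin (m + m) ≃ Fin m ⊕ Fin m) (a b : Fin m → 𝔹), (∀ i, a i ∈ B) →
    (∀ i, b i ∈ B) → G2 m w π (fun i => h * a i) b = G2 m w π (fun i => h' * a i) b

/-- product of the successive pivots. -/
noncomputable def bigdet : {k : ℕ} → Matrix (Fin k) (Fin k) 𝔹 → 𝔹
  | 0, _ => 1
  | _ + 1, M => M 0 0 * bigdet (fun i j =>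
      M i.succ j.succ - M i.succ 0 * Ring.inverse (M 0 0) * M 0 j.succ)

/-- matrices congruent to one. -/
def In1 (𝔫 : AddSubgroup 𝔹) {k : ℕ} (M : Matrix (Fin k) (Fin k) 𝔹) : Prop :=
  ∀ i j, (M - 1) i j ∈ 𝔫

/-- central elements. -/
def Cen (z : 𝔹) : Prop := ∀ y, z * y = y * z

/-- the data for the value of a matrix. -/
structure PD (R : Type) (M : ℕ) where
  m : ℕ
  w : ℕ → R
  π : Fin (m + m) ≃ Fin m ⊕ Fin m
  a : Fin m → R
  b : Fin m → R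
  u : R
  x : ℕ → R
  bl : Fin M → ℕ

/-- data in `B`. -/
structure PD.InB {M : ℕ} (P : PD 𝔹 M) (B : AddSubgroup 𝔹) : Prop where
  ha : ∀ i, P.a i ∈ B
  hb : ∀ i, P.b i ∈ B
  hu : P.u ∈ B
  hx : ∀ i, P.x i ∈ B

/-- the diagonal matrix of the letters, zero on the block zero. -/
def PD.X0 {M : ℕ} (P : PD 𝔹 M) : Matrix (Fin M) (Fin M) 𝔹 :=
  Matrix.diagonal fun i => if P.bl i = 0 then 0 else P.x (P.bl i - 1)

/-- the matrix `1 + T X`. -/
def PD.MM {M : ℕ} (P : PD 𝔹 M) (T : Matrix (Fin M) (Fin M) 𝔹) : Matrix (Fin M) (Fin M) 𝔹 :=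
  1 + T * P.X0

/-- the trace over the block zero. -/
noncomputable def PD.hval {M : ℕ} (P : PD 𝔹 M) (T : Matrix (Fin M) (Fin M) 𝔹) : 𝔹 :=
  ∑ i, ∑ j, if P.bl i = 0 then (Ring.inverse (P.MM T)) i j * T j i else 0

/-- the value of a matrix. -/
noncomputable def PD.val {M : ℕ} (P : PD 𝔹 M) (T : Matrix (Fin M) (Fin M) 𝔹) : 𝔹 :=
  P.hval T * P.u * G2 P.m P.w P.π (fun i => bigdet (P.MM T) * P.a i) P.b

/-- transport of the data. -/
def PD.map {R R' : Type} {M : ℕ} (P : PD R M) (f : R → R') : PD R' M where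
  m := P.m
  w := f ∘ P.w
  π := P.π
  a := f ∘ P.a
  b := f ∘ P.b
  u := f P.u
  x := f ∘ P.x
  bl := P.bl

open scoped TensorProduct

/-- the ideal generated in an extension of scalars. -/
def BT (C : Type) [CommRing C] (B : AddSubgroup 𝔹) : AddSubgroup (C ⊗[ℤ] 𝔹) :=
  AddSubgroup.closure {z | ∃ (c : C) (y : 𝔹), y ∈ B ∧ z = c ⊗ₜ[ℤ] y}

/-- the value in an extension of scalars. -/
noncomputable def PD.valC {M : ℕ} (P : PD 𝔹 M) (C : Type) [CommRing C]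
    (T : Matrix (Fin M) (Fin M) C) : C ⊗[ℤ] 𝔹 :=
  (P.map fun y => (1 : C) ⊗ₜ[ℤ] y).val (T.map fun c => c ⊗ₜ[ℤ] (1 : 𝔹))

end H34.Kem
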